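import Pool.Agent.H37.KB.Base

/-!
# Row A1 of MP_95be7d_PDE (90 lines)

Elementary `L²(ℝ)` calculus for real functions (`n2 f = ∫ f²`, possibly with a bounded continuous weight `W`).

* `A1_sq`, `A1_mul`: `MemLp.integrable_sq`, `MemLp.integrable_mul`.
* `A1_cs`, `A1_abs`: Cauchy-Schwarz.  Either `integral_mul_le_Lp_mul_Lq_of_nonneg` with `p = q = 2` for `|f|, |g|`, or the discriminant
  argument: `0 ≤ ∫ (s|f| - |g|)²` for all real `s`.
* `A1_add`, `A1_sub`: `(f ± g)² ≤ 2f² + 2g²` pointwise, integrate.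
* `A1_W`: `W f²` is measurable and bounded by `C f²` (use `Integrable.mono'` or `Integrable.bdd_mul`), `|∫ W f²| ≤ ∫ |W| f² ≤ C n2 f`.
* `A1_diff`: `|∫ W (f² - g²)| ≤ C ∫ |f - g| |f + g| ≤ C √(n2 (f-g)) √(n2 (f+g))` and `n2 (f+g) ≤ 2 n2 f + 2 n2 g`.
-/

open MeasureTheory Filter Topology Set
open scoped ContDiff

namespace H37KB

open H98KB

theorem A1_nonneg (f : ℝ → ℝ) : 0 ≤ n2 f :=
  integral_nonneg fun x => sq_nonneg (f x)

theorem A1_sq {f : ℝ → ℝ} (hf : MemLp f 2 volume) : Integrable (fun x => (f x) ^ 2) :=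
  hf.integrable_sq

theorem A1_mul {f g : ℝ → ℝ} (hf : MemLp f 2 volume) (hg : MemLp g 2 volume) :
    Integrable (fun x => f x * g x) :=
  hf.integrable_mul hg

theorem A1_abs {f g : ℝ → ℝ} (hf : MemLp f 2 volume) (hg : MemLp g 2 volume) :
    ∫ x, |f x * g x| ≤ √(n2 f) * √(n2 g) := by
  have i1 := A1_sq hf
  have i2 := A1_sq hg
  have i3 : Integrable (fun x => |f x * g x|) := (A1_mul hf hg).abs
  have key : ∀ s : ℝ, 0 ≤ n2 f * (s * s) + (-2 * ∫ x, |f x * g x|) * s + n2 g := by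
    intro s
    have h1 : 0 ≤ ∫ x, (s * |f x| - |g x|) ^ 2 := integral_nonneg fun x => sq_nonneg _
    have h2 : ∫ x, (s * |f x| - |g x|) ^ 2 =
        ∫ x, (s ^ 2 * (f x) ^ 2 + ((-2 * s) * |f x * g x| + (g x) ^ 2)) := by
      refine integral_congr_ae (ae_of_all _ fun x => ?_)
      have e1 := sq_abs (f x)
      have e2 := sq_abs (g x)
      have e3 := abs_mul (f x) (g x)
      simp only
      rw [e3, ← e1, ← e2]
      ring
    have j1 : Integrable (fun x => s ^ 2 * (f x) ^ 2) := i1.const_mul _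
    have j3 : Integrable (fun x => (-2 * s) * |f x * g x|) := i3.const_mul _
    have j2 : Integrable (fun x => (-2 * s) * |f x * g x| + (g x) ^ 2) := j3.add i2
    rw [h2, integral_add j1 j2, integral_add j3 i2, integral_const_mul, integral_const_mul] at h1
    unfold n2
    linarith
  have hd := discrim_le_zero key
  unfold discrim at hd
  rw [← Real.sqrt_mul (A1_nonneg f)]
  refine Real.le_sqrt_of_sq_le ?_
  linarith

theorem A1_cs {f g : ℝ → ℝ} (hf : MemLp f 2 volume) (hg : MemLp g 2 volume) :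
    |∫ x, f x * g x| ≤ √(n2 f) * √(n2 g) :=
  abs_integral_le_integral_abs.trans (A1_abs hf hg)

theorem A1_add {f g : ℝ → ℝ} (hf : MemLp f 2 volume) (hg : MemLp g 2 volume) :
    n2 (fun x => f x + g x) ≤ 2 * n2 f + 2 * n2 g := by
  have i1 := A1_sq hf
  have i2 := A1_sq hg
  have i3 : Integrable (fun x => (f x + g x) ^ 2) := A1_sq (hf.add hg)
  unfold n2
  rw [← integral_const_mul, ← integral_const_mul,
    ← integral_add (i1.const_mul _) (i2.const_mul _)]
  refine integral_mono i3 ((i1.const_mul _).add (i2.const_mul _)) fun x => ?_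
  simp only
  nlinarith [sq_nonneg (f x - g x)]

theorem A1_sub {f g : ℝ → ℝ} (hf : MemLp f 2 volume) (hg : MemLp g 2 volume) :
    n2 (fun x => f x - g x) ≤ 2 * n2 f + 2 * n2 g := by
  have i1 := A1_sq hf
  have i2 := A1_sq hg
  have i3 : Integrable (fun x => (f x - g x) ^ 2) := A1_sq (hf.sub hg)
  unfold n2
  rw [← integral_const_mul, ← integral_const_mul,
    ← integral_add (i1.const_mul _) (i2.const_mul _)]
  refine integral_mono i3 ((i1.const_mul _).add (i2.const_mul _)) fun x => ?_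
  simp only
  nlinarith [sq_nonneg (f x + g x)]

theorem A1_W {W f : ℝ → ℝ} {C : ℝ} (hW : Continuous W) (hb : ∀ x, |W x| ≤ C)
    (hf : MemLp f 2 volume) :
    Integrable (fun x => W x * (f x) ^ 2) ∧ |∫ x, W x * (f x) ^ 2| ≤ C * n2 f := by
  have i1 := A1_sq hf
  have hle : ∀ x, ‖W x * (f x) ^ 2‖ ≤ C * (f x) ^ 2 := fun x => by
    rw [Real.norm_eq_abs, abs_mul, abs_of_nonneg (sq_nonneg (f x))]
    exact mul_le_mul_of_nonneg_right (hb x) (sq_nonneg _)
  constructor
  · exact (i1.const_mul C).mono' (hW.aestronglyMeasurable.mul i1.aestronglyMeasurable)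
      (ae_of_all _ hle)
  · have h := norm_integral_le_of_norm_le (i1.const_mul C) (ae_of_all _ hle)
    rw [integral_const_mul] at h
    exact h

theorem A1_Wmul {W f g : ℝ → ℝ} {C : ℝ} (hW : Continuous W) (hb : ∀ x, |W x| ≤ C)
    (hf : MemLp f 2 volume) (hg : MemLp g 2 volume) :
    Integrable (fun x => W x * (f x * g x)) ∧
      ∫ x, |W x * (f x * g x)| ≤ C * (√(n2 f) * √(n2 g)) := by
  have i1 := A1_mul hf hg
  have hC : 0 ≤ C := (abs_nonneg (W 0)).trans (hb 0)
  have hle : ∀ x, |W x * (f x * g x)| ≤ C * |f x * g x| := fun x => by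
    rw [abs_mul]
    exact mul_le_mul_of_nonneg_right (hb x) (abs_nonneg _)
  have i2 : Integrable (fun x => W x * (f x * g x)) :=
    (i1.abs.const_mul C).mono' (hW.aestronglyMeasurable.mul i1.aestronglyMeasurable)
      (ae_of_all _ hle)
  refine ⟨i2, ?_⟩
  have h := integral_mono i2.abs (i1.abs.const_mul C) hle
  rw [integral_const_mul] at h
  exact h.trans (mul_le_mul_of_nonneg_left (A1_abs hf hg) hC)

theorem A1_diff {W f g : ℝ → ℝ} {C : ℝ} (hW : Continuous W) (hb : ∀ x, |W x| ≤ C)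
    (hf : MemLp f 2 volume) (hg : MemLp g 2 volume) :
    |(∫ x, W x * (f x) ^ 2) - ∫ x, W x * (g x) ^ 2| ≤
      C * (√(n2 (fun x => f x - g x)) * √(2 * n2 f + 2 * n2 g)) := by
  have hC : 0 ≤ C := (abs_nonneg (W 0)).trans (hb 0)
  have hs : MemLp (fun x => f x - g x) 2 volume := hf.sub hg
  have ha : MemLp (fun x => f x + g x) 2 volume := hf.add hg
  rw [← integral_sub (A1_W hW hb hf).1 (A1_W hW hb hg).1]
  have e : (fun x => W x * (f x) ^ 2 - W x * (g x) ^ 2) =
      fun x => W x * ((f x - g x) * (f x + g x)) := by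
    funext x
    ring
  rw [e]
  refine abs_integral_le_integral_abs.trans ((A1_Wmul hW hb hs ha).2.trans ?_)
  refine mul_le_mul_of_nonneg_left ?_ hC
  refine mul_le_mul_of_nonneg_left ?_ (Real.sqrt_nonneg _)
  exact Real.sqrt_le_sqrt (A1_add hf hg)

end H37KB
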