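import Pool.Agent.H37.KB.A1

/-!
# Row A2 of MP_95be7d_PDE (110 lines)

Facts on `CL2 T w` (`w ∈ C([0,T]; L²)`).

* `A2_pair`: `|∫ w(t)θ - ∫ w(t₀)θ| ≤ √(n2 (w t - w t₀)) √(n2 θ) → 0` (`A1_cs`).
* `A2_W`: `A1_diff` with `f = w t`, `g = w t₀`, and `n2 (w t) ≤ 2 n2 (w t₀) + 2 n2 (w t - w t₀)` stays bounded as `t → t₀`.
* `A2_n2`: the case `W = 1` (`n2 f = ∫ 1 * f²`).   `A2_bdd`: continuous on the compact `Icc 0 T` (if `T < 0` trivial).
* `A2_add`, `A2_sub`: `A1_add`, `A1_sub`.  `A2_mono`: `nhdsWithin_mono`.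
-/

open MeasureTheory Filter Topology Set
open scoped ContDiff

namespace H37KB

open H98KB

theorem A2_pair {T : ℝ} {w : ℝ → ℝ → ℝ} {θ : ℝ → ℝ} (hw : CL2 T w) (hθ : MemLp θ 2 volume) :
    ContinuousOn (fun t => ∫ x, w t x * θ x) (Icc 0 T) := by
  intro t₀ ht₀
  have h0 := hw.cont t₀ ht₀
  have h1 : Tendsto (fun t => √(n2 (fun x => w t x - w t₀ x)) * √(n2 θ)) (𝓝[Icc 0 T] t₀) (𝓝 0) := by
    have := (Real.continuous_sqrt.tendsto 0).comp h0
    rw [Real.sqrt_zero] at this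
    simpa using this.mul_const (√(n2 θ))
  rw [ContinuousWithinAt, tendsto_iff_norm_sub_tendsto_zero]
  refine squeeze_zero' (Eventually.of_forall fun t => norm_nonneg _) ?_ h1
  filter_upwards [self_mem_nhdsWithin] with t ht
  rw [Real.norm_eq_abs, ← integral_sub (A1_mul (hw.mem t ht) hθ) (A1_mul (hw.mem t₀ ht₀) hθ)]
  have e : (fun x => w t x * θ x - w t₀ x * θ x) = fun x => (w t x - w t₀ x) * θ x := by
    funext x
    ring
  rw [e]
  exact A1_cs ((hw.mem t ht).sub (hw.mem t₀ ht₀)) hθ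

theorem A2_W {T C : ℝ} {w : ℝ → ℝ → ℝ} {W : ℝ → ℝ} (hw : CL2 T w) (hW : Continuous W)
    (hb : ∀ x, |W x| ≤ C) : ContinuousOn (fun t => ∫ x, W x * (w t x) ^ 2) (Icc 0 T) := by
  intro t₀ ht₀
  have hC : 0 ≤ C := (abs_nonneg (W 0)).trans (hb 0)
  have h0 := hw.cont t₀ ht₀
  have h1 : Tendsto (fun t => C * (√(n2 (fun x => w t x - w t₀ x)) *
      √(2 * (2 * n2 (fun x => w t x - w t₀ x) + 2 * n2 (w t₀)) + 2 * n2 (w t₀))))
      (𝓝[Icc 0 T] t₀) (𝓝 0) := by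
    have a1 := (Real.continuous_sqrt.tendsto 0).comp h0
    rw [Real.sqrt_zero] at a1
    have a2 : Tendsto (fun t => √(2 * (2 * n2 (fun x => w t x - w t₀ x) + 2 * n2 (w t₀)) +
        2 * n2 (w t₀))) (𝓝[Icc 0 T] t₀) (𝓝 (√(2 * (2 * 0 + 2 * n2 (w t₀)) + 2 * n2 (w t₀)))) :=
      (Real.continuous_sqrt.tendsto _).comp
        ((((h0.const_mul 2).add_const _).const_mul 2).add_const _)
    have a3 := (a1.mul a2).const_mul C
    simpa using a3
  rw [ContinuousWithinAt, tendsto_iff_norm_sub_tendsto_zero]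
  refine squeeze_zero' (Eventually.of_forall fun t => norm_nonneg _) ?_ h1
  filter_upwards [self_mem_nhdsWithin] with t ht
  rw [Real.norm_eq_abs]
  refine (A1_diff hW hb (hw.mem t ht) (hw.mem t₀ ht₀)).trans ?_
  refine mul_le_mul_of_nonneg_left ?_ hC
  refine mul_le_mul_of_nonneg_left ?_ (Real.sqrt_nonneg _)
  refine Real.sqrt_le_sqrt ?_
  have h2 : n2 (w t) ≤ 2 * n2 (fun x => w t x - w t₀ x) + 2 * n2 (w t₀) := by
    have h3 := A1_add (f := fun x => w t x - w t₀ x) (g := w t₀)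
      ((hw.mem t ht).sub (hw.mem t₀ ht₀)) (hw.mem t₀ ht₀)
    simpa using h3
  linarith

theorem A2_n2 {T : ℝ} {w : ℝ → ℝ → ℝ} (hw : CL2 T w) :
    ContinuousOn (fun t => n2 (w t)) (Icc 0 T) := by
  have h := A2_W (C := 1) (W := fun _ => (1 : ℝ)) hw continuous_const (fun x => by simp)
  simpa [n2] using h

theorem A2_bdd {T : ℝ} {w : ℝ → ℝ → ℝ} (hw : CL2 T w) :
    ∃ M, 0 ≤ M ∧ ∀ t ∈ Icc 0 T, n2 (w t) ≤ M := by
  obtain ⟨M, hM⟩ := (isCompact_Icc (a := (0:ℝ)) (b := T)).bddAbove_image (A2_n2 hw)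
  refine ⟨max M 0, le_max_right _ _, fun t ht => ?_⟩
  exact (hM (mem_image_of_mem _ ht)).trans (le_max_left _ _)

theorem A2_add {T : ℝ} {w v : ℝ → ℝ → ℝ} (hw : CL2 T w) (hv : CL2 T v) :
    CL2 T (fun t x => w t x + v t x) := by
  refine ⟨fun t ht => (hw.mem t ht).add (hv.mem t ht), fun t₀ ht₀ => ?_⟩
  have h1 : Tendsto (fun t => 2 * n2 (fun x => w t x - w t₀ x) + 2 * n2 (fun x => v t x - v t₀ x))
      (𝓝[Icc 0 T] t₀) (𝓝 0) := by
    have := ((hw.cont t₀ ht₀).const_mul 2).add ((hv.cont t₀ ht₀).const_mul 2)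
    simpa using this
  refine squeeze_zero' (Eventually.of_forall fun t => A1_nonneg _) ?_ h1
  filter_upwards [self_mem_nhdsWithin] with t ht
  have e : (fun x => w t x + v t x - (w t₀ x + v t₀ x)) =
      fun x => (w t x - w t₀ x) + (v t x - v t₀ x) := by
    funext x
    ring
  rw [e]
  exact A1_add ((hw.mem t ht).sub (hw.mem t₀ ht₀)) ((hv.mem t ht).sub (hv.mem t₀ ht₀))

theorem A2_sub {T : ℝ} {w v : ℝ → ℝ → ℝ} (hw : CL2 T w) (hv : CL2 T v) :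
    CL2 T (fun t x => w t x - v t x) := by
  refine ⟨fun t ht => (hw.mem t ht).sub (hv.mem t ht), fun t₀ ht₀ => ?_⟩
  have h1 : Tendsto (fun t => 2 * n2 (fun x => w t x - w t₀ x) + 2 * n2 (fun x => v t x - v t₀ x))
      (𝓝[Icc 0 T] t₀) (𝓝 0) := by
    have := ((hw.cont t₀ ht₀).const_mul 2).add ((hv.cont t₀ ht₀).const_mul 2)
    simpa using this
  refine squeeze_zero' (Eventually.of_forall fun t => A1_nonneg _) ?_ h1
  filter_upwards [self_mem_nhdsWithin] with t ht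
  have e : (fun x => w t x - v t x - (w t₀ x - v t₀ x)) =
      fun x => (w t x - w t₀ x) - (v t x - v t₀ x) := by
    funext x
    ring
  rw [e]
  exact A1_sub ((hw.mem t ht).sub (hw.mem t₀ ht₀)) ((hv.mem t ht).sub (hv.mem t₀ ht₀))

theorem A2_mono {T T' : ℝ} {w : ℝ → ℝ → ℝ} (hw : CL2 T w) (h : T' ≤ T) : CL2 T' w := by
  have hs : Icc 0 T' ⊆ Icc 0 T := Icc_subset_Icc_right h
  exact ⟨fun t ht => hw.mem t (hs ht), fun t₀ ht₀ =>
    (hw.cont t₀ (hs ht₀)).mono_left (nhdsWithin_mono _ hs)⟩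

end H37KB
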