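import Pool.Agent.H37.KB.A2

/-!
# Row B1 of MP_95be7d_PDE (130 lines)

Mollification `mol ρ v x = ∫ ρ(x-z) v(z) dz` with `ρ` smooth of compact support and `v ∈ L²`, pointwise facts.

`mol ρ v` is the convolution `v ⋆[lsmul or mul] ρ` of Mathlib (`convolution` is `∫ v t * ρ (x - t)`, commute the factors):
`HasCompactSupport.contDiff_convolution_right`, `HasCompactSupport.hasDerivAt_convolution_right` with `v` locally integrable
(`MemLp.locallyIntegrable`).

* `B1_test`: `iteratedDeriv j ρ` is smooth with compact support (`HasCompactSupport.iteratedFDeriv` or induction with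
  `HasCompactSupport.deriv`), continuous with compact support is in `L²` (`Continuous.memLp_of_hasCompactSupport`).
* `B1_shift`: `z ↦ ρ(x - z)`; derivatives: `iteratedDeriv_comp_const_sub` or induction.
* `B1_iter`: induction on `j` from `B1_deriv`.
* `B1_cs`: `A1_cs` for `z ↦ ρ(x-z)`; `n2 (fun z => ρ (x - z)) = n2 ρ` (`integral_sub_left_eq_self`).
* `B1_joint`: `|mol ρ (w t) x - mol ρ (w s) y| ≤ √(n2 ρ) √(n2 (w t - w s)) + |mol ρ (w s) x - mol ρ (w s) y|`, the last term tends to `0` as `x → y`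
  since `mol ρ (w s)` is continuous.
-/

open MeasureTheory Filter Topology Set
open scoped ContDiff

namespace H37KB

open H98KB

theorem B1_cd {ρ : ℝ → ℝ} (h : ContDiff ℝ ∞ ρ) : ContDiff ℝ 1 ρ := by
  have := contDiff_infty.1 h 1
  exact_mod_cast this

theorem B1_conv (ρ v : ℝ → ℝ) :
    mol ρ v = MeasureTheory.convolution v ρ (ContinuousLinearMap.mul ℝ ℝ) volume := by
  funext x
  unfold mol MeasureTheory.convolution
  refine integral_congr_ae (Filter.Eventually.of_forall fun z => ?_)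
  simp only [ContinuousLinearMap.mul_apply']
  ring

theorem B1_loc {v : ℝ → ℝ} (hv : MemLp v 2 volume) : LocallyIntegrable v volume :=
  hv.locallyIntegrable (by norm_num)

theorem B1_test {ρ : ℝ → ℝ} (h : ContDiff ℝ ∞ ρ) (hc : HasCompactSupport ρ) (j : ℕ) :
    ContDiff ℝ ∞ (iteratedDeriv j ρ) ∧ HasCompactSupport (iteratedDeriv j ρ) ∧
      MemLp (iteratedDeriv j ρ) 2 volume := by
  have key : ContDiff ℝ ∞ (iteratedDeriv j ρ) ∧ HasCompactSupport (iteratedDeriv j ρ) := by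
    induction j with
    | zero =>
      rw [iteratedDeriv_zero]
      exact ⟨h, hc⟩
    | succ j ih =>
      rw [iteratedDeriv_succ]
      exact ⟨(contDiff_infty_iff_deriv.1 ih.1).2, ih.2.deriv⟩
  exact ⟨key.1, key.2, key.1.continuous.memLp_of_hasCompactSupport key.2⟩

theorem B1_shift {ρ : ℝ → ℝ} (h : ContDiff ℝ ∞ ρ) (hc : HasCompactSupport ρ) (x : ℝ) :
    ContDiff ℝ ∞ (fun z => ρ (x - z)) ∧ HasCompactSupport (fun z => ρ (x - z)) ∧
      MemLp (fun z => ρ (x - z)) 2 volume ∧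
      (∀ (j : ℕ) (z : ℝ), iteratedDeriv j (fun z => ρ (x - z)) z =
        (-1) ^ j * iteratedDeriv j ρ (x - z)) := by
  have h1 : ContDiff ℝ ∞ (fun z : ℝ => x - z) := contDiff_const.sub contDiff_fun_id
  have h2 : ContDiff ℝ ∞ (fun z => ρ (x - z)) := h.comp h1
  have h3 : HasCompactSupport (fun z => ρ (x - z)) :=
    hc.comp_homeomorph (Homeomorph.subLeft x)
  refine ⟨h2, h3, h2.continuous.memLp_of_hasCompactSupport h3, ?_⟩
  intro j z
  have h4 := congrFun (iteratedDeriv_comp_const_sub j ρ x) z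
  rw [h4, smul_eq_mul]

theorem B1_smooth {ρ v : ℝ → ℝ} (h : ContDiff ℝ ∞ ρ) (hc : HasCompactSupport ρ)
    (hv : MemLp v 2 volume) : ContDiff ℝ ∞ (mol ρ v) := by
  rw [B1_conv]
  exact hc.contDiff_convolution_right _ (B1_loc hv) h

theorem B1_deriv {ρ v : ℝ → ℝ} (h : ContDiff ℝ ∞ ρ) (hc : HasCompactSupport ρ)
    (hv : MemLp v 2 volume) : deriv (mol ρ v) = mol (deriv ρ) v := by
  rw [B1_conv, B1_conv]
  funext x
  exact (HasCompactSupport.hasDerivAt_convolution_right (ContinuousLinearMap.mul ℝ ℝ)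
    (B1_loc hv) hc (B1_cd h) x).deriv

theorem B1_iter {ρ v : ℝ → ℝ} (h : ContDiff ℝ ∞ ρ) (hc : HasCompactSupport ρ)
    (hv : MemLp v 2 volume) (j : ℕ) : iteratedDeriv j (mol ρ v) = mol (iteratedDeriv j ρ) v := by
  induction j with
  | zero => rw [iteratedDeriv_zero, iteratedDeriv_zero]
  | succ j ih =>
    rw [iteratedDeriv_succ, ih, B1_deriv (B1_test h hc j).1 (B1_test h hc j).2.1 hv,
      ← iteratedDeriv_succ]

theorem B1_sub {ρ v w : ℝ → ℝ} (h : ContDiff ℝ ∞ ρ) (hc : HasCompactSupport ρ)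
    (hv : MemLp v 2 volume) (hw : MemLp w 2 volume) (x : ℝ) :
    mol ρ (fun z => v z - w z) x = mol ρ v x - mol ρ w x := by
  unfold mol
  have h1 := (B1_shift h hc x).2.2.1
  rw [← integral_sub (A1_mul h1 hv) (A1_mul h1 hw)]
  refine integral_congr_ae (Filter.Eventually.of_forall fun z => ?_)
  simp only
  ring

theorem B1_cs {ρ v : ℝ → ℝ} (h : ContDiff ℝ ∞ ρ) (hc : HasCompactSupport ρ)
    (hv : MemLp v 2 volume) (x : ℝ) : |mol ρ v x| ≤ √(n2 ρ) * √(n2 v) := by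
  have h1 := A1_cs (B1_shift h hc x).2.2.1 hv
  have h2 : n2 (fun z => ρ (x - z)) = n2 ρ := by
    unfold n2
    exact integral_sub_left_eq_self (fun y => (ρ y) ^ 2) volume x
  rw [h2] at h1
  exact h1

theorem B1_joint {T : ℝ} {w : ℝ → ℝ → ℝ} {ρ : ℝ → ℝ} (hw : CL2 T w) (h : ContDiff ℝ ∞ ρ)
    (hc : HasCompactSupport ρ) :
    ContinuousOn (fun q : ℝ × ℝ => mol ρ (w q.1) q.2) (Icc 0 T ×ˢ univ) := by
  rintro ⟨t₀, x₀⟩ ⟨ht₀, -⟩
  have ht₀' : t₀ ∈ Icc 0 T := ht₀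
  rw [ContinuousWithinAt, tendsto_iff_norm_sub_tendsto_zero]
  have hfst : Tendsto (fun q : ℝ × ℝ => q.1) (𝓝[Icc 0 T ×ˢ univ] (t₀, x₀)) (𝓝[Icc 0 T] t₀) := by
    rw [nhdsWithin_prod_eq]
    exact tendsto_fst
  have hsnd : Tendsto (fun q : ℝ × ℝ => q.2) (𝓝[Icc 0 T ×ˢ univ] (t₀, x₀)) (𝓝 x₀) := by
    rw [nhdsWithin_prod_eq, nhdsWithin_univ]
    exact tendsto_snd
  have l1 : Tendsto (fun q : ℝ × ℝ => √(n2 ρ) * √(n2 (fun x => w q.1 x - w t₀ x)))
      (𝓝[Icc 0 T ×ˢ univ] (t₀, x₀)) (𝓝 0) := by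
    have h1 := (hw.cont t₀ ht₀').comp hfst
    have h2 := (Real.continuous_sqrt.tendsto 0).comp h1
    rw [Real.sqrt_zero] at h2
    have h3 := h2.const_mul (√(n2 ρ))
    rw [mul_zero] at h3
    exact h3
  have l2 : Tendsto (fun q : ℝ × ℝ => |mol ρ (w t₀) q.2 - mol ρ (w t₀) x₀|)
      (𝓝[Icc 0 T ×ˢ univ] (t₀, x₀)) (𝓝 0) := by
    have h1 := ((B1_smooth h hc (hw.mem t₀ ht₀')).continuous.tendsto x₀).comp hsnd
    have h2 := tendsto_iff_norm_sub_tendsto_zero.1 h1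
    exact h2
  have l3 := l1.add l2
  rw [add_zero] at l3
  refine squeeze_zero' (Filter.Eventually.of_forall fun q => norm_nonneg _) ?_ l3
  filter_upwards [self_mem_nhdsWithin] with q hq
  have hq1 : q.1 ∈ Icc 0 T := hq.1
  have e : mol ρ (w q.1) q.2 - mol ρ (w t₀) x₀ =
      mol ρ (fun z => w q.1 z - w t₀ z) q.2 + (mol ρ (w t₀) q.2 - mol ρ (w t₀) x₀) := by
    rw [B1_sub h hc (hw.mem _ hq1) (hw.mem _ ht₀')]
    ring
  rw [Real.norm_eq_abs]
  change |mol ρ (w q.1) q.2 - mol ρ (w t₀) x₀| ≤ _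
  rw [e]
  refine (abs_add_le _ _).trans (add_le_add ?_ le_rfl)
  exact B1_cs h hc ((hw.mem _ hq1).sub (hw.mem _ ht₀')) q.2

end H37KB
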