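import Pool.Agent.H37.KB.B1

/-!
# Row B2 of MP_95be7d_PDE (140 lines)

Mollification and (weighted) `L²` norms.

General fact (Cauchy-Schwarz for the measure `|ρ(x-z)| dz`): `(mol ρ v x)² ≤ (∫ |ρ|) ∫ |ρ(x-z)| v(z)² dz`, for `v ∈ L²`, `ρ` continuous with compact
support (write `|ρ v| = √|ρ| · √|ρ| |v|` and use `A1_cs`, both factors being in `L²`).
Then for `W ≥ 0` continuous, by Tonelli `∫ W(x) ∫ |ρ(x-z)| v(z)² dz dx = ∫ v(z)² (∫ W(x)|ρ(x-z)| dx) dz`; for `W = 1` the inner integral is `∫ |ρ|`, for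
`Mol r ρ` and `W x ≤ κ W z` when `|x-z| ≤ r` it is at most `κ W z` (`ρ(x-z) = 0` unless `|x-z| ≤ r`).
Measurability of `mol ρ v`: it is continuous (for smooth `ρ` by `B1_smooth`; for continuous compactly supported `ρ`:
`HasCompactSupport.continuous_convolution_right`).
`B2_avg` is the pointwise bound with `∫ |ρ| = ∫ ρ = 1`.   `B2_CL2`: `mol ρ (w t) - mol ρ (w t₀) = mol ρ (w t - w t₀)` (`B1_sub`) and `B2_L2`.
`B2_cpt`: `ρ = 0` off `[-r,r]`: `HasCompactSupport.intro isCompact_Icc`.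
-/

open MeasureTheory Filter Topology Set
open scoped ContDiff

namespace H37KB

open H98KB

theorem B2_cm {ρ : ℝ → ℝ} (h : Continuous ρ) (hc : HasCompactSupport ρ) (x : ℝ) :
    Continuous (fun z => ρ (x - z)) ∧ HasCompactSupport (fun z => ρ (x - z)) := by
  refine ⟨h.comp (continuous_const.sub continuous_id), ?_⟩
  exact hc.comp_homeomorph (Homeomorph.subLeft x)

theorem B2_gen {ρ v : ℝ → ℝ} (h : Continuous ρ) (hc : HasCompactSupport ρ)
    (hv : MemLp v 2 volume) (x : ℝ) :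
    Integrable (fun z => |ρ (x - z)| * (v z) ^ 2) ∧
      (mol ρ v x) ^ 2 ≤ (∫ z, |ρ z|) * ∫ z, |ρ (x - z)| * (v z) ^ 2 := by
  obtain ⟨h1, h2⟩ := B2_cm h hc x
  obtain ⟨C, hC⟩ := h1.bounded_above_of_compact_support h2
  have hC' : ∀ z, |(fun z => |ρ (x - z)|) z| ≤ C := fun z => by
    have := hC z
    rw [Real.norm_eq_abs] at this
    simpa using this
  have hi := (A1_W (W := fun z => |ρ (x - z)|) h1.abs hC' hv).1
  refine ⟨hi, ?_⟩
  have hf : MemLp (fun z => √|ρ (x - z)|) 2 volume := by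
    refine (Real.continuous_sqrt.comp h1.abs).memLp_of_hasCompactSupport ?_
    refine h2.mono ?_
    intro z hz hz0
    apply hz
    have hz1 : ρ (x - z) = 0 := hz0
    change √|ρ (x - z)| = 0
    rw [hz1, abs_zero, Real.sqrt_zero]
  have hg : MemLp (fun z => √|ρ (x - z)| * |v z|) 2 volume := by
    rw [memLp_two_iff_integrable_sq]
    · refine hi.congr (ae_of_all _ fun z => ?_)
      change |ρ (x - z)| * (v z) ^ 2 = (√|ρ (x - z)| * |v z|) ^ 2
      rw [mul_pow, Real.sq_sqrt (abs_nonneg _), sq_abs]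
    · exact ((Real.continuous_sqrt.comp h1.abs).aestronglyMeasurable).mul hv.1.norm
  have h3 := A1_cs hf hg
  have e1 : n2 (fun z => √|ρ (x - z)|) = ∫ z, |ρ z| := by
    unfold n2
    rw [← integral_sub_left_eq_self (fun z => |ρ z|) volume x]
    refine integral_congr_ae (ae_of_all _ fun z => ?_)
    change (√|ρ (x - z)|) ^ 2 = |ρ (x - z)|
    rw [Real.sq_sqrt (abs_nonneg _)]
  have e2 : n2 (fun z => √|ρ (x - z)| * |v z|) = ∫ z, |ρ (x - z)| * (v z) ^ 2 := by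
    unfold n2
    refine integral_congr_ae (ae_of_all _ fun z => ?_)
    change (√|ρ (x - z)| * |v z|) ^ 2 = |ρ (x - z)| * (v z) ^ 2
    rw [mul_pow, Real.sq_sqrt (abs_nonneg _), sq_abs]
  have e3 : ∫ z, √|ρ (x - z)| * (√|ρ (x - z)| * |v z|) = ∫ z, |ρ (x - z) * v z| := by
    refine integral_congr_ae (ae_of_all _ fun z => ?_)
    change √|ρ (x - z)| * (√|ρ (x - z)| * |v z|) = |ρ (x - z) * v z|
    rw [← mul_assoc, Real.mul_self_sqrt (abs_nonneg _), abs_mul]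
  rw [e1, e2, e3] at h3
  have h4 : |mol ρ v x| ≤ ∫ z, |ρ (x - z) * v z| := by
    unfold mol
    exact abs_integral_le_integral_abs
  have h5 : |mol ρ v x| ≤ √(∫ z, |ρ z|) * √(∫ z, |ρ (x - z)| * (v z) ^ 2) :=
    h4.trans ((le_abs_self _).trans h3)
  have p1 : 0 ≤ ∫ z, |ρ z| := integral_nonneg fun z => abs_nonneg _
  have p2 : 0 ≤ ∫ z, |ρ (x - z)| * (v z) ^ 2 :=
    integral_nonneg fun z => mul_nonneg (abs_nonneg _) (sq_nonneg _)
  calc (mol ρ v x) ^ 2 = |mol ρ v x| ^ 2 := (sq_abs _).symm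
    _ ≤ (√(∫ z, |ρ z|) * √(∫ z, |ρ (x - z)| * (v z) ^ 2)) ^ 2 :=
        pow_le_pow_left₀ (abs_nonneg _) h5 2
    _ = (∫ z, |ρ z|) * ∫ z, |ρ (x - z)| * (v z) ^ 2 := by
        rw [mul_pow, Real.sq_sqrt p1, Real.sq_sqrt p2]

theorem B2_T {κ : ℝ} {ρ W v : ℝ → ℝ} (h : Continuous ρ) (hc : HasCompactSupport ρ) (h0 : ∀ x, 0 ≤ ρ x)
    (hW : Continuous W) (hW0 : ∀ x, 0 ≤ W x) (hκ : ∀ x z, ρ (x - z) ≠ 0 → W x ≤ κ * W z)
    (hv : MemLp v 2 volume) (hi : Integrable (fun x => W x * (v x) ^ 2)) :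
    Integrable (fun x => W x * ∫ z, ρ (x - z) * (v z) ^ 2) ∧
      ∫ x, W x * (∫ z, ρ (x - z) * (v z) ^ 2) ≤ κ * (∫ x, ρ x) * ∫ x, W x * (v x) ^ 2 := by
  have hF : AEStronglyMeasurable (fun p : ℝ × ℝ => W p.1 * (ρ (p.1 - p.2) * (v p.2) ^ 2))
      (volume.prod volume) := by
    have m1 : AEStronglyMeasurable (fun p : ℝ × ℝ => W p.1) (volume.prod volume) :=
      (hW.comp continuous_fst).aestronglyMeasurable
    have m2 : AEStronglyMeasurable (fun p : ℝ × ℝ => ρ (p.1 - p.2)) (volume.prod volume) :=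
      (h.comp (continuous_fst.sub continuous_snd)).aestronglyMeasurable
    have m3 : AEStronglyMeasurable (fun p : ℝ × ℝ => (v p.2) ^ 2) (volume.prod volume) :=
      (hv.1.comp_snd).pow 2
    exact m1.mul (m2.mul m3)
  have hin : ∀ z, Integrable (fun x => W x * ρ (x - z)) := fun z => by
    have c1 : Continuous (fun x => W x * ρ (x - z)) :=
      hW.mul (h.comp (continuous_id.sub continuous_const))
    have c2 : HasCompactSupport (fun x => ρ (x - z)) := hc.comp_homeomorph (Homeomorph.subRight z)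
    exact c1.integrable_of_hasCompactSupport (HasCompactSupport.mul_left c2)
  have hρi : Integrable ρ := h.integrable_of_hasCompactSupport hc
  have hle : ∀ z, ∫ x, W x * ρ (x - z) ≤ κ * W z * ∫ x, ρ x := fun z => by
    have e : ∫ x, ρ x = ∫ x, ρ (x - z) := (integral_sub_right_eq_self ρ z).symm
    rw [e, ← integral_const_mul]
    refine integral_mono (hin z) ((hρi.comp_sub_right z).const_mul _) fun x => ?_
    change W x * ρ (x - z) ≤ κ * W z * ρ (x - z)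
    by_cases hz : ρ (x - z) = 0
    · rw [hz, mul_zero, mul_zero]
    · exact mul_le_mul_of_nonneg_right (hκ x z hz) (h0 _)
  have hpos : ∀ z, 0 ≤ ∫ x, W x * ρ (x - z) := fun z =>
    integral_nonneg fun x => mul_nonneg (hW0 x) (h0 _)
  have e4 : ∀ z, ∫ x, W x * (ρ (x - z) * (v z) ^ 2) = (∫ x, W x * ρ (x - z)) * (v z) ^ 2 := fun z => by
    rw [← integral_mul_const]
    refine integral_congr_ae (ae_of_all _ fun x => ?_)
    change W x * (ρ (x - z) * (v z) ^ 2) = W x * ρ (x - z) * (v z) ^ 2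
    ring
  have hI : Integrable (fun p : ℝ × ℝ => W p.1 * (ρ (p.1 - p.2) * (v p.2) ^ 2))
      (volume.prod volume) := by
    rw [integrable_prod_iff' hF]
    constructor
    · refine ae_of_all _ fun z => ?_
      refine ((hin z).mul_const ((v z) ^ 2)).congr (ae_of_all _ fun x => ?_)
      change W x * ρ (x - z) * (v z) ^ 2 = W x * (ρ (x - z) * (v z) ^ 2)
      ring
    · refine (hi.const_mul (κ * ∫ x, ρ x)).mono' hF.norm.prod_swap.integral_prod_right' ?_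
      refine ae_of_all _ fun z => ?_
      have e5 : ∫ x, ‖W x * (ρ (x - z) * (v z) ^ 2)‖ = (∫ x, W x * ρ (x - z)) * (v z) ^ 2 := by
        rw [← e4]
        refine integral_congr_ae (ae_of_all _ fun x => ?_)
        exact Real.norm_of_nonneg (mul_nonneg (hW0 x) (mul_nonneg (h0 _) (sq_nonneg _)))
      change ‖∫ x, ‖W x * (ρ (x - z) * (v z) ^ 2)‖‖ ≤ κ * (∫ x, ρ x) * (W z * (v z) ^ 2)
      rw [e5, Real.norm_of_nonneg (mul_nonneg (hpos z) (sq_nonneg _))]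
      calc (∫ x, W x * ρ (x - z)) * (v z) ^ 2 ≤ (κ * W z * ∫ x, ρ x) * (v z) ^ 2 :=
            mul_le_mul_of_nonneg_right (hle z) (sq_nonneg _)
        _ = κ * (∫ x, ρ x) * (W z * (v z) ^ 2) := by ring
  have e6 : (fun x => W x * ∫ z, ρ (x - z) * (v z) ^ 2) =
      fun x => ∫ z, W x * (ρ (x - z) * (v z) ^ 2) := by
    funext x
    rw [integral_const_mul]
  rw [e6]
  refine ⟨hI.integral_prod_left, ?_⟩
  have e7 : ∫ x, ∫ z, W x * (ρ (x - z) * (v z) ^ 2) = ∫ z, ∫ x, W x * (ρ (x - z) * (v z) ^ 2) :=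
    integral_integral_swap hI
  rw [e7, ← integral_const_mul]
  refine integral_mono hI.integral_prod_right (hi.const_mul _) fun z => ?_
  change ∫ x, W x * (ρ (x - z) * (v z) ^ 2) ≤ κ * (∫ x, ρ x) * (W z * (v z) ^ 2)
  rw [e4]
  calc (∫ x, W x * ρ (x - z)) * (v z) ^ 2 ≤ (κ * W z * ∫ x, ρ x) * (v z) ^ 2 :=
        mul_le_mul_of_nonneg_right (hle z) (sq_nonneg _)
    _ = κ * (∫ x, ρ x) * (W z * (v z) ^ 2) := by ring

theorem B2_cpt {r : ℝ} {ρ : ℝ → ℝ} (hρ : Mol r ρ) : HasCompactSupport ρ := by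
  refine HasCompactSupport.intro (K := Icc (-r) r) isCompact_Icc fun x hx => ?_
  refine hρ.supp x ?_
  by_contra hcon
  push Not at hcon
  exact hx ⟨(abs_lt.1 hcon).1.le, (abs_lt.1 hcon).2.le⟩

theorem B2_L2 {ρ v : ℝ → ℝ} (h : ContDiff ℝ ∞ ρ) (hc : HasCompactSupport ρ)
    (hv : MemLp v 2 volume) :
    MemLp (mol ρ v) 2 volume ∧ n2 (mol ρ v) ≤ (∫ x, |ρ x|) ^ 2 * n2 v := by
  have hk := B2_T (κ := 1) (ρ := fun x => |ρ x|) (W := fun _ => 1) (v := v) h.continuous.abs hc.abs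
    (fun x => abs_nonneg _) continuous_const (fun _ => zero_le_one) (fun _ _ _ => by norm_num) hv
    (by simpa using A1_sq hv)
  have hsm := (B1_smooth h hc hv).continuous
  have h1 : Integrable (fun x => (∫ x, |ρ x|) * ∫ z, |ρ (x - z)| * (v z) ^ 2) := by
    have := hk.1
    simp only [one_mul] at this
    exact this.const_mul _
  have hint : Integrable (fun x => (mol ρ v x) ^ 2) := by
    refine h1.mono' (hsm.pow 2).aestronglyMeasurable (ae_of_all _ fun x => ?_)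
    rw [Real.norm_of_nonneg (sq_nonneg _)]
    exact (B2_gen h.continuous hc hv x).2
  refine ⟨(memLp_two_iff_integrable_sq hsm.aestronglyMeasurable).2 hint, ?_⟩
  unfold n2
  calc ∫ x, (mol ρ v x) ^ 2 ≤ ∫ x, (∫ x, |ρ x|) * ∫ z, |ρ (x - z)| * (v z) ^ 2 :=
        integral_mono hint h1 fun x => (B2_gen h.continuous hc hv x).2
    _ = (∫ x, |ρ x|) * ∫ x, ∫ z, |ρ (x - z)| * (v z) ^ 2 := integral_const_mul _ _
    _ ≤ (∫ x, |ρ x|) * ((∫ x, |ρ x|) * ∫ x, (v x) ^ 2) := by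
        refine mul_le_mul_of_nonneg_left ?_ (integral_nonneg fun x => abs_nonneg _)
        have := hk.2
        simp only [one_mul] at this
        exact this
    _ = (∫ x, |ρ x|) ^ 2 * ∫ x, (v x) ^ 2 := by ring

theorem B2_CL2 {T : ℝ} {w : ℝ → ℝ → ℝ} {ρ : ℝ → ℝ} (hw : CL2 T w) (h : ContDiff ℝ ∞ ρ)
    (hc : HasCompactSupport ρ) : CL2 T (fun t => mol ρ (w t)) := by
  refine ⟨fun t ht => (B2_L2 h hc (hw.mem t ht)).1, fun t₀ ht₀ => ?_⟩
  have h1 : Tendsto (fun t => (∫ x, |ρ x|) ^ 2 * n2 (fun x => w t x - w t₀ x)) (𝓝[Icc 0 T] t₀)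
      (𝓝 0) := by
    have := (hw.cont t₀ ht₀).const_mul ((∫ x, |ρ x|) ^ 2)
    rwa [mul_zero] at this
  refine squeeze_zero' (Eventually.of_forall fun t => A1_nonneg _) ?_ h1
  filter_upwards [self_mem_nhdsWithin] with t ht
  have e : (fun x => mol ρ (w t) x - mol ρ (w t₀) x) = mol ρ (fun z => w t z - w t₀ z) := by
    funext x
    exact (B1_sub h hc (hw.mem t ht) (hw.mem t₀ ht₀) x).symm
  rw [e]
  exact (B2_L2 h hc ((hw.mem t ht).sub (hw.mem t₀ ht₀))).2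

theorem B2_avg {r : ℝ} {ρ v : ℝ → ℝ} (hρ : Mol r ρ) (hv : MemLp v 2 volume) (x : ℝ) :
    Integrable (fun z => ρ (x - z) * (v z) ^ 2) ∧
      (mol ρ v x) ^ 2 ≤ ∫ z, ρ (x - z) * (v z) ^ 2 := by
  have h1 := B2_gen hρ.smooth.continuous (B2_cpt hρ) hv x
  have e : ∀ y, |ρ y| = ρ y := fun y => abs_of_nonneg (hρ.nonneg y)
  simp only [e, hρ.int, one_mul] at h1
  exact h1

theorem B2_tonelli {r κ : ℝ} {ρ W v : ℝ → ℝ} (hρ : Mol r ρ) (hW : Continuous W)
    (hW0 : ∀ x, 0 ≤ W x) (hκ : ∀ x z, |x - z| ≤ r → W x ≤ κ * W z) (hv : MemLp v 2 volume)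
    (hi : Integrable (fun x => W x * (v x) ^ 2)) :
    Integrable (fun x => W x * ∫ z, ρ (x - z) * (v z) ^ 2) ∧
      ∫ x, W x * (∫ z, ρ (x - z) * (v z) ^ 2) ≤ κ * ∫ x, W x * (v x) ^ 2 := by
  have h1 := B2_T (κ := κ) hρ.smooth.continuous (B2_cpt hρ) hρ.nonneg hW hW0 (fun x z hz => by
    refine hκ x z ?_
    by_contra hcon
    push Not at hcon
    exact hz (hρ.supp _ hcon.le)) hv hi
  rw [hρ.int, mul_one] at h1
  exact h1

theorem B2_W {r κ : ℝ} {ρ W v : ℝ → ℝ} (hρ : Mol r ρ) (hW : Continuous W)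
    (hW0 : ∀ x, 0 ≤ W x) (hκ : ∀ x z, |x - z| ≤ r → W x ≤ κ * W z) (hv : MemLp v 2 volume)
    (hi : Integrable (fun x => W x * (v x) ^ 2)) :
    Integrable (fun x => W x * (mol ρ v x) ^ 2) ∧
      ∫ x, W x * (mol ρ v x) ^ 2 ≤ κ * ∫ x, W x * (v x) ^ 2 := by
  obtain ⟨h1, h2⟩ := B2_tonelli hρ hW hW0 hκ hv hi
  have hsm := (B1_smooth hρ.smooth (B2_cpt hρ) hv).continuous
  have hle : ∀ x, W x * (mol ρ v x) ^ 2 ≤ W x * ∫ z, ρ (x - z) * (v z) ^ 2 := fun x =>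
    mul_le_mul_of_nonneg_left (B2_avg hρ hv x).2 (hW0 x)
  have hint : Integrable (fun x => W x * (mol ρ v x) ^ 2) := by
    refine h1.mono' (hW.mul (hsm.pow 2)).aestronglyMeasurable (ae_of_all _ fun x => ?_)
    rw [Real.norm_of_nonneg (mul_nonneg (hW0 x) (sq_nonneg _))]
    exact hle x
  exact ⟨hint, (integral_mono hint h1 hle).trans h2⟩

end H37KB
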