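import Pool.Agent.H37.KB.B2

/-!
# Row B3 of MP_95be7d_PDE (120 lines)

Mollifiers exist and approximate in `L²`.

* `B3_exists`: `ContDiffBump (0:ℝ)` with `rIn = r/2`, `rOut = r`, and `ρ = φ.normed volume` (`ContDiffBump.integral_normed`, `nonneg_normed`,
  `contDiff_normed`; support = `ball 0 r`).
* `B3_tendsto`: given `η > 0` take `h` continuous with compact support and `n2 (v - h) ≤ η`
  (`MemLp.exists_hasCompactSupport_integral_rpow_sub_le` or `MemLp.exists_hasCompactSupport_eLpNorm_sub_le`).  Then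
  `mol ρ v - v = mol ρ (v-h) - (v-h) + (mol ρ h - h)`, the first two have `n2 ≤ η` (`B2_L2`, `∫|ρ| = 1`).  `h` is uniformly continuous: for `r` small
  `|mol ρ h x - h x| = |∫ ρ(x-z)(h z - h x) dz| ≤ η'` for all `x`, and it vanishes for `x` outside a fixed bounded interval
  `[-R-1,R+1]` (`supp h ⊆ [-R,R]`), so `n2 (mol ρ h - h) ≤ η'^2 (2R+2)`.
-/

open MeasureTheory Filter Topology Set
open scoped ContDiff

namespace H37KB

open H98KB


theorem B3_exists (r : ℝ) (hr : 0 < r) : ∃ ρ, Mol r ρ := by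
  let φ : ContDiffBump (0 : ℝ) :=
    { rIn := r / 2, rOut := r, rIn_pos := by linarith, rIn_lt_rOut := by linarith }
  refine ⟨φ.normed volume, ?_, ?_, ?_, ?_⟩
  · exact φ.contDiff_normed
  · exact fun x => φ.nonneg_normed x
  · intro x hx
    by_contra h
    have h1 : x ∈ Function.support (φ.normed volume) := h
    rw [φ.support_normed_eq, Metric.mem_ball, Real.dist_eq, sub_zero] at h1
    have h2 : |x| < r := h1
    linarith
  · exact φ.integral_normed

private lemma B3_aux_rho {r : ℝ} {ρ : ℝ → ℝ} (hρ : Mol r ρ) (x : ℝ) :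
    Integrable (fun z => ρ (x - z)) ∧ ∫ z, ρ (x - z) = 1 := by
  have hc : HasCompactSupport ρ := B2_cpt hρ
  have hi : Integrable ρ := hρ.smooth.continuous.integrable_of_hasCompactSupport hc
  refine ⟨hi.comp_sub_left x, ?_⟩
  rw [integral_sub_left_eq_self (fun z => ρ z) volume x]
  exact hρ.int

private lemma B3_aux_pt {r η : ℝ} {ρ h : ℝ → ℝ} (hρ : Mol r ρ) (hh : Continuous h)
    (hr : ∀ x z, |x - z| < r → |h z - h x| ≤ η) (x : ℝ) : |mol ρ h x - h x| ≤ η := by
  obtain ⟨h1, h2⟩ := B3_aux_rho hρ x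
  have hc : HasCompactSupport ρ := B2_cpt hρ
  obtain ⟨C, hC⟩ : ∃ C, ∀ z, |z - x| ≤ r → |h z| ≤ C := by
    obtain ⟨C, hC⟩ := (isCompact_closedBall x r).exists_bound_of_continuousOn hh.continuousOn
    exact ⟨C, fun z hz => hC z (by rwa [Metric.mem_closedBall, Real.dist_eq])⟩
  have hcs : HasCompactSupport (fun z => ρ (x - z) * h z) := by
    apply HasCompactSupport.intro (isCompact_closedBall x r)
    intro z hz
    rw [Metric.mem_closedBall, Real.dist_eq, not_le] at hz
    rw [hρ.supp (x - z) (by rw [abs_sub_comm]; exact hz.le), zero_mul]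
  have h3 : Integrable (fun z => ρ (x - z) * h z) := by
    apply Continuous.integrable_of_hasCompactSupport _ hcs
    exact (hρ.smooth.continuous.comp (by fun_prop)).mul hh
  have h4 : mol ρ h x - h x = ∫ z, ρ (x - z) * (h z - h x) := by
    have h5 : (fun z => ρ (x - z) * (h z - h x)) =
        fun z => ρ (x - z) * h z - ρ (x - z) * h x := by
      funext z
      ring
    rw [h5, integral_sub h3 (h1.mul_const _), integral_mul_const, h2, one_mul]
    rfl
  rw [h4]
  calc |∫ z, ρ (x - z) * (h z - h x)| ≤ ∫ z, |ρ (x - z) * (h z - h x)| :=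
        abs_integral_le_integral_abs
    _ ≤ ∫ z, ρ (x - z) * η := by
        apply integral_mono_of_nonneg
        · exact Eventually.of_forall fun z => abs_nonneg _
        · exact h1.mul_const _
        · refine Eventually.of_forall fun z => ?_
          show |ρ (x - z) * (h z - h x)| ≤ ρ (x - z) * η
          rcases lt_or_ge |x - z| r with hz | hz
          · rw [abs_mul, abs_of_nonneg (hρ.nonneg _)]
            exact mul_le_mul_of_nonneg_left (hr x z hz) (hρ.nonneg _)
          · rw [hρ.supp _ hz, zero_mul, zero_mul, abs_zero]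
    _ = η := by rw [integral_mul_const, h2, one_mul]

private lemma B3_aux_n2 {r η R : ℝ} {ρ h : ℝ → ℝ} (hρ : Mol r ρ) (hh : Continuous h)
    (hr1 : r ≤ 1) (hR : 0 ≤ R) (hsupp : ∀ x, R < |x| → h x = 0)
    (hr : ∀ x z, |x - z| < r → |h z - h x| ≤ η) :
    n2 (fun x => mol ρ h x - h x) ≤ η ^ 2 * (2 * (R + 1)) := by
  have hpt : ∀ x, (mol ρ h x - h x) ^ 2 ≤ (Icc (-(R + 1)) (R + 1)).indicator (fun _ => η ^ 2) x := by
    intro x
    by_cases hx : x ∈ Icc (-(R + 1)) (R + 1)
    · rw [indicator_of_mem hx]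
      have h1 := B3_aux_pt hρ hh hr x
      have h2 : 0 ≤ η := (abs_nonneg _).trans h1
      exact sq_le_sq' (by linarith [(abs_le.1 h1).1]) (abs_le.1 h1).2
    · rw [indicator_of_notMem hx]
      have hx' : R + 1 < |x| := by
        by_contra hne
        rw [not_lt, abs_le] at hne
        exact hx ⟨hne.1, hne.2⟩
      have h1 : h x = 0 := hsupp x (by linarith)
      have h2 : mol ρ h x = 0 := by
        unfold mol
        apply integral_eq_zero_of_ae
        refine Eventually.of_forall fun z => ?_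
        show ρ (x - z) * h z = 0
        rcases lt_or_ge |x - z| r with hz | hz
        · have h3 : |x| ≤ |x - z| + |z| := by
            have := abs_add_le (x - z) z
            rwa [sub_add_cancel] at this
          rw [hsupp z (by linarith), mul_zero]
        · rw [hρ.supp _ hz, zero_mul]
      rw [h1, h2]
      norm_num
  unfold n2
  calc ∫ x, (mol ρ h x - h x) ^ 2
      ≤ ∫ x, (Icc (-(R + 1)) (R + 1)).indicator (fun _ => η ^ 2) x := by
        apply integral_mono_of_nonneg
        · exact Eventually.of_forall fun x => sq_nonneg _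
        · rw [integrable_indicator_iff measurableSet_Icc]
          exact integrableOn_const (by simp)
        · exact Eventually.of_forall hpt
    _ = η ^ 2 * (2 * (R + 1)) := by
        rw [integral_indicator measurableSet_Icc, setIntegral_const, Measure.real,
          Real.volume_Icc, ENNReal.toReal_ofReal (by linarith), smul_eq_mul]
        ring

theorem B3_tendsto {v : ℝ → ℝ} (hv : MemLp v 2 volume) {ρ : ℕ → ℝ → ℝ}
    (hρ : ∀ n : ℕ, Mol (1 / ((n : ℝ) + 1)) (ρ n)) :
    Tendsto (fun n => n2 (fun x => mol (ρ n) v x - v x)) atTop (𝓝 0) := by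
  rw [Metric.tendsto_atTop]
  intro ε hε
  -- approximation
  obtain ⟨h, hhs, hhn, hhc, hhm⟩ := MemLp.exists_hasCompactSupport_integral_rpow_sub_le
    (p := 2) (by norm_num) (f := v) (μ := volume)
    (by rw [show ENNReal.ofReal 2 = 2 by simp]; exact hv) (ε := ε / 16) (by positivity)
  rw [show ENNReal.ofReal 2 = 2 by simp] at hhm
  have hvh : n2 (fun x => v x - h x) ≤ ε / 16 := by
    unfold n2
    refine le_trans (le_of_eq ?_) hhn
    congr 1
    funext x
    rw [Real.rpow_two, Real.norm_eq_abs, sq_abs]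
  have hvhm : MemLp (fun x => v x - h x) 2 volume := hv.sub hhm
  -- the compact support of `h`
  obtain ⟨R, hR0, hR⟩ : ∃ R : ℝ, 0 ≤ R ∧ ∀ x, R < |x| → h x = 0 := by
    obtain ⟨R, hR⟩ := hhs.isCompact.isBounded.exists_norm_le
    refine ⟨max R 0, le_max_right _ _, ?_⟩
    intro x hx
    by_contra hne
    have h1 : x ∈ tsupport h := subset_tsupport h hne
    have h2 := hR x h1
    rw [Real.norm_eq_abs] at h2
    exact absurd (h2.trans (le_max_left _ _)) (not_le.2 hx)
  -- uniform continuity
  have huc : UniformContinuous h := hhs.uniformContinuous_of_continuous hhc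
  obtain ⟨η, hη0, hη⟩ : ∃ η : ℝ, 0 < η ∧ η ^ 2 * (2 * (R + 1)) ≤ ε / 16 := by
    refine ⟨√(ε / 16 / (2 * (R + 1))), by positivity, ?_⟩
    rw [Real.sq_sqrt (by positivity), div_mul_cancel₀ _ (by positivity)]
  obtain ⟨δ, hδ, hδh⟩ := Metric.uniformContinuous_iff.1 huc η hη0
  obtain ⟨N, hN⟩ := exists_nat_one_div_lt hδ
  refine ⟨N, ?_⟩
  intro n hn
  have hρn := hρ n
  have hr1 : 1 / ((n : ℝ) + 1) ≤ 1 := by
    rw [div_le_one (by positivity)]
    have : (0 : ℝ) ≤ n := Nat.cast_nonneg n
    linarith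
  have hr2 : 1 / ((n : ℝ) + 1) ≤ δ := by
    refine le_trans ?_ hN.le
    apply one_div_le_one_div_of_le (by positivity)
    have : (N : ℝ) ≤ n := by exact_mod_cast hn
    linarith
  have hB := B3_aux_n2 hρn hhc hr1 hR0 hR (η := η) (by
    intro x z hxz
    have h1 := hδh (a := z) (b := x) (by
      rw [Real.dist_eq, abs_sub_comm]
      exact lt_of_lt_of_le hxz hr2)
    rw [Real.dist_eq] at h1
    exact h1.le)
  have hcρ : HasCompactSupport (ρ n) := B2_cpt hρn
  obtain ⟨hAm, hA⟩ := B2_L2 hρn.smooth hcρ hvhm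
  have hint : ∫ x, |ρ n x| = 1 := by
    rw [← hρn.int]
    congr 1
    funext x
    exact abs_of_nonneg (hρn.nonneg x)
  rw [hint, one_pow, one_mul] at hA
  obtain ⟨hHm, _⟩ := B2_L2 hρn.smooth hcρ hhm
  have hDm : MemLp (fun x => mol (ρ n) h x - h x) 2 volume := hHm.sub hhm
  have h1 := A1_sub hDm hvhm
  have h2 := A1_add hAm (hDm.sub hvhm)
  have e1 : (fun x => mol (ρ n) v x - v x) = fun x =>
      mol (ρ n) (fun x => v x - h x) x +
        ((fun x => mol (ρ n) h x - h x) - fun x => v x - h x) x := by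
    funext x
    rw [B1_sub hρn.smooth hcρ hv hhm x]
    show _ = _ + ((mol (ρ n) h x - h x) - (v x - h x))
    ring
  have e2 : n2 (fun x => mol (ρ n) v x - v x) < ε := by
    rw [e1]
    have h3 : n2 ((fun x => mol (ρ n) h x - h x) - fun x => v x - h x) =
        n2 (fun x => (mol (ρ n) h x - h x) - (v x - h x)) := rfl
    rw [h3] at h2
    linarith
  rw [Real.dist_eq, sub_zero, abs_of_nonneg (A1_nonneg _)]
  exact e2

end H37KB
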