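import Pool.Agent.H98.KB.IfA

/-!
# PDE part of MP_95be7d (Theorem A of the note, `H98KB.ThmA`): definitions

Weak solutions `w ∈ C([0,T]; L²)` of `w_t = -w_xxx + w_xx - G_x`, slowly varying weights, mollification, families.
-/

open MeasureTheory Filter Topology Set
open scoped ContDiff

noncomputable section

namespace H37KB

open H98KB

/-- `∫ f²` -/
def n2 (f : ℝ → ℝ) : ℝ := ∫ x, (f x) ^ 2

/-- square of the `H¹` norm of `f` with weak derivative `p` -/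
def nh (f p : ℝ → ℝ) : ℝ := n2 f + n2 p

/-- `w ∈ C([0,T]; L²)` -/
structure CL2 (T : ℝ) (w : ℝ → ℝ → ℝ) : Prop where
  mem : ∀ t ∈ Icc 0 T, MemLp (w t) 2 volume
  cont : ∀ t₀ ∈ Icc 0 T, Tendsto (fun t => n2 (fun x => w t x - w t₀ x)) (𝓝[Icc 0 T] t₀) (𝓝 0)

/-- `w_t = -w_xxx + w_xx - G_x` weakly on `[0,T]` -/
def Lin (T : ℝ) (w G : ℝ → ℝ → ℝ) : Prop :=
  ∀ θ : ℝ → ℝ, ContDiff ℝ ∞ θ → HasCompactSupport θ → ∀ t ∈ Icc 0 T,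
    (∫ x, w t x * θ x) - (∫ x, w 0 x * θ x) =
      ∫ τ in (0:ℝ)..t, ∫ x, (w τ x * (iteratedDeriv 2 θ x + iteratedDeriv 3 θ x)
        + G τ x * deriv θ x)

/-- positive bounded slowly varying weights, with `W' ≥ -W/4` -/
structure Wt (c : ℝ) (W : ℝ → ℝ) : Prop where
  smooth : ContDiff ℝ ∞ W
  pos : ∀ x, 0 < W x
  bdd : ∃ C, ∀ x, W x ≤ C
  low : ∀ x, -(1 / 4) * W x ≤ deriv W x
  b1 : ∀ x, |deriv W x| ≤ c * W x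
  b2 : ∀ x, |iteratedDeriv 2 W x| ≤ c * W x
  b3 : ∀ x, |iteratedDeriv 3 W x| ≤ c * W x

/-- mollifier supported in `[-r,r]` -/
structure Mol (r : ℝ) (ρ : ℝ → ℝ) : Prop where
  smooth : ContDiff ℝ ∞ ρ
  nonneg : ∀ x, 0 ≤ ρ x
  supp : ∀ x, r ≤ |x| → ρ x = 0
  int : ∫ x, ρ x = 1

/-- `(ρ * v)(x) = ∫ ρ(x-z) v(z) dz` -/
def mol (ρ v : ℝ → ℝ) (x : ℝ) : ℝ := ∫ z, ρ (x - z) * v z

/-- families of smooth functions, uniformly bounded by `bd (α/2) (1/16)` with all derivatives, Lipschitz in `a`, continuous in `t` -/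
structure Fam (a₁ T α : ℝ) (F : ℝ → ℝ → ℝ → ℝ) : Prop where
  smooth : ∀ a ∈ Icc (-a₁) a₁, ∀ t ∈ Icc 0 T, ContDiff ℝ ∞ (F a t)
  bound : ∀ j : ℕ, ∃ C : ℝ, ∀ a ∈ Icc (-a₁) a₁, ∀ t ∈ Icc 0 T, ∀ x,
    |iteratedDeriv j (F a t) x| ≤ C * bd (α / 2) (1 / 16) x
  cont : ∀ j : ℕ, ∀ a ∈ Icc (-a₁) a₁, ∀ x, ContinuousOn (fun t => iteratedDeriv j (F a t) x) (Icc 0 T)
  lip : ∀ j : ℕ, ∃ C : ℝ, ∀ a ∈ Icc (-a₁) a₁, ∀ a' ∈ Icc (-a₁) a₁, ∀ t ∈ Icc 0 T, ∀ x,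
    |iteratedDeriv j (F a t) x - iteratedDeriv j (F a' t) x| ≤ C * |a - a'| * bd (α / 2) (1 / 16) x

/-- weighted bounds `∫ wt g_a(t)² ≤ K`, `∫ wt (g_a(t)-g_{a'}(t))² ≤ K |a-a'|²`, with integrability -/
structure WB (a₁ T α K : ℝ) (g : ℝ → ℝ → ℝ → ℝ) : Prop where
  int : ∀ a ∈ Icc (-a₁) a₁, ∀ t ∈ Icc 0 T, Integrable (fun x => wt α x * (g a t x) ^ 2)
  le : ∀ a ∈ Icc (-a₁) a₁, ∀ t ∈ Icc 0 T, ∫ x, wt α x * (g a t x) ^ 2 ≤ K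
  int' : ∀ a ∈ Icc (-a₁) a₁, ∀ a' ∈ Icc (-a₁) a₁, ∀ t ∈ Icc 0 T,
    Integrable (fun x => wt α x * (g a t x - g a' t x) ^ 2)
  le' : ∀ a ∈ Icc (-a₁) a₁, ∀ a' ∈ Icc (-a₁) a₁, ∀ t ∈ Icc 0 T,
    ∫ x, wt α x * (g a t x - g a' t x) ^ 2 ≤ K * |a - a'| ^ 2

end H37KB

end
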