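import Pool.Agent.H37.KB.B2

/-!
# Row C1 of MP_95be7d_PDE (130 lines)

`H¹` functions (`IsH1 f p`: `f, p ∈ L²`, `f y - f x = ∫_x^y p`).

Mathlib has absolutely continuous functions: `IntervalIntegrable.absolutelyContinuousOnInterval_intervalIntegral`,
`AbsolutelyContinuousOnInterval.integral_deriv_eq_sub`, `.fun_mul`, `.ae_differentiableAt`, and
`IntervalIntegrable.ae_hasDerivAt_integral` (see Mathlib/MeasureTheory/Integral/IntervalIntegral/AbsolutelyContinuousFun.lean).

* `C1_loc`: `p ∈ L²` is locally integrable.  `C1_cont`: `f x = f 0 + ∫_0^x p` (`intervalIntegral.continuous_primitive`).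
* `C1_ac`, `C1_ae`: `f = const + primitive of p` on `uIcc a b`; `HasDerivAt f (p x) x` for a.e. `x` (on each `[-N,N]`, then countable union).
* `C1_mul`: `f g` is absolutely continuous with `deriv (f g) = p g + f q` a.e.; FTC.
* `C1_pow`: `IsH1 (fl k ∘ f) (f^k p)` where `fl k u = u^(k+1)/(k+1)`: `f` is bounded (`C1_bdd`), so both are in `L²`; `f^(k+1)` is absolutely continuous by
  induction, derivative a.e. `(k+1) f^k p`.
* `C1_hold`: `|f x - f y| ≤ ∫_x^y |p| ≤ √|x-y| √(n2 p)` (Cauchy-Schwarz with the indicator of the interval, `A1_cs`).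
* `C1_bdd`: e.g. from `C1_sup`: `f(y)² - f(x)² = ∫_x^y 2 f p ≤ ∫ 2|f p| ≤ n2 f + n2 p`, so `f(y)² ≤ f(x)² + n2 f + n2 p` for all `x`; since `f² ` is integrable
  `f(x)²` takes values `≤ ε` for every `ε > 0` (otherwise `∫ f² = ∞`), so `f(y)² ≤ n2 f + n2 p`.
-/

open MeasureTheory Filter Topology Set
open scoped ContDiff

namespace H37KB

open H98KB

theorem C1_loc {f p : ℝ → ℝ} (h : IsH1 f p) : LocallyIntegrable p volume :=
  h.2.1.locallyIntegrable (by norm_num)

theorem C1_int {f p : ℝ → ℝ} (h : IsH1 f p) (a b : ℝ) : IntervalIntegrable p volume a b :=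
  intervalIntegrable_iff.mpr
    ((LocallyIntegrable.integrableOn_isCompact (C1_loc h) isCompact_uIcc).mono_set
      uIoc_subset_uIcc)

theorem C1_eq {f p : ℝ → ℝ} (h : IsH1 f p) (a : ℝ) : f = fun x => f a + ∫ z in a..x, p z := by
  funext x
  rw [← h.2.2 a x]
  ring

theorem C1_cont {f p : ℝ → ℝ} (h : IsH1 f p) : Continuous f := by
  rw [C1_eq h 0]
  exact continuous_const.add (intervalIntegral.continuous_primitive (C1_int h) 0)

theorem C1_ac {f p : ℝ → ℝ} (h : IsH1 f p) (a b : ℝ) : AbsolutelyContinuousOnInterval f a b := by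
  rw [C1_eq h a]
  have h1 : AbsolutelyContinuousOnInterval (fun _ : ℝ => f a) a b :=
    ((LipschitzWith.const (f a)).lipschitzOnWith (s := uIcc a b)).absolutelyContinuousOnInterval
  exact h1.add ((C1_int h a b).absolutelyContinuousOnInterval_intervalIntegral left_mem_uIcc)

theorem C1_ae {f p : ℝ → ℝ} (h : IsH1 f p) : ∀ᵐ x : ℝ, HasDerivAt f (p x) x := by
  filter_upwards [LocallyIntegrable.ae_hasDerivAt_integral (C1_loc h)] with x hx
  have h1 := (hx 0).const_add (f 0)
  rwa [← C1_eq h 0] at h1

theorem C1_mul {f p g q : ℝ → ℝ} (hf : IsH1 f p) (hg : IsH1 g q) (x y : ℝ) :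
    f y * g y - f x * g x = ∫ z in x..y, (p z * g z + f z * q z) := by
  have h1 := ((C1_ac hf x y).mul (C1_ac hg x y)).integral_deriv_eq_sub
  simp only [Pi.mul_apply] at h1
  rw [← h1]
  apply intervalIntegral.integral_congr_ae
  filter_upwards [C1_ae hf, C1_ae hg] with z h2 h3 _
  exact (h2.mul h3).deriv

theorem C1_sup {f p : ℝ → ℝ} (h : IsH1 f p) (x : ℝ) : (f x) ^ 2 ≤ n2 f + n2 p := by
  have hff := A1_sq h.1
  have hpp := A1_sq h.2.1
  have hfp := A1_mul h.1 h.2.1
  have key : ∀ y : ℝ, (f x) ^ 2 ≤ (f y) ^ 2 + (n2 f + n2 p) := by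
    intro y
    have h1 := C1_mul h h y x
    have h2 : ∫ z in y..x, (p z * f z + f z * p z) ≤ n2 f + n2 p := by
      calc ∫ z in y..x, (p z * f z + f z * p z)
          ≤ ‖∫ z in y..x, (p z * f z + f z * p z)‖ := Real.le_norm_self _
        _ ≤ ∫ z in uIoc y x, ‖p z * f z + f z * p z‖ :=
            intervalIntegral.norm_integral_le_integral_norm_uIoc
        _ ≤ ∫ z, ‖p z * f z + f z * p z‖ := by
            apply setIntegral_le_integral
            · refine Integrable.norm ?_
              have h3 := hfp.add hfp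
              refine h3.congr (Filter.Eventually.of_forall fun z => ?_)
              simp only [Pi.add_apply]
              ring
            · exact Filter.Eventually.of_forall fun z => norm_nonneg _
        _ ≤ ∫ z, ((f z) ^ 2 + (p z) ^ 2) := by
            apply integral_mono_of_nonneg
            · exact Filter.Eventually.of_forall fun z => norm_nonneg _
            · exact hff.add hpp
            · refine Filter.Eventually.of_forall fun z => ?_
              simp only []
              rw [Real.norm_eq_abs, abs_le]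
              constructor <;> nlinarith [sq_nonneg (f z + p z), sq_nonneg (f z - p z)]
        _ = n2 f + n2 p := integral_add hff hpp
    nlinarith [h1, h2]
  by_contra hcon
  push Not at hcon
  have h1 : Integrable (fun _ : ℝ => (f x) ^ 2 - (n2 f + n2 p)) := by
    refine hff.mono' aestronglyMeasurable_const (Filter.Eventually.of_forall fun y => ?_)
    rw [Real.norm_of_nonneg (by linarith)]
    linarith [key y]
  rw [integrable_const_iff] at h1
  rcases h1 with h1 | h1
  · linarith
  · exact absurd h1.measure_univ_lt_top (by simp)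

theorem C1_hold {f p : ℝ → ℝ} (h : IsH1 f p) (x y : ℝ) : (f x - f y) ^ 2 ≤ n2 p * |x - y| := by
  have h1 : f x - f y = ∫ z, p z * (uIoc y x).indicator (fun _ => (1 : ℝ)) z ∨
      f x - f y = -∫ z, p z * (uIoc y x).indicator (fun _ => (1 : ℝ)) z := by
    have h2 : ∫ z, p z * (uIoc y x).indicator (fun _ => (1 : ℝ)) z = ∫ z in uIoc y x, p z := by
      rw [← integral_indicator measurableSet_uIoc]
      congr 1
      funext z
      by_cases hz : z ∈ uIoc y x
      · rw [indicator_of_mem hz, indicator_of_mem hz, mul_one]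
      · rw [indicator_of_notMem hz, indicator_of_notMem hz, mul_zero]
    rw [h.2.2 y x, h2]
    rcases le_total y x with hxy | hxy
    · left
      rw [intervalIntegral.integral_of_le hxy, uIoc_of_le hxy]
    · right
      rw [intervalIntegral.integral_of_ge hxy, uIoc_of_ge hxy]
  have hg : MemLp ((uIoc y x).indicator (fun _ => (1 : ℝ))) 2 volume := by
    refine memLp_indicator_const 2 measurableSet_uIoc 1 (Or.inr ?_)
    rw [Real.volume_uIoc]
    exact ENNReal.ofReal_ne_top
  have hng : n2 ((uIoc y x).indicator (fun _ => (1 : ℝ))) = |x - y| := by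
    have h3 : (fun z => ((uIoc y x).indicator (fun _ => (1 : ℝ)) z) ^ 2) =
        (uIoc y x).indicator (fun _ => (1 : ℝ)) := by
      funext z
      by_cases hz : z ∈ uIoc y x
      · rw [indicator_of_mem hz, one_pow]
      · rw [indicator_of_notMem hz]
        norm_num
    rw [n2, h3, integral_indicator measurableSet_uIoc, setIntegral_const, smul_eq_mul, mul_one,
      Measure.real, Real.volume_uIoc, ENNReal.toReal_ofReal (abs_nonneg _)]
  have hcs := A1_cs h.2.1 hg
  rw [hng] at hcs
  have h4 : |f x - f y| ≤ √(n2 p) * √|x - y| := by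
    rcases h1 with h1 | h1
    · rw [h1]; exact hcs
    · rw [h1, abs_neg]; exact hcs
  calc (f x - f y) ^ 2 = |f x - f y| ^ 2 := (sq_abs _).symm
    _ ≤ (√(n2 p) * √|x - y|) ^ 2 := by gcongr
    _ = n2 p * |x - y| := by
      rw [mul_pow, Real.sq_sqrt (A1_nonneg p), Real.sq_sqrt (abs_nonneg _)]

theorem C1_sub {f p g q : ℝ → ℝ} (hf : IsH1 f p) (hg : IsH1 g q) :
    IsH1 (fun x => f x - g x) (fun x => p x - q x) := by
  refine ⟨hf.1.sub hg.1, hf.2.1.sub hg.2.1, fun x y => ?_⟩
  rw [intervalIntegral.integral_sub (C1_int hf x y) (C1_int hg x y), ← hf.2.2, ← hg.2.2]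
  ring

theorem C1_acpow {f p : ℝ → ℝ} (h : IsH1 f p) (a b : ℝ) (n : ℕ) :
    AbsolutelyContinuousOnInterval (fun x => (f x) ^ n) a b := by
  induction n with
  | zero =>
    simp only [pow_zero]
    exact ((LipschitzWith.const (1 : ℝ)).lipschitzOnWith
      (s := uIcc a b)).absolutelyContinuousOnInterval
  | succ n ih =>
    have h1 := ih.mul (C1_ac h a b)
    have h2 : (fun x => (f x) ^ (n + 1)) = (fun x => (f x) ^ n) * f := by
      funext x
      rw [Pi.mul_apply, pow_succ]
    rw [h2]
    exact h1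

theorem C1_pow {f p : ℝ → ℝ} (h : IsH1 f p) (k : ℕ) :
    IsH1 (fun x => fl k (f x)) (fun x => (f x) ^ k * p x) := by
  have hk : (0 : ℝ) < (k : ℝ) + 1 := by positivity
  have hc := C1_cont h
  have hS : 0 ≤ n2 f + n2 p := add_nonneg (A1_nonneg f) (A1_nonneg p)
  have hb : ∀ x, |f x| ≤ √(n2 f + n2 p) := fun x => Real.abs_le_sqrt (C1_sup h x)
  have hbk : ∀ x, |f x| ^ k ≤ √(n2 f + n2 p) ^ k := fun x => by
    have := hb x
    gcongr
  refine ⟨?_, ?_, fun x y => ?_⟩
  · refine h.1.of_le_mul (c := √(n2 f + n2 p) ^ k) ?_ (Filter.Eventually.of_forall fun x => ?_)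
    · exact (by unfold fl; fun_prop : Continuous fun x => fl k (f x)).aestronglyMeasurable
    · rw [fl, norm_div, norm_pow, pow_succ, Real.norm_eq_abs, Real.norm_eq_abs,
        abs_of_pos hk, div_le_iff₀ hk]
      have h1 : |f x| ^ k * |f x| ≤ √(n2 f + n2 p) ^ k * |f x| := by
        have := hbk x
        gcongr
      have h2 : 0 ≤ √(n2 f + n2 p) ^ k * |f x| := by positivity
      have h3 : (0 : ℝ) ≤ (k : ℝ) := Nat.cast_nonneg k
      nlinarith [mul_nonneg h2 h3]
  · refine h.2.1.of_le_mul (c := √(n2 f + n2 p) ^ k) ?_ (Filter.Eventually.of_forall fun x => ?_)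
    · exact (hc.pow k).aestronglyMeasurable.mul h.2.1.1
    · rw [norm_mul, norm_pow, Real.norm_eq_abs]
      have := hbk x
      gcongr
  · have h1 := (C1_acpow h x y (k + 1)).integral_deriv_eq_sub
    have h2 : ∫ z in x..y, deriv (fun x => (f x) ^ (k + 1)) z =
        ∫ z in x..y, ((k : ℝ) + 1) * ((f z) ^ k * p z) := by
      apply intervalIntegral.integral_congr_ae
      filter_upwards [C1_ae h] with z h3 _
      have h4 := (h3.pow (k + 1)).deriv
      have h5 : deriv (fun x => (f x) ^ (k + 1)) z = deriv (f ^ (k + 1)) z := rfl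
      rw [h5, h4]
      push_cast
      ring
    rw [h2, intervalIntegral.integral_const_mul] at h1
    simp only [fl]
    rw [← sub_div, ← h1]
    field_simp

end H37KB
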