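import Pool.Agent.H37.KB.Base

/-!
# Row D1 of MP_95be7d_PDE (110 lines)

Weights.

* `D1_one`: constants.
* `D1_add`: everything is additive (`|a+b| ≤ |a|+|b|`).
* `D1_exp`: `h(x) = A e^{-ax} + B e^{bx} > 0`, `W = 1/h`.  `h' = -aA e^{-ax} + bB e^{bx}`, so `|h'|, |h''|, |h'''| ≤ m h, m² h, m³ h` with `m = max a b ≤ a + 1`, and `h' ≤ b h ≤ h/4`.
  `W' = -h'/h²`, `W'' = -h''/h² + 2h'²/h³`, `W''' = -h'''/h² + 6 h'h''/h³ - 6 h'³/h⁴`: hence `W' ≥ -W/4`, `|W'| ≤ m W`, `|W''| ≤ 3m² W`, `|W'''| ≤ 13 m³ W`, all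
  `≤ 13 (a+1)³ W`.  Bounded: for `x ≥ 0` `W ≤ 1/B`, for `x ≤ 0` `W ≤ 1/A`.
-/

open MeasureTheory Filter Topology Set
open scoped ContDiff

namespace H37KB

open H98KB

theorem D1_it2 (f : ℝ → ℝ) : iteratedDeriv 2 f = deriv (deriv f) := by
  rw [iteratedDeriv_succ, iteratedDeriv_one]

theorem D1_it3 (f : ℝ → ℝ) : iteratedDeriv 3 f = deriv (deriv (deriv f)) := by
  rw [iteratedDeriv_succ, D1_it2]

theorem D1_one {c : ℝ} (hc : 0 ≤ c) : Wt c (fun _ => (1 : ℝ)) := by
  have h1 : deriv (fun _ : ℝ => (1 : ℝ)) = fun _ => 0 := by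
    funext x
    exact deriv_const x 1
  have h2 : deriv (fun _ : ℝ => (0 : ℝ)) = fun _ => 0 := by
    funext x
    exact deriv_const x 0
  refine ⟨contDiff_const, fun _ => one_pos, ⟨1, fun _ => le_rfl⟩, ?_, ?_, ?_, ?_⟩
  · intro x
    rw [h1]
    norm_num
  · intro x
    rw [h1]
    simpa using hc
  · intro x
    rw [D1_it2, h1, h2]
    simpa using hc
  · intro x
    rw [D1_it3, h1, h2, h2]
    simpa using hc

theorem D1_add {c : ℝ} {W V : ℝ → ℝ} (hW : Wt c W) (hV : Wt c V) :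
    Wt c (fun x => W x + V x) := by
  have e : (fun x => W x + V x) = W + V := rfl
  have hd : ∀ x, deriv (W + V) x = deriv W x + deriv V x := fun x =>
    deriv_add (hW.smooth.differentiable (by simp) x) (hV.smooth.differentiable (by simp) x)
  have hi : ∀ (n : ℕ) (x : ℝ), iteratedDeriv n (W + V) x = iteratedDeriv n W x + iteratedDeriv n V x := by
    intro n x
    exact iteratedDeriv_add (hW.smooth.contDiffAt.of_le (by exact_mod_cast le_top))
      (hV.smooth.contDiffAt.of_le (by exact_mod_cast le_top))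
  rw [e]
  refine ⟨hW.smooth.add hV.smooth, fun x => add_pos (hW.pos x) (hV.pos x), ?_, ?_, ?_, ?_, ?_⟩
  · obtain ⟨C, hC⟩ := hW.bdd
    obtain ⟨C', hC'⟩ := hV.bdd
    exact ⟨C + C', fun x => add_le_add (hC x) (hC' x)⟩
  · intro x
    rw [hd, Pi.add_apply]
    have h1 := hW.low x
    have h2 := hV.low x
    linarith
  · intro x
    rw [hd, Pi.add_apply]
    have h1 := hW.b1 x
    have h2 := hV.b1 x
    have h3 := abs_add_le (deriv W x) (deriv V x)
    linarith
  · intro x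
    rw [hi, Pi.add_apply]
    have h1 := hW.b2 x
    have h2 := hV.b2 x
    have h3 := abs_add_le (iteratedDeriv 2 W x) (iteratedDeriv 2 V x)
    linarith
  · intro x
    rw [hi, Pi.add_apply]
    have h1 := hW.b3 x
    have h2 := hV.b3 x
    have h3 := abs_add_le (iteratedDeriv 3 W x) (iteratedDeriv 3 V x)
    linarith

theorem D1_mono {c c' : ℝ} {W : ℝ → ℝ} (hW : Wt c W) (h : c ≤ c') : Wt c' W := by
  have h0 : ∀ x, c * W x ≤ c' * W x := fun x => mul_le_mul_of_nonneg_right h (hW.pos x).le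
  exact ⟨hW.smooth, hW.pos, hW.bdd, hW.low, fun x => (hW.b1 x).trans (h0 x),
    fun x => (hW.b2 x).trans (h0 x), fun x => (hW.b3 x).trans (h0 x)⟩

theorem D1_exp {A B a b : ℝ} (hA : 0 < A) (hB : 0 < B) (ha : 0 < a) (hb : 0 < b)
    (hb' : b ≤ 1 / 4) :
    Wt (13 * (a + 1) ^ 3) (fun x => (A * Real.exp (-(a * x)) + B * Real.exp (b * x))⁻¹) := by
  set h : ℝ → ℝ := fun x => A * Real.exp (-(a * x)) + B * Real.exp (b * x) with hh
  set h1 : ℝ → ℝ := fun x => -a * (A * Real.exp (-(a * x))) + b * (B * Real.exp (b * x)) with hh1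
  set h2 : ℝ → ℝ := fun x => a ^ 2 * (A * Real.exp (-(a * x))) + b ^ 2 * (B * Real.exp (b * x)) with hh2
  set h3 : ℝ → ℝ := fun x => -a ^ 3 * (A * Real.exp (-(a * x))) + b ^ 3 * (B * Real.exp (b * x)) with hh3
  set w : ℝ → ℝ := fun x => (h x)⁻¹ with hw
  have hea : ∀ x : ℝ, HasDerivAt (fun x => A * Real.exp (-(a * x))) (-a * (A * Real.exp (-(a * x)))) x := by
    intro x
    have e1 : HasDerivAt (fun x : ℝ => -(a * x)) (-a) x := by
      have e0 := ((hasDerivAt_id' x).const_mul a).neg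
      rw [mul_one] at e0
      exact e0
    have e2 := (e1.exp).const_mul A
    refine e2.congr_deriv ?_
    ring
  have heb : ∀ x : ℝ, HasDerivAt (fun x => B * Real.exp (b * x)) (b * (B * Real.exp (b * x))) x := by
    intro x
    have e1 : HasDerivAt (fun x : ℝ => b * x) b x := by
      simpa using (hasDerivAt_id x).const_mul b
    have e2 := (e1.exp).const_mul B
    refine e2.congr_deriv ?_
    ring
  have hd0 : ∀ x, HasDerivAt h (h1 x) x := fun x => (hea x).add (heb x)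
  have hd1 : ∀ x, HasDerivAt h1 (h2 x) x := by
    intro x
    refine (((hea x).const_mul (-a)).add ((heb x).const_mul b)).congr_deriv ?_
    rw [hh2]
    ring
  have hd2 : ∀ x, HasDerivAt h2 (h3 x) x := by
    intro x
    refine (((hea x).const_mul (a ^ 2)).add ((heb x).const_mul (b ^ 2))).congr_deriv ?_
    rw [hh3]
    ring
  have pa : ∀ x, 0 < A * Real.exp (-(a * x)) := fun x => by positivity
  have pb : ∀ x, 0 < B * Real.exp (b * x) := fun x => by positivity
  have hpos : ∀ x, 0 < h x := fun x => add_pos (pa x) (pb x)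
  have hwpos : ∀ x, 0 < w x := fun x => inv_pos.2 (hpos x)
  have hwd : ∀ x, HasDerivAt w (-h1 x * w x ^ 2) x := by
    intro x
    refine ((hd0 x).inv (hpos x).ne').congr_deriv ?_
    rw [hw]
    field_simp
  have dw1 : deriv w = fun x => -h1 x * w x ^ 2 := funext fun x => (hwd x).deriv
  have hwd1 : ∀ x, HasDerivAt (fun x => -h1 x * w x ^ 2)
      (-h2 x * w x ^ 2 + 2 * h1 x ^ 2 * w x ^ 3) x := by
    intro x
    refine (((hd1 x).neg).mul ((hwd x).pow 2)).congr_deriv ?_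
    simp only [Pi.neg_apply, Nat.cast_ofNat, Pi.pow_apply]
    ring
  have dw2 : deriv (deriv w) = fun x => -h2 x * w x ^ 2 + 2 * h1 x ^ 2 * w x ^ 3 := by
    rw [dw1]
    exact funext fun x => (hwd1 x).deriv
  have hwd2 : ∀ x, HasDerivAt (fun x => -h2 x * w x ^ 2 + 2 * h1 x ^ 2 * w x ^ 3)
      (-h3 x * w x ^ 2 + 6 * h1 x * h2 x * w x ^ 3 - 6 * h1 x ^ 3 * w x ^ 4) x := by
    intro x
    refine ((((hd2 x).neg).mul ((hwd x).pow 2)).add
      ((((hd1 x).pow 2).const_mul 2).mul ((hwd x).pow 3))).congr_deriv ?_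
    simp only [Pi.neg_apply, Nat.cast_ofNat, Pi.pow_apply]
    ring
  have dw3 : deriv (deriv (deriv w)) = fun x =>
      -h3 x * w x ^ 2 + 6 * h1 x * h2 x * w x ^ 3 - 6 * h1 x ^ 3 * w x ^ 4 := by
    rw [dw2]
    exact funext fun x => (hwd2 x).deriv
  -- bounds
  set m : ℝ := a + 1 with hm
  have hm1 : 1 ≤ m := by linarith
  have hma : a ≤ m := by linarith
  have hmb : b ≤ m := by linarith
  have hpw : ∀ n : ℕ, a ^ n ≤ m ^ n ∧ b ^ n ≤ m ^ n := fun n =>
    ⟨pow_le_pow_left₀ ha.le hma n, pow_le_pow_left₀ hb.le hmb n⟩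
  have hhw : ∀ x, h x * w x = 1 := fun x => mul_inv_cancel₀ (hpos x).ne'
  have ub : ∀ (x s : ℝ) (n : ℕ), |s| ≤ m ^ n * h x → |s * w x| ≤ m ^ n := by
    intro x s n hs
    rw [abs_mul, abs_of_pos (hwpos x)]
    calc |s| * w x ≤ (m ^ n * h x) * w x := mul_le_mul_of_nonneg_right hs (hwpos x).le
      _ = m ^ n := by rw [mul_assoc, hhw, mul_one]
  have u1 : ∀ x, |h1 x * w x| ≤ m ^ 1 := by
    intro x
    apply ub x
    have e1 := mul_le_mul_of_nonneg_right (hpw 1).1 (pa x).le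
    have e2 := mul_le_mul_of_nonneg_right (hpw 1).2 (pb x).le
    have e3 : 0 < a * (A * Real.exp (-(a * x))) := mul_pos ha (pa x)
    have e4 : 0 < b * (B * Real.exp (b * x)) := mul_pos hb (pb x)
    rw [abs_le, hh1, hh]
    constructor <;> simp only [pow_one] at * <;> linarith
  have u2 : ∀ x, |h2 x * w x| ≤ m ^ 2 := by
    intro x
    apply ub x
    have e1 := mul_le_mul_of_nonneg_right (hpw 2).1 (pa x).le
    have e2 := mul_le_mul_of_nonneg_right (hpw 2).2 (pb x).le
    have e3 : 0 < a ^ 2 * (A * Real.exp (-(a * x))) := mul_pos (by positivity) (pa x)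
    have e4 : 0 < b ^ 2 * (B * Real.exp (b * x)) := mul_pos (by positivity) (pb x)
    rw [abs_le, hh2, hh]
    constructor <;> simp only at * <;> linarith
  have u3 : ∀ x, |h3 x * w x| ≤ m ^ 3 := by
    intro x
    apply ub x
    have e1 := mul_le_mul_of_nonneg_right (hpw 3).1 (pa x).le
    have e2 := mul_le_mul_of_nonneg_right (hpw 3).2 (pb x).le
    have e3 : 0 < a ^ 3 * (A * Real.exp (-(a * x))) := mul_pos (by positivity) (pa x)
    have e4 : 0 < b ^ 3 * (B * Real.exp (b * x)) := mul_pos (by positivity) (pb x)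
    rw [abs_le, hh3, hh]
    constructor <;> simp only at * <;> linarith
  have hm0 : 0 ≤ m := by linarith
  have p1 : m ^ 1 ≤ m ^ 3 := pow_le_pow_right₀ hm1 (by norm_num)
  have p2 : m ^ 2 ≤ m ^ 3 := pow_le_pow_right₀ hm1 (by norm_num)
  refine ⟨?_, hwpos, ?_, ?_, ?_, ?_, ?_⟩
  · have hsm : ContDiff ℝ ∞ h := by
      rw [hh]
      fun_prop
    exact hsm.inv fun x => (hpos x).ne'
  · refine ⟨A⁻¹ + B⁻¹, fun x => ?_⟩
    have hA' : 0 < A⁻¹ := inv_pos.2 hA
    have hB' : 0 < B⁻¹ := inv_pos.2 hB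
    rcases le_total 0 x with hx | hx
    · have e1 : B ≤ h x := by
        have e2 : 1 ≤ Real.exp (b * x) := Real.one_le_exp (by positivity)
        have e3 : B * 1 ≤ B * Real.exp (b * x) := mul_le_mul_of_nonneg_left e2 hB.le
        have e4 := pa x
        rw [hh]
        simp only
        linarith
      have e5 : (h x)⁻¹ ≤ B⁻¹ := inv_anti₀ hB e1
      show (h x)⁻¹ ≤ _
      linarith
    · have e1 : A ≤ h x := by
        have e2 : 1 ≤ Real.exp (-(a * x)) := Real.one_le_exp (by nlinarith)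
        have e3 : A * 1 ≤ A * Real.exp (-(a * x)) := mul_le_mul_of_nonneg_left e2 hA.le
        have e4 := pb x
        rw [hh]
        simp only
        linarith
      have e5 : (h x)⁻¹ ≤ A⁻¹ := inv_anti₀ hA e1
      show (h x)⁻¹ ≤ _
      linarith
  · intro x
    change -(1 / 4) * w x ≤ deriv w x
    rw [dw1]
    simp only
    have e1 : h1 x ≤ 1 / 4 * h x := by
      have e3 : 0 < a * (A * Real.exp (-(a * x))) := mul_pos ha (pa x)
      have e4 := mul_le_mul_of_nonneg_right hb' (pb x).le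
      have e5 := pa x
      rw [hh1, hh]
      simp only
      linarith
    have e2 : h1 x * w x ≤ 1 / 4 := by
      calc h1 x * w x ≤ (1 / 4 * h x) * w x := mul_le_mul_of_nonneg_right e1 (hwpos x).le
        _ = 1 / 4 := by rw [mul_assoc, hhw, mul_one]
    have e3 := mul_le_mul_of_nonneg_right e2 (hwpos x).le
    nlinarith
  · intro x
    change |deriv w x| ≤ _ * w x
    rw [dw1]
    simp only
    have e : -h1 x * w x ^ 2 = -(h1 x * w x) * w x := by ring
    rw [e, abs_mul, abs_neg, abs_of_pos (hwpos x)]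
    apply mul_le_mul_of_nonneg_right _ (hwpos x).le
    have := u1 x
    have h0 : 0 ≤ m ^ 3 := by positivity
    linarith
  · intro x
    change |iteratedDeriv 2 w x| ≤ _ * w x
    rw [D1_it2, dw2]
    simp only
    have e : -h2 x * w x ^ 2 + 2 * h1 x ^ 2 * w x ^ 3 =
        (-(h2 x * w x) + 2 * (h1 x * w x) ^ 2) * w x := by ring
    rw [e, abs_mul, abs_of_pos (hwpos x)]
    apply mul_le_mul_of_nonneg_right _ (hwpos x).le
    have e1 := abs_le.1 (u1 x)
    have e2 := abs_le.1 (u2 x)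
    have e3 : (h1 x * w x) ^ 2 ≤ m ^ 2 := by
      rw [pow_one] at e1
      exact sq_le_sq' e1.1 e1.2
    have e4 : 0 ≤ (h1 x * w x) ^ 2 := sq_nonneg _
    have h0 : 0 ≤ m ^ 3 := by positivity
    rw [abs_le]
    constructor <;> linarith
  · intro x
    change |iteratedDeriv 3 w x| ≤ _ * w x
    rw [D1_it3, dw3]
    simp only
    have e : -h3 x * w x ^ 2 + 6 * h1 x * h2 x * w x ^ 3 - 6 * h1 x ^ 3 * w x ^ 4 =
        (-(h3 x * w x) + 6 * ((h1 x * w x) * (h2 x * w x)) - 6 * (h1 x * w x) ^ 3) * w x := by ring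
    rw [e, abs_mul, abs_of_pos (hwpos x)]
    apply mul_le_mul_of_nonneg_right _ (hwpos x).le
    have e1 := u1 x
    have e2 := u2 x
    have e3 := abs_le.1 (u3 x)
    rw [pow_one] at e1
    have e4 : |(h1 x * w x) * (h2 x * w x)| ≤ m ^ 3 := by
      rw [abs_mul]
      calc |h1 x * w x| * |h2 x * w x| ≤ m * m ^ 2 :=
            mul_le_mul e1 e2 (abs_nonneg _) hm0
        _ = m ^ 3 := by ring
    have e5 : |(h1 x * w x) ^ 3| ≤ m ^ 3 := by
      rw [abs_pow]
      exact pow_le_pow_left₀ (abs_nonneg _) e1 3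
    rw [abs_le] at e4 e5
    rw [abs_le]
    constructor <;> linarith [e3.1, e3.2, e4.1, e4.2, e5.1, e5.2]

end H37KB
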