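import Pool.Agent.H37.KB.C1
import Pool.Agent.H37.KB.D1

/-!
# Row C2 of MP_95be7d_PDE (100 lines)

Consequences of the `H¹` calculus.

* `C2_ibp`: for a test function `θ`: choose `R` with `supp θ ⊆ (-R,R)`; `θ` restricted is smooth hence `IsH1 θ θ'`, apply `C1_mul` on `[-R,R]`: the boundary
  terms vanish and `0 = ∫_{-R}^{R} (p θ + f θ')`, and both integrands vanish outside `[-R,R]`.
* `C2_mol`: `C2_ibp` for `θ(z) = ρ(x-z)`, `θ' = -ρ'(x-z)` (`B1_shift`).
* `C2_W`: `W f²`: let `h = W f`, `IsH1 h (W' f + W p)` (W smooth and bounded with bounded derivative; absolute continuity of the product as in `C1_mul`, on each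
  interval), so `W(y) f(y)² - W(x) f(x)² = ∫_x^y (W' f² + 2 W f p)` (product of `h` and `f`, `C1_mul`) and
  `|W' f² + 2 W f p| ≤ c W f² + W (f² + p²) ≤ (c+1) W (f²+p²)`.  So `W(y) f(y)² ≤ W(x) f(x)² + (c+1) ∫ W(f²+p²)` for all `x`, and `W(x)f(x)²` is integrable, hence
  takes arbitrarily small values (same argument as for `C1_sup`).
* `C2_data`: if `f` is smooth and `IsH1 f p` then `p = f'` a.e. (`C1_ae` and uniqueness of derivatives).
-/

open MeasureTheory Filter Topology Set
open scoped ContDiff

namespace H37KB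

open H98KB

theorem C2_test {θ : ℝ → ℝ} (hθ : ContDiff ℝ ∞ θ) (hc : HasCompactSupport θ) :
    IsH1 θ (deriv θ) := by
  have h0 := (B1_test hθ hc 0).2.2
  have h1 := (B1_test hθ hc 1).2.2
  rw [iteratedDeriv_zero] at h0
  rw [iteratedDeriv_one] at h1
  refine ⟨h0, h1, fun x y => ?_⟩
  rw [intervalIntegral.integral_deriv_eq_sub]
  · exact fun z _ => (hθ.differentiable (by simp)).differentiableAt
  · exact ((hθ.continuous_deriv (by simp)).intervalIntegrable _ _)

theorem C2_ibp {f p θ : ℝ → ℝ} (h : IsH1 f p) (hθ : ContDiff ℝ ∞ θ) (hc : HasCompactSupport θ) :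
    ∫ x, f x * deriv θ x = -∫ x, p x * θ x := by
  have ht := C2_test hθ hc
  have i1 : Integrable (fun x => f x * deriv θ x) := A1_mul h.1 ht.2.1
  have i2 : Integrable (fun x => p x * θ x) := A1_mul h.2.1 ht.1
  obtain ⟨R, hR⟩ := hc.isCompact.isBounded.subset_ball (0 : ℝ)
  have hsub : ∀ z, z ∈ tsupport θ → |z| < R := fun z hz => by
    have := hR hz
    rwa [Metric.mem_ball, dist_zero_right, Real.norm_eq_abs] at this
  have hz0 : ∀ z, R ≤ |z| → θ z = 0 := fun z hz => by
    by_contra hne
    exact absurd (hsub z (subset_tsupport θ hne)) (not_lt.2 hz)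
  have hsupp : Function.support (fun z => p z * θ z + f z * deriv θ z) ⊆ Ioc (-R) R := by
    intro z hz
    have hz' : z ∈ tsupport θ := by
      by_contra hn
      have h1 : θ z = 0 := image_eq_zero_of_notMem_tsupport hn
      have h2 : deriv θ z = 0 := by
        have := (support_deriv_subset (f := θ))
        by_contra hne
        exact hn (this hne)
      simp [h1, h2] at hz
    have := hsub z hz'
    rw [abs_lt] at this
    exact ⟨this.1, this.2.le⟩
  have h1 := C1_mul h ht (-R) R
  by_cases hRn : 0 ≤ R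
  · rw [hz0 R (by rw [abs_of_nonneg hRn]), hz0 (-R) (by rw [abs_neg, abs_of_nonneg hRn]),
      intervalIntegral.integral_eq_integral_of_support_subset hsupp, integral_add i2 i1] at h1
    linarith
  · have hθ0 : ∀ z, θ z = 0 := fun z => hz0 z (by
      have := abs_nonneg z
      linarith)
    have hd0 : ∀ z, deriv θ z = 0 := fun z => by
      have : θ = fun _ => 0 := funext hθ0
      rw [this]
      simp
    simp [hθ0, hd0]

theorem C2_mol {f p ρ : ℝ → ℝ} (h : IsH1 f p) (hρ : ContDiff ℝ ∞ ρ) (hc : HasCompactSupport ρ)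
    (x : ℝ) : mol (deriv ρ) f x = mol ρ p x := by
  obtain ⟨s1, s2, _, s4⟩ := B1_shift hρ hc x
  have h1 := C2_ibp h s1 s2
  have h2 : ∀ z, deriv (fun z => ρ (x - z)) z = -deriv ρ (x - z) := fun z => by
    have := s4 1 z
    rw [iteratedDeriv_one, iteratedDeriv_one] at this
    rw [this]
    ring
  simp only [h2] at h1
  unfold mol
  have h3 : ∫ z, deriv ρ (x - z) * f z = -∫ z, f z * -deriv ρ (x - z) := by
    rw [← integral_neg]
    refine integral_congr_ae (Eventually.of_forall fun z => ?_)
    simp only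
    ring
  rw [h3, h1, neg_neg]
  refine integral_congr_ae (Eventually.of_forall fun z => ?_)
  simp only
  ring

theorem C2_small {g : ℝ → ℝ} {a b : ℝ} (hg : Integrable g) (h : ∀ y, a ≤ g y + b) : a ≤ b := by
  by_contra hlt
  have hpos : 0 < a - b := by linarith [not_le.1 hlt]
  have hi : Integrable (fun _ : ℝ => a - b) volume := by
    refine Integrable.mono' hg aestronglyMeasurable_const (Eventually.of_forall fun y => ?_)
    rw [Real.norm_eq_abs, abs_of_pos hpos]
    linarith [h y]
  rcases integrable_const_iff.1 hi with h1 | h1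
  · exact hpos.ne' h1
  · have h2 := isFiniteMeasure_iff (volume : Measure ℝ)|>.1 h1
    simp at h2

theorem C2_W {c : ℝ} {W f p : ℝ → ℝ} (hc : 0 ≤ c) (hW : Wt c W) (h : IsH1 f p) (x : ℝ) :
    W x * (f x) ^ 2 ≤ (c + 1) * ∫ y, W y * ((f y) ^ 2 + (p y) ^ 2) := by
  obtain ⟨B, hB⟩ := hW.bdd
  have hB' : ∀ x, |W x| ≤ B := fun x => by
    rw [abs_of_pos (hW.pos x)]
    exact hB x
  have i1 := (A1_W hW.smooth.continuous hB' h.1).1
  have i2 := (A1_W hW.smooth.continuous hB' h.2.1).1
  have i3 : Integrable (fun y => W y * ((f y) ^ 2 + (p y) ^ 2)) := by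
    refine (i1.add i2).congr (Eventually.of_forall fun x => ?_)
    simp only [Pi.add_apply]
    ring
  refine C2_small i1 fun y => ?_
  have hWac : AbsolutelyContinuousOnInterval W x y :=
    (hW.smooth.of_le (by simp)).contDiffOn.absolutelyContinuousOnInterval
  have hfac := C1_ac h x y
  have hg : AbsolutelyContinuousOnInterval (fun z => W z * (f z * f z)) x y :=
    hWac.fun_mul (hfac.fun_mul hfac)
  have h1 := hg.integral_deriv_eq_sub
  have h2 : |∫ z in x..y, deriv (fun z => W z * (f z * f z)) z| ≤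
      (c + 1) * ∫ y, W y * ((f y) ^ 2 + (p y) ^ 2) := by
    have hae : ∀ᵐ z : ℝ, ‖deriv (fun z => W z * (f z * f z)) z‖ ≤
        (c + 1) * (W z * ((f z) ^ 2 + (p z) ^ 2)) := by
      filter_upwards [C1_ae h] with z hz
      have hWd : HasDerivAt W (deriv W z) z :=
        ((hW.smooth.differentiable (by simp)) z).hasDerivAt
      have hd : HasDerivAt (fun z => W z * (f z * f z))
          (deriv W z * (f z * f z) + W z * (p z * f z + f z * p z)) z := hWd.mul (hz.mul hz)
      rw [hd.deriv, Real.norm_eq_abs]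
      have hw := hW.pos z
      have hb := hW.b1 z
      have e1 : |deriv W z * (f z * f z)| ≤ c * W z * (f z) ^ 2 := by
        rw [abs_mul, abs_mul_self, ← sq]
        exact mul_le_mul_of_nonneg_right hb (sq_nonneg _)
      have e2 : |W z * (p z * f z + f z * p z)| ≤ W z * ((f z) ^ 2 + (p z) ^ 2) := by
        rw [abs_mul, abs_of_pos hw]
        refine mul_le_mul_of_nonneg_left ?_ hw.le
        rw [abs_le]
        constructor
        · nlinarith [sq_nonneg (f z + p z)]
        · nlinarith [sq_nonneg (f z - p z)]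
      have e3 : 0 ≤ c * W z * (p z) ^ 2 := by positivity
      calc |deriv W z * (f z * f z) + W z * (p z * f z + f z * p z)|
          ≤ |deriv W z * (f z * f z)| + |W z * (p z * f z + f z * p z)| := abs_add_le _ _
        _ ≤ c * W z * (f z) ^ 2 + W z * ((f z) ^ 2 + (p z) ^ 2) := add_le_add e1 e2
        _ ≤ (c + 1) * (W z * ((f z) ^ 2 + (p z) ^ 2)) := by nlinarith
    have hn : ‖∫ z in x..y, deriv (fun z => W z * (f z * f z)) z‖ ≤
        ∫ z in uIoc x y, (c + 1) * (W z * ((f z) ^ 2 + (p z) ^ 2)) := by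
      refine (intervalIntegral.norm_integral_le_integral_norm_uIoc).trans ?_
      refine integral_mono_ae ?_ (i3.const_mul (c + 1)).integrableOn (ae_restrict_of_ae hae)
      exact (intervalIntegrable_iff.1 hg.intervalIntegrable_deriv).norm
    rw [← Real.norm_eq_abs]
    refine hn.trans ?_
    rw [← integral_const_mul]
    refine setIntegral_le_integral (i3.const_mul (c + 1)) (Eventually.of_forall fun z => ?_)
    have hw := hW.pos z
    simp only [Pi.zero_apply]
    positivity
  rw [h1] at h2
  have h3 := (abs_le.1 h2).1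
  have e : (f y) ^ 2 = f y * f y := sq _
  have e' : (f x) ^ 2 = f x * f x := sq _
  rw [e, e']
  linarith

theorem C2_data {f p : ℝ → ℝ} (h : IsH1 f p) (hf : ContDiff ℝ ∞ f) :
    ∀ᵐ x : ℝ, p x = deriv f x := by
  filter_upwards [C1_ae h] with x hx
  exact hx.deriv.symm

end H37KB
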