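import Pool.Agent.H37.KB.D1

/-!
# Row D2 of MP_95be7d_PDE (90 lines)

The weight `wt α = e^{αx} + e^{-x/8}` and its approximation by admissible weights.

* `D2_approx`: `W n x = (e^{-αx} + (1/(n+1)) e^{x/4})⁻¹ + ((1/(n+1)) e^{-x} + e^{x/8})⁻¹`; `D1_exp` with `(A,B,a,b) = (1,1/(n+1),α,1/4)` and `(1/(n+1),1,1,1/8)`
  (`13·2³ ≤ 13(α+1)³`, `D1_mono`), `D1_add`.  The first summand is `≤ e^{αx}` and tends to it, the second is `≤ e^{-x/8}` and tends to it.
* `D2_one`: one of the two exponents is `≥ 0`.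
* `D2_slow`: `e^{αx} ≤ e^{α} e^{αz}` and `e^{-x/8} ≤ e^{1/8} e^{-z/8}`.
* `D2_bd`: `bd p q x = e^{-p max(x,0) - q max(-x,0)}`: for `x ≥ 0` `bd (α/2) (1/16) x ^ 2 = e^{-αx}`, for `x ≤ 0` it is `e^{x/8}`.
-/

open MeasureTheory Filter Topology Set
open scoped ContDiff

namespace H37KB

open H98KB

theorem D2_approx (α : ℝ) (hα : 1 ≤ α) : ∃ W : ℕ → ℝ → ℝ,
    (∀ n, Wt (13 * (α + 1) ^ 3) (W n)) ∧ (∀ n x, W n x ≤ wt α x) ∧
      ∀ x, Tendsto (fun n => W n x) atTop (𝓝 (wt α x)) := by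
  have hα0 : 0 < α := by linarith
  have hε : ∀ n : ℕ, (0 : ℝ) < 1 / ((n : ℝ) + 1) := fun n => by positivity
  have e1 : ∀ x : ℝ, (1 * Real.exp (-(α * x)))⁻¹ = Real.exp (α * x) := fun x => by
    rw [one_mul, Real.exp_neg, inv_inv]
  have e2 : ∀ x : ℝ, (1 * Real.exp (1 / 8 * x))⁻¹ = Real.exp (-x / 8) := fun x => by
    rw [one_mul, ← Real.exp_neg]
    congr 1
    ring
  refine ⟨fun n x => (1 * Real.exp (-(α * x)) + 1 / ((n : ℝ) + 1) * Real.exp (1 / 4 * x))⁻¹ +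
    (1 / ((n : ℝ) + 1) * Real.exp (-(1 * x)) + 1 * Real.exp (1 / 8 * x))⁻¹, ?_, ?_, ?_⟩
  · intro n
    refine D1_add (D1_exp one_pos (hε n) hα0 (by norm_num) le_rfl) ?_
    refine D1_mono (D1_exp (hε n) one_pos one_pos (by norm_num) (by norm_num)) ?_
    have : (1 + 1 : ℝ) ^ 3 ≤ (α + 1) ^ 3 := pow_le_pow_left₀ (by norm_num) (by linarith) 3
    linarith
  · intro n x
    refine add_le_add ?_ ?_
    · rw [← e1 x]
      refine inv_anti₀ (by positivity) ?_
      have := mul_pos (hε n) (Real.exp_pos (1 / 4 * x))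
      linarith
    · rw [← e2 x]
      refine inv_anti₀ (by positivity) ?_
      have := mul_pos (hε n) (Real.exp_pos (-(1 * x)))
      linarith
  · intro x
    have ht : Tendsto (fun n : ℕ => 1 / ((n : ℝ) + 1)) atTop (𝓝 0) :=
      tendsto_one_div_add_atTop_nhds_zero_nat
    have t1 : Tendsto (fun n : ℕ => (1 * Real.exp (-(α * x)) +
        1 / ((n : ℝ) + 1) * Real.exp (1 / 4 * x))⁻¹) atTop (𝓝 (Real.exp (α * x))) := by
      rw [← e1 x]
      refine Tendsto.inv₀ ?_ (by positivity)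
      have h := (ht.mul_const (Real.exp (1 / 4 * x))).const_add (1 * Real.exp (-(α * x)))
      rwa [zero_mul, add_zero] at h
    have t2 : Tendsto (fun n : ℕ => (1 / ((n : ℝ) + 1) * Real.exp (-(1 * x)) +
        1 * Real.exp (1 / 8 * x))⁻¹) atTop (𝓝 (Real.exp (-x / 8))) := by
      rw [← e2 x]
      refine Tendsto.inv₀ ?_ (by positivity)
      have h := (ht.mul_const (Real.exp (-(1 * x)))).add_const (1 * Real.exp (1 / 8 * x))
      rwa [zero_mul, zero_add] at h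
    exact t1.add t2

theorem D2_cont (α : ℝ) : Continuous (wt α) := by
  unfold wt
  fun_prop

theorem D2_pos (α x : ℝ) : 0 < wt α x := by
  unfold wt
  positivity

theorem D2_one {α : ℝ} (hα : 1 ≤ α) (x : ℝ) : 1 ≤ wt α x := by
  unfold wt
  rcases le_total 0 x with h | h
  · have h1 : 1 ≤ Real.exp (α * x) := Real.one_le_exp (by positivity)
    have h2 := Real.exp_pos (-x / 8)
    linarith
  · have h1 : 1 ≤ Real.exp (-x / 8) := Real.one_le_exp (by linarith)
    have h2 := Real.exp_pos (α * x)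
    linarith

theorem D2_slow {α : ℝ} (hα : 1 ≤ α) (x z : ℝ) (h : |x - z| ≤ 1) :
    wt α x ≤ Real.exp α * wt α z := by
  unfold wt
  obtain ⟨h1, h2⟩ := abs_le.1 h
  rw [mul_add, ← Real.exp_add, ← Real.exp_add]
  refine add_le_add (Real.exp_le_exp.2 ?_) (Real.exp_le_exp.2 (by linarith))
  nlinarith

theorem D2_bd {α : ℝ} (hα : 1 ≤ α) (x : ℝ) : 1 ≤ (bd (α / 2) (1 / 16) x) ^ 2 * wt α x ∧
    0 < bd (α / 2) (1 / 16) x ∧ bd (α / 2) (1 / 16) x ≤ 1 := by
  refine ⟨?_, Real.exp_pos _, ?_⟩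
  · unfold bd wt
    rcases le_total 0 x with h | h
    · rw [max_eq_left h, max_eq_right (by linarith : -x ≤ 0), pow_two, ← Real.exp_add, mul_add,
        ← Real.exp_add]
      have e : -(α / 2 * x) - 1 / 16 * 0 + (-(α / 2 * x) - 1 / 16 * 0) + α * x = 0 := by ring
      rw [e, Real.exp_zero]
      have := mul_pos (Real.exp_pos (-(α / 2 * x) - 1 / 16 * 0 + (-(α / 2 * x) - 1 / 16 * 0)))
        (Real.exp_pos (-x / 8))
      linarith
    · rw [max_eq_right h, max_eq_left (by linarith : 0 ≤ -x), pow_two, ← Real.exp_add, mul_add,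
        ← Real.exp_add, ← Real.exp_add]
      have e : -(α / 2 * 0) - 1 / 16 * -x + (-(α / 2 * 0) - 1 / 16 * -x) + -x / 8 = 0 := by ring
      rw [e, Real.exp_zero]
      have := Real.exp_pos (-(α / 2 * 0) - 1 / 16 * -x + (-(α / 2 * 0) - 1 / 16 * -x) + α * x)
      linarith
  · unfold bd
    rw [Real.exp_le_one_iff]
    have h1 : 0 ≤ max x 0 := le_max_right _ _
    have h2 : 0 ≤ max (-x) 0 := le_max_right _ _
    have h3 : 0 ≤ α / 2 * max x 0 := mul_nonneg (by linarith) h1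
    linarith

end H37KB
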