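import Pool.Agent.H37.KB.A1
import Pool.Agent.H37.KB.D1

/-!
# Row E1 of MP_95be7d_PDE (130 lines)

The spatial energy inequality.  Pointwise identity (`w, G` smooth; `w' = deriv w`, ...):

  `2 W w (w'' - w''' - G') = Φ' - (2W + 3W') w'² + (W''' + W'') w² + 2 (W' w + W w') G`,
  `Φ = -2 W w w'' + 2 W' w w' - W'' w² + W w'² + 2 W w w' - W' w² - 2 W w G`.

(`-2Www''' = (-2Www'' + 2W'ww' - W''w² + Ww'²)' + W'''w² - 3W'w'²`, `2Www'' = (2Www' - W'w²)' + W''w² - 2Ww'²`, `-2WwG' = (-2WwG)' + 2(Ww)'G`.)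
`Φ` and `Φ'` are integrable (weights with bounded derivatives times products of two `L²` functions, `A1_Wmul`, `A1_W`; `W ≤ C`, `|W'|,|W''|,|W'''| ≤ cC`), so
`∫ Φ' = 0` (`integral_eq_zero_of_hasDerivAt_of_integrable`).  Since `W' ≥ -W/4`: `-(2W+3W')w'² ≤ -(5/4) W w'²`, `2Ww'G ≤ (5/4) W w'² + W G²`,
`(W'''+W'')w² ≤ 2cWw²`, `2W'wG ≤ cW(w²+G²)`.  Total `≤ 3cWw² + (c+1)WG² ≤ (3c+1) W (w² + G²)`.
-/

open MeasureTheory Filter Topology Set
open scoped ContDiff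

namespace H37KB

open H98KB

theorem E1_core {c C : ℝ} {W0 W1 W2 W3 w0 w1 w2 w3 G0 G1 : ℝ → ℝ} (hc : 0 ≤ c)
    (cW0 : Continuous W0) (cW1 : Continuous W1) (cW2 : Continuous W2) (cW3 : Continuous W3)
    (dW0 : ∀ x, HasDerivAt W0 (W1 x) x) (dW1 : ∀ x, HasDerivAt W1 (W2 x) x)
    (dW2 : ∀ x, HasDerivAt W2 (W3 x) x)
    (dw0 : ∀ x, HasDerivAt w0 (w1 x) x) (dw1 : ∀ x, HasDerivAt w1 (w2 x) x)
    (dw2 : ∀ x, HasDerivAt w2 (w3 x) x) (dG0 : ∀ x, HasDerivAt G0 (G1 x) x)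
    (pos : ∀ x, 0 < W0 x) (bdd : ∀ x, W0 x ≤ C) (low : ∀ x, -(1 / 4) * W0 x ≤ W1 x)
    (b1 : ∀ x, |W1 x| ≤ c * W0 x) (b2 : ∀ x, |W2 x| ≤ c * W0 x) (b3 : ∀ x, |W3 x| ≤ c * W0 x)
    (h0 : MemLp w0 2 volume) (h1 : MemLp w1 2 volume) (h2 : MemLp w2 2 volume)
    (h3 : MemLp w3 2 volume) (g0 : MemLp G0 2 volume) (g1 : MemLp G1 2 volume) :
    ∫ x, W0 x * (2 * w0 x * (w2 x - w3 x - G1 x)) ≤
      (3 * c + 1) * ∫ x, W0 x * ((w0 x) ^ 2 + (G0 x) ^ 2) := by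
  have q0 : ∀ x, |W0 x| ≤ C := fun x => by
    rw [abs_of_pos (pos x)]
    exact bdd x
  have q : ∀ V : ℝ → ℝ, (∀ x, |V x| ≤ c * W0 x) → ∀ x, |V x| ≤ c * C := fun V hV x =>
    (hV x).trans (mul_le_mul_of_nonneg_left (bdd x) hc)
  have i1 := (A1_Wmul cW0 q0 h0 h2).1
  have i2 := (A1_Wmul cW1 (q W1 b1) h0 h1).1
  have i3 := (A1_Wmul cW2 (q W2 b2) h0 h0).1
  have i4 := (A1_Wmul cW0 q0 h1 h1).1
  have i5 := (A1_Wmul cW0 q0 h0 h1).1
  have i6 := (A1_Wmul cW1 (q W1 b1) h0 h0).1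
  have i7 := (A1_Wmul cW0 q0 h0 g0).1
  have j1 := (A1_Wmul cW0 q0 h0 h3).1
  have j2 := (A1_Wmul cW1 (q W1 b1) h1 h1).1
  have j3 := (A1_Wmul cW3 (q W3 b3) h0 h0).1
  have j4 := (A1_Wmul cW1 (q W1 b1) h0 g0).1
  have j5 := (A1_Wmul cW0 q0 h1 g0).1
  have j6 := (A1_Wmul cW0 q0 h0 g1).1
  have j7 := (A1_Wmul cW0 q0 h0 h0).1
  have j8 := (A1_Wmul cW0 q0 g0 g0).1
  -- the primitive
  have hd : ∀ x, HasDerivAt (fun x => -2 * (W0 x * (w0 x * w2 x)) + 2 * (W1 x * (w0 x * w1 x))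
      - W2 x * (w0 x * w0 x) + W0 x * (w1 x * w1 x) + 2 * (W0 x * (w0 x * w1 x))
      - W1 x * (w0 x * w0 x) - 2 * (W0 x * (w0 x * G0 x)))
      (-2 * (W0 x * (w0 x * w3 x)) + 3 * (W1 x * (w1 x * w1 x)) - W3 x * (w0 x * w0 x)
        + 2 * (W0 x * (w1 x * w1 x)) + 2 * (W0 x * (w0 x * w2 x)) - W2 x * (w0 x * w0 x)
        - 2 * (W1 x * (w0 x * G0 x)) - 2 * (W0 x * (w1 x * G0 x))
        - 2 * (W0 x * (w0 x * G1 x))) x := by
    intro x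
    have a1 := ((dW0 x).mul ((dw0 x).mul (dw2 x))).const_mul (-2)
    have a2 := ((dW1 x).mul ((dw0 x).mul (dw1 x))).const_mul 2
    have a3 := (dW2 x).mul ((dw0 x).mul (dw0 x))
    have a4 := (dW0 x).mul ((dw1 x).mul (dw1 x))
    have a5 := ((dW0 x).mul ((dw0 x).mul (dw1 x))).const_mul 2
    have a6 := (dW1 x).mul ((dw0 x).mul (dw0 x))
    have a7 := ((dW0 x).mul ((dw0 x).mul (dG0 x))).const_mul 2
    have h := (((((a1.add a2).sub a3).add a4).add a5).sub a6).sub a7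
    refine h.congr_deriv ?_
    simp only [Pi.mul_apply]
    ring
  have hint : Integrable (fun x => -2 * (W0 x * (w0 x * w2 x)) + 2 * (W1 x * (w0 x * w1 x))
      - W2 x * (w0 x * w0 x) + W0 x * (w1 x * w1 x) + 2 * (W0 x * (w0 x * w1 x))
      - W1 x * (w0 x * w0 x) - 2 * (W0 x * (w0 x * G0 x))) :=
    ((((((i1.const_mul (-2)).add (i2.const_mul 2)).sub i3).add i4).add (i5.const_mul 2)).sub
      i6).sub (i7.const_mul 2)
  have hint' : Integrable (fun x => -2 * (W0 x * (w0 x * w3 x)) + 3 * (W1 x * (w1 x * w1 x))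
        - W3 x * (w0 x * w0 x)
        + 2 * (W0 x * (w1 x * w1 x)) + 2 * (W0 x * (w0 x * w2 x)) - W2 x * (w0 x * w0 x)
        - 2 * (W1 x * (w0 x * G0 x)) - 2 * (W0 x * (w1 x * G0 x))
        - 2 * (W0 x * (w0 x * G1 x))) :=
    ((((((((j1.const_mul (-2)).add (j2.const_mul 3)).sub j3).add (i4.const_mul 2)).add
      (i1.const_mul 2)).sub i3).sub (j4.const_mul 2)).sub (j5.const_mul 2)).sub (j6.const_mul 2)
  have hz := integral_eq_zero_of_hasDerivAt_of_integrable hd hint' hint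
  have hL : Integrable (fun x => W0 x * (2 * w0 x * (w2 x - w3 x - G1 x))) := by
    have h := ((i1.const_mul 2).sub (j1.const_mul 2)).sub (j6.const_mul 2)
    refine h.congr (Eventually.of_forall fun x => ?_)
    simp only [Pi.sub_apply]
    ring
  have hR : Integrable (fun x => W0 x * ((w0 x) ^ 2 + (G0 x) ^ 2)) := by
    refine (j7.add j8).congr (Eventually.of_forall fun x => ?_)
    simp only [Pi.add_apply]
    ring
  have hsub := integral_sub hL hint'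
  rw [hz, sub_zero] at hsub
  rw [← hsub, ← integral_const_mul]
  refine integral_mono (hL.sub hint') (hR.const_mul _) (fun x => ?_)
  simp only []
  have p0 := pos x
  have c1 : -(2 * W0 x + 3 * W1 x) * (w1 x) ^ 2 ≤ -(5 / 4) * W0 x * (w1 x) ^ 2 :=
    mul_le_mul_of_nonneg_right (by linarith [low x]) (sq_nonneg _)
  have c2 : (W3 x + W2 x) * (w0 x) ^ 2 ≤ 2 * c * W0 x * (w0 x) ^ 2 :=
    mul_le_mul_of_nonneg_right
      (by linarith [(le_abs_self (W3 x)).trans (b3 x), (le_abs_self (W2 x)).trans (b2 x)])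
      (sq_nonneg _)
  have c3 : 2 * W1 x * w0 x * G0 x ≤ c * W0 x * ((w0 x) ^ 2 + (G0 x) ^ 2) := by
    have e1 : 2 * W1 x * w0 x * G0 x ≤ |W1 x| * ((w0 x) ^ 2 + (G0 x) ^ 2) := by
      have e2 : 2 * W1 x * w0 x * G0 x ≤ |W1 x * (2 * w0 x * G0 x)| := by
        have := le_abs_self (W1 x * (2 * w0 x * G0 x))
        linarith
      rw [abs_mul] at e2
      refine e2.trans (mul_le_mul_of_nonneg_left ?_ (abs_nonneg _))
      rw [abs_le]
      constructor <;> nlinarith [sq_nonneg (w0 x + G0 x), sq_nonneg (w0 x - G0 x)]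
    exact e1.trans (mul_le_mul_of_nonneg_right (b1 x) (by positivity))
  have c4 : 2 * W0 x * w1 x * G0 x ≤ (5 / 4) * W0 x * (w1 x) ^ 2 + W0 x * (G0 x) ^ 2 := by
    have e1 : 2 * w1 x * G0 x ≤ (5 / 4) * (w1 x) ^ 2 + (G0 x) ^ 2 := by
      nlinarith [sq_nonneg (w1 x - G0 x), sq_nonneg (w1 x)]
    have e2 := mul_le_mul_of_nonneg_left e1 p0.le
    linarith
  have c5 : 0 ≤ 3 * c * (W0 x * (G0 x) ^ 2) + W0 x * (w0 x) ^ 2 := by positivity
  have c6 : c * W0 x * (G0 x) ^ 2 ≤ 3 * c * (W0 x * (G0 x) ^ 2) := by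
    have : 0 ≤ c * (W0 x * (G0 x) ^ 2) := by positivity
    linarith
  have c7 : 0 ≤ W0 x * (w0 x) ^ 2 := by positivity
  have key : W0 x * (2 * w0 x * (w2 x - w3 x - G1 x)) -
      (-2 * (W0 x * (w0 x * w3 x)) + 3 * (W1 x * (w1 x * w1 x)) - W3 x * (w0 x * w0 x)
        + 2 * (W0 x * (w1 x * w1 x)) + 2 * (W0 x * (w0 x * w2 x)) - W2 x * (w0 x * w0 x)
        - 2 * (W1 x * (w0 x * G0 x)) - 2 * (W0 x * (w1 x * G0 x))
        - 2 * (W0 x * (w0 x * G1 x))) =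
      -(2 * W0 x + 3 * W1 x) * (w1 x) ^ 2 + (W3 x + W2 x) * (w0 x) ^ 2
        + 2 * W1 x * w0 x * G0 x + 2 * W0 x * w1 x * G0 x := by ring
  rw [key]
  nlinarith [c1, c2, c3, c4, c5, c6, c7]

theorem E1 {c : ℝ} {W w G : ℝ → ℝ} (hc : 0 ≤ c) (hW : Wt c W) (hw : ContDiff ℝ ∞ w)
    (hG : ContDiff ℝ ∞ G) (h0 : MemLp w 2 volume) (h1 : MemLp (deriv w) 2 volume)
    (h2 : MemLp (iteratedDeriv 2 w) 2 volume) (h3 : MemLp (iteratedDeriv 3 w) 2 volume)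
    (g0 : MemLp G 2 volume) (g1 : MemLp (deriv G) 2 volume) :
    ∫ x, W x * (2 * w x * (iteratedDeriv 2 w x - iteratedDeriv 3 w x - deriv G x)) ≤
      (3 * c + 1) * ∫ x, W x * ((w x) ^ 2 + (G x) ^ 2) := by
  obtain ⟨C, hC⟩ := hW.bdd
  have key : ∀ f : ℝ → ℝ, ContDiff ℝ ∞ f → ∀ n : ℕ, ∀ x,
      HasDerivAt (iteratedDeriv n f) (iteratedDeriv (n + 1) f x) x := by
    intro f hf n x
    rw [iteratedDeriv_succ]
    exact ((hf.differentiable_iteratedDeriv n (by exact_mod_cast ENat.coe_lt_top n)) x).hasDerivAt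
  have k0 : ∀ f : ℝ → ℝ, ContDiff ℝ ∞ f → ∀ x, HasDerivAt f (deriv f x) x := fun f hf x =>
    ((hf.differentiable (by simp)) x).hasDerivAt
  have k1 : ∀ f : ℝ → ℝ, ContDiff ℝ ∞ f → ∀ x,
      HasDerivAt (deriv f) (iteratedDeriv 2 f x) x := by
    intro f hf x
    have h := key f hf 1 x
    rwa [iteratedDeriv_one] at h
  have cc : ∀ f : ℝ → ℝ, ContDiff ℝ ∞ f → ∀ n : ℕ, Continuous (iteratedDeriv n f) :=
    fun f hf n => hf.continuous_iteratedDeriv n (by exact_mod_cast le_top)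
  have hW1 : Continuous (deriv W) := by
    have h := cc W hW.smooth 1
    rwa [iteratedDeriv_one] at h
  exact E1_core hc hW.smooth.continuous hW1 (cc W hW.smooth 2) (cc W hW.smooth 3)
    (k0 W hW.smooth) (k1 W hW.smooth) (key W hW.smooth 2) (k0 w hw) (k1 w hw) (key w hw 2)
    (k0 G hG) hW.pos hC hW.low hW.b1 hW.b2 hW.b3 h0 h1 h2 h3 g0 g1

end H37KB
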