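import Pool.Agent.H37.KB.B1

/-!
# Row E2 of MP_95be7d_PDE (90 lines)

The mollified linear equation, pointwise in `x`.

Apply `Lin` with the test function `θ(z) = ρ(x-z)` (`B1_shift`): `θ' = -ρ'(x-z)`, `θ'' = ρ''(x-z)`, `θ''' = -ρ'''(x-z)`, so
`∫ (w(θ''+θ''') + Gθ') = mol ρ'' w x - mol ρ''' w x - mol ρ' G x` (split the integral: products of `L²` functions).
Continuity in `τ` of the integrand: `A2_pair` (or `B1_joint`).  `E2_deriv`: fundamental theorem of calculus at an interior point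
(`intervalIntegral.integral_hasDerivAt_right`; the integrand is continuous on `Icc 0 T`, a neighbourhood of `t ∈ Ioo 0 T`).
-/

open MeasureTheory Filter Topology Set
open scoped ContDiff

namespace H37KB

open H98KB

/-- right hand side of the mollified equation -/
noncomputable def rhs (ρ : ℝ → ℝ) (w G : ℝ → ℝ) (x : ℝ) : ℝ :=
  mol (iteratedDeriv 2 ρ) w x - mol (iteratedDeriv 3 ρ) w x - mol (deriv ρ) G x

theorem E2_slice {T : ℝ} {w : ℝ → ℝ → ℝ} {ρ : ℝ → ℝ} (hw : CL2 T w)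
    (h : ContDiff ℝ ∞ ρ) (hc : HasCompactSupport ρ) (j : ℕ) (x : ℝ) :
    ContinuousOn (fun τ => mol (iteratedDeriv j ρ) (w τ) x) (Icc 0 T) := by
  have h1 := B1_joint hw (B1_test h hc j).1 (B1_test h hc j).2.1
  have h2 : ContinuousOn (fun τ : ℝ => (τ, x)) (Icc 0 T) := by fun_prop
  exact h1.comp h2 (fun τ hτ => ⟨hτ, mem_univ _⟩)

theorem E2_cont {T : ℝ} {w G : ℝ → ℝ → ℝ} {ρ : ℝ → ℝ} (hw : CL2 T w) (hG : CL2 T G)
    (h : ContDiff ℝ ∞ ρ) (hc : HasCompactSupport ρ) (x : ℝ) :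
    ContinuousOn (fun τ => rhs ρ (w τ) (G τ) x) (Icc 0 T) := by
  unfold rhs
  have h1 := E2_slice hG h hc 1 x
  simp only [iteratedDeriv_one] at h1
  exact ((E2_slice hw h hc 2 x).sub (E2_slice hw h hc 3 x)).sub h1

theorem E2_rhs {v g ρ : ℝ → ℝ} (hv : MemLp v 2 volume) (hg : MemLp g 2 volume)
    (h : ContDiff ℝ ∞ ρ) (hc : HasCompactSupport ρ) (x : ℝ) :
    ∫ z, (v z * (iteratedDeriv 2 (fun z => ρ (x - z)) z +
      iteratedDeriv 3 (fun z => ρ (x - z)) z) + g z * deriv (fun z => ρ (x - z)) z) =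
      rhs ρ v g x := by
  have hs := (B1_shift h hc x).2.2.2
  have e : (fun z => v z * (iteratedDeriv 2 (fun z => ρ (x - z)) z +
      iteratedDeriv 3 (fun z => ρ (x - z)) z) + g z * deriv (fun z => ρ (x - z)) z) =
      fun z => (iteratedDeriv 2 ρ (x - z) * v z - iteratedDeriv 3 ρ (x - z) * v z) -
        deriv ρ (x - z) * g z := by
    funext z
    have h1 := hs 1 z
    rw [iteratedDeriv_one, iteratedDeriv_one] at h1
    rw [hs 2 z, hs 3 z, h1]
    ring
  have i2 : Integrable (fun z => iteratedDeriv 2 ρ (x - z) * v z) :=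
    A1_mul (B1_shift (B1_test h hc 2).1 (B1_test h hc 2).2.1 x).2.2.1 hv
  have i3 : Integrable (fun z => iteratedDeriv 3 ρ (x - z) * v z) :=
    A1_mul (B1_shift (B1_test h hc 3).1 (B1_test h hc 3).2.1 x).2.2.1 hv
  have i1 : Integrable (fun z => deriv ρ (x - z) * g z) := by
    have h1 := A1_mul (B1_shift (B1_test h hc 1).1 (B1_test h hc 1).2.1 x).2.2.1 hg
    simp only [iteratedDeriv_one] at h1
    exact h1
  have i4 : Integrable (fun z => iteratedDeriv 2 ρ (x - z) * v z -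
      iteratedDeriv 3 ρ (x - z) * v z) := i2.sub i3
  rw [e, integral_sub i4 i1, integral_sub i2 i3]
  rfl

theorem E2_int {T : ℝ} {w G : ℝ → ℝ → ℝ} {ρ : ℝ → ℝ} (hw : CL2 T w) (hG : CL2 T G)
    (hl : Lin T w G) (h : ContDiff ℝ ∞ ρ) (hc : HasCompactSupport ρ) (x t : ℝ)
    (ht : t ∈ Icc 0 T) :
    mol ρ (w t) x - mol ρ (w 0) x = ∫ τ in (0:ℝ)..t, rhs ρ (w τ) (G τ) x := by
  have h1 := hl (fun z => ρ (x - z)) (B1_shift h hc x).1 (B1_shift h hc x).2.1 t ht
  have e1 : ∀ s, ∫ z, w s z * ρ (x - z) = mol ρ (w s) x := fun s => by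
    unfold mol
    refine integral_congr_ae (Filter.Eventually.of_forall fun z => ?_)
    simp only
    ring
  rw [e1, e1] at h1
  rw [h1]
  refine intervalIntegral.integral_congr fun τ hτ => ?_
  rw [uIcc_of_le ht.1] at hτ
  have hτ' : τ ∈ Icc 0 T := ⟨hτ.1, hτ.2.trans ht.2⟩
  exact E2_rhs (hw.mem τ hτ') (hG.mem τ hτ') h hc x

theorem E2_deriv {T : ℝ} {w G : ℝ → ℝ → ℝ} {ρ : ℝ → ℝ} (hw : CL2 T w) (hG : CL2 T G)
    (hl : Lin T w G) (h : ContDiff ℝ ∞ ρ) (hc : HasCompactSupport ρ) (x t : ℝ)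
    (ht : t ∈ Ioo 0 T) :
    HasDerivAt (fun τ => mol ρ (w τ) x) (rhs ρ (w t) (G t) x) t := by
  have hcont := E2_cont hw hG h hc x
  have hin : IntervalIntegrable (fun τ => rhs ρ (w τ) (G τ) x) volume 0 t := by
    refine ContinuousOn.intervalIntegrable (hcont.mono ?_)
    rw [uIcc_of_le ht.1.le]
    exact Icc_subset_Icc le_rfl ht.2.le
  have hca : ContinuousAt (fun τ => rhs ρ (w τ) (G τ) x) t :=
    hcont.continuousAt (Icc_mem_nhds ht.1 ht.2)
  have hm : StronglyMeasurableAtFilter (fun τ => rhs ρ (w τ) (G τ) x) (𝓝 t) volume :=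
    (hcont.mono Ioo_subset_Icc_self).stronglyMeasurableAtFilter isOpen_Ioo t ht
  have hd := intervalIntegral.integral_hasDerivAt_right hin hm hca
  have hd2 := hd.const_add (mol ρ (w 0) x)
  refine hd2.congr_of_eventuallyEq ?_
  filter_upwards [Icc_mem_nhds ht.1 ht.2] with τ hτ
  have h1 := E2_int hw hG hl h hc x τ hτ
  linarith

end H37KB
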