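import Pool.Agent.H37.KB.E1
import Pool.Agent.H37.KB.E2
import Pool.Agent.H37.KB.B2

/-!
# Row E3 of MP_95be7d_PDE (170 lines)

The integrated energy inequality for the mollified function `m(τ,x) = mol ρ (w τ) x`; `g(τ,x) = mol ρ (G τ) x`, `r(τ,x) = rhs ρ (w τ) (G τ) x`.

1. Fixed `x`: `m(t,x)² - m(0,x)² = ∫_0^t 2 m r dτ` (FTC: `m(·,x)` is continuous on `[0,t]` (`B1_joint`) and has derivative `r` on `(0,T)` (`E2_deriv`), `r(·,x)` continuous on
   `[0,T]` (`E2_cont`); `intervalIntegral.integral_eq_sub_of_hasDerivAt_of_le` with the derivative inside).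
2. Multiply by `W x`, integrate in `x` and swap (Fubini): `(τ,x) ↦ W(x) 2 m r` is continuous on `Icc 0 T ×ˢ univ` (`B1_joint` for `ρ, ρ'', ρ''', ρ'`), for each
   `τ` its `L¹(dx)` norm is `≤ 2 C √(n2 m) √(n2 r) ≤ const` (`A1_Wmul`, `B2_CL2` + `A2_bdd` for the four mollified functions), so it is integrable on
   `(volume.restrict (Ioc 0 t)).prod volume` (`integrable_prod_iff`).
3. For each `τ`: `∫ W 2 m r dx ≤ (3c+1) ∫ W (m² + g²)` by `E1` (`r = iteratedDeriv 2 m - iteratedDeriv 3 m - deriv g` by `B1_iter`, `B1_deriv`; the hypotheses of `E1` by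
   `B1_smooth`, `B1_iter`, `B2_L2`, `B1_test`).
4. Integrate in `τ` (`intervalIntegral.integral_mono_on`); the right side is continuous in `τ` by `A2_W` for `B2_CL2`.
-/

open MeasureTheory Filter Topology Set
open scoped ContDiff

namespace H37KB

open H98KB

theorem E3 {T c : ℝ} {w G : ℝ → ℝ → ℝ} {ρ W : ℝ → ℝ} (hc0 : 0 ≤ c) (hW : Wt c W)
    (hw : CL2 T w) (hG : CL2 T G) (hl : Lin T w G) (h : ContDiff ℝ ∞ ρ)
    (hc : HasCompactSupport ρ) (t : ℝ) (ht : t ∈ Icc 0 T) :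
    ∫ x, W x * (mol ρ (w t) x) ^ 2 ≤ (∫ x, W x * (mol ρ (w 0) x) ^ 2) +
      (3 * c + 1) * ∫ τ in (0:ℝ)..t, ∫ x, W x * ((mol ρ (w τ) x) ^ 2 + (mol ρ (G τ) x) ^ 2) := by
  obtain ⟨C, hC⟩ := hW.bdd
  have hWc : Continuous W := hW.smooth.continuous
  have hWb : ∀ x, |W x| ≤ C := fun x => by
    rw [abs_of_pos (hW.pos x)]
    exact hC x
  have hC0 : 0 ≤ C := (abs_nonneg (W 0)).trans (hWb 0)
  have h0T : (0:ℝ) ∈ Icc (0:ℝ) T := ⟨le_rfl, ht.1.trans ht.2⟩
  have hsub : Icc (0:ℝ) t ⊆ Icc 0 T := Icc_subset_Icc_right ht.2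
  -- test functions
  obtain ⟨s2, c2, -⟩ := B1_test h hc 2
  obtain ⟨s3, c3, -⟩ := B1_test h hc 3
  obtain ⟨s1, c1, -⟩ := B1_test h hc 1
  rw [iteratedDeriv_one] at s1 c1
  -- CL2 facts
  have km : CL2 T (fun τ => mol ρ (w τ)) := B2_CL2 hw h hc
  have kg : CL2 T (fun τ => mol ρ (G τ)) := B2_CL2 hG h hc
  have kr : CL2 T (fun τ x => rhs ρ (w τ) (G τ) x) :=
    A2_sub (A2_sub (B2_CL2 hw s2 c2) (B2_CL2 hw s3 c3)) (B2_CL2 hG s1 c1)
  obtain ⟨Mm, hMm0, hMm⟩ := A2_bdd km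
  obtain ⟨Mr, hMr0, hMr⟩ := A2_bdd kr
  let F : ℝ → ℝ → ℝ := fun τ x => W x * (2 * mol ρ (w τ) x * rhs ρ (w τ) (G τ) x)
  have hFeq : ∀ τ x, F τ x = 2 * (W x * (mol ρ (w τ) x * rhs ρ (w τ) (G τ) x)) := fun τ x => by
    show W x * (2 * mol ρ (w τ) x * rhs ρ (w τ) (G τ) x) = _
    ring
  -- joint continuity
  have jm : ContinuousOn (fun q : ℝ × ℝ => mol ρ (w q.1) q.2) (Icc 0 T ×ˢ univ) := B1_joint hw h hc
  have jr : ContinuousOn (fun q : ℝ × ℝ => rhs ρ (w q.1) (G q.1) q.2) (Icc 0 T ×ˢ univ) :=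
    ((B1_joint hw s2 c2).sub (B1_joint hw s3 c3)).sub (B1_joint hG s1 c1)
  have jF : ContinuousOn (fun q : ℝ × ℝ => F q.1 q.2) (Icc 0 T ×ˢ univ) := by
    have hWq : ContinuousOn (fun q : ℝ × ℝ => W q.2) (Icc 0 T ×ˢ univ) :=
      (hWc.comp continuous_snd).continuousOn
    exact hWq.mul ((continuousOn_const.mul jm).mul jr)
  have hmeas : AEStronglyMeasurable (fun q : ℝ × ℝ => F q.1 q.2)
      ((volume.restrict (Ioc (0:ℝ) t)).prod (volume : Measure ℝ)) := by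
    have e : (volume.restrict (Ioc (0:ℝ) t)).prod (volume : Measure ℝ) =
        ((volume : Measure ℝ).prod (volume : Measure ℝ)).restrict (Ioc (0:ℝ) t ×ˢ univ) := by
      rw [← Measure.prod_restrict, Measure.restrict_univ]
    rw [e]
    refine (jF.mono ?_).aestronglyMeasurable (measurableSet_Ioc.prod MeasurableSet.univ)
    exact prod_mono (Ioc_subset_Icc_self.trans hsub) le_rfl
  have hFint : ∀ τ ∈ Icc 0 T, Integrable (fun x => F τ x) ∧
      ∫ x, ‖F τ x‖ ≤ 2 * (C * (√Mm * √Mr)) := by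
    intro τ hτ
    obtain ⟨i1, i2⟩ := A1_Wmul hWc hWb (km.mem τ hτ) (kr.mem τ hτ)
    constructor
    · have := i1.const_mul 2
      refine this.congr (Eventually.of_forall fun x => ?_)
      exact (hFeq τ x).symm
    · have e : ∀ x, ‖F τ x‖ = 2 * |W x * (mol ρ (w τ) x * rhs ρ (w τ) (G τ) x)| := fun x => by
        rw [hFeq, Real.norm_eq_abs, abs_mul, abs_of_pos (by norm_num : (0:ℝ) < 2)]
      simp_rw [e]
      rw [integral_const_mul]
      refine mul_le_mul_of_nonneg_left (i2.trans ?_) (by norm_num)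
      refine mul_le_mul_of_nonneg_left ?_ hC0
      exact mul_le_mul (Real.sqrt_le_sqrt (hMm τ hτ)) (Real.sqrt_le_sqrt (hMr τ hτ))
        (Real.sqrt_nonneg _) (Real.sqrt_nonneg _)
  have hint : Integrable (fun q : ℝ × ℝ => F q.1 q.2)
      ((volume.restrict (Ioc (0:ℝ) t)).prod (volume : Measure ℝ)) := by
    rw [integrable_prod_iff hmeas]
    constructor
    · refine (ae_restrict_iff' measurableSet_Ioc).2 (Eventually.of_forall fun τ hτ => ?_)
      exact (hFint τ (hsub (Ioc_subset_Icc_self hτ))).1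
    · have hm2 : AEStronglyMeasurable (fun τ => ∫ x, ‖F τ x‖) (volume.restrict (Ioc (0:ℝ) t)) :=
        hmeas.norm.integral_prod_right'
      refine Integrable.mono' (integrable_const (2 * (C * (√Mm * √Mr)))) hm2 ?_
      refine (ae_restrict_iff' measurableSet_Ioc).2 (Eventually.of_forall fun τ hτ => ?_)
      rw [Real.norm_eq_abs, abs_of_nonneg (integral_nonneg fun x => norm_nonneg _)]
      exact (hFint τ (hsub (Ioc_subset_Icc_self hτ))).2
  -- step 1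
  have step1 : ∀ x, (mol ρ (w t) x) ^ 2 - (mol ρ (w 0) x) ^ 2 =
      ∫ τ in (0:ℝ)..t, 2 * mol ρ (w τ) x * rhs ρ (w τ) (G τ) x := by
    intro x
    have cm : ContinuousOn (fun τ => mol ρ (w τ) x) (Icc 0 T) := by
      have : ContinuousOn ((fun q : ℝ × ℝ => mol ρ (w q.1) q.2) ∘ fun τ : ℝ => (τ, x)) (Icc 0 T) :=
        jm.comp (by fun_prop) (fun τ hτ => ⟨hτ, mem_univ _⟩)
      exact this
    have cr := E2_cont hw hG h hc x
    symm
    refine intervalIntegral.integral_eq_sub_of_hasDerivAt_of_le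
      (f := fun τ => (mol ρ (w τ) x) ^ 2) ht.1 ((cm.mono hsub).pow 2) ?_ ?_
    · intro τ hτ
      have hτ' : τ ∈ Ioo 0 T := ⟨hτ.1, hτ.2.trans_le ht.2⟩
      have hd := (E2_deriv hw hG hl h hc x τ hτ').pow 2
      refine hd.congr_deriv ?_
      simp
    · have : ContinuousOn (fun τ => 2 * mol ρ (w τ) x * rhs ρ (w τ) (G τ) x) (Icc 0 t) :=
        ((continuousOn_const.mul cm).mul cr).mono hsub
      rw [← uIcc_of_le ht.1] at this
      exact this.intervalIntegrable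
  -- step 2
  have step2 : ∫ x, W x * ((mol ρ (w t) x) ^ 2 - (mol ρ (w 0) x) ^ 2) =
      ∫ τ in (0:ℝ)..t, ∫ x, F τ x := by
    have e : ∀ x, W x * ((mol ρ (w t) x) ^ 2 - (mol ρ (w 0) x) ^ 2) = ∫ τ in Ioc (0:ℝ) t, F τ x := by
      intro x
      rw [step1 x, ← intervalIntegral.integral_of_le ht.1, ← intervalIntegral.integral_const_mul]
    simp_rw [e]
    rw [intervalIntegral.integral_of_le ht.1]
    exact (integral_integral_swap (f := fun τ x => F τ x) hint).symm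
  -- step 3
  have step3 : ∀ τ ∈ Icc 0 T, ∫ x, F τ x ≤
      (3 * c + 1) * ∫ x, W x * ((mol ρ (w τ) x) ^ 2 + (mol ρ (G τ) x) ^ 2) := by
    intro τ hτ
    have hwτ := hw.mem τ hτ
    have hGτ := hG.mem τ hτ
    have d2 : iteratedDeriv 2 (mol ρ (w τ)) = mol (iteratedDeriv 2 ρ) (w τ) := B1_iter h hc hwτ 2
    have d3 : iteratedDeriv 3 (mol ρ (w τ)) = mol (iteratedDeriv 3 ρ) (w τ) := B1_iter h hc hwτ 3
    have d1 : deriv (mol ρ (w τ)) = mol (deriv ρ) (w τ) := B1_deriv h hc hwτ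
    have e1 : deriv (mol ρ (G τ)) = mol (deriv ρ) (G τ) := B1_deriv h hc hGτ
    have key := E1 hc0 hW (B1_smooth h hc hwτ) (B1_smooth h hc hGτ) (B2_L2 h hc hwτ).1
      (by rw [d1]; exact (B2_L2 s1 c1 hwτ).1) (by rw [d2]; exact (B2_L2 s2 c2 hwτ).1)
      (by rw [d3]; exact (B2_L2 s3 c3 hwτ).1) (B2_L2 h hc hGτ).1
      (by rw [e1]; exact (B2_L2 s1 c1 hGτ).1)
    rw [d2, d3, e1] at key
    exact key
  -- step 4
  have hR : ContinuousOn (fun τ => ∫ x, W x * ((mol ρ (w τ) x) ^ 2 + (mol ρ (G τ) x) ^ 2))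
      (Icc 0 T) := by
    have a1 := (A2_W km hWc hWb).add (A2_W kg hWc hWb)
    refine a1.congr fun τ hτ => ?_
    have i1 := (A1_W hWc hWb (km.mem τ hτ)).1
    have i2 := (A1_W hWc hWb (kg.mem τ hτ)).1
    show ∫ x, W x * ((mol ρ (w τ) x) ^ 2 + (mol ρ (G τ) x) ^ 2) =
      (∫ x, W x * (mol ρ (w τ) x) ^ 2) + ∫ x, W x * (mol ρ (G τ) x) ^ 2
    rw [← integral_add i1 i2]
    refine integral_congr_ae (Eventually.of_forall fun x => ?_)
    show W x * ((mol ρ (w τ) x) ^ 2 + (mol ρ (G τ) x) ^ 2) = _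
    ring
  have step4 : ∫ τ in (0:ℝ)..t, ∫ x, F τ x ≤
      (3 * c + 1) * ∫ τ in (0:ℝ)..t, ∫ x, W x * ((mol ρ (w τ) x) ^ 2 + (mol ρ (G τ) x) ^ 2) := by
    rw [← intervalIntegral.integral_const_mul]
    refine intervalIntegral.integral_mono_on ht.1 ?_ ?_ (fun τ hτ => step3 τ (hsub hτ))
    · rw [intervalIntegrable_iff_integrableOn_Ioc_of_le ht.1]
      exact hint.integral_prod_left
    · have : ContinuousOn (fun τ => (3 * c + 1) *
          ∫ x, W x * ((mol ρ (w τ) x) ^ 2 + (mol ρ (G τ) x) ^ 2)) (Icc 0 t) :=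
        (continuousOn_const.mul hR).mono hsub
      rw [← uIcc_of_le ht.1] at this
      exact this.intervalIntegrable
  have it := (A1_W hWc hWb (km.mem t ht)).1
  have i0 := (A1_W hWc hWb (km.mem 0 h0T)).1
  have fin : ∫ x, W x * ((mol ρ (w t) x) ^ 2 - (mol ρ (w 0) x) ^ 2) =
      (∫ x, W x * (mol ρ (w t) x) ^ 2) - ∫ x, W x * (mol ρ (w 0) x) ^ 2 := by
    rw [← integral_sub it i0]
    refine integral_congr_ae (Eventually.of_forall fun x => ?_)
    show W x * ((mol ρ (w t) x) ^ 2 - (mol ρ (w 0) x) ^ 2) = _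
    ring
  have := step2
  rw [fin] at this
  linarith

end H37KB
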