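import Pool.Agent.H37.KB.E3
import Pool.Agent.H37.KB.B3

/-!
# Row E4 of MP_95be7d_PDE (120 lines)

The energy inequality for weak solutions: let `n → ∞` in `E3` with mollifiers `ρ n`, `Mol (1/(n+1)) (ρ n)` (`B3_exists`, `B2_cpt`).

For `v ∈ L²`: `∫ W (mol (ρ n) v)² → ∫ W v²` by `A1_diff`, `B3_tendsto` and `n2 (mol (ρ n) v) ≤ n2 v` (`B2_L2`, `∫ |ρ| = ∫ ρ = 1`).
Time integral: dominated convergence (`intervalIntegral.tendsto_integral_filter_of_dominated_convergence`): for each `τ` convergence by the above, bound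
`C (n2 (w τ) + n2 (G τ)) ≤ C (M_w + M_G)` (`A1_W`, `A2_bdd`), measurability from continuity in `τ` on `Icc 0 T` (`A2_W`, `B2_CL2`).
-/

open MeasureTheory Filter Topology Set
open scoped ContDiff

namespace H37KB

open H98KB

theorem E4_n2 {r : ℝ} {ρ v : ℝ → ℝ} (hρ : Mol r ρ) (hv : MemLp v 2 volume) :
    MemLp (mol ρ v) 2 volume ∧ n2 (mol ρ v) ≤ n2 v := by
  obtain ⟨h1, h2⟩ := B2_L2 hρ.smooth (B2_cpt hρ) hv
  refine ⟨h1, ?_⟩
  have e : ∫ x, |ρ x| = 1 := by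
    rw [← hρ.int]
    exact integral_congr_ae (Eventually.of_forall fun x => abs_of_nonneg (hρ.nonneg x))
  rw [e, one_pow, one_mul] at h2
  exact h2

theorem E4_lim {W v : ℝ → ℝ} {C : ℝ} (hW : Continuous W) (hb : ∀ x, |W x| ≤ C)
    (hv : MemLp v 2 volume) {ρ : ℕ → ℝ → ℝ} (hρ : ∀ n : ℕ, Mol (1 / ((n : ℝ) + 1)) (ρ n)) :
    Tendsto (fun n => ∫ x, W x * (mol (ρ n) v x) ^ 2) atTop (𝓝 (∫ x, W x * (v x) ^ 2)) := by
  have hC : 0 ≤ C := (abs_nonneg (W 0)).trans (hb 0)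
  rw [tendsto_iff_norm_sub_tendsto_zero]
  have h1 : Tendsto (fun n => C * (√(n2 (fun x => mol (ρ n) v x - v x)) * √(2 * n2 v + 2 * n2 v)))
      atTop (𝓝 0) := by
    have h2 := ((Real.continuous_sqrt.tendsto 0).comp (B3_tendsto hv hρ)).mul_const
      (√(2 * n2 v + 2 * n2 v))
    have h3 := h2.const_mul C
    rw [Real.sqrt_zero, zero_mul, mul_zero] at h3
    exact h3
  refine squeeze_zero (fun n => norm_nonneg _) (fun n => ?_) h1
  obtain ⟨hm, hle⟩ := E4_n2 (hρ n) hv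
  rw [Real.norm_eq_abs]
  refine (A1_diff hW hb hm hv).trans ?_
  refine mul_le_mul_of_nonneg_left ?_ hC
  refine mul_le_mul_of_nonneg_left ?_ (Real.sqrt_nonneg _)
  exact Real.sqrt_le_sqrt (by linarith)

theorem E4 {T c : ℝ} {w G : ℝ → ℝ → ℝ} {W : ℝ → ℝ} (hc0 : 0 ≤ c) (hW : Wt c W)
    (hw : CL2 T w) (hG : CL2 T G) (hl : Lin T w G) (t : ℝ) (ht : t ∈ Icc 0 T) :
    ∫ x, W x * (w t x) ^ 2 ≤ (∫ x, W x * (w 0 x) ^ 2) +
      (3 * c + 1) * ∫ τ in (0:ℝ)..t, ∫ x, W x * ((w τ x) ^ 2 + (G τ x) ^ 2) := by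
  obtain ⟨C, hC⟩ := hW.bdd
  have hWc : Continuous W := hW.smooth.continuous
  have hWb : ∀ x, |W x| ≤ C := fun x => by
    rw [abs_of_pos (hW.pos x)]
    exact hC x
  have hC0 : 0 ≤ C := (abs_nonneg (W 0)).trans (hWb 0)
  have h0T : (0:ℝ) ∈ Icc (0:ℝ) T := ⟨le_rfl, ht.1.trans ht.2⟩
  have hsub : Icc (0:ℝ) t ⊆ Icc 0 T := Icc_subset_Icc_right ht.2
  have hex : ∀ n : ℕ, ∃ ρ, Mol (1 / ((n : ℝ) + 1)) ρ := fun n => B3_exists _ (by positivity)
  choose ρ hρ using hex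
  obtain ⟨Mw, hMw0, hMw⟩ := A2_bdd hw
  obtain ⟨MG, hMG0, hMG⟩ := A2_bdd hG
  have km : ∀ n, CL2 T (fun τ => mol (ρ n) (w τ)) := fun n =>
    B2_CL2 hw (hρ n).smooth (B2_cpt (hρ n))
  have kg : ∀ n, CL2 T (fun τ => mol (ρ n) (G τ)) := fun n =>
    B2_CL2 hG (hρ n).smooth (B2_cpt (hρ n))
  -- splitting of the inner integral
  have split : ∀ (f g : ℝ → ℝ), MemLp f 2 volume → MemLp g 2 volume →
      ∫ x, W x * ((f x) ^ 2 + (g x) ^ 2) = (∫ x, W x * (f x) ^ 2) + ∫ x, W x * (g x) ^ 2 := by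
    intro f g hf hg
    rw [← integral_add (A1_W hWc hWb hf).1 (A1_W hWc hWb hg).1]
    refine integral_congr_ae (Eventually.of_forall fun x => ?_)
    simp only
    ring
  have hlim : Tendsto (fun n => ∫ τ in (0:ℝ)..t,
      ∫ x, W x * ((mol (ρ n) (w τ) x) ^ 2 + (mol (ρ n) (G τ) x) ^ 2)) atTop
      (𝓝 (∫ τ in (0:ℝ)..t, ∫ x, W x * ((w τ x) ^ 2 + (G τ x) ^ 2))) := by
    refine intervalIntegral.tendsto_integral_filter_of_dominated_convergence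
      (fun _ => C * (Mw + MG)) ?_ ?_ ?_ ?_
    · refine Eventually.of_forall fun n => ?_
      rw [uIoc_of_le ht.1]
      have c1 : ContinuousOn (fun τ => (∫ x, W x * (mol (ρ n) (w τ) x) ^ 2) +
          ∫ x, W x * (mol (ρ n) (G τ) x) ^ 2) (Icc 0 T) :=
        (A2_W (km n) hWc hWb).add (A2_W (kg n) hWc hWb)
      have c2 : ContinuousOn (fun τ =>
          ∫ x, W x * ((mol (ρ n) (w τ) x) ^ 2 + (mol (ρ n) (G τ) x) ^ 2)) (Icc 0 T) :=
        c1.congr fun τ hτ => split _ _ ((km n).mem τ hτ) ((kg n).mem τ hτ)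
      exact (c2.mono (Ioc_subset_Icc_self.trans hsub)).aestronglyMeasurable measurableSet_Ioc
    · refine Eventually.of_forall fun n => Eventually.of_forall fun τ hτ => ?_
      rw [uIoc_of_le ht.1] at hτ
      have hτT := hsub (Ioc_subset_Icc_self hτ)
      obtain ⟨m1, m2⟩ := E4_n2 (hρ n) (hw.mem τ hτT)
      obtain ⟨g1, g2⟩ := E4_n2 (hρ n) (hG.mem τ hτT)
      rw [split _ _ m1 g1]
      refine (norm_add_le _ _).trans ?_
      rw [Real.norm_eq_abs, Real.norm_eq_abs, mul_add]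
      refine add_le_add ?_ ?_
      · exact (A1_W hWc hWb m1).2.trans (mul_le_mul_of_nonneg_left (m2.trans (hMw τ hτT)) hC0)
      · exact (A1_W hWc hWb g1).2.trans (mul_le_mul_of_nonneg_left (g2.trans (hMG τ hτT)) hC0)
    · exact intervalIntegrable_const
    · refine Eventually.of_forall fun τ hτ => ?_
      rw [uIoc_of_le ht.1] at hτ
      have hτT := hsub (Ioc_subset_Icc_self hτ)
      rw [split _ _ (hw.mem τ hτT) (hG.mem τ hτT)]
      have e : (fun n => ∫ x, W x * ((mol (ρ n) (w τ) x) ^ 2 + (mol (ρ n) (G τ) x) ^ 2)) =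
          fun n => (∫ x, W x * (mol (ρ n) (w τ) x) ^ 2) + ∫ x, W x * (mol (ρ n) (G τ) x) ^ 2 := by
        funext n
        exact split _ _ (E4_n2 (hρ n) (hw.mem τ hτT)).1 (E4_n2 (hρ n) (hG.mem τ hτT)).1
      rw [e]
      exact (E4_lim hWc hWb (hw.mem τ hτT) hρ).add (E4_lim hWc hWb (hG.mem τ hτT) hρ)
  refine le_of_tendsto_of_tendsto' (E4_lim hWc hWb (hw.mem t ht) hρ)
    ((E4_lim hWc hWb (hw.mem 0 h0T) hρ).add (hlim.const_mul (3 * c + 1))) fun n => ?_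
  exact E3 hc0 hW hw hG hl (hρ n).smooth (B2_cpt (hρ n)) t ht

end H37KB
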