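import Pool.Agent.H37.KB.Base

/-!
# Row F1 of MP_95be7d_PDE
-/

open MeasureTheory Filter Topology Set
open scoped ContDiff

namespace H37KB

open H98KB

theorem F1 {T C : ℝ} {y : ℝ → ℝ} (hC : 0 ≤ C) (hy : ContinuousOn y (Icc 0 T))
    (h : ∀ t ∈ Icc 0 T, y t ≤ y 0 + C * ∫ τ in (0:ℝ)..t, y τ) (t : ℝ) (ht : t ∈ Icc 0 T) :
    y t ≤ y 0 * Real.exp (C * t) := by
  have hT : 0 ≤ T := ht.1.trans ht.2
  set Y : ℝ → ℝ := fun t => ∫ τ in (0:ℝ)..t, y τ with hY
  have hint : IntervalIntegrable y volume 0 T := by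
    apply ContinuousOn.intervalIntegrable
    rwa [uIcc_of_le hT]
  have hYc : ContinuousOn Y (Icc 0 T) := by
    have h1 : IntegrableOn y (uIcc 0 T) volume := by
      rw [uIcc_of_le hT]
      exact hy.integrableOn_Icc
    have h2 := intervalIntegral.continuousOn_primitive_interval h1
    rwa [uIcc_of_le hT] at h2
  have hYd : ∀ s ∈ Ioo 0 T, HasDerivAt Y (y s) s := by
    intro s hs
    apply intervalIntegral.integral_hasDerivAt_right
    · apply hint.mono_set
      rw [uIcc_of_le hT, uIcc_of_le hs.1.le]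
      exact Icc_subset_Icc le_rfl hs.2.le
    · exact (hy.mono Ioo_subset_Icc_self).stronglyMeasurableAtFilter isOpen_Ioo s hs
    · exact hy.continuousAt (Icc_mem_nhds hs.1 hs.2)
  set Z : ℝ → ℝ := fun t => (y 0 + C * Y t) * Real.exp (-(C * t)) with hZ
  have hZc : ContinuousOn Z (Icc 0 T) := by
    apply ContinuousOn.mul
    · exact continuousOn_const.add (continuousOn_const.mul hYc)
    · exact (Real.continuous_exp.comp (continuous_const.mul continuous_id).neg).continuousOn
  have hZd : ∀ s ∈ Ioo 0 T, HasDerivAt Z (C * (y s - (y 0 + C * Y s)) * Real.exp (-(C * s))) s := by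
    intro s hs
    have e1 : HasDerivAt (fun t => y 0 + C * Y t) (C * y s) s :=
      ((hYd s hs).const_mul C).const_add (y 0)
    have e2 : HasDerivAt (fun t : ℝ => Real.exp (-(C * t))) (Real.exp (-(C * s)) * (-(C * 1))) s := by
      have e3 : HasDerivAt (fun t : ℝ => -(C * t)) (-(C * 1)) s :=
        ((hasDerivAt_id s).const_mul C).neg
      exact e3.exp
    have e4 := e1.mul e2
    refine e4.congr_deriv ?_
    ring
  have hanti : AntitoneOn Z (Icc 0 T) := by
    apply antitoneOn_of_deriv_nonpos (convex_Icc 0 T) hZc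
    · intro s hs
      rw [interior_Icc] at hs
      exact (hZd s hs).differentiableAt.differentiableWithinAt
    · intro s hs
      rw [interior_Icc] at hs
      rw [(hZd s hs).deriv]
      have h1 := h s ⟨hs.1.le, hs.2.le⟩
      have h2 : y s - (y 0 + C * Y s) ≤ 0 := by
        have : y s ≤ y 0 + C * Y s := h1
        linarith
      exact mul_nonpos_of_nonpos_of_nonneg (mul_nonpos_of_nonneg_of_nonpos hC h2) (Real.exp_pos _).le
  have h3 : Z t ≤ Z 0 := hanti ⟨le_rfl, hT⟩ ht ht.1
  have h4 : Z 0 = y 0 := by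
    simp [hZ, hY]
  rw [h4] at h3
  have h5 : y t ≤ y 0 + C * Y t := h t ht
  have h6 : y 0 + C * Y t = Z t * Real.exp (C * t) := by
    simp only [hZ]
    rw [mul_assoc, ← Real.exp_add]
    simp
  rw [h6] at h5
  exact h5.trans (mul_le_mul_of_nonneg_right h3 (Real.exp_pos _).le)

theorem F2 {T : ℝ} {D : ℝ → ℝ} (hT : 0 ≤ T) (hD : ContinuousOn D (Icc 0 T)) (h0 : D 0 < 1)
    (h : ∀ s ∈ Icc 0 T, (∀ t ∈ Icc 0 s, D t ≤ 1) → D s < 1) : ∀ t ∈ Icc 0 T, D t < 1 := by
  by_contra hne
  push_neg at hne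
  obtain ⟨t₀, ht₀, hDt₀⟩ := hne
  set S : Set ℝ := Icc 0 T ∩ D ⁻¹' (Ici 1) with hS
  have hSc : IsCompact S := by
    apply IsCompact.of_isClosed_subset isCompact_Icc
    · exact hD.preimage_isClosed_of_isClosed isClosed_Icc isClosed_Ici
    · exact inter_subset_left
  have hSn : S.Nonempty := ⟨t₀, ht₀, hDt₀⟩
  obtain ⟨s, hs, hmin⟩ := hSc.exists_isLeast hSn
  have hsT : s ∈ Icc 0 T := hs.1
  have hs1 : 1 ≤ D s := hs.2
  have hlt : ∀ t ∈ Icc 0 T, t < s → D t < 1 := by
    intro t ht hts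
    by_contra hc
    push_neg at hc
    have := hmin ⟨ht, hc⟩
    linarith
  have hs0 : 0 < s := by
    rcases hsT.1.lt_or_eq with h1 | h1
    · exact h1
    · rw [← h1] at hs1
      linarith
  have hle : D s ≤ 1 := by
    have hc : ContinuousWithinAt D (Ico 0 s) s := by
      apply (hD s hsT).mono
      intro x hx
      exact ⟨hx.1, hx.2.le.trans hsT.2⟩
    have hne : (𝓝[Ico 0 s] s).NeBot := by
      rw [← mem_closure_iff_nhdsWithin_neBot, closure_Ico hs0.ne]
      exact ⟨hs0.le, le_rfl⟩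
    apply le_of_tendsto (f := D) (x := 𝓝[Ico 0 s] s) hc
    filter_upwards [self_mem_nhdsWithin] with x hx
    exact (hlt x ⟨hx.1, hx.2.le.trans hsT.2⟩ hx.2).le
  have := h s hsT (by
    intro t ht
    rcases ht.2.lt_or_eq with h1 | h1
    · exact (hlt t ⟨ht.1, ht.2.trans hsT.2⟩ h1).le
    · rw [h1]; exact hle)
  linarith

theorem F3 {F : ℕ → ℝ → ℝ} {f : ℝ → ℝ} {K : ℝ} (h0 : ∀ n x, 0 ≤ F n x)
    (hi : ∀ n, Integrable (F n)) (hb : ∀ n, ∫ x, F n x ≤ K)
    (hl : ∀ x, Tendsto (fun n => F n x) atTop (𝓝 (f x))) :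
    Integrable f ∧ ∫ x, f x ≤ K := by
  have hf0 : ∀ x, 0 ≤ f x := fun x => ge_of_tendsto' (hl x) (fun n => h0 n x)
  have hfm : AEStronglyMeasurable f volume :=
    aestronglyMeasurable_of_tendsto_ae atTop (fun n => (hi n).aestronglyMeasurable)
      (Eventually.of_forall hl)
  have hK : 0 ≤ K := (integral_nonneg (h0 0)).trans (hb 0)
  have hlim : ∀ x, Tendsto (fun n => ENNReal.ofReal (F n x)) atTop (𝓝 (ENNReal.ofReal (f x))) :=
    fun x => (ENNReal.continuous_ofReal.tendsto _).comp (hl x)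
  have hle : ∫⁻ x, ENNReal.ofReal (f x) ≤ ENNReal.ofReal K := by
    calc ∫⁻ x, ENNReal.ofReal (f x)
        = ∫⁻ x, liminf (fun n => ENNReal.ofReal (F n x)) atTop := by
          apply lintegral_congr
          intro x
          exact (hlim x).liminf_eq.symm
      _ ≤ liminf (fun n => ∫⁻ x, ENNReal.ofReal (F n x)) atTop := by
          apply lintegral_liminf_le'
          intro n
          exact (hi n).aestronglyMeasurable.aemeasurable.ennreal_ofReal
      _ ≤ ENNReal.ofReal K := by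
          apply liminf_le_of_le
          · isBoundedDefault
          intro b hb'
          obtain ⟨n, hn⟩ := hb'.exists
          refine hn.trans ?_
          rw [← ofReal_integral_eq_lintegral_ofReal (hi n) (Eventually.of_forall (h0 n))]
          exact ENNReal.ofReal_le_ofReal (hb n)
  have hfi : Integrable f := by
    refine ⟨hfm, ?_⟩
    rw [hasFiniteIntegral_iff_ofReal (Eventually.of_forall hf0)]
    exact hle.trans_lt ENNReal.ofReal_lt_top
  refine ⟨hfi, ?_⟩
  have h5 : ENNReal.ofReal (∫ x, f x) ≤ ENNReal.ofReal K := by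
    rw [ofReal_integral_eq_lintegral_ofReal hfi (Eventually.of_forall hf0)]
    exact hle
  exact (ENNReal.ofReal_le_ofReal_iff hK).1 h5

end H37KB
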