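import Pool.Agent.H37.KB.Base

/-!
# Row G0 of MP_95be7d_PDE (60 lines)

Elementary inequalities for `fl k u = u^(k+1)/(k+1)`: telescoping `a^n - b^n = (a-b) Σ a^i b^(n-1-i)` (`Commute.mul_geom_sum₂` / `geom_sum₂`), each
term is bounded by a power of `max |a| |b|`.  (`G0_fl2`: `|fl a - fl b| ≤ max(|a|,|b|)^k |a-b|` and `max^k ≤ S^(k-1) (|a|+|b|)`.)
-/

open MeasureTheory Filter Topology Set
open scoped ContDiff

namespace H37KB

open H98KB

theorem pow_sub_pow_le (n : ℕ) {S a b : ℝ} (ha : |a| ≤ S) (hb : |b| ≤ S) :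
    |a ^ (n + 1) - b ^ (n + 1)| ≤ (n + 1) * S ^ n * |a - b| := by
  have hS : 0 ≤ S := (abs_nonneg a).trans ha
  have h := Commute.geom_sum₂_mul (Commute.all a b) (n + 1)
  rw [← h, abs_mul]
  refine mul_le_mul_of_nonneg_right ?_ (abs_nonneg _)
  refine (Finset.abs_sum_le_sum_abs _ _).trans ?_
  have h1 : ∀ i ∈ Finset.range (n + 1), |a ^ i * b ^ (n + 1 - 1 - i)| ≤ S ^ n := by
    intro i hi
    have hi' : i ≤ n := by
      have := Finset.mem_range.1 hi
      omega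
    rw [abs_mul, abs_pow, abs_pow]
    calc |a| ^ i * |b| ^ (n + 1 - 1 - i) ≤ S ^ i * S ^ (n + 1 - 1 - i) :=
          mul_le_mul (pow_le_pow_left₀ (abs_nonneg _) ha _)
            (pow_le_pow_left₀ (abs_nonneg _) hb _) (by positivity) (by positivity)
      _ = S ^ n := by
          rw [← pow_add]
          congr 1
          omega
  calc ∑ i ∈ Finset.range (n + 1), |a ^ i * b ^ (n + 1 - 1 - i)|
      ≤ ∑ _i ∈ Finset.range (n + 1), S ^ n := Finset.sum_le_sum h1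
    _ = (n + 1) * S ^ n := by
        rw [Finset.sum_const, Finset.card_range, nsmul_eq_mul]
        push_cast
        ring

theorem G0_fl (k : ℕ) {S a b : ℝ} (ha : |a| ≤ S) (hb : |b| ≤ S) :
    |fl k a - fl k b| ≤ S ^ k * |a - b| := by
  have h := pow_sub_pow_le k ha hb
  have hk : (0 : ℝ) < (k : ℝ) + 1 := by positivity
  have e : fl k a - fl k b = (a ^ (k + 1) - b ^ (k + 1)) / ((k : ℝ) + 1) := by
    simp only [fl]
    ring
  rw [e, abs_div, abs_of_pos hk, div_le_iff₀ hk]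
  calc |a ^ (k + 1) - b ^ (k + 1)| ≤ (k + 1) * S ^ k * |a - b| := h
    _ = S ^ k * |a - b| * ((k : ℝ) + 1) := by ring

theorem fl_zero' (k : ℕ) : fl k 0 = 0 := by
  simp [fl]

theorem G0_fl1 (k : ℕ) {S a : ℝ} (ha : |a| ≤ S) : |fl k a| ≤ S ^ k * |a| := by
  have hS : 0 ≤ S := (abs_nonneg a).trans ha
  have h := G0_fl k ha (b := 0) (by rw [abs_zero]; exact hS)
  rwa [fl_zero', sub_zero, sub_zero] at h

theorem G0_fl2 (k : ℕ) (hk : 1 ≤ k) {S a b : ℝ} (ha : |a| ≤ S) (hb : |b| ≤ S) :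
    |fl k a - fl k b| ≤ S ^ (k - 1) * ((|a| + |b|) * |a - b|) := by
  have hS : 0 ≤ S := (abs_nonneg a).trans ha
  set M := max |a| |b| with hM
  have h0 : 0 ≤ M := (abs_nonneg a).trans (le_max_left _ _)
  have h1 := G0_fl k (S := M) (a := a) (b := b) (le_max_left _ _) (le_max_right _ _)
  have h2 : M ^ k ≤ S ^ (k - 1) * (|a| + |b|) := by
    obtain ⟨m, rfl⟩ : ∃ m, k = m + 1 := ⟨k - 1, by omega⟩
    rw [Nat.add_sub_cancel, pow_succ]
    refine mul_le_mul (pow_le_pow_left₀ h0 (max_le ha hb) _) ?_ h0 (by positivity)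
    exact max_le (le_add_of_nonneg_right (abs_nonneg _)) (le_add_of_nonneg_left (abs_nonneg _))
  calc |fl k a - fl k b| ≤ M ^ k * |a - b| := h1
    _ ≤ S ^ (k - 1) * (|a| + |b|) * |a - b| := mul_le_mul_of_nonneg_right h2 (abs_nonneg _)
    _ = S ^ (k - 1) * ((|a| + |b|) * |a - b|) := by ring

theorem G0_pow (k : ℕ) {S a b : ℝ} (ha : |a| ≤ S) (hb : |b| ≤ S) :
    |a ^ k - b ^ k| ≤ k * S ^ (k - 1) * |a - b| := by
  rcases Nat.eq_zero_or_pos k with h0 | h0
  · subst h0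
    simp
  · obtain ⟨m, rfl⟩ : ∃ m, k = m + 1 := ⟨k - 1, by omega⟩
    have h := pow_sub_pow_le m ha hb
    rw [Nat.add_sub_cancel]
    push_cast
    exact h

theorem G0_mul (k : ℕ) {S a b p q : ℝ} (ha : |a| ≤ S) (hb : |b| ≤ S) :
    |a ^ k * p - b ^ k * q| ≤ S ^ k * |p - q| + k * S ^ (k - 1) * (|a - b| * |q|) := by
  have h := G0_pow k ha hb
  have e : a ^ k * p - b ^ k * q = a ^ k * (p - q) + (a ^ k - b ^ k) * q := by ring
  rw [e]
  refine (abs_add_le _ _).trans (add_le_add ?_ ?_)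
  · rw [abs_mul, abs_pow]
    exact mul_le_mul_of_nonneg_right (pow_le_pow_left₀ (abs_nonneg _) ha _) (abs_nonneg _)
  · rw [abs_mul]
    calc |a ^ k - b ^ k| * |q| ≤ (k * S ^ (k - 1) * |a - b|) * |q| :=
          mul_le_mul_of_nonneg_right h (abs_nonneg _)
      _ = k * S ^ (k - 1) * (|a - b| * |q|) := by ring

end H37KB
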