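import Pool.Agent.H37.KB.C1
import Pool.Agent.H37.KB.G0
import Pool.Agent.H37.KB.A2

/-!
# Row G1 of MP_95be7d_PDE (130 lines)

Continuity in time of `u`, `p = u_x`, `fl k u`, `u^k p` with values in `L²`, for a global solution.

* `G1_u`, `G1_p`: from `h.h1` and `h.cont` (both summands are `≥ 0`; `𝓝[Icc 0 T] t₀ ≤ 𝓝[Ici 0] t₀`; `n2` of the difference is one summand).
* `G1_bdd`: `A2_bdd` twice.
* `G1_fl`: `|u t x| ≤ S := 1 + M` (`C1_sup`, `(u t x)² ≤ nh ≤ M ≤ S²`), `n2 (fl u(t) - fl u(t₀)) ≤ S^(2k) n2 (u(t) - u(t₀))` by `G0_fl`.  Membership: `C1_pow`.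
* `G1_up`: `G0_mul`: `|u^k p - u₀^k p₀|² ≤ 2 S^(2k) |p-p₀|² + 2 (k S^(k-1))² |u-u₀|² |p₀|²` and `|u - u₀|² ≤ nh (u-u₀) (p-p₀)` (`C1_sup`, `C1_sub`), so
  `n2 ≤ 2 S^(2k) n2 (p-p₀) + 2 (k S^(k-1))² nh(u-u₀,p-p₀) n2 p₀ → 0`.
-/

open MeasureTheory Filter Topology Set
open scoped ContDiff

namespace H37KB

open H98KB

theorem G1_u {k : ℕ} {φ : ℝ → ℝ} {u p : ℝ → ℝ → ℝ} (h : IsGlobalSol k φ u p) (T : ℝ) :
    CL2 T u := by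
  refine ⟨fun t ht => (h.h1 t ht.1).1, fun t₀ ht₀ => ?_⟩
  have h1 := (h.cont t₀ ht₀.1).mono_left
    (nhdsWithin_mono t₀ (Icc_subset_Ici_self : Icc 0 T ⊆ Ici 0))
  refine squeeze_zero (fun t => A1_nonneg _) (fun t => ?_) h1
  have h2 := A1_nonneg (fun x => p t x - p t₀ x)
  unfold n2 at h2 ⊢
  linarith

theorem G1_p {k : ℕ} {φ : ℝ → ℝ} {u p : ℝ → ℝ → ℝ} (h : IsGlobalSol k φ u p) (T : ℝ) :
    CL2 T p := by
  refine ⟨fun t ht => (h.h1 t ht.1).2.1, fun t₀ ht₀ => ?_⟩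
  have h1 := (h.cont t₀ ht₀.1).mono_left
    (nhdsWithin_mono t₀ (Icc_subset_Ici_self : Icc 0 T ⊆ Ici 0))
  refine squeeze_zero (fun t => A1_nonneg _) (fun t => ?_) h1
  have h2 := A1_nonneg (fun x => u t x - u t₀ x)
  unfold n2 at h2 ⊢
  linarith

theorem G1_bdd {k : ℕ} {φ : ℝ → ℝ} {u p : ℝ → ℝ → ℝ} (h : IsGlobalSol k φ u p) (T : ℝ) :
    ∃ M, 0 ≤ M ∧ ∀ t ∈ Icc 0 T, nh (u t) (p t) ≤ M := by
  obtain ⟨M1, h1, h1'⟩ := A2_bdd (G1_u h T)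
  obtain ⟨M2, h2, h2'⟩ := A2_bdd (G1_p h T)
  refine ⟨M1 + M2, by linarith, fun t ht => ?_⟩
  unfold nh
  have := h1' t ht
  have := h2' t ht
  linarith

theorem G1_le {k : ℕ} {φ : ℝ → ℝ} {u p : ℝ → ℝ → ℝ} (h : IsGlobalSol k φ u p) {M t : ℝ}
    (ht : 0 ≤ t) (hM : 0 ≤ M) (hb : nh (u t) (p t) ≤ M) (x : ℝ) : |u t x| ≤ 1 + M := by
  have h1 := C1_sup (h.h1 t ht) x
  unfold nh at hb
  by_contra hc
  push Not at hc
  have h2 : (1 + M) ^ 2 < |u t x| ^ 2 := pow_lt_pow_left₀ hc (by linarith) (by norm_num)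
  rw [sq_abs] at h2
  nlinarith

theorem g1_n2_le {F : ℝ → ℝ} {C D : ℝ} {a b : ℝ → ℝ} (hF : MemLp F 2 volume)
    (ha : MemLp a 2 volume) (hb : MemLp b 2 volume)
    (hle : ∀ x, (F x) ^ 2 ≤ C * (a x) ^ 2 + D * (b x) ^ 2) :
    n2 F ≤ C * n2 a + D * n2 b := by
  unfold n2
  rw [← integral_const_mul, ← integral_const_mul,
    ← integral_add ((A1_sq ha).const_mul C) ((A1_sq hb).const_mul D)]
  exact integral_mono (A1_sq hF) (((A1_sq ha).const_mul C).add ((A1_sq hb).const_mul D)) hle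

theorem G1_fl {k : ℕ} {φ : ℝ → ℝ} {u p : ℝ → ℝ → ℝ} (h : IsGlobalSol k φ u p) (T : ℝ) :
    CL2 T (fun t x => fl k (u t x)) := by
  obtain ⟨M, hM, hb⟩ := G1_bdd h T
  have hmem : ∀ t ∈ Icc 0 T, MemLp (fun x => fl k (u t x)) 2 volume :=
    fun t ht => (C1_pow (h.h1 t ht.1) k).1
  refine ⟨hmem, fun t₀ ht₀ => ?_⟩
  have h1 := ((G1_u h T).cont t₀ ht₀).const_mul (((1 + M) ^ k) ^ 2)
  rw [mul_zero] at h1
  refine squeeze_zero' (Eventually.of_forall fun t => A1_nonneg _) ?_ h1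
  filter_upwards [self_mem_nhdsWithin] with t ht
  have hu : MemLp (fun x => u t x - u t₀ x) 2 volume :=
    ((h.h1 t ht.1).1).sub ((h.h1 t₀ ht₀.1).1)
  have hF : MemLp (fun x => fl k (u t x) - fl k (u t₀ x)) 2 volume :=
    (hmem t ht).sub (hmem t₀ ht₀)
  have h2 := g1_n2_le (C := ((1 + M) ^ k) ^ 2) (D := 0) hF hu hu (fun x => ?_)
  · simpa using h2
  · have h3 := G0_fl k (G1_le h ht.1 hM (hb t ht) x) (G1_le h ht₀.1 hM (hb t₀ ht₀) x)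
    have h4 := pow_le_pow_left₀ (abs_nonneg _) h3 2
    rw [sq_abs, mul_pow, sq_abs] at h4
    linarith

theorem g1_up_pt {A B X Y Z N : ℝ} (hA : |A| ≤ B * |X| + Z * (|Y| * |N|)) :
    A ^ 2 ≤ 2 * B ^ 2 * X ^ 2 + 2 * Z ^ 2 * (Y ^ 2 * N ^ 2) := by
  have h1 := pow_le_pow_left₀ (abs_nonneg _) hA 2
  rw [sq_abs] at h1
  have h2 : (B * |X| + Z * (|Y| * |N|)) ^ 2 ≤
      2 * (B * |X|) ^ 2 + 2 * (Z * (|Y| * |N|)) ^ 2 := by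
    nlinarith [sq_nonneg (B * |X| - Z * (|Y| * |N|))]
  have h3 : 2 * (B * |X|) ^ 2 + 2 * (Z * (|Y| * |N|)) ^ 2 =
      2 * B ^ 2 * X ^ 2 + 2 * Z ^ 2 * (Y ^ 2 * N ^ 2) := by
    rw [mul_pow, mul_pow, mul_pow, sq_abs, sq_abs, sq_abs]
    ring
  linarith

theorem G1_up {k : ℕ} {φ : ℝ → ℝ} {u p : ℝ → ℝ → ℝ} (h : IsGlobalSol k φ u p) (T : ℝ) :
    CL2 T (fun t x => (u t x) ^ k * p t x) := by
  obtain ⟨M, hM, hb⟩ := G1_bdd h T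
  have hmem : ∀ t ∈ Icc 0 T, MemLp (fun x => (u t x) ^ k * p t x) 2 volume :=
    fun t ht => (C1_pow (h.h1 t ht.1) k).2.1
  refine ⟨hmem, fun t₀ ht₀ => ?_⟩
  have h1 := ((G1_p h T).cont t₀ ht₀).const_mul (2 * ((1 + M) ^ k) ^ 2)
  have h2 := ((((G1_u h T).cont t₀ ht₀).add ((G1_p h T).cont t₀ ht₀)).const_mul
    (2 * ((k : ℝ) * (1 + M) ^ (k - 1)) ^ 2)).mul_const (n2 (p t₀))
  have h3 := h1.add h2
  simp only [add_zero, mul_zero, zero_mul] at h3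
  refine squeeze_zero' (Eventually.of_forall fun t => A1_nonneg _) ?_ h3
  filter_upwards [self_mem_nhdsWithin] with t ht
  have hp : MemLp (fun x => p t x - p t₀ x) 2 volume :=
    ((h.h1 t ht.1).2.1).sub ((h.h1 t₀ ht₀.1).2.1)
  have hF : MemLp (fun x => (u t x) ^ k * p t x - (u t₀ x) ^ k * p t₀ x) 2 volume :=
    (hmem t ht).sub (hmem t₀ ht₀)
  refine g1_n2_le hF hp (h.h1 t₀ ht₀.1).2.1 (fun x => ?_)
  have h4 := G0_mul k (p := p t x) (q := p t₀ x) (G1_le h ht.1 hM (hb t ht) x)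
    (G1_le h ht₀.1 hM (hb t₀ ht₀) x)
  have h5 := g1_up_pt h4
  have h6 := C1_sup (C1_sub (h.h1 t ht.1) (h.h1 t₀ ht₀.1)) x
  have h7 : (u t x - u t₀ x) ^ 2 * (p t₀ x) ^ 2 ≤
      (n2 (fun x => u t x - u t₀ x) + n2 (fun x => p t x - p t₀ x)) * (p t₀ x) ^ 2 :=
    mul_le_mul_of_nonneg_right h6 (sq_nonneg _)
  have h8 := mul_le_mul_of_nonneg_left h7
    (by positivity : 0 ≤ 2 * ((k : ℝ) * (1 + M) ^ (k - 1)) ^ 2)
  refine h5.trans ?_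
  have e : 2 * ((k : ℝ) * (1 + M) ^ (k - 1)) ^ 2 *
      (n2 (fun x => u t x - u t₀ x) + n2 (fun x => p t x - p t₀ x)) * (p t₀ x) ^ 2 =
      2 * ((k : ℝ) * (1 + M) ^ (k - 1)) ^ 2 *
      ((n2 (fun x => u t x - u t₀ x) + n2 (fun x => p t x - p t₀ x)) * (p t₀ x) ^ 2) := by
    ring
  rw [e]
  linarith

end H37KB
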