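import Pool.Agent.H37.KB.G1
import Pool.Agent.H37.KB.C2

/-!
# Row G2 of MP_95be7d_PDE (120 lines)

The linear equations satisfied by (differences of) solutions.

* `G2_zero`: everything is `0` (`0^(k+1) = 0`).
* `G2_single`: the weak form `h.weak` (`∫ φ θ = ∫ u 0 θ` by `h.init`; `fl k u = u^(k+1)/(k+1)`).
* `G2_sub`: subtract; the time integrals may be subtracted because the inner integrals are continuous in `τ` on `[0,T]` (`A2_pair` with the test functions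
  `θ''+θ'''` and `θ'`, `G1_u`, `G1_fl`), and the inner integrals because all products are integrable.
* `G2_dx`: derivative of a linear equation: for `Lin T v g` with `IsH1 (v t) (q t)`, `IsH1 (g t) (γ t)` for `t ∈ [0,T]`: use the test function `θ'` in `Lin T v g`
  (`iteratedDeriv j (deriv θ) = iteratedDeriv (j+1) θ = deriv (iteratedDeriv j θ)`) and `C2_ibp` for the test functions `θ`, `θ''+θ'''`, `θ'`:
  `-∫ q(t)θ + ∫ q(0)θ = ∫_0^t -∫ (q(θ''+θ''') + γ θ')`.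
-/

open MeasureTheory Filter Topology Set
open scoped ContDiff

namespace H37KB

open H98KB

theorem G2_zero (k : ℕ) : IsGlobalSol k (fun _ => 0) (fun _ _ => 0) (fun _ _ => 0) := by
  refine ⟨fun t _ => ⟨MemLp.zero', MemLp.zero', fun x y => by simp⟩, fun x => rfl,
    fun t₀ _ => by simpa using tendsto_const_nhds, fun θ _ _ t _ => by simp⟩

theorem G2_single {k : ℕ} {φ : ℝ → ℝ} {u p : ℝ → ℝ → ℝ} (h : IsGlobalSol k φ u p) (T : ℝ) :
    Lin T u (fun t x => fl k (u t x)) := by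
  intro θ hθ hc t ht
  have h1 := h.weak θ hθ hc t ht.1
  have h2 : u 0 = φ := funext h.init
  rw [h2]
  exact h1

theorem G2_test {θ : ℝ → ℝ} (hθ : ContDiff ℝ ∞ θ) (hc : HasCompactSupport θ) :
    MemLp (fun x => iteratedDeriv 2 θ x + iteratedDeriv 3 θ x) 2 volume ∧
      MemLp (deriv θ) 2 volume ∧ MemLp θ 2 volume := by
  have h1 := (B1_test hθ hc 1).2.2
  have h0 := (B1_test hθ hc 0).2.2
  rw [iteratedDeriv_one] at h1
  rw [iteratedDeriv_zero] at h0
  exact ⟨(B1_test hθ hc 2).2.2.add (B1_test hθ hc 3).2.2, h1, h0⟩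

theorem G2_cont {T : ℝ} {w G : ℝ → ℝ → ℝ} (hw : CL2 T w) (hG : CL2 T G) {a b : ℝ → ℝ}
    (ha : MemLp a 2 volume) (hb : MemLp b 2 volume) :
    ContinuousOn (fun t => ∫ x, (w t x * a x + G t x * b x)) (Icc 0 T) := by
  refine ((A2_pair hw ha).add (A2_pair hG hb)).congr fun t ht => ?_
  exact integral_add (A1_mul (hw.mem t ht) ha) (A1_mul (hG.mem t ht) hb)

theorem G2_lin_sub {T : ℝ} {w G w' G' : ℝ → ℝ → ℝ} (hw : CL2 T w) (hG : CL2 T G)
    (hw' : CL2 T w') (hG' : CL2 T G') (h : Lin T w G) (h' : Lin T w' G') :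
    Lin T (fun t x => w t x - w' t x) (fun t x => G t x - G' t x) := by
  intro θ hθ hc t ht
  obtain ⟨ha, hb, h0⟩ := G2_test hθ hc
  have e0 : (0 : ℝ) ∈ Icc 0 T := ⟨le_rfl, ht.1.trans ht.2⟩
  have e1 : ∀ s ∈ Icc 0 T, ∫ x, (w s x - w' s x) * θ x =
      (∫ x, w s x * θ x) - ∫ x, w' s x * θ x := by
    intro s hs
    rw [← integral_sub (A1_mul (hw.mem s hs) h0) (A1_mul (hw'.mem s hs) h0)]
    exact integral_congr_ae (Eventually.of_forall fun x => by simp only; ring)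
  have hsub : uIcc 0 t ⊆ Icc 0 T := by
    rw [uIcc_of_le ht.1]; exact Icc_subset_Icc le_rfl ht.2
  have i1 : IntervalIntegrable (fun τ => ∫ x, (w τ x * (iteratedDeriv 2 θ x + iteratedDeriv 3 θ x)
      + G τ x * deriv θ x)) volume 0 t :=
    ((G2_cont hw hG ha hb).mono hsub).intervalIntegrable
  have i2 : IntervalIntegrable (fun τ => ∫ x, (w' τ x * (iteratedDeriv 2 θ x + iteratedDeriv 3 θ x)
      + G' τ x * deriv θ x)) volume 0 t :=
    ((G2_cont hw' hG' ha hb).mono hsub).intervalIntegrable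
  have e2 : ∫ τ in (0:ℝ)..t, ∫ x, ((w τ x - w' τ x) * (iteratedDeriv 2 θ x + iteratedDeriv 3 θ x)
        + (G τ x - G' τ x) * deriv θ x) =
      (∫ τ in (0:ℝ)..t, ∫ x, (w τ x * (iteratedDeriv 2 θ x + iteratedDeriv 3 θ x)
        + G τ x * deriv θ x)) -
      ∫ τ in (0:ℝ)..t, ∫ x, (w' τ x * (iteratedDeriv 2 θ x + iteratedDeriv 3 θ x)
        + G' τ x * deriv θ x) := by
    rw [← intervalIntegral.integral_sub i1 i2]
    refine intervalIntegral.integral_congr fun τ hτ => ?_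
    have hτ' := hsub hτ
    have j1 : Integrable (fun x => w τ x * (iteratedDeriv 2 θ x + iteratedDeriv 3 θ x)
        + G τ x * deriv θ x) := (A1_mul (hw.mem τ hτ') ha).add (A1_mul (hG.mem τ hτ') hb)
    have j2 : Integrable (fun x => w' τ x * (iteratedDeriv 2 θ x + iteratedDeriv 3 θ x)
        + G' τ x * deriv θ x) := (A1_mul (hw'.mem τ hτ') ha).add (A1_mul (hG'.mem τ hτ') hb)
    rw [← integral_sub j1 j2]
    exact integral_congr_ae (Eventually.of_forall fun x => by simp only; ring)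
  simp only
  rw [e1 t ht, e1 0 e0, e2, ← h θ hθ hc t ht, ← h' θ hθ hc t ht]
  ring

theorem G2_sub {k : ℕ} {φ φ' : ℝ → ℝ} {u p u' p' : ℝ → ℝ → ℝ} (h : IsGlobalSol k φ u p)
    (h' : IsGlobalSol k φ' u' p') (T : ℝ) :
    Lin T (fun t x => u t x - u' t x) (fun t x => fl k (u t x) - fl k (u' t x)) :=
  G2_lin_sub (G1_u h T) (G1_fl h T) (G1_u h' T) (G1_fl h' T) (G2_single h T) (G2_single h' T)

theorem G2_dx {T : ℝ} {v g q γ : ℝ → ℝ → ℝ} (hl : Lin T v g)
    (hv : ∀ t ∈ Icc 0 T, IsH1 (v t) (q t)) (hg : ∀ t ∈ Icc 0 T, IsH1 (g t) (γ t)) :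
    Lin T q γ := by
  intro θ hθ hc t ht
  obtain ⟨ha, hb, h0⟩ := G2_test hθ hc
  have hθ1 : ContDiff ℝ ∞ (deriv θ) := (contDiff_infty_iff_deriv.1 hθ).2
  have hc1 : HasCompactSupport (deriv θ) := hc.deriv
  obtain ⟨ha1, hb1, -⟩ := G2_test hθ1 hc1
  have e0 : (0 : ℝ) ∈ Icc 0 T := ⟨le_rfl, ht.1.trans ht.2⟩
  have h1 := hl (deriv θ) hθ1 hc1 t ht
  rw [C2_ibp (hv t ht) hθ hc, C2_ibp (hv 0 e0) hθ hc] at h1
  have hΘ : ContDiff ℝ ∞ (fun x => iteratedDeriv 2 θ x + iteratedDeriv 3 θ x) :=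
    (B1_test hθ hc 2).1.add (B1_test hθ hc 3).1
  have hΘc : HasCompactSupport (fun x => iteratedDeriv 2 θ x + iteratedDeriv 3 θ x) :=
    (B1_test hθ hc 2).2.1.add (B1_test hθ hc 3).2.1
  have hd : ∀ (j : ℕ) (x : ℝ), deriv (iteratedDeriv j θ) x = iteratedDeriv j (deriv θ) x := by
    intro j x
    rw [← iteratedDeriv_succ, iteratedDeriv_succ']
  have hΘd : ∀ x, deriv (fun x => iteratedDeriv 2 θ x + iteratedDeriv 3 θ x) x =
      iteratedDeriv 2 (deriv θ) x + iteratedDeriv 3 (deriv θ) x := by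
    intro x
    rw [deriv_fun_add, hd, hd]
    · exact (B1_cd (B1_test hθ hc 2).1).differentiable (by norm_num) x
    · exact (B1_cd (B1_test hθ hc 3).1).differentiable (by norm_num) x
  have hsub : uIcc 0 t ⊆ Icc 0 T := by
    rw [uIcc_of_le ht.1]; exact Icc_subset_Icc le_rfl ht.2
  have e2 : ∫ τ in (0:ℝ)..t, ∫ x, (v τ x * (iteratedDeriv 2 (deriv θ) x +
        iteratedDeriv 3 (deriv θ) x) + g τ x * deriv (deriv θ) x) =
      -∫ τ in (0:ℝ)..t, ∫ x, (q τ x * (iteratedDeriv 2 θ x + iteratedDeriv 3 θ x)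
        + γ τ x * deriv θ x) := by
    rw [← intervalIntegral.integral_neg]
    refine intervalIntegral.integral_congr fun τ hτ => ?_
    have hτ' := hsub hτ
    rw [integral_add (A1_mul (hv τ hτ').1 ha1) (A1_mul (hg τ hτ').1 hb1),
      integral_add (A1_mul (hv τ hτ').2.1 ha) (A1_mul (hg τ hτ').2.1 hb),
      C2_ibp (hg τ hτ') hθ1 hc1]
    have h2 := C2_ibp (hv τ hτ') hΘ hΘc
    simp only [hΘd] at h2
    rw [h2]
    ring
  rw [e2] at h1
  linarith

theorem G2_subx {k : ℕ} {φ φ' : ℝ → ℝ} {u p u' p' : ℝ → ℝ → ℝ} (h : IsGlobalSol k φ u p)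
    (h' : IsGlobalSol k φ' u' p') (T : ℝ) :
    Lin T (fun t x => p t x - p' t x) (fun t x => (u t x) ^ k * p t x - (u' t x) ^ k * p' t x) :=
  G2_dx (G2_sub h h' T) (fun t ht => C1_sub (h.h1 t ht.1) (h'.h1 t ht.1))
    (fun t ht => C1_sub (C1_pow (h.h1 t ht.1) k) (C1_pow (h'.h1 t ht.1) k))

end H37KB
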