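import Pool.Agent.H37.KB.G2
import Pool.Agent.H37.KB.E4
import Pool.Agent.H37.KB.F1

/-!
# Row H1 of MP_95be7d_PDE (150 lines)

STABILITY.  `v = u - u'`, `q = p - p'`, `g = fl u - fl u'`, `γ = u^k p - u'^k p'`, `S = 1 + M ≥ |u|,|u'|` (`G1_le`), `y(t) = ∫ W (v² + q²)`.

`E4` for `(v,g)` (`G2_sub`) and `(q,γ)` (`G2_subx`) and adding: `y(t) ≤ y(0) + (3c+1) ∫_0^t ∫ W (v² + g² + q² + γ²)`.
`g² ≤ S^(2k) v²` (`G0_fl`), `γ² ≤ 2 S^(2k) q² + 2 (k S^(k-1))² v² p'²` (`G0_mul`), `W v² ≤ (c+1) y` pointwise (`C2_W`, `C1_sub`), so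
`∫ W v² p'² ≤ (c+1) y n2 p' ≤ (c+1) M y`.  Hence `∫ W (v²+g²+q²+γ²) ≤ C₀ y`, `C₀ = 1 + 3 S^(2k) + 2 (k S^(k-1))² (c+1) M`, and with
`C = (3c+1) C₀`: `y(t) ≤ y(0) + C ∫_0^t y`.  `y` is continuous on `[0,T]` (`A2_W`, `G1_u`, `G1_p`, `A2_sub`), so `F1` gives the claim.
-/

open MeasureTheory Filter Topology Set
open scoped ContDiff

namespace H37KB

open H98KB

theorem H1_pt {A B W v g q γ r : ℝ} (hA : 0 ≤ A) (hB : 0 ≤ B) (hW : 0 ≤ W)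
    (hg : |g| ≤ A * |v|) (hγ : |γ| ≤ A * |q| + B * (|v| * |r|)) :
    W * (v ^ 2 + g ^ 2) ≤ (1 + A ^ 2) * (W * v ^ 2) ∧
      W * (q ^ 2 + γ ^ 2) ≤ (1 + 2 * A ^ 2) * (W * q ^ 2) + 2 * B ^ 2 * ((W * v ^ 2) * r ^ 2) := by
  have h1 : g ^ 2 ≤ A ^ 2 * v ^ 2 := by
    rw [← sq_abs g, ← sq_abs v, ← mul_pow]
    exact pow_le_pow_left₀ (abs_nonneg g) hg 2
  have h2 : γ ^ 2 ≤ 2 * A ^ 2 * q ^ 2 + 2 * B ^ 2 * (v ^ 2 * r ^ 2) := by
    have h3 : γ ^ 2 ≤ (A * |q| + B * (|v| * |r|)) ^ 2 := by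
      rw [← sq_abs γ]
      exact pow_le_pow_left₀ (abs_nonneg γ) hγ 2
    have h4 : (A * |q| + B * (|v| * |r|)) ^ 2 ≤
        2 * (A * |q|) ^ 2 + 2 * (B * (|v| * |r|)) ^ 2 := by
      nlinarith [sq_nonneg (A * |q| - B * (|v| * |r|))]
    have h5 : (A * |q|) ^ 2 = A ^ 2 * q ^ 2 := by rw [mul_pow, sq_abs]
    have h6 : (B * (|v| * |r|)) ^ 2 = B ^ 2 * (v ^ 2 * r ^ 2) := by
      rw [mul_pow, mul_pow, sq_abs, sq_abs]
    rw [h5, h6] at h4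
    linarith
  constructor
  · have := mul_le_mul_of_nonneg_left h1 hW
    nlinarith
  · have := mul_le_mul_of_nonneg_left h2 hW
    nlinarith

theorem H1 (k : ℕ) {c M : ℝ} (hc : 0 ≤ c) (hM : 0 ≤ M) : ∃ C : ℝ, 0 ≤ C ∧
    ∀ (W : ℝ → ℝ), Wt c W → ∀ (φ φ' : ℝ → ℝ) (u p u' p' : ℝ → ℝ → ℝ),
      IsGlobalSol k φ u p → IsGlobalSol k φ' u' p' → ∀ T : ℝ, 0 ≤ T →
      (∀ t ∈ Icc 0 T, nh (u t) (p t) ≤ M) → (∀ t ∈ Icc 0 T, nh (u' t) (p' t) ≤ M) →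
      ∀ t ∈ Icc 0 T, ∫ x, W x * ((u t x - u' t x) ^ 2 + (p t x - p' t x) ^ 2) ≤
        Real.exp (C * T) * ∫ x, W x * ((u 0 x - u' 0 x) ^ 2 + (p 0 x - p' 0 x) ^ 2) := by
  obtain ⟨A, hA⟩ : ∃ A, A = (1 + M) ^ k := ⟨_, rfl⟩
  obtain ⟨B, hB⟩ : ∃ B, B = (k : ℝ) * (1 + M) ^ (k - 1) := ⟨_, rfl⟩
  have hA0 : 0 ≤ A := by rw [hA]; positivity
  have hB0 : 0 ≤ B := by rw [hB]; positivity
  obtain ⟨C0, hC0⟩ : ∃ C0, C0 = (1 + 2 * A ^ 2) + 2 * B ^ 2 * ((c + 1) * M) := ⟨_, rfl⟩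
  have hC00 : 0 ≤ C0 := by rw [hC0]; positivity
  have hC : 0 ≤ (3 * c + 1) * C0 := by positivity
  refine ⟨(3 * c + 1) * C0, hC, ?_⟩
  intro W hW φ φ' u p u' p' h h' T hT hb hb' t ht
  obtain ⟨Cw, hCw⟩ := hW.bdd
  have hWc : Continuous W := hW.smooth.continuous
  have hWb : ∀ x, |W x| ≤ Cw := fun x => by
    rw [abs_of_pos (hW.pos x)]
    exact hCw x
  have cv : CL2 T (fun t x => u t x - u' t x) := A2_sub (G1_u h T) (G1_u h' T)
  have cg : CL2 T (fun t x => fl k (u t x) - fl k (u' t x)) := A2_sub (G1_fl h T) (G1_fl h' T)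
  have cq : CL2 T (fun t x => p t x - p' t x) := A2_sub (G1_p h T) (G1_p h' T)
  have cγ : CL2 T (fun t x => (u t x) ^ k * p t x - (u' t x) ^ k * p' t x) :=
    A2_sub (G1_up h T) (G1_up h' T)
  have iv : ∀ τ ∈ Icc 0 T, Integrable (fun x => W x * (u τ x - u' τ x) ^ 2) := fun τ hτ =>
    (A1_W hWc hWb (cv.mem τ hτ)).1
  have ig : ∀ τ ∈ Icc 0 T, Integrable (fun x => W x * (fl k (u τ x) - fl k (u' τ x)) ^ 2) :=
    fun τ hτ => (A1_W hWc hWb (cg.mem τ hτ)).1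
  have iq : ∀ τ ∈ Icc 0 T, Integrable (fun x => W x * (p τ x - p' τ x) ^ 2) := fun τ hτ =>
    (A1_W hWc hWb (cq.mem τ hτ)).1
  have iγ : ∀ τ ∈ Icc 0 T,
      Integrable (fun x => W x * ((u τ x) ^ k * p τ x - (u' τ x) ^ k * p' τ x) ^ 2) :=
    fun τ hτ => (A1_W hWc hWb (cγ.mem τ hτ)).1
  obtain ⟨y, hyd⟩ : ∃ y : ℝ → ℝ, y = fun t =>
    ∫ x, W x * ((u t x - u' t x) ^ 2 + (p t x - p' t x) ^ 2) := ⟨_, rfl⟩
  have hyd' : ∀ t, y t = ∫ x, W x * ((u t x - u' t x) ^ 2 + (p t x - p' t x) ^ 2) := fun t => by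
    rw [hyd]
  have hy0 : ∀ τ, 0 ≤ y τ := fun τ => by
    rw [hyd']
    exact integral_nonneg fun x => mul_nonneg (hW.pos x).le (by positivity)
  have hy : ∀ τ ∈ Icc 0 T, y τ = (∫ x, W x * (u τ x - u' τ x) ^ 2) +
      ∫ x, W x * (p τ x - p' τ x) ^ 2 := by
    intro τ hτ
    rw [hyd', ← integral_add (iv τ hτ) (iq τ hτ)]
    congr 1
    funext x
    ring
  have hcv := A2_W cv hWc hWb
  have hcg := A2_W cg hWc hWb
  have hcq := A2_W cq hWc hWb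
  have hcγ := A2_W cγ hWc hWb
  have hyc : ContinuousOn y (Icc 0 T) := (hcv.add hcq).congr hy
  -- the spatial integrals
  have hg1 : ∀ τ ∈ Icc 0 T, ∫ x, W x * ((u τ x - u' τ x) ^ 2 + (fl k (u τ x) - fl k (u' τ x)) ^ 2) =
      (∫ x, W x * (u τ x - u' τ x) ^ 2) + ∫ x, W x * (fl k (u τ x) - fl k (u' τ x)) ^ 2 := by
    intro τ hτ
    rw [← integral_add (iv τ hτ) (ig τ hτ)]
    congr 1
    funext x
    ring
  have hg2 : ∀ τ ∈ Icc 0 T,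
      ∫ x, W x * ((p τ x - p' τ x) ^ 2 + ((u τ x) ^ k * p τ x - (u' τ x) ^ k * p' τ x) ^ 2) =
      (∫ x, W x * (p τ x - p' τ x) ^ 2) +
        ∫ x, W x * ((u τ x) ^ k * p τ x - (u' τ x) ^ k * p' τ x) ^ 2 := by
    intro τ hτ
    rw [← integral_add (iq τ hτ) (iγ τ hτ)]
    congr 1
    funext x
    ring
  have hG1c : ContinuousOn (fun τ => ∫ x, W x * ((u τ x - u' τ x) ^ 2 +
      (fl k (u τ x) - fl k (u' τ x)) ^ 2)) (Icc 0 T) := (hcv.add hcg).congr hg1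
  have hG2c : ContinuousOn (fun τ => ∫ x, W x * ((p τ x - p' τ x) ^ 2 +
      ((u τ x) ^ k * p τ x - (u' τ x) ^ k * p' τ x) ^ 2)) (Icc 0 T) := (hcq.add hcγ).congr hg2
  have key : ∀ τ ∈ Icc 0 T,
      (∫ x, W x * ((u τ x - u' τ x) ^ 2 + (fl k (u τ x) - fl k (u' τ x)) ^ 2)) +
      (∫ x, W x * ((p τ x - p' τ x) ^ 2 + ((u τ x) ^ k * p τ x - (u' τ x) ^ k * p' τ x) ^ 2)) ≤
      C0 * y τ := by
    intro τ hτ
    have hu : ∀ x, |u τ x| ≤ 1 + M := G1_le h hτ.1 hM (hb τ hτ)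
    have hu' : ∀ x, |u' τ x| ≤ 1 + M := G1_le h' hτ.1 hM (hb' τ hτ)
    have hH := C1_sub (h.h1 τ hτ.1) (h'.h1 τ hτ.1)
    have hsup : ∀ x, W x * (u τ x - u' τ x) ^ 2 ≤ (c + 1) * y τ := by
      intro x
      rw [hyd']
      exact C2_W hc hW hH x
    have hpt := fun x => H1_pt (W := W x) (v := u τ x - u' τ x) (g := fl k (u τ x) - fl k (u' τ x))
      (q := p τ x - p' τ x) (γ := (u τ x) ^ k * p τ x - (u' τ x) ^ k * p' τ x) (r := p' τ x)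
      hA0 hB0 (hW.pos x).le (by rw [hA]; exact G0_fl k (hu x) (hu' x))
      (by rw [hA, hB]; exact G0_mul k (hu x) (hu' x))
    have ip : Integrable (fun x => (p' τ x) ^ 2) := A1_sq (h'.h1 τ hτ.1).2.1
    have hn : n2 (p' τ) ≤ M := by
      have h1 := hb' τ hτ
      have h2 := A1_nonneg (u' τ)
      unfold nh at h1
      linarith
    have b1 : (∫ x, W x * ((u τ x - u' τ x) ^ 2 + (fl k (u τ x) - fl k (u' τ x)) ^ 2)) ≤
        (1 + A ^ 2) * ∫ x, W x * (u τ x - u' τ x) ^ 2 := by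
      rw [← integral_const_mul]
      refine integral_mono ?_ ((iv τ hτ).const_mul _) fun x => (hpt x).1
      refine ((iv τ hτ).add (ig τ hτ)).congr (Eventually.of_forall fun x => ?_)
      simp only [Pi.add_apply]
      ring
    have b2 : (∫ x, W x * ((p τ x - p' τ x) ^ 2 +
        ((u τ x) ^ k * p τ x - (u' τ x) ^ k * p' τ x) ^ 2)) ≤
        (1 + 2 * A ^ 2) * (∫ x, W x * (p τ x - p' τ x) ^ 2) +
          2 * B ^ 2 * (((c + 1) * y τ) * n2 (p' τ)) := by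
      have e : (1 + 2 * A ^ 2) * (∫ x, W x * (p τ x - p' τ x) ^ 2) +
          2 * B ^ 2 * (((c + 1) * y τ) * n2 (p' τ)) =
          ∫ x, ((1 + 2 * A ^ 2) * (W x * (p τ x - p' τ x) ^ 2) +
            2 * B ^ 2 * (((c + 1) * y τ) * (p' τ x) ^ 2)) := by
        rw [integral_add ((iq τ hτ).const_mul _) ((ip.const_mul _).const_mul _),
          integral_const_mul, integral_const_mul, integral_const_mul]
        rfl
      rw [e]
      refine integral_mono ?_ (((iq τ hτ).const_mul _).add ((ip.const_mul _).const_mul _))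
        fun x => ?_
      · refine ((iq τ hτ).add (iγ τ hτ)).congr (Eventually.of_forall fun x => ?_)
        simp only [Pi.add_apply]
        ring
      · refine (hpt x).2.trans ?_
        have h1 := mul_le_mul_of_nonneg_right (hsup x) (sq_nonneg (p' τ x))
        have h2 : 0 ≤ 2 * B ^ 2 := by positivity
        have h3 := mul_le_mul_of_nonneg_left h1 h2
        linarith
    have hv0 : 0 ≤ ∫ x, W x * (u τ x - u' τ x) ^ 2 :=
      integral_nonneg fun x => mul_nonneg (hW.pos x).le (sq_nonneg _)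
    have b3 : 2 * B ^ 2 * (((c + 1) * y τ) * n2 (p' τ)) ≤ 2 * B ^ 2 * (((c + 1) * y τ) * M) := by
      have h2 : 0 ≤ 2 * B ^ 2 := by positivity
      exact mul_le_mul_of_nonneg_left (mul_le_mul_of_nonneg_left hn
        (mul_nonneg (by linarith) (hy0 τ))) h2
    have b4 : (1 + A ^ 2) * (∫ x, W x * (u τ x - u' τ x) ^ 2) ≤
        (1 + 2 * A ^ 2) * ∫ x, W x * (u τ x - u' τ x) ^ 2 := by
      refine mul_le_mul_of_nonneg_right ?_ hv0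
      nlinarith [sq_nonneg A]
    have e5 : C0 * y τ = (1 + 2 * A ^ 2) * ((∫ x, W x * (u τ x - u' τ x) ^ 2) +
      ∫ x, W x * (p τ x - p' τ x) ^ 2) + 2 * B ^ 2 * (((c + 1) * y τ) * M) := by
      rw [← hy τ hτ, hC0]
      ring
    rw [e5]
    linarith
  have hmain : ∀ t ∈ Icc 0 T, y t ≤ y 0 + ((3 * c + 1) * C0) * ∫ τ in (0:ℝ)..t, y τ := by
    intro t ht
    have h0T : (0:ℝ) ∈ Icc 0 T := ⟨le_rfl, hT⟩
    have e1 := E4 hc hW cv cg (G2_sub h h' T) t ht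
    have e2 := E4 hc hW cq cγ (G2_subx h h' T) t ht
    have hsub : uIcc 0 t ⊆ Icc 0 T := by
      rw [uIcc_of_le ht.1]
      exact Icc_subset_Icc le_rfl ht.2
    have i1 : IntervalIntegrable (fun τ => ∫ x, W x * ((u τ x - u' τ x) ^ 2 +
      (fl k (u τ x) - fl k (u' τ x)) ^ 2)) volume 0 t := (hG1c.mono hsub).intervalIntegrable
    have i2 : IntervalIntegrable (fun τ => ∫ x, W x * ((p τ x - p' τ x) ^ 2 +
      ((u τ x) ^ k * p τ x - (u' τ x) ^ k * p' τ x) ^ 2)) volume 0 t :=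
      (hG2c.mono hsub).intervalIntegrable
    have i3 : IntervalIntegrable y volume 0 t := (hyc.mono hsub).intervalIntegrable
    have e3 : (∫ τ in (0:ℝ)..t, ∫ x, W x * ((u τ x - u' τ x) ^ 2 +
        (fl k (u τ x) - fl k (u' τ x)) ^ 2)) +
        (∫ τ in (0:ℝ)..t, ∫ x, W x * ((p τ x - p' τ x) ^ 2 +
        ((u τ x) ^ k * p τ x - (u' τ x) ^ k * p' τ x) ^ 2)) ≤ C0 * ∫ τ in (0:ℝ)..t, y τ := by
      rw [← intervalIntegral.integral_add i1 i2, ← intervalIntegral.integral_const_mul]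
      exact intervalIntegral.integral_mono_on ht.1 (i1.add i2) (i3.const_mul _)
        fun τ hτ => key τ ⟨hτ.1, hτ.2.trans ht.2⟩
    have e4 := mul_le_mul_of_nonneg_left e3 (show (0:ℝ) ≤ 3 * c + 1 by linarith)
    rw [hy t ht, hy 0 h0T]
    calc (∫ x, W x * (u t x - u' t x) ^ 2) + ∫ x, W x * (p t x - p' t x) ^ 2
        ≤ ((∫ x, W x * (u 0 x - u' 0 x) ^ 2) + ∫ x, W x * (p 0 x - p' 0 x) ^ 2) +
          (3 * c + 1) * ((∫ τ in (0:ℝ)..t, ∫ x, W x * ((u τ x - u' τ x) ^ 2 +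
            (fl k (u τ x) - fl k (u' τ x)) ^ 2)) +
            (∫ τ in (0:ℝ)..t, ∫ x, W x * ((p τ x - p' τ x) ^ 2 +
            ((u τ x) ^ k * p τ x - (u' τ x) ^ k * p' τ x) ^ 2))) := by
          rw [mul_add]
          linarith
      _ ≤ _ := by
          rw [mul_assoc]
          linarith
  have hF := F1 hC hyc hmain t ht
  rw [← hyd', ← hyd']
  calc y t ≤ y 0 * Real.exp ((3 * c + 1) * C0 * t) := hF
    _ ≤ y 0 * Real.exp ((3 * c + 1) * C0 * T) :=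
        mul_le_mul_of_nonneg_left (Real.exp_le_exp.2 (mul_le_mul_of_nonneg_left ht.2 hC)) (hy0 0)
    _ = Real.exp ((3 * c + 1) * C0 * T) * y 0 := mul_comm _ _

end H37KB
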