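import Pool.Agent.H37.KB.D2

/-!
# Row I1 of MP_95be7d_PDE (130 lines)

The data `dat k l₀ a x = l₀^(-2/k) (Q(x/l₀) + a n(x/l₀))` (`Qf k`, `nf k` are in `Cl (1/2) (1/2)`: smooth with all derivatives `≤ C e^{-|y|/2}`; hypotheses here,
proved elsewhere).  `iteratedDeriv j (x ↦ f(x/l₀)) = l₀^(-j) (iteratedDeriv j f)(x/l₀)` (`iteratedDeriv_comp_const_mul` or similar) and
`e^{-|x|/(2 l₀)} ≤ e^{-4α|x|}` since `8 α l₀ ≤ 1`; `bd p p x = e^{-p|x|}`.
`dat a - dat a' = l₀^(-2/k) (a-a') n(x/l₀)`.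
`I1_int`: `0 ≤ W ≤ wt α`, `wt α x ≤ 2 e^{α|x|}`: `W (dat² + dat'²) ≤ C e^{α|x|} e^{-8α|x|} ≤ C e^{-|x|}`, integrable; the same for differences with the factor `(a-a')²`.
-/

open MeasureTheory Filter Topology Set
open scoped ContDiff

namespace H37KB

open H98KB

private theorem I1_iter {k : ℕ} {l₀ : ℝ} (hQ : Cl (1 / 2) (1 / 2) (Qf k))
    (hn : Cl (1 / 2) (1 / 2) (nf k)) (a : ℝ) (j : ℕ) (x : ℝ) :
    iteratedDeriv j (dat k l₀ a) x = l₀ ^ (-(2 / (k : ℝ))) * (l₀⁻¹) ^ j *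
      (iteratedDeriv j (Qf k) (x / l₀) + a * iteratedDeriv j (nf k) (x / l₀)) := by
  have hs : ∀ f : ℝ → ℝ, ContDiff ℝ ∞ f → ∀ y, iteratedDeriv j (fun x => f (x / l₀)) y =
      (l₀⁻¹) ^ j * iteratedDeriv j f (y / l₀) := by
    intro f hf y
    have h1 := iteratedDeriv_comp_const_mul (n := j) (f := f)
      (hf.of_le (by exact_mod_cast le_top)) (l₀⁻¹)
    have h2 := congrFun h1 y
    have h3 : (fun x => f (l₀⁻¹ * x)) = fun x => f (x / l₀) := by
      funext z; rw [div_eq_inv_mul]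
    rw [h3] at h2
    rw [h2, div_eq_inv_mul]
  have hc : ∀ f : ℝ → ℝ, ContDiff ℝ ∞ f → ContDiff ℝ ∞ (fun x => f (x / l₀)) := by
    intro f hf
    exact hf.comp (contDiff_id.div_const l₀)
  have hdat : dat k l₀ a = fun x => l₀ ^ (-(2 / (k : ℝ))) *
      (Qf k (x / l₀) + a * nf k (x / l₀)) := rfl
  have hQc := hc _ hQ.1
  have hnc := hc _ hn.1
  have hQj : ContDiffAt ℝ j (fun x => Qf k (x / l₀)) x :=
    (hQc.of_le (by exact_mod_cast le_top)).contDiffAt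
  have hnj : ContDiffAt ℝ j (fun x => a * nf k (x / l₀)) x :=
    ((contDiff_const.mul hnc).of_le (by exact_mod_cast le_top)).contDiffAt
  rw [hdat, iteratedDeriv_const_mul_field]
  have hadd : iteratedDeriv j (fun x => Qf k (x / l₀) + a * nf k (x / l₀)) x =
      iteratedDeriv j (fun x => Qf k (x / l₀)) x +
        iteratedDeriv j (fun x => a * nf k (x / l₀)) x :=
    iteratedDeriv_add hQj hnj
  rw [hadd, iteratedDeriv_const_mul_field, hs _ hQ.1, hs _ hn.1]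
  ring

private theorem I1_bdle {l₀ α : ℝ} (hl : 0 < l₀) (hαl : 8 * α * l₀ ≤ 1) (x : ℝ) :
    bd (1 / 2) (1 / 2) (x / l₀) ≤ bd (4 * α) (4 * α) x := by
  have key : ∀ p y : ℝ, bd p p y = Real.exp (-(p * |y|)) := by
    intro p y
    unfold bd
    congr 1
    rcases le_total 0 y with h | h
    · rw [max_eq_left h, max_eq_right (by linarith), abs_of_nonneg h]; ring
    · rw [max_eq_right h, max_eq_left (by linarith), abs_of_nonpos h]; ring
  rw [key, key]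
  apply Real.exp_le_exp.mpr
  rw [abs_div, abs_of_pos hl]
  have h1 : 4 * α * |x| ≤ 1 / 2 * (|x| / l₀) := by
    rw [← mul_div_assoc, le_div_iff₀ hl]
    nlinarith [abs_nonneg x]
  linarith

theorem I1_smooth {k : ℕ} {l₀ : ℝ} (hQ : Cl (1 / 2) (1 / 2) (Qf k)) (hn : Cl (1 / 2) (1 / 2) (nf k))
    (a : ℝ) : ContDiff ℝ ∞ (dat k l₀ a) := by
  have hc : ∀ f : ℝ → ℝ, ContDiff ℝ ∞ f → ContDiff ℝ ∞ (fun x => f (x / l₀)) := by
    intro f hf
    exact hf.comp (contDiff_id.div_const l₀)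
  exact contDiff_const.mul ((hc _ hQ.1).add (contDiff_const.mul (hc _ hn.1)))

theorem I1_bd {k : ℕ} {l₀ α : ℝ} (hl : 0 < l₀) (hα : 1 ≤ α) (hαl : 8 * α * l₀ ≤ 1)
    (hQ : Cl (1 / 2) (1 / 2) (Qf k)) (hn : Cl (1 / 2) (1 / 2) (nf k)) (j : ℕ) :
    ∃ C : ℝ, 0 ≤ C ∧ ∀ a ∈ Icc (-1 : ℝ) 1, ∀ a' ∈ Icc (-1 : ℝ) 1, ∀ x,
      |iteratedDeriv j (dat k l₀ a) x| ≤ C * bd (4 * α) (4 * α) x ∧
      |iteratedDeriv j (dat k l₀ a) x - iteratedDeriv j (dat k l₀ a') x| ≤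
        C * |a - a'| * bd (4 * α) (4 * α) x := by
  obtain ⟨C₁, h₁⟩ := hQ.2 j
  obtain ⟨C₂, h₂⟩ := hn.2 j
  set A : ℝ := |l₀ ^ (-(2 / (k : ℝ))) * (l₀⁻¹) ^ j| with hA
  have hA0 : 0 ≤ A := abs_nonneg _
  have hB0 : ∀ x, 0 ≤ bd (4 * α) (4 * α) x := fun x => (Real.exp_pos _).le
  have hQb : ∀ x, |iteratedDeriv j (Qf k) (x / l₀)| ≤ |C₁| * bd (4 * α) (4 * α) x := by
    intro x
    calc |iteratedDeriv j (Qf k) (x / l₀)| ≤ C₁ * bd (1 / 2) (1 / 2) (x / l₀) := h₁ _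
      _ ≤ |C₁| * bd (1 / 2) (1 / 2) (x / l₀) :=
        mul_le_mul_of_nonneg_right (le_abs_self _) (Real.exp_pos _).le
      _ ≤ |C₁| * bd (4 * α) (4 * α) x :=
        mul_le_mul_of_nonneg_left (I1_bdle hl hαl x) (abs_nonneg _)
  have hnb : ∀ x, |iteratedDeriv j (nf k) (x / l₀)| ≤ |C₂| * bd (4 * α) (4 * α) x := by
    intro x
    calc |iteratedDeriv j (nf k) (x / l₀)| ≤ C₂ * bd (1 / 2) (1 / 2) (x / l₀) := h₂ _
      _ ≤ |C₂| * bd (1 / 2) (1 / 2) (x / l₀) :=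
        mul_le_mul_of_nonneg_right (le_abs_self _) (Real.exp_pos _).le
      _ ≤ |C₂| * bd (4 * α) (4 * α) x :=
        mul_le_mul_of_nonneg_left (I1_bdle hl hαl x) (abs_nonneg _)
  refine ⟨A * (|C₁| + |C₂|), by positivity, ?_⟩
  intro a ha a' _ x
  have haa : |a| ≤ 1 := abs_le.mpr ha
  constructor
  · rw [I1_iter hQ hn, abs_mul, ← hA, mul_assoc]
    apply mul_le_mul_of_nonneg_left _ hA0
    calc |iteratedDeriv j (Qf k) (x / l₀) + a * iteratedDeriv j (nf k) (x / l₀)|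
        ≤ |iteratedDeriv j (Qf k) (x / l₀)| + |a * iteratedDeriv j (nf k) (x / l₀)| :=
          abs_add_le _ _
      _ ≤ |C₁| * bd (4 * α) (4 * α) x + |C₂| * bd (4 * α) (4 * α) x := by
          apply add_le_add (hQb x)
          rw [abs_mul]
          calc |a| * |iteratedDeriv j (nf k) (x / l₀)|
              ≤ 1 * |iteratedDeriv j (nf k) (x / l₀)| :=
                mul_le_mul_of_nonneg_right haa (abs_nonneg _)
            _ ≤ _ := by rw [one_mul]; exact hnb x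
      _ = _ := by ring
  · have hsub : iteratedDeriv j (dat k l₀ a) x - iteratedDeriv j (dat k l₀ a') x =
        (l₀ ^ (-(2 / (k : ℝ))) * (l₀⁻¹) ^ j) *
          ((a - a') * iteratedDeriv j (nf k) (x / l₀)) := by
      rw [I1_iter hQ hn, I1_iter hQ hn]; ring
    rw [hsub, abs_mul, ← hA, abs_mul]
    have h3 : |a - a'| * |iteratedDeriv j (nf k) (x / l₀)| ≤
        |a - a'| * ((|C₁| + |C₂|) * bd (4 * α) (4 * α) x) := by
      apply mul_le_mul_of_nonneg_left _ (abs_nonneg _)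
      refine (hnb x).trans ?_
      apply mul_le_mul_of_nonneg_right _ (hB0 x)
      linarith [abs_nonneg C₁]
    calc A * (|a - a'| * |iteratedDeriv j (nf k) (x / l₀)|)
        ≤ A * (|a - a'| * ((|C₁| + |C₂|) * bd (4 * α) (4 * α) x)) :=
          mul_le_mul_of_nonneg_left h3 hA0
      _ = _ := by ring

private theorem I1_expint : Integrable (fun x : ℝ => Real.exp (-|x|)) := by
  rw [← integrableOn_univ, ← Iic_union_Ioi (a := (0 : ℝ)), integrableOn_union]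
  constructor
  · refine (integrableOn_exp_Iic 0).congr_fun ?_ measurableSet_Iic
    intro x hx
    have hx' : x ≤ 0 := hx
    simp only [abs_of_nonpos hx', neg_neg]
  · refine (integrableOn_exp_neg_Ioi 0).congr_fun ?_ measurableSet_Ioi
    intro x hx
    have hx' : 0 < x := hx
    simp only [abs_of_pos hx']

theorem I1_int {k : ℕ} {l₀ α : ℝ} (hl : 0 < l₀) (hα : 1 ≤ α) (hαl : 8 * α * l₀ ≤ 1)
    (hQ : Cl (1 / 2) (1 / 2) (Qf k)) (hn : Cl (1 / 2) (1 / 2) (nf k)) :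
    ∃ C : ℝ, 0 ≤ C ∧ ∀ W : ℝ → ℝ, Continuous W → (∀ x, 0 ≤ W x) → (∀ x, W x ≤ wt α x) →
      ∀ a ∈ Icc (-1 : ℝ) 1, ∀ a' ∈ Icc (-1 : ℝ) 1,
      Integrable (fun x => W x * ((dat k l₀ a x) ^ 2 + (deriv (dat k l₀ a) x) ^ 2)) ∧
      ∫ x, W x * ((dat k l₀ a x) ^ 2 + (deriv (dat k l₀ a) x) ^ 2) ≤ C ∧
      ∫ x, W x * ((dat k l₀ a x - dat k l₀ a' x) ^ 2
        + (deriv (dat k l₀ a) x - deriv (dat k l₀ a') x) ^ 2) ≤ C * |a - a'| ^ 2 := by
  obtain ⟨C0, hC0, h0⟩ := I1_bd hl hα hαl hQ hn 0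
  obtain ⟨C1, hC1, h1⟩ := I1_bd hl hα hαl hQ hn 1
  simp only [iteratedDeriv_zero] at h0
  simp only [iteratedDeriv_one] at h1
  have hI0 : 0 ≤ ∫ x : ℝ, Real.exp (-|x|) := integral_nonneg fun x => (Real.exp_pos _).le
  have hwB : ∀ x, wt α x * (bd (4 * α) (4 * α) x) ^ 2 ≤ 2 * Real.exp (-|x|) := by
    intro x
    have hb : bd (4 * α) (4 * α) x = Real.exp (-(4 * α * |x|)) := by
      unfold bd
      congr 1
      rcases le_total 0 x with h | h
      · rw [max_eq_left h, max_eq_right (by linarith), abs_of_nonneg h]; ring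
      · rw [max_eq_right h, max_eq_left (by linarith), abs_of_nonpos h]; ring
    rw [hb, ← Real.exp_nat_mul]
    unfold wt
    rw [add_mul, ← Real.exp_add, ← Real.exp_add]
    have hx1 := le_abs_self x
    have hx2 := neg_abs_le x
    have hx0 := abs_nonneg x
    have e1 : Real.exp (α * x + ((2 : ℕ) : ℝ) * -(4 * α * |x|)) ≤ Real.exp (-|x|) := by
      apply Real.exp_le_exp.mpr
      push_cast
      nlinarith [mul_le_mul_of_nonneg_left hx1 (by linarith : (0 : ℝ) ≤ α),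
        mul_le_mul_of_nonneg_right hα hx0]
    have e2 : Real.exp (-x / 8 + ((2 : ℕ) : ℝ) * -(4 * α * |x|)) ≤ Real.exp (-|x|) := by
      apply Real.exp_le_exp.mpr
      push_cast
      nlinarith [mul_le_mul_of_nonneg_right hα hx0]
    exact (add_le_add e1 e2).trans (by rw [two_mul])
  -- the general estimate
  have gen : ∀ W : ℝ → ℝ, Continuous W → (∀ x, 0 ≤ W x) → (∀ x, W x ≤ wt α x) →
      ∀ (f g : ℝ → ℝ) (s : ℝ), 0 ≤ s → Continuous f → Continuous g →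
      (∀ x, |f x| ≤ C0 * s * bd (4 * α) (4 * α) x) → (∀ x, |g x| ≤ C1 * s * bd (4 * α) (4 * α) x) →
      Integrable (fun x => W x * ((f x) ^ 2 + (g x) ^ 2)) ∧
      ∫ x, W x * ((f x) ^ 2 + (g x) ^ 2) ≤
        2 * (C0 ^ 2 + C1 ^ 2) * (∫ x : ℝ, Real.exp (-|x|)) * s ^ 2 := by
    intro W hW hW0 hWw f g s hs hf hg hfb hgb
    have hB0 : ∀ x, 0 ≤ bd (4 * α) (4 * α) x := fun x => (Real.exp_pos _).le
    have hpt : ∀ x, W x * ((f x) ^ 2 + (g x) ^ 2) ≤
        2 * (C0 ^ 2 + C1 ^ 2) * s ^ 2 * Real.exp (-|x|) := by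
      intro x
      have hf2 : (f x) ^ 2 ≤ (C0 * s * bd (4 * α) (4 * α) x) ^ 2 := by
        rw [← sq_abs (f x)]
        exact pow_le_pow_left₀ (abs_nonneg _) (hfb x) 2
      have hg2 : (g x) ^ 2 ≤ (C1 * s * bd (4 * α) (4 * α) x) ^ 2 := by
        rw [← sq_abs (g x)]
        exact pow_le_pow_left₀ (abs_nonneg _) (hgb x) 2
      calc W x * ((f x) ^ 2 + (g x) ^ 2)
          ≤ wt α x * ((f x) ^ 2 + (g x) ^ 2) :=
            mul_le_mul_of_nonneg_right (hWw x) (by positivity)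
        _ ≤ wt α x * ((C0 * s * bd (4 * α) (4 * α) x) ^ 2 +
            (C1 * s * bd (4 * α) (4 * α) x) ^ 2) :=
            mul_le_mul_of_nonneg_left (add_le_add hf2 hg2)
              ((hW0 x).trans (hWw x))
        _ = (C0 ^ 2 + C1 ^ 2) * s ^ 2 * (wt α x * (bd (4 * α) (4 * α) x) ^ 2) := by ring
        _ ≤ (C0 ^ 2 + C1 ^ 2) * s ^ 2 * (2 * Real.exp (-|x|)) :=
            mul_le_mul_of_nonneg_left (hwB x) (by positivity)
        _ = _ := by ring
    have hint : Integrable (fun x => W x * ((f x) ^ 2 + (g x) ^ 2)) := by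
      refine (I1_expint.const_mul (2 * (C0 ^ 2 + C1 ^ 2) * s ^ 2)).mono'
        (hW.mul ((hf.pow 2).add (hg.pow 2))).aestronglyMeasurable ?_
      filter_upwards with x
      rw [Real.norm_of_nonneg (mul_nonneg (hW0 x) (by positivity))]
      exact hpt x
    refine ⟨hint, ?_⟩
    calc ∫ x, W x * ((f x) ^ 2 + (g x) ^ 2)
        ≤ ∫ x : ℝ, 2 * (C0 ^ 2 + C1 ^ 2) * s ^ 2 * Real.exp (-|x|) :=
          integral_mono hint (I1_expint.const_mul _) hpt
      _ = _ := by rw [integral_const_mul]; ring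
  refine ⟨2 * (C0 ^ 2 + C1 ^ 2) * ∫ x : ℝ, Real.exp (-|x|), by positivity, ?_⟩
  intro W hW hW0 hWw a ha a' ha'
  have hsm := fun b => I1_smooth (l₀ := l₀) hQ hn b
  have hcd : ∀ b, Continuous (dat k l₀ b) := fun b => (hsm b).continuous
  have hcd' : ∀ b, Continuous (deriv (dat k l₀ b)) := fun b =>
    (hsm b).continuous_deriv (by exact_mod_cast le_top)
  have g1 := gen W hW hW0 hWw (dat k l₀ a) (deriv (dat k l₀ a)) 1 zero_le_one (hcd a) (hcd' a)
    (fun x => by rw [mul_one]; exact (h0 a ha a' ha' x).1)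
    (fun x => by rw [mul_one]; exact (h1 a ha a' ha' x).1)
  have g2 := gen W hW hW0 hWw (fun x => dat k l₀ a x - dat k l₀ a' x)
    (fun x => deriv (dat k l₀ a) x - deriv (dat k l₀ a') x) |a - a'| (abs_nonneg _)
    ((hcd a).sub (hcd a')) ((hcd' a).sub (hcd' a'))
    (fun x => (h0 a ha a' ha' x).2) (fun x => (h1 a ha a' ha' x).2)
  refine ⟨g1.1, ?_, g2.2⟩
  have := g1.2
  rwa [one_pow, mul_one] at this

end H37KB
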