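import Pool.Agent.H37.KB.H1
import Pool.Agent.H37.KB.I1

/-!
# Row H2 of MP_95be7d_PDE (120 lines)

Uniform `H¹` bound for the family `u a` on `[0,T]`.

Fix `a`, let `m` bound `nh (u a t) (p a t)` on `[0,T]` (`G1_bdd`), `M' = 2m + 2`, `C` the constant of `H1` for `c = 0`, `M'`.  For `a'` put
`D(t) = nh (u a t - u a' t) (p a t - p a' t)` (`= ∫ 1·(..)`), continuous on `[0,T]` (`A2_n2`, `A2_sub`), `D(0) ≤ C₁ |a-a'|²` (`I1_int` with `W = 1 ≤ wt α` (`D2_one`);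
`u a 0 = dat a` by `init`, `p a 0 = deriv (dat a)` a.e. by `C2_data`).
If `e^{CT} C₁ |a-a'|² < 1` then `D < 1` on `[0,T]` by `F2`: if `D ≤ 1` on `[0,s]` then `nh (u a' t) (p a' t) ≤ 2 m + 2` there (`A1_sub`: `u a' = u a - (u a - u a')`), so `H1` on `[0,s]`
with `W = 1` (`D1_one`) gives `D(s) ≤ e^{Cs} D(0) < 1`.  So `nh (u a' t)(p a' t) ≤ 2m+2` on `[0,T]` for all `a'` in a neighbourhood of `a`.
Compactness of `[-a₁,a₁]` (`IsCompact.induction_on` or a finite subcover) gives a uniform bound.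
-/

open MeasureTheory Filter Topology Set
open scoped ContDiff

namespace H37KB

open H98KB

theorem H2_eq {f g p q : ℝ → ℝ} (h : IsH1 f p) (h' : IsH1 g q) :
    ∫ x, (fun _ : ℝ => (1 : ℝ)) x * ((f x - g x) ^ 2 + (p x - q x) ^ 2) =
      n2 (fun x => f x - g x) + n2 (fun x => p x - q x) := by
  have h1 := integral_add (A1_sq (h.1.sub h'.1)) (A1_sq (h.2.1.sub h'.2.1))
  refine Eq.trans (integral_congr_ae (Filter.Eventually.of_forall fun x => ?_)) h1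
  simp only [one_mul, Pi.sub_apply]

theorem H2_nh {f g p q : ℝ → ℝ} (h : IsH1 f p) (h' : IsH1 g q) :
    nh g q ≤ 2 * nh f p + 2 * (n2 (fun x => f x - g x) + n2 (fun x => p x - q x)) := by
  have h1 := A1_sub h.1 (h.1.sub h'.1)
  have h2 := A1_sub h.2.1 (h.2.1.sub h'.2.1)
  have e1 : (fun x => f x - (f - g) x) = g := by
    funext x
    simp
  have e2 : (fun x => p x - (p - q) x) = q := by
    funext x
    simp
  rw [e1] at h1
  rw [e2] at h2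
  have e3 : n2 (f - g) = n2 (fun x => f x - g x) := rfl
  have e4 : n2 (p - q) = n2 (fun x => p x - q x) := rfl
  rw [e3] at h1
  rw [e4] at h2
  unfold nh
  linarith

theorem H2_zero {k : ℕ} {l₀ : ℝ} (hQ : Cl (1 / 2) (1 / 2) (Qf k))
    (hn : Cl (1 / 2) (1 / 2) (nf k)) {a : ℝ} {u p : ℝ → ℝ → ℝ}
    (h : IsGlobalSol k (dat k l₀ a) u p) : ∀ᵐ x : ℝ, p 0 x = deriv (dat k l₀ a) x := by
  have h1 := h.h1 0 le_rfl
  have e : u 0 = dat k l₀ a := funext h.init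
  rw [e] at h1
  exact C2_data h1 (I1_smooth hQ hn a)

theorem H2_loc {k : ℕ} {l₀ T α a₁ : ℝ} (hl : 0 < l₀) (hT : 0 < T) (hα : 1 ≤ α)
    (hαl : 8 * α * l₀ ≤ 1) (ha1 : a₁ ≤ 1) (hQ : Cl (1 / 2) (1 / 2) (Qf k))
    (hn : Cl (1 / 2) (1 / 2) (nf k)) {u p : ℝ → ℝ → ℝ → ℝ}
    (h : ∀ a ∈ Icc (-a₁) a₁, IsGlobalSol k (dat k l₀ a) (u a) (p a)) (a : ℝ)
    (ha : a ∈ Icc (-a₁) a₁) :
    ∃ δ, 0 < δ ∧ ∃ M, 0 ≤ M ∧ ∀ a' ∈ Icc (-a₁) a₁, |a - a'| < δ →
      ∀ t ∈ Icc 0 T, nh (u a' t) (p a' t) ≤ M := by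
  obtain ⟨m, hm, hmb⟩ := G1_bdd (h a ha) T
  obtain ⟨C, hC, hH⟩ := H1 k (c := 0) (M := 2 * m + 2) le_rfl (by linarith)
  obtain ⟨C₁, hC₁, hI⟩ := I1_int hl hα hαl hQ hn
  have hexp : 0 < Real.exp (C * T) := Real.exp_pos _
  set E : ℝ := Real.exp (C * T) * C₁ + C₁ + 2 with hE
  have hE2 : 2 ≤ E := by
    have := mul_nonneg hexp.le hC₁
    rw [hE]
    linarith
  have hEpos : 0 < E := by linarith
  refine ⟨1 / E, by positivity, 2 * m + 2, by linarith, ?_⟩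
  intro a' ha' had
  have h1a : a ∈ Icc (-1 : ℝ) 1 := ⟨by linarith [ha.1], by linarith [ha.2]⟩
  have h1a' : a' ∈ Icc (-1 : ℝ) 1 := ⟨by linarith [ha'.1], by linarith [ha'.2]⟩
  have hsq : |a - a'| ^ 2 ≤ (1 / E) ^ 2 := pow_le_pow_left₀ (abs_nonneg _) had.le 2
  have hEsq : E * (1 / E) ^ 2 < 1 := by
    have : E * (1 / E) ^ 2 = 1 / E := by
      field_simp
    rw [this, div_lt_one hEpos]
    linarith
  have hsmall1 : C₁ * |a - a'| ^ 2 < 1 := by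
    have h2 : C₁ * |a - a'| ^ 2 ≤ E * (1 / E) ^ 2 := by
      refine mul_le_mul ?_ hsq (by positivity) hEpos.le
      have := mul_nonneg hexp.le hC₁
      rw [hE]
      linarith
    linarith
  have hsmall2 : Real.exp (C * T) * (C₁ * |a - a'| ^ 2) < 1 := by
    have h2 : Real.exp (C * T) * C₁ * |a - a'| ^ 2 ≤ E * (1 / E) ^ 2 := by
      refine mul_le_mul ?_ hsq (by positivity) hEpos.le
      rw [hE]
      linarith
    rw [← mul_assoc]
    linarith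
  -- the difference
  set D : ℝ → ℝ := fun t => n2 (fun x => u a t x - u a' t x) + n2 (fun x => p a t x - p a' t x)
    with hD
  have hDc : ContinuousOn D (Icc 0 T) :=
    (A2_n2 (A2_sub (G1_u (h a ha) T) (G1_u (h a' ha') T))).add
      (A2_n2 (A2_sub (G1_p (h a ha) T) (G1_p (h a' ha') T)))
  have hD0 : D 0 ≤ C₁ * |a - a'| ^ 2 := by
    have h3 := (hI (fun _ => 1) continuous_const (fun _ => zero_le_one) (fun x => D2_one hα x)
      a h1a a' h1a').2.2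
    have h4 := H2_eq ((h a ha).h1 0 le_rfl) ((h a' ha').h1 0 le_rfl)
    have h5 : D 0 = ∫ x, (fun _ : ℝ => (1 : ℝ)) x * ((dat k l₀ a x - dat k l₀ a' x) ^ 2
        + (deriv (dat k l₀ a) x - deriv (dat k l₀ a') x) ^ 2) := by
      rw [hD]
      change n2 (fun x => u a 0 x - u a' 0 x) + n2 (fun x => p a 0 x - p a' 0 x) = _
      rw [← h4]
      refine integral_congr_ae ?_
      filter_upwards [H2_zero hQ hn (h a ha), H2_zero hQ hn (h a' ha')] with x hx hx'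
      rw [hx, hx', (h a ha).init, (h a' ha').init]
    rw [h5]
    exact h3
  have hnh : ∀ t, 0 ≤ t → t ≤ T → D t ≤ 1 → nh (u a' t) (p a' t) ≤ 2 * m + 2 := by
    intro t ht0 htT hDt
    have h6 := H2_nh ((h a ha).h1 t ht0) ((h a' ha').h1 t ht0)
    have h7 := hmb t ⟨ht0, htT⟩
    have h8 : n2 (fun x => u a t x - u a' t x) + n2 (fun x => p a t x - p a' t x) ≤ 1 := hDt
    linarith
  have hF := F2 hT.le hDc (lt_of_le_of_lt hD0 hsmall1) (fun s hs hle => by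
    have h9 := hH (fun _ => 1) (D1_one le_rfl) _ _ (u a) (p a) (u a') (p a') (h a ha) (h a' ha') s
      hs.1 (fun t ht => by
        have := hmb t ⟨ht.1, ht.2.trans hs.2⟩
        linarith) (fun t ht => hnh t ht.1 (ht.2.trans hs.2) (hle t ht)) s ⟨hs.1, le_rfl⟩
    have h10 := H2_eq ((h a ha).h1 s hs.1) ((h a' ha').h1 s hs.1)
    have h11 := H2_eq ((h a ha).h1 0 le_rfl) ((h a' ha').h1 0 le_rfl)
    rw [h10, h11] at h9
    have h12 : D s ≤ Real.exp (C * s) * D 0 := h9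
    have hD0n : 0 ≤ D 0 := add_nonneg (A1_nonneg _) (A1_nonneg _)
    have h13 : Real.exp (C * s) ≤ Real.exp (C * T) :=
      Real.exp_le_exp.2 (mul_le_mul_of_nonneg_left hs.2 hC)
    calc D s ≤ Real.exp (C * s) * D 0 := h12
      _ ≤ Real.exp (C * T) * (C₁ * |a - a'| ^ 2) := mul_le_mul h13 hD0 hD0n hexp.le
      _ < 1 := hsmall2)
  intro t ht
  exact hnh t ht.1 ht.2 (hF t ht).le

theorem H2 {k : ℕ} {l₀ T α a₁ : ℝ} (hl : 0 < l₀) (hT : 0 < T) (hα : 1 ≤ α)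
    (hαl : 8 * α * l₀ ≤ 1) (ha1 : a₁ ≤ 1) (hQ : Cl (1 / 2) (1 / 2) (Qf k))
    (hn : Cl (1 / 2) (1 / 2) (nf k)) {u p : ℝ → ℝ → ℝ → ℝ}
    (h : ∀ a ∈ Icc (-a₁) a₁, IsGlobalSol k (dat k l₀ a) (u a) (p a)) :
    ∃ M, 0 ≤ M ∧ ∀ a ∈ Icc (-a₁) a₁, ∀ t ∈ Icc 0 T, nh (u a t) (p a t) ≤ M := by
  have key := (isCompact_Icc (a := -a₁) (b := a₁)).induction_on
    (p := fun S : Set ℝ => ∃ M, 0 ≤ M ∧ ∀ a ∈ S, a ∈ Icc (-a₁) a₁ →
      ∀ t ∈ Icc 0 T, nh (u a t) (p a t) ≤ M)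
    ⟨0, le_rfl, fun a ha => absurd ha (Set.notMem_empty a)⟩
    (by
      rintro S S' hSS ⟨M, hM, hb⟩
      exact ⟨M, hM, fun a ha => hb a (hSS ha)⟩)
    (by
      rintro S S' ⟨M, hM, hb⟩ ⟨M', hM', hb'⟩
      refine ⟨M + M', by linarith, ?_⟩
      rintro a (ha | ha) hI t ht
      · have := hb a ha hI t ht
        linarith
      · have := hb' a ha hI t ht
        linarith)
    (by
      intro a ha
      obtain ⟨δ, hδ, M, hM, hb⟩ := H2_loc hl hT hα hαl ha1 hQ hn h a ha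
      refine ⟨Metric.ball a δ, mem_nhdsWithin_of_mem_nhds (Metric.ball_mem_nhds a hδ), M, hM, ?_⟩
      intro a' ha' hI t ht
      refine hb a' hI ?_ t ht
      rw [Metric.mem_ball, Real.dist_eq, abs_sub_comm] at ha'
      exact ha')
  obtain ⟨M, hM, hb⟩ := key
  exact ⟨M, hM, fun a ha t ht => hb a ha ha t ht⟩

end H37KB
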