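import Pool.Agent.H37.KB.H2

/-!
# Row J1 of MP_95be7d_PDE (140 lines)

Weighted bounds.  `M` from `H2`, `c = 13(α+1)³`, `W n` from `D2_approx`, `C` from `H1 k` for `c, M`.

* `J1_main`: (i) `H1` for the pair `u a`, `0` (`G2_zero`; `nh 0 0 = 0 ≤ M`) with weight `W n`: `∫ W n (u² + p²)(t) ≤ e^{CT} ∫ W n (u² + p²)(0) ≤ e^{CT} C₁` by `I1_int` (`u a 0 = dat a`,
  `p a 0 = deriv (dat a)` a.e., `C2_data`, `I1_smooth`).  `F3` with `F n = W n (u² + p²) → wt α (u² + p²)` (integrable: `W n` bounded, `A1_W`) gives integrability and the bound.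
  (ii) the same for the pair `u a, u a'`, with `C₁ |a-a'|²`.
* `J1_WB`: each of `wt u²`, `wt p²` is dominated by `wt (u²+p²)` (measurable); `fl k u`: `|fl u| ≤ S^k |u|`, `|fl u - fl u'| ≤ S^k |u-u'|` (`G0_fl1`, `G0_fl`, `G1_le`).
-/

open MeasureTheory Filter Topology Set
open scoped ContDiff

namespace H37KB

open H98KB

theorem J1_aux {c α K : ℝ} {W : ℕ → ℝ → ℝ} (hW : ∀ n, Wt c (W n))
    (hlim : ∀ x, Tendsto (fun n => W n x) atTop (𝓝 (wt α x))) {f g : ℝ → ℝ}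
    (hf : MemLp f 2 volume) (hg : MemLp g 2 volume)
    (hb : ∀ n, ∫ x, W n x * ((f x) ^ 2 + (g x) ^ 2) ≤ K) :
    Integrable (fun x => wt α x * ((f x) ^ 2 + (g x) ^ 2)) ∧
      ∫ x, wt α x * ((f x) ^ 2 + (g x) ^ 2) ≤ K := by
  refine F3 (F := fun n x => W n x * ((f x) ^ 2 + (g x) ^ 2)) ?_ ?_ hb ?_
  · intro n x
    exact mul_nonneg ((hW n).pos x).le (by positivity)
  · intro n
    obtain ⟨B, hB⟩ := (hW n).bdd
    have hB' : ∀ x, |W n x| ≤ B := fun x => by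
      rw [abs_of_pos ((hW n).pos x)]
      exact hB x
    have h1 := (A1_W (hW n).smooth.continuous hB' hf).1
    have h2 := (A1_W (hW n).smooth.continuous hB' hg).1
    refine (h1.add h2).congr (Eventually.of_forall fun x => ?_)
    simp only [Pi.add_apply]
    ring
  · intro x
    exact (hlim x).mul_const _

theorem J1_dom {F G : ℝ → ℝ} {c : ℝ} (hG : Integrable G) (hm : AEStronglyMeasurable F volume)
    (h0 : ∀ x, 0 ≤ F x) (hle : ∀ x, F x ≤ c * G x) :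
    Integrable F ∧ ∫ x, F x ≤ c * ∫ x, G x := by
  have hi : Integrable F := by
    refine Integrable.mono' (hG.const_mul c) hm (Eventually.of_forall fun x => ?_)
    rw [Real.norm_eq_abs, abs_of_nonneg (h0 x)]
    exact hle x
  refine ⟨hi, ?_⟩
  rw [← integral_const_mul]
  exact integral_mono hi (hG.const_mul c) hle

theorem J1_init {k : ℕ} {l₀ a : ℝ} (hQ : Cl (1 / 2) (1 / 2) (Qf k))
    (hn : Cl (1 / 2) (1 / 2) (nf k)) {u p : ℝ → ℝ → ℝ}
    (h : IsGlobalSol k (dat k l₀ a) u p) :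
    (u 0 = dat k l₀ a) ∧ ∀ᵐ x : ℝ, p 0 x = deriv (dat k l₀ a) x := by
  have h1 : u 0 = dat k l₀ a := funext h.init
  refine ⟨h1, ?_⟩
  have h2 := h.h1 0 le_rfl
  rw [h1] at h2
  exact C2_data h2 (I1_smooth hQ hn a)

theorem J1_main {k : ℕ} {l₀ T α a₁ : ℝ} (hl : 0 < l₀) (hT : 0 < T) (hα : 1 ≤ α)
    (hαl : 8 * α * l₀ ≤ 1) (ha1 : a₁ ≤ 1) (hQ : Cl (1 / 2) (1 / 2) (Qf k))
    (hn : Cl (1 / 2) (1 / 2) (nf k)) {u p : ℝ → ℝ → ℝ → ℝ}
    (h : ∀ a ∈ Icc (-a₁) a₁, IsGlobalSol k (dat k l₀ a) (u a) (p a)) :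
    ∃ M K : ℝ, 0 ≤ M ∧ 0 ≤ K ∧
      (∀ a ∈ Icc (-a₁) a₁, ∀ t ∈ Icc 0 T, nh (u a t) (p a t) ≤ M) ∧
      (∀ a ∈ Icc (-a₁) a₁, ∀ t ∈ Icc 0 T,
        Integrable (fun x => wt α x * ((u a t x) ^ 2 + (p a t x) ^ 2)) ∧
        ∫ x, wt α x * ((u a t x) ^ 2 + (p a t x) ^ 2) ≤ K) ∧
      (∀ a ∈ Icc (-a₁) a₁, ∀ a' ∈ Icc (-a₁) a₁, ∀ t ∈ Icc 0 T,
        Integrable (fun x => wt α x * ((u a t x - u a' t x) ^ 2 + (p a t x - p a' t x) ^ 2)) ∧
        ∫ x, wt α x * ((u a t x - u a' t x) ^ 2 + (p a t x - p a' t x) ^ 2) ≤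
          K * |a - a'| ^ 2) := by
  obtain ⟨M, hM, hMb⟩ := H2 hl hT hα hαl ha1 hQ hn h
  have hc : (0 : ℝ) ≤ 13 * (α + 1) ^ 3 := by
    have : 0 ≤ α + 1 := by linarith
    positivity
  obtain ⟨C, hC, hH⟩ := H1 k hc hM
  obtain ⟨W, hW, hWle, hWlim⟩ := D2_approx α hα
  obtain ⟨C₁, hC₁, hI⟩ := I1_int hl hα hαl hQ hn
  have hI' : ∀ n, ∀ a ∈ Icc (-a₁) a₁, ∀ a' ∈ Icc (-a₁) a₁, _ := fun n a ha a' ha' =>
    hI (W n) (hW n).smooth.continuous (fun x => ((hW n).pos x).le) (hWle n) a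
      ⟨by linarith [ha.1], by linarith [ha.2]⟩ a' ⟨by linarith [ha'.1], by linarith [ha'.2]⟩
  have hE : 0 ≤ Real.exp (C * T) := (Real.exp_pos _).le
  refine ⟨M, Real.exp (C * T) * C₁, hM, mul_nonneg hE hC₁, hMb, ?_, ?_⟩
  · intro a ha t ht
    refine J1_aux hW hWlim ((h a ha).h1 t ht.1).1 ((h a ha).h1 t ht.1).2.1 fun n => ?_
    have h0 : ∀ t ∈ Icc 0 T, nh ((fun _ _ => (0 : ℝ)) t) ((fun _ _ => (0 : ℝ)) t) ≤ M := by
      intro t _
      simpa [nh, n2] using hM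
    have h1 := hH (W n) (hW n) _ _ (u a) (p a) (fun _ _ => 0) (fun _ _ => 0) (h a ha)
      (G2_zero k) T hT.le (hMb a ha) h0 t ht
    simp only [sub_zero] at h1
    refine h1.trans (mul_le_mul_of_nonneg_left ?_ hE)
    obtain ⟨hu0, hp0⟩ := J1_init hQ hn (h a ha)
    have h2 : ∫ x, W n x * ((u a 0 x) ^ 2 + (p a 0 x) ^ 2) =
        ∫ x, W n x * ((dat k l₀ a x) ^ 2 + (deriv (dat k l₀ a) x) ^ 2) := by
      refine integral_congr_ae ?_
      filter_upwards [hp0] with x hx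
      rw [hu0, hx]
    rw [h2]
    exact (hI' n a ha a ha).2.1
  · intro a ha a' ha' t ht
    refine J1_aux hW hWlim (((h a ha).h1 t ht.1).1.sub ((h a' ha').h1 t ht.1).1)
      (((h a ha).h1 t ht.1).2.1.sub ((h a' ha').h1 t ht.1).2.1) fun n => ?_
    have h1 := hH (W n) (hW n) _ _ (u a) (p a) (u a') (p a') (h a ha) (h a' ha') T hT.le
      (hMb a ha) (hMb a' ha') t ht
    refine h1.trans ?_
    rw [mul_assoc]
    refine mul_le_mul_of_nonneg_left ?_ hE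
    obtain ⟨hu0, hp0⟩ := J1_init hQ hn (h a ha)
    obtain ⟨hu0', hp0'⟩ := J1_init hQ hn (h a' ha')
    have h2 : ∫ x, W n x * ((u a 0 x - u a' 0 x) ^ 2 + (p a 0 x - p a' 0 x) ^ 2) =
        ∫ x, W n x * ((dat k l₀ a x - dat k l₀ a' x) ^ 2
          + (deriv (dat k l₀ a) x - deriv (dat k l₀ a') x) ^ 2) := by
      refine integral_congr_ae ?_
      filter_upwards [hp0, hp0'] with x hx hx'
      rw [hu0, hx, hu0', hx']
    rw [h2]
    exact (hI' n a ha a' ha').2.2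

theorem J1_WB {k : ℕ} {l₀ T α a₁ : ℝ} (hl : 0 < l₀) (hT : 0 < T) (hα : 1 ≤ α)
    (hαl : 8 * α * l₀ ≤ 1) (ha1 : a₁ ≤ 1) (hQ : Cl (1 / 2) (1 / 2) (Qf k))
    (hn : Cl (1 / 2) (1 / 2) (nf k)) {u p : ℝ → ℝ → ℝ → ℝ}
    (h : ∀ a ∈ Icc (-a₁) a₁, IsGlobalSol k (dat k l₀ a) (u a) (p a)) :
    ∃ K : ℝ, 0 ≤ K ∧ WB a₁ T α K u ∧ WB a₁ T α K (fun a t x => fl k (u a t x)) := by
  obtain ⟨M, K, hM, hK, hMb, h1, h2⟩ := J1_main hl hT hα hαl ha1 hQ hn h
  have hS : (0 : ℝ) ≤ ((1 + M) ^ k) ^ 2 := by positivity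
  have hKK : K ≤ (1 + ((1 + M) ^ k) ^ 2) * K := by nlinarith
  have hKK' : ((1 + M) ^ k) ^ 2 * K ≤ (1 + ((1 + M) ^ k) ^ 2) * K := by nlinarith
  have hwt : Continuous (wt α) := D2_cont α
  have hwp : ∀ x, 0 < wt α x := D2_pos α
  have hm : ∀ a ∈ Icc (-a₁) a₁, ∀ t ∈ Icc 0 T, MemLp (u a t) 2 volume := fun a ha t ht =>
    ((h a ha).h1 t ht.1).1
  have hmf : ∀ a ∈ Icc (-a₁) a₁, ∀ t ∈ Icc 0 T,
      MemLp (fun x => fl k (u a t x)) 2 volume := fun a ha t ht => (G1_fl (h a ha) T).mem t ht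
  have hS1 : ∀ a ∈ Icc (-a₁) a₁, ∀ t ∈ Icc 0 T, ∀ x, |u a t x| ≤ 1 + M := fun a ha t ht x =>
    G1_le (h a ha) ht.1 hM (hMb a ha t ht) x
  have key : ∀ {F G : ℝ → ℝ}, AEStronglyMeasurable F volume → ∀ {q : ℝ → ℝ} {c : ℝ}, 0 ≤ c →
      Integrable (fun x => wt α x * ((G x) ^ 2 + (q x) ^ 2)) →
      (∀ x, |F x| ≤ c * |G x|) →
      Integrable (fun x => wt α x * (F x) ^ 2) ∧
        ∫ x, wt α x * (F x) ^ 2 ≤ c ^ 2 * ∫ x, wt α x * ((G x) ^ 2 + (q x) ^ 2) := by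
    intro F G hF q c hc hG hle
    refine J1_dom hG (hwt.aestronglyMeasurable.mul (hF.pow 2)) (fun x => ?_) (fun x => ?_)
    · exact mul_nonneg (hwp x).le (sq_nonneg _)
    · have h3 : (F x) ^ 2 ≤ c ^ 2 * (G x) ^ 2 := by
        rw [← sq_abs (F x), ← sq_abs (G x), ← mul_pow]
        exact pow_le_pow_left₀ (abs_nonneg _) (hle x) 2
      have h4 : (F x) ^ 2 ≤ c ^ 2 * ((G x) ^ 2 + (q x) ^ 2) := by
        nlinarith [mul_nonneg (sq_nonneg c) (sq_nonneg (q x))]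
      calc wt α x * (F x) ^ 2 ≤ wt α x * (c ^ 2 * ((G x) ^ 2 + (q x) ^ 2)) :=
            mul_le_mul_of_nonneg_left h4 (hwp x).le
        _ = c ^ 2 * (wt α x * ((G x) ^ 2 + (q x) ^ 2)) := by ring
  have hone : ∀ f : ℝ → ℝ, ∀ x, |f x| ≤ 1 * |f x| := fun f x => by rw [one_mul]
  refine ⟨(1 + ((1 + M) ^ k) ^ 2) * K, by positivity, ?_, ?_⟩
  · constructor
    · intro a ha t ht
      exact (key (hm a ha t ht).1 zero_le_one (h1 a ha t ht).1 (hone _)).1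
    · intro a ha t ht
      have h3 := (key (hm a ha t ht).1 zero_le_one (h1 a ha t ht).1 (hone _)).2
      rw [one_pow, one_mul] at h3
      exact h3.trans ((h1 a ha t ht).2.trans hKK)
    · intro a ha a' ha' t ht
      exact (key ((hm a ha t ht).sub (hm a' ha' t ht)).1 zero_le_one (h2 a ha a' ha' t ht).1
        (hone _)).1
    · intro a ha a' ha' t ht
      have h3 := (key ((hm a ha t ht).sub (hm a' ha' t ht)).1 zero_le_one (h2 a ha a' ha' t ht).1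
        (hone _)).2
      rw [one_pow, one_mul] at h3
      refine (h3.trans (h2 a ha a' ha' t ht).2).trans ?_
      exact mul_le_mul_of_nonneg_right hKK (by positivity)
  · constructor
    · intro a ha t ht
      exact (key (hmf a ha t ht).1 (by positivity) (h1 a ha t ht).1
        (fun x => G0_fl1 k (hS1 a ha t ht x))).1
    · intro a ha t ht
      have h3 := (key (hmf a ha t ht).1 (by positivity) (h1 a ha t ht).1
        (fun x => G0_fl1 k (hS1 a ha t ht x))).2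
      refine h3.trans ((mul_le_mul_of_nonneg_left (h1 a ha t ht).2 hS).trans hKK')
    · intro a ha a' ha' t ht
      exact (key ((hmf a ha t ht).sub (hmf a' ha' t ht)).1 (by positivity)
        (h2 a ha a' ha' t ht).1 (fun x => G0_fl k (hS1 a ha t ht x) (hS1 a' ha' t ht x))).1
    · intro a ha a' ha' t ht
      have h3 := (key ((hmf a ha t ht).sub (hmf a' ha' t ht)).1 (by positivity)
        (h2 a ha a' ha' t ht).1 (fun x => G0_fl k (hS1 a ha t ht x) (hS1 a' ha' t ht x))).2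
      refine (h3.trans (mul_le_mul_of_nonneg_left (h2 a ha a' ha' t ht).2 hS)).trans ?_
      rw [← mul_assoc]
      exact mul_le_mul_of_nonneg_right hKK' (by positivity)

end H37KB
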