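import Pool.Agent.H37.KB.D2

/-!
# Row K1 of MP_95be7d_PDE (150 lines)

`Fam a₁ T α` is closed under differences, products, powers, `fl k`.

Derivatives of products: Leibniz `iteratedDeriv j (F G) x = Σ_{i ≤ j} C(j,i) iteratedDeriv i F x * iteratedDeriv (j-i) G x` (`iteratedDeriv_mul` or
`iteratedDeriv_fun_mul`), `bd (α/2) (1/16) ≤ 1` (`D2_bd`) so `bd² ≤ bd`; for Lipschitz: `FG - F'G' = (F-F')G + F'(G-G')` termwise; continuity in `t` termwise.
`K1_pow` by induction (`n ≥ 1`), `K1_fl`: `fl k u = u^(k+1)/(k+1) = const * power`.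
-/

open MeasureTheory Filter Topology Set
open scoped ContDiff

namespace H37KB

open H98KB

theorem K1_sm {F : ℝ → ℝ} (h : ContDiff ℝ ∞ F) (j : ℕ) (x : ℝ) : ContDiffAt ℝ j F x :=
  (h.of_le (mod_cast le_top)).contDiffAt

theorem K1_dsub {F G : ℝ → ℝ} (hF : ContDiff ℝ ∞ F) (hG : ContDiff ℝ ∞ G) (j : ℕ) (x : ℝ) :
    iteratedDeriv j (fun z => F z - G z) x = iteratedDeriv j F x - iteratedDeriv j G x :=
  iteratedDeriv_fun_sub (K1_sm hF j x) (K1_sm hG j x)

theorem K1_dmul {F G : ℝ → ℝ} (hF : ContDiff ℝ ∞ F) (hG : ContDiff ℝ ∞ G) (j : ℕ) (x : ℝ) :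
    iteratedDeriv j (fun z => F z * G z) x = ∑ i ∈ Finset.range (j + 1),
      (j.choose i : ℝ) * iteratedDeriv i F x * iteratedDeriv (j - i) G x :=
  iteratedDeriv_fun_mul (K1_sm hF j x) (K1_sm hG j x)

theorem K1_sub {a₁ T α : ℝ} {F G : ℝ → ℝ → ℝ → ℝ} (hα : 1 ≤ α) (hF : Fam a₁ T α F)
    (hG : Fam a₁ T α G) : Fam a₁ T α (fun a t x => F a t x - G a t x) := by
  refine ⟨fun a ha t ht => (hF.smooth a ha t ht).sub (hG.smooth a ha t ht), fun j => ?_,
    fun j a ha x => ?_, fun j => ?_⟩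
  · obtain ⟨C1, h1⟩ := hF.bound j
    obtain ⟨C2, h2⟩ := hG.bound j
    refine ⟨C1 + C2, fun a ha t ht x => ?_⟩
    rw [K1_dsub (hF.smooth a ha t ht) (hG.smooth a ha t ht) j x]
    have h3 := h1 a ha t ht x
    have h4 := h2 a ha t ht x
    have h5 := abs_sub (iteratedDeriv j (F a t) x) (iteratedDeriv j (G a t) x)
    linarith
  · refine ((hF.cont j a ha x).sub (hG.cont j a ha x)).congr (fun t ht => ?_)
    exact K1_dsub (hF.smooth a ha t ht) (hG.smooth a ha t ht) j x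
  · obtain ⟨C1, h1⟩ := hF.lip j
    obtain ⟨C2, h2⟩ := hG.lip j
    refine ⟨C1 + C2, fun a ha a' ha' t ht x => ?_⟩
    rw [K1_dsub (hF.smooth a ha t ht) (hG.smooth a ha t ht) j x,
      K1_dsub (hF.smooth a' ha' t ht) (hG.smooth a' ha' t ht) j x]
    have h3 := h1 a ha a' ha' t ht x
    have h4 := h2 a ha a' ha' t ht x
    have h5 := abs_sub (iteratedDeriv j (F a t) x - iteratedDeriv j (F a' t) x)
      (iteratedDeriv j (G a t) x - iteratedDeriv j (G a' t) x)
    have h6 : iteratedDeriv j (F a t) x - iteratedDeriv j (G a t) x -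
        (iteratedDeriv j (F a' t) x - iteratedDeriv j (G a' t) x) =
        (iteratedDeriv j (F a t) x - iteratedDeriv j (F a' t) x) -
        (iteratedDeriv j (G a t) x - iteratedDeriv j (G a' t) x) := by ring
    rw [h6]
    linarith

theorem K1_bb {α : ℝ} (hα : 1 ≤ α) (x : ℝ) :
    bd (α / 2) (1 / 16) x * bd (α / 2) (1 / 16) x ≤ bd (α / 2) (1 / 16) x := by
  obtain ⟨_, h2, h3⟩ := D2_bd hα x
  have := mul_le_mul_of_nonneg_left h3 h2.le
  linarith

theorem K1_term {α : ℝ} (hα : 1 ≤ α) (x : ℝ) {c u v A B s : ℝ} (hc : 0 ≤ c) (hs : 0 ≤ s)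
    (hu : |u| ≤ A * s * bd (α / 2) (1 / 16) x) (hv : |v| ≤ B * bd (α / 2) (1 / 16) x) :
    |c * u * v| ≤ c * |A| * |B| * s * bd (α / 2) (1 / 16) x := by
  obtain ⟨_, h2, h3⟩ := D2_bd hα x
  have hu' : |u| ≤ |A| * s * bd (α / 2) (1 / 16) x :=
    hu.trans (mul_le_mul_of_nonneg_right (mul_le_mul_of_nonneg_right (le_abs_self A) hs) h2.le)
  have hv' : |v| ≤ |B| * bd (α / 2) (1 / 16) x :=
    hv.trans (mul_le_mul_of_nonneg_right (le_abs_self B) h2.le)
  rw [abs_mul, abs_mul, abs_of_nonneg hc]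
  have h4 : |u| * |v| ≤ (|A| * s * bd (α / 2) (1 / 16) x) * (|B| * bd (α / 2) (1 / 16) x) :=
    mul_le_mul hu' hv' (abs_nonneg v) (by positivity)
  have h5 : (|A| * s * bd (α / 2) (1 / 16) x) * (|B| * bd (α / 2) (1 / 16) x) =
      |A| * |B| * s * (bd (α / 2) (1 / 16) x * bd (α / 2) (1 / 16) x) := by ring
  have h6 : |A| * |B| * s * (bd (α / 2) (1 / 16) x * bd (α / 2) (1 / 16) x) ≤
      |A| * |B| * s * bd (α / 2) (1 / 16) x :=
    mul_le_mul_of_nonneg_left (K1_bb hα x) (by positivity)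
  calc c * |u| * |v| = c * (|u| * |v|) := by ring
    _ ≤ c * (|A| * |B| * s * bd (α / 2) (1 / 16) x) :=
        mul_le_mul_of_nonneg_left (by linarith) hc
    _ = _ := by ring

theorem K1_mul {a₁ T α : ℝ} {F G : ℝ → ℝ → ℝ → ℝ} (hα : 1 ≤ α) (hF : Fam a₁ T α F)
    (hG : Fam a₁ T α G) : Fam a₁ T α (fun a t x => F a t x * G a t x) := by
  choose CF hCF using hF.bound
  choose CG hCG using hG.bound
  choose LF hLF using hF.lip
  choose LG hLG using hG.lip
  refine ⟨fun a ha t ht => (hF.smooth a ha t ht).mul (hG.smooth a ha t ht), fun j => ?_,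
    fun j a ha x => ?_, fun j => ?_⟩
  · refine ⟨∑ i ∈ Finset.range (j + 1), (j.choose i : ℝ) * |CF i| * |CG (j - i)| * 1,
      fun a ha t ht x => ?_⟩
    rw [K1_dmul (hF.smooth a ha t ht) (hG.smooth a ha t ht) j x]
    refine (Finset.abs_sum_le_sum_abs _ _).trans ?_
    rw [Finset.sum_mul]
    refine Finset.sum_le_sum (fun i _ => ?_)
    refine K1_term hα x (Nat.cast_nonneg _) zero_le_one ?_ (hCG (j - i) a ha t ht x)
    rw [mul_one]
    exact hCF i a ha t ht x
  · have h1 : ContinuousOn (fun t => ∑ i ∈ Finset.range (j + 1),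
        (j.choose i : ℝ) * iteratedDeriv i (F a t) x * iteratedDeriv (j - i) (G a t) x) (Icc 0 T) :=
      continuousOn_finset_sum _ (fun i _ =>
        (continuousOn_const.mul (hF.cont i a ha x)).mul (hG.cont (j - i) a ha x))
    refine h1.congr (fun t ht => ?_)
    exact K1_dmul (hF.smooth a ha t ht) (hG.smooth a ha t ht) j x
  · refine ⟨∑ i ∈ Finset.range (j + 1), ((j.choose i : ℝ) * |LF i| * |CG (j - i)| +
      (j.choose i : ℝ) * |LG (j - i)| * |CF i|), fun a ha a' ha' t ht x => ?_⟩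
    rw [K1_dmul (hF.smooth a ha t ht) (hG.smooth a ha t ht) j x,
      K1_dmul (hF.smooth a' ha' t ht) (hG.smooth a' ha' t ht) j x, ← Finset.sum_sub_distrib]
    refine (Finset.abs_sum_le_sum_abs _ _).trans ?_
    rw [mul_assoc, Finset.sum_mul]
    refine Finset.sum_le_sum (fun i _ => ?_)
    have h1 := K1_term (c := (j.choose i : ℝ)) hα x (Nat.cast_nonneg _) (abs_nonneg (a - a'))
      (hLF i a ha a' ha' t ht x) (hCG (j - i) a ha t ht x)
    have h2 := K1_term (c := (j.choose i : ℝ)) hα x (Nat.cast_nonneg _) (abs_nonneg (a - a'))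
      (hLG (j - i) a ha a' ha' t ht x) (hCF i a' ha' t ht x)
    have h3 : (j.choose i : ℝ) * iteratedDeriv i (F a t) x * iteratedDeriv (j - i) (G a t) x -
        (j.choose i : ℝ) * iteratedDeriv i (F a' t) x * iteratedDeriv (j - i) (G a' t) x =
        (j.choose i : ℝ) * (iteratedDeriv i (F a t) x - iteratedDeriv i (F a' t) x) *
          iteratedDeriv (j - i) (G a t) x +
        (j.choose i : ℝ) * (iteratedDeriv (j - i) (G a t) x - iteratedDeriv (j - i) (G a' t) x) *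
          iteratedDeriv i (F a' t) x := by ring
    rw [h3]
    refine (abs_add_le _ _).trans ?_
    linarith

theorem K1_const {a₁ T α : ℝ} {F : ℝ → ℝ → ℝ → ℝ} (hα : 1 ≤ α) (hF : Fam a₁ T α F)
    (c : ℝ) : Fam a₁ T α (fun a t x => c * F a t x) := by
  have hd : ∀ (j : ℕ) (a t x : ℝ), iteratedDeriv j (fun z => c * F a t z) x =
      c * iteratedDeriv j (F a t) x := fun j a t x => iteratedDeriv_const_mul_field c (F a t)
  refine ⟨fun a ha t ht => contDiff_const.mul (hF.smooth a ha t ht), fun j => ?_,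
    fun j a ha x => ?_, fun j => ?_⟩
  · obtain ⟨C1, h1⟩ := hF.bound j
    refine ⟨|c| * C1, fun a ha t ht x => ?_⟩
    rw [hd, abs_mul, mul_assoc]
    exact mul_le_mul_of_nonneg_left (h1 a ha t ht x) (abs_nonneg c)
  · have h1 : ContinuousOn (fun t => c * iteratedDeriv j (F a t) x) (Icc 0 T) :=
      continuousOn_const.mul (hF.cont j a ha x)
    exact h1.congr (fun t _ => hd j a t x)
  · obtain ⟨C1, h1⟩ := hF.lip j
    refine ⟨|c| * C1, fun a ha a' ha' t ht x => ?_⟩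
    rw [hd, hd, ← mul_sub, abs_mul]
    have h2 := mul_le_mul_of_nonneg_left (h1 a ha a' ha' t ht x) (abs_nonneg c)
    calc _ ≤ |c| * (C1 * |a - a'| * bd (α / 2) (1 / 16) x) := h2
      _ = _ := by ring

theorem K1_pow {a₁ T α : ℝ} {F : ℝ → ℝ → ℝ → ℝ} (hα : 1 ≤ α) (hF : Fam a₁ T α F) (n : ℕ) :
    Fam a₁ T α (fun a t x => (F a t x) ^ (n + 1)) := by
  induction n with
  | zero =>
    have h : (fun a t x => (F a t x) ^ (0 + 1)) = F := by
      funext a t x
      rw [zero_add, pow_one]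
    rw [h]
    exact hF
  | succ n ih =>
    have h : (fun a t x => (F a t x) ^ (n + 1 + 1)) = fun a t x => (F a t x) ^ (n + 1) * F a t x := by
      funext a t x
      rw [pow_succ]
    rw [h]
    exact K1_mul hα ih hF

theorem K1_fl {a₁ T α : ℝ} {F : ℝ → ℝ → ℝ → ℝ} (hα : 1 ≤ α) (hF : Fam a₁ T α F) (k : ℕ) :
    Fam a₁ T α (fun a t x => fl k (F a t x)) := by
  have h : (fun a t x => fl k (F a t x)) = fun a t x => 1 / ((k : ℝ) + 1) * (F a t x) ^ (k + 1) := by
    funext a t x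
    rw [fl]
    ring
  rw [h]
  exact K1_const hα (K1_pow hα hF k) _

end H37KB
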