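import Pool.Agent.H37.KB.B2
import Pool.Agent.H37.KB.D2

/-!
# Row K2 of MP_95be7d_PDE (110 lines)

Mollified families.  `iteratedDeriv j (mol ρ g) = mol ρ_j g`, `ρ_j = iteratedDeriv j ρ` (`B1_iter`), vanishing for `|x| ≥ 1` (it vanishes on the open set `|x| > 1`, and at
`|x| = 1` by continuity).

Pointwise bound `K2_pt`: `|mol ρ_j v x| ≤ ∫_{|x-z| ≤ 1} |ρ_j(x-z)| |v z| dz ≤ √(n2 ρ_j) (∫_{|x-z|≤1} v²)^{1/2}` (Cauchy-Schwarz `A1_cs` with `v` replaced by `v · 1_{|x-z| ≤ 1}`), and there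
`wt α x ≤ e^α wt α z` (`D2_slow`), so `∫_{|x-z|≤1} v² ≤ e^α (wt α x)⁻¹ ∫ wt v²`; finally `(wt α x)⁻¹ ≤ bd(x)²` (`D2_bd`).
`bound`: `v = g a t`.  `lip`: `v = g a t - g a' t` (`B1_sub`), `√(K |a-a'|²) = √K |a-a'|`.  `cont`: `A2_pair` / `B1_joint` for `ρ_j`.
-/

open MeasureTheory Filter Topology Set
open scoped ContDiff

namespace H37KB

open H98KB

theorem K2_pt {α : ℝ} {ρ v : ℝ → ℝ} (hα : 1 ≤ α) (h : ContDiff ℝ ∞ ρ)
    (hs : ∀ x, 1 ≤ |x| → ρ x = 0) (hv : MemLp v 2 volume)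
    (hi : Integrable (fun x => wt α x * (v x) ^ 2)) (x : ℝ) :
    |mol ρ v x| ≤ √(n2 ρ) * (√(Real.exp α * ∫ z, wt α z * (v z) ^ 2) * bd (α / 2) (1 / 16) x) := by
  have hc : HasCompactSupport ρ := by
    refine HasCompactSupport.intro (isCompact_Icc (a := (-1:ℝ)) (b := 1)) fun y hy => hs y ?_
    rw [mem_Icc, ← abs_le, not_le] at hy
    exact hy.le
  obtain ⟨_, _, hsh, _⟩ := B1_shift h hc x
  set S : Set ℝ := Metric.closedBall x 1 with hS
  have hSm : MeasurableSet S := measurableSet_closedBall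
  set v' : ℝ → ℝ := S.indicator v with hv'
  have mv' : MemLp v' 2 volume := hv.indicator hSm
  have e1 : mol ρ v x = ∫ z, ρ (x - z) * v' z := by
    unfold mol
    congr 1
    funext z
    by_cases hz : z ∈ S
    · rw [hv', indicator_of_mem hz]
    · rw [hv', indicator_of_notMem hz, hs (x - z), zero_mul, zero_mul]
      rw [hS, Metric.mem_closedBall, Real.dist_eq, abs_sub_comm, not_le] at hz
      exact hz.le
  have e2 : n2 (fun z => ρ (x - z)) = n2 ρ := by
    unfold n2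
    exact integral_sub_left_eq_self (fun y => (ρ y) ^ 2) volume x
  have hcs := A1_cs hsh mv'
  rw [e2, ← e1] at hcs
  refine hcs.trans (mul_le_mul_of_nonneg_left ?_ (Real.sqrt_nonneg _))
  obtain ⟨b1, b2, _⟩ := D2_bd hα x
  have e3 : √(Real.exp α * ∫ z, wt α z * (v z) ^ 2) * bd (α / 2) (1 / 16) x =
      √((bd (α / 2) (1 / 16) x) ^ 2 * (Real.exp α * ∫ z, wt α z * (v z) ^ 2)) := by
    rw [Real.sqrt_mul (sq_nonneg _), Real.sqrt_sq b2.le, mul_comm]
  rw [e3]
  apply Real.sqrt_le_sqrt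
  unfold n2
  rw [← integral_const_mul, ← integral_const_mul]
  refine integral_mono (A1_sq mv') ((hi.const_mul _).const_mul _) fun z => ?_
  simp only
  have hw : 0 < wt α z := D2_pos α z
  by_cases hz : z ∈ S
  · rw [hv', indicator_of_mem hz]
    have hz' : |x - z| ≤ 1 := by
      rw [hS, Metric.mem_closedBall, Real.dist_eq, abs_sub_comm] at hz
      exact hz
    have h1 := D2_slow hα x z hz'
    have h2 : 1 ≤ (bd (α / 2) (1 / 16) x) ^ 2 * (Real.exp α * wt α z) :=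
      b1.trans (mul_le_mul_of_nonneg_left h1 (sq_nonneg _))
    have h3 := mul_le_mul_of_nonneg_right h2 (sq_nonneg (v z))
    calc (v z) ^ 2 = 1 * (v z) ^ 2 := (one_mul _).symm
      _ ≤ _ := h3
      _ = _ := by ring
  · rw [hv', indicator_of_notMem hz]
    have h0 := (Real.exp_pos α).le
    have h4 : (0:ℝ) ^ 2 = 0 := by norm_num
    rw [h4]
    positivity

theorem K2 {a₁ T α K : ℝ} {g : ℝ → ℝ → ℝ → ℝ} {ρ : ℝ → ℝ} (hα : 1 ≤ α) (hK : 0 ≤ K)
    (hc : ∀ a ∈ Icc (-a₁) a₁, CL2 T (g a)) (hg : WB a₁ T α K g) (h : ContDiff ℝ ∞ ρ)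
    (hs : ∀ x, 1 ≤ |x| → ρ x = 0) : Fam a₁ T α (fun a t => mol ρ (g a t)) := by
  have hcs : HasCompactSupport ρ := by
    refine HasCompactSupport.intro (isCompact_Icc (a := (-1:ℝ)) (b := 1)) fun y hy => hs y ?_
    rw [mem_Icc, ← abs_le, not_le] at hy
    exact hy.le
  -- derivatives vanish outside the unit ball
  have hs' : ∀ (j : ℕ) (x : ℝ), 1 ≤ |x| → iteratedDeriv j ρ x = 0 := by
    intro j
    have hz : ∀ x : ℝ, 1 < |x| → iteratedDeriv j ρ x = 0 := by
      intro x hx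
      have hev : ρ =ᶠ[𝓝 x] fun _ => 0 := by
        have : ∀ᶠ y in 𝓝 x, 1 < |y| := (continuous_abs.tendsto x).eventually (lt_mem_nhds hx)
        filter_upwards [this] with y hy using hs y hy.le
      rw [hev.iteratedDeriv_eq j]
      simp
    intro x hx
    have hcont : Continuous (iteratedDeriv j ρ) := (B1_test h hcs j).1.continuous
    have hcl : IsClosed {y : ℝ | iteratedDeriv j ρ y = 0} := isClosed_eq hcont continuous_const
    have hx0 : x ≠ 0 := by
      rintro rfl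
      simp at hx
      linarith
    have hseq : Tendsto (fun n : ℕ => x + (1 / ((n:ℝ) + 1)) * x) atTop (𝓝 (x + 0 * x)) :=
      tendsto_const_nhds.add ((tendsto_one_div_add_atTop_nhds_zero_nat).mul_const x)
    rw [zero_mul, add_zero] at hseq
    refine hcl.mem_of_tendsto hseq (Eventually.of_forall fun n => hz _ ?_)
    have hp : 0 < 1 / ((n:ℝ) + 1) := by positivity
    have : x + 1 / ((n:ℝ) + 1) * x = (1 + 1 / ((n:ℝ) + 1)) * x := by ring
    rw [this, abs_mul, abs_of_pos (by positivity)]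
    nlinarith
  have hj := fun j => B1_test h hcs j
  have mg : ∀ a ∈ Icc (-a₁) a₁, ∀ t ∈ Icc 0 T, MemLp (g a t) 2 volume :=
    fun a ha t ht => (hc a ha).mem t ht
  have hit : ∀ (j : ℕ), ∀ a ∈ Icc (-a₁) a₁, ∀ t ∈ Icc 0 T,
      iteratedDeriv j (mol ρ (g a t)) = mol (iteratedDeriv j ρ) (g a t) :=
    fun j a ha t ht => B1_iter h hcs (mg a ha t ht) j
  refine ⟨fun a ha t ht => B1_smooth h hcs (mg a ha t ht), ?_, ?_, ?_⟩
  · intro j
    refine ⟨√(n2 (iteratedDeriv j ρ)) * √(Real.exp α * K), ?_⟩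
    intro a ha t ht x
    rw [hit j a ha t ht]
    refine (K2_pt hα (hj j).1 (hs' j) (mg a ha t ht) (hg.int a ha t ht) x).trans ?_
    rw [mul_assoc]
    have hb : 0 ≤ bd (α / 2) (1 / 16) x := (Real.exp_pos _).le
    gcongr
    exact hg.le a ha t ht
  · intro j a ha x
    have : ContinuousOn (fun t => mol (iteratedDeriv j ρ) (g a t) x) (Icc 0 T) := by
      have h1 := B1_joint (hc a ha) (hj j).1 (hj j).2.1
      exact h1.comp (f := fun t : ℝ => ((t, x) : ℝ × ℝ))
        (Continuous.continuousOn (by fun_prop)) (fun t ht => ⟨ht, mem_univ _⟩)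
    refine this.congr fun t ht => ?_
    simp only [hit j a ha t ht]
  · intro j
    refine ⟨√(n2 (iteratedDeriv j ρ)) * √(Real.exp α * K), ?_⟩
    intro a ha a' ha' t ht x
    rw [hit j a ha t ht, hit j a' ha' t ht,
      ← B1_sub (hj j).1 (hj j).2.1 (mg a ha t ht) (mg a' ha' t ht)]
    refine (K2_pt hα (hj j).1 (hs' j) ((mg a ha t ht).sub (mg a' ha' t ht))
      (hg.int' a ha a' ha' t ht) x).trans ?_
    have hb : 0 ≤ bd (α / 2) (1 / 16) x := (Real.exp_pos _).le
    have hle : √(Real.exp α * ∫ z, wt α z * (g a t z - g a' t z) ^ 2) ≤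
        √(Real.exp α * K) * |a - a'| := by
      have : √(Real.exp α * K) * |a - a'| = √(Real.exp α * K * |a - a'| ^ 2) := by
        rw [Real.sqrt_mul (mul_nonneg (Real.exp_pos _).le hK) (|a - a'| ^ 2),
          Real.sqrt_sq (abs_nonneg _)]
      rw [this]
      apply Real.sqrt_le_sqrt
      rw [mul_assoc]
      exact mul_le_mul_of_nonneg_left (hg.le' a ha a' ha' t ht) (Real.exp_pos _).le
    calc √(n2 (iteratedDeriv j ρ)) *
          (√(Real.exp α * ∫ z, wt α z * (g a t z - g a' t z) ^ 2) * bd (α / 2) (1 / 16) x)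
        ≤ √(n2 (iteratedDeriv j ρ)) * ((√(Real.exp α * K) * |a - a'|) * bd (α / 2) (1 / 16) x) := by
          gcongr
      _ = _ := by ring

end H37KB
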