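import Pool.Agent.H37.KB.C2
import Pool.Agent.H37.KB.D2
import Pool.Agent.H37.KB.G0

/-!
# Row L1 of MP_95be7d_PDE (150 lines)

The commutator error is small.  `v` with `IsH1 v q`, `nh v q ≤ M`, `S = 1 + M`, `|v| ≤ S`, `U = mol ρ v`, `|U| ≤ S`, `Mol r ρ`, `r ≤ 1`, `k ≥ 1`.

For `|x-z| ≤ r`: `|v z - U x| = |∫ ρ(x-z') (v z - v z') dz'| ≤ √(2 r M)` (`C1_hold`, `n2 q ≤ M`, `|z-z'| ≤ 2r`).
`e(x) = mol ρ (fl k ∘ v) x - fl k (U x) = ∫ ρ(x-z) (fl k (v z) - fl k (U x)) dz`, so by `G0_fl2` `|e(x)| ≤ S^(k-1) √(2rM) ∫ ρ(x-z) (|v z| + |U x|) dz` and (`B2_avg`)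
`e(x)² ≤ S^(2k-2) 2rM · 4 ∫ ρ(x-z) v(z)² dz`.
`e'(x) = mol ρ (v^k q) x - U(x)^k mol ρ q x = ∫ ρ(x-z) (v(z)^k - U(x)^k) q(z) dz` (`B1_deriv`, `C2_mol` for `v` and for `C1_pow`), so by `G0_pow`
`e'(x)² ≤ (k S^(k-1))² 2rM ∫ ρ(x-z) q(z)² dz` (Cauchy-Schwarz for `ρ(x-z)dz`, as in `B2_avg`, applied to `|q|`).
Integrate with the weight `wt α`: `B2_tonelli` with `κ = e^α` (`D2_slow`): `nw α e ≤ (8 S^(2k-2) M + 2 (k S^(k-1))² M) e^α r ∫ wt (v² + q²)`.
(If the product is not integrable its integral is `0`, so only upper bounds matter; but all are integrable.)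
`L1_U`: `B2_W` for `v` and `q`, `(mol ρ v)' = mol ρ q`.
-/

open MeasureTheory Filter Topology Set
open scoped ContDiff

namespace H37KB

open H98KB

theorem L1_one {r : ℝ} {ρ : ℝ → ℝ} (hρ : Mol r ρ) (x : ℝ) : ∫ z, ρ (x - z) = 1 := by
  rw [integral_sub_left_eq_self (μ := volume) ρ x]
  exact hρ.int

theorem L1_int {r : ℝ} {ρ : ℝ → ℝ} (hρ : Mol r ρ) (x : ℝ) : Integrable (fun z => ρ (x - z)) := by
  have hb := B1_shift hρ.smooth (B2_cpt hρ) x
  exact hb.1.continuous.integrable_of_hasCompactSupport hb.2.1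

theorem L1_intm {r : ℝ} {ρ g : ℝ → ℝ} (hρ : Mol r ρ) (hg : MemLp g 2 volume) (x : ℝ) :
    Integrable (fun z => ρ (x - z) * g z) := by
  have hb := B1_shift hρ.smooth (B2_cpt hρ) x
  exact A1_mul hb.2.2.1 hg

theorem L1_abs {g : ℝ → ℝ} (hg : MemLp g 2 volume) : MemLp (fun x => |g x|) 2 volume := by
  have := hg.norm
  simpa [Real.norm_eq_abs] using this

theorem L1_diff {r M : ℝ} {ρ v q : ℝ → ℝ} (hρ : Mol r ρ) (h : IsH1 v q)
    (hM : n2 q ≤ M) {x z : ℝ} (hxz : |x - z| ≤ r) :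
    |v z - mol ρ v x| ≤ √(2 * r * M) := by
  have h0 : 0 ≤ n2 q := A1_nonneg q
  have e1 : v z - mol ρ v x = ∫ z', ρ (x - z') * (v z - v z') := by
    simp_rw [mul_sub]
    rw [integral_sub ((L1_int hρ x).mul_const _) (L1_intm hρ h.1 x), integral_mul_const,
      L1_one hρ x, one_mul]
    rfl
  rw [e1]
  calc |∫ z', ρ (x - z') * (v z - v z')| ≤ ∫ z', |ρ (x - z') * (v z - v z')| :=
        abs_integral_le_integral_abs
    _ ≤ ∫ z', ρ (x - z') * √(2 * r * M) := by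
        apply integral_mono_of_nonneg (ae_of_all _ fun z' => abs_nonneg _)
          ((L1_int hρ x).mul_const _)
        refine ae_of_all _ fun z' => ?_
        show |ρ (x - z') * (v z - v z')| ≤ ρ (x - z') * √(2 * r * M)
        rw [abs_mul, abs_of_nonneg (hρ.nonneg _)]
        rcases le_or_gt r |x - z'| with h1 | h1
        · rw [hρ.supp _ h1]; simp
        · apply mul_le_mul_of_nonneg_left _ (hρ.nonneg _)
          apply Real.le_sqrt_of_sq_le
          rw [sq_abs]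
          have h2 := C1_hold h z z'
          have h3 : |z - z'| ≤ 2 * r := by
            have : z - z' = -(x - z) + (x - z') := by ring
            rw [this]
            refine (abs_add_le _ _).trans ?_
            rw [abs_neg]
            linarith
          calc (v z - v z') ^ 2 ≤ n2 q * |z - z'| := h2
            _ ≤ M * (2 * r) := mul_le_mul hM h3 (abs_nonneg _) (h0.trans hM)
            _ = 2 * r * M := by ring
    _ = √(2 * r * M) := by
        rw [integral_mul_const, L1_one hρ x, one_mul]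

theorem L1_pt {r : ℝ} {ρ g : ℝ → ℝ} (hρ : Mol r ρ) (hg : MemLp g 2 volume) (x : ℝ) :
    (∫ z, ρ (x - z) * |g z|) ^ 2 ≤ ∫ z, ρ (x - z) * (g z) ^ 2 := by
  have := (B2_avg hρ (L1_abs hg) x).2
  simp only [sq_abs] at this
  exact this

theorem L1_sup {r M : ℝ} {ρ v q : ℝ → ℝ} (hρ : Mol r ρ) (h : IsH1 v q) (hM0 : 0 ≤ M)
    (hM : nh v q ≤ M) (x : ℝ) : |v x| ≤ 1 + M ∧ |mol ρ v x| ≤ 1 + M := by
  have key : ∀ y, (v y) ^ 2 ≤ M := fun y => (C1_sup h y).trans hM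
  have key2 : (mol ρ v x) ^ 2 ≤ M := by
    refine (B2_avg hρ h.1 x).2.trans ?_
    calc ∫ z, ρ (x - z) * (v z) ^ 2 ≤ ∫ z, ρ (x - z) * M :=
          integral_mono (B2_avg hρ h.1 x).1 ((L1_int hρ x).mul_const _)
            (fun z => mul_le_mul_of_nonneg_left (key z) (hρ.nonneg _))
      _ = M := by rw [integral_mul_const, L1_one hρ x, one_mul]
  have aux : ∀ y : ℝ, y ^ 2 ≤ M → |y| ≤ 1 + M := by
    intro y hy
    apply abs_le_of_sq_le_sq _ (by positivity)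
    nlinarith
  exact ⟨aux _ (key x), aux _ key2⟩

/-- bound for `e` -/
theorem L1_e0 (k : ℕ) (hk : 1 ≤ k) {r M : ℝ} {ρ v q : ℝ → ℝ} (hM0 : 0 ≤ M) (hr : 0 < r)
    (hρ : Mol r ρ) (h : IsH1 v q) (hM : nh v q ≤ M) (x : ℝ) :
    (mol ρ (fun z => fl k (v z)) x - fl k (mol ρ v x)) ^ 2 ≤
      4 * ((1 + M) ^ (k - 1)) ^ 2 * (2 * r * M) * ∫ z, ρ (x - z) * (v z) ^ 2 := by
  have hq : n2 q ≤ M := by
    have := A1_nonneg v
    unfold nh at hM
    linarith
  set S : ℝ := 1 + M with hS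
  have hS0 : 0 ≤ S := by positivity
  set δ : ℝ := √(2 * r * M) with hδ
  have hδ0 : 0 ≤ δ := Real.sqrt_nonneg _
  have hδ2 : δ ^ 2 = 2 * r * M := Real.sq_sqrt (by positivity)
  have hfl := C1_pow h k
  have e1 : mol ρ (fun z => fl k (v z)) x - fl k (mol ρ v x) =
      ∫ z, ρ (x - z) * (fl k (v z) - fl k (mol ρ v x)) := by
    simp_rw [mul_sub]
    rw [integral_sub (L1_intm hρ hfl.1 x) ((L1_int hρ x).mul_const _), integral_mul_const,
      L1_one hρ x, one_mul]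
    rfl
  have e2 : |mol ρ (fun z => fl k (v z)) x - fl k (mol ρ v x)| ≤
      S ^ (k - 1) * δ * ((∫ z, ρ (x - z) * |v z|) + |mol ρ v x|) := by
    rw [e1]
    calc |∫ z, ρ (x - z) * (fl k (v z) - fl k (mol ρ v x))| ≤
        ∫ z, |ρ (x - z) * (fl k (v z) - fl k (mol ρ v x))| := abs_integral_le_integral_abs
      _ ≤ ∫ z, (S ^ (k - 1) * δ * (ρ (x - z) * |v z|) +
            ρ (x - z) * (S ^ (k - 1) * δ * |mol ρ v x|)) := by
          apply integral_mono_of_nonneg (ae_of_all _ fun z' => abs_nonneg _)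
            (((L1_intm hρ (L1_abs h.1) x).const_mul _).add ((L1_int hρ x).mul_const _))
          refine ae_of_all _ fun z => ?_
          show |ρ (x - z) * (fl k (v z) - fl k (mol ρ v x))| ≤ S ^ (k - 1) * δ * (ρ (x - z) * |v z|) +
            ρ (x - z) * (S ^ (k - 1) * δ * |mol ρ v x|)
          rw [abs_mul, abs_of_nonneg (hρ.nonneg _)]
          rcases le_or_gt r |x - z| with h1 | h1
          · rw [hρ.supp _ h1]; simp
          · have h2 := L1_diff hρ h hq h1.le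
            have h3 := G0_fl2 k hk (L1_sup hρ h hM0 hM z).1 (L1_sup hρ h hM0 hM x).2
            have h4 : S ^ (k - 1) * ((|v z| + |mol ρ v x|) * |v z - mol ρ v x|) ≤
                S ^ (k - 1) * ((|v z| + |mol ρ v x|) * δ) := by
              gcongr
            calc ρ (x - z) * |fl k (v z) - fl k (mol ρ v x)|
                ≤ ρ (x - z) * (S ^ (k - 1) * ((|v z| + |mol ρ v x|) * δ)) :=
                  mul_le_mul_of_nonneg_left (h3.trans h4) (hρ.nonneg _)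
              _ = _ := by ring
      _ = S ^ (k - 1) * δ * ((∫ z, ρ (x - z) * |v z|) + |mol ρ v x|) := by
          rw [integral_add ((L1_intm hρ (L1_abs h.1) x).const_mul _) ((L1_int hρ x).mul_const _),
            integral_const_mul, integral_mul_const, L1_one hρ x]
          ring
  have e3 := L1_pt hρ h.1 x
  have e4 := (B2_avg hρ h.1 x).2
  set A : ℝ := ∫ z, ρ (x - z) * (v z) ^ 2
  set I : ℝ := ∫ z, ρ (x - z) * |v z|
  set U : ℝ := mol ρ v x
  have e5 : (I + |U|) ^ 2 ≤ 4 * A := by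
    nlinarith [sq_nonneg (I - |U|), sq_abs U]
  rw [← sq_abs]
  calc |mol ρ (fun z => fl k (v z)) x - fl k U| ^ 2 ≤ (S ^ (k - 1) * δ * (I + |U|)) ^ 2 := by
        gcongr
    _ = (S ^ (k - 1)) ^ 2 * δ ^ 2 * (I + |U|) ^ 2 := by ring
    _ ≤ (S ^ (k - 1)) ^ 2 * δ ^ 2 * (4 * A) := by gcongr
    _ = _ := by rw [hδ2]; ring

/-- derivative of a mollification of an `H¹` function -/
theorem L1_dm {r : ℝ} {ρ v q : ℝ → ℝ} (hρ : Mol r ρ) (h : IsH1 v q) (x : ℝ) :
    deriv (mol ρ v) x = mol ρ q x := by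
  rw [B1_deriv hρ.smooth (B2_cpt hρ) h.1]
  exact C2_mol h hρ.smooth (B2_cpt hρ) x

theorem L1_deriv (k : ℕ) {r : ℝ} {ρ v q : ℝ → ℝ} (hρ : Mol r ρ) (h : IsH1 v q) (x : ℝ) :
    deriv (fun x => mol ρ (fun z => fl k (v z)) x - fl k (mol ρ v x)) x =
      ∫ z, ρ (x - z) * (((v z) ^ k - (mol ρ v x) ^ k) * q z) := by
  have hfl := C1_pow h k
  have hd1 : DifferentiableAt ℝ (mol ρ (fun z => fl k (v z))) x :=
    (B1_smooth hρ.smooth (B2_cpt hρ) hfl.1).differentiable (by simp) x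
  have hd2 : DifferentiableAt ℝ (mol ρ v) x :=
    (B1_smooth hρ.smooth (B2_cpt hρ) h.1).differentiable (by simp) x
  have hd3 : HasDerivAt (fun x => fl k (mol ρ v x)) ((mol ρ v x) ^ k * mol ρ q x) x := by
    have h1 : HasDerivAt (mol ρ v) (mol ρ q x) x := by
      rw [← L1_dm hρ h x]; exact hd2.hasDerivAt
    have h2 := (h1.pow (k + 1)).div_const ((k : ℝ) + 1)
    have hk1 : (k : ℝ) + 1 ≠ 0 := by positivity
    have h3 : (mol ρ v x) ^ k * mol ρ q x =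
        ((k + 1 : ℕ) : ℝ) * mol ρ v x ^ (k + 1 - 1) * mol ρ q x / ((k : ℝ) + 1) := by
      rw [Nat.add_sub_cancel]
      push_cast
      field_simp
    rw [h3]
    exact h2
  have hd4 : HasDerivAt (mol ρ (fun z => fl k (v z))) (mol ρ (fun z => (v z) ^ k * q z) x) x := by
    rw [← L1_dm hρ hfl x]; exact hd1.hasDerivAt
  have hd5 : HasDerivAt (fun x => mol ρ (fun z => fl k (v z)) x - fl k (mol ρ v x))
      (mol ρ (fun z => (v z) ^ k * q z) x - (mol ρ v x) ^ k * mol ρ q x) x := hd4.sub hd3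
  rw [hd5.deriv]
  have : ∀ z, ρ (x - z) * (((v z) ^ k - (mol ρ v x) ^ k) * q z) =
      ρ (x - z) * ((v z) ^ k * q z) - (mol ρ v x) ^ k * (ρ (x - z) * q z) := by
    intro z; ring
  simp_rw [this]
  rw [integral_sub (L1_intm hρ hfl.2.1 x) ((L1_intm hρ h.2.1 x).const_mul _), integral_const_mul]
  rfl

/-- bound for `e'` -/
theorem L1_e1 (k : ℕ) {r M : ℝ} {ρ v q : ℝ → ℝ} (hM0 : 0 ≤ M) (hr : 0 < r)
    (hρ : Mol r ρ) (h : IsH1 v q) (hM : nh v q ≤ M) (x : ℝ) :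
    (deriv (fun x => mol ρ (fun z => fl k (v z)) x - fl k (mol ρ v x)) x) ^ 2 ≤
      (k * (1 + M) ^ (k - 1)) ^ 2 * (2 * r * M) * ∫ z, ρ (x - z) * (q z) ^ 2 := by
  have hq : n2 q ≤ M := by
    have := A1_nonneg v
    unfold nh at hM
    linarith
  rw [L1_deriv k hρ h x]
  set S : ℝ := 1 + M with hS
  have hS0 : 0 ≤ S := by positivity
  set δ : ℝ := √(2 * r * M) with hδ
  have hδ0 : 0 ≤ δ := Real.sqrt_nonneg _
  have hδ2 : δ ^ 2 = 2 * r * M := Real.sq_sqrt (by positivity)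
  have e2 : |∫ z, ρ (x - z) * (((v z) ^ k - (mol ρ v x) ^ k) * q z)| ≤
      k * S ^ (k - 1) * δ * ∫ z, ρ (x - z) * |q z| := by
    calc |∫ z, ρ (x - z) * (((v z) ^ k - (mol ρ v x) ^ k) * q z)| ≤
        ∫ z, |ρ (x - z) * (((v z) ^ k - (mol ρ v x) ^ k) * q z)| := abs_integral_le_integral_abs
      _ ≤ ∫ z, k * S ^ (k - 1) * δ * (ρ (x - z) * |q z|) := by
          apply integral_mono_of_nonneg (ae_of_all _ fun z' => abs_nonneg _)
            ((L1_intm hρ (L1_abs h.2.1) x).const_mul _)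
          refine ae_of_all _ fun z => ?_
          show |ρ (x - z) * (((v z) ^ k - (mol ρ v x) ^ k) * q z)| ≤
            k * S ^ (k - 1) * δ * (ρ (x - z) * |q z|)
          rw [abs_mul, abs_of_nonneg (hρ.nonneg _), abs_mul]
          rcases le_or_gt r |x - z| with h1 | h1
          · rw [hρ.supp _ h1]; simp
          · have h2 := L1_diff hρ h hq h1.le
            have h3 := G0_pow k (L1_sup hρ h hM0 hM z).1 (L1_sup hρ h hM0 hM x).2
            have h4 : (k : ℝ) * S ^ (k - 1) * |v z - mol ρ v x| ≤ k * S ^ (k - 1) * δ := by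
              gcongr
            calc ρ (x - z) * (|v z ^ k - mol ρ v x ^ k| * |q z|)
                ≤ ρ (x - z) * ((k * S ^ (k - 1) * δ) * |q z|) :=
                  mul_le_mul_of_nonneg_left
                    (mul_le_mul_of_nonneg_right (h3.trans h4) (abs_nonneg _)) (hρ.nonneg _)
              _ = _ := by ring
      _ = k * S ^ (k - 1) * δ * ∫ z, ρ (x - z) * |q z| := integral_const_mul _ _
  have e3 := L1_pt hρ h.2.1 x
  rw [← sq_abs]
  calc |∫ z, ρ (x - z) * (((v z) ^ k - (mol ρ v x) ^ k) * q z)| ^ 2 ≤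
      (k * S ^ (k - 1) * δ * ∫ z, ρ (x - z) * |q z|) ^ 2 := by gcongr
    _ = (k * S ^ (k - 1)) ^ 2 * δ ^ 2 * (∫ z, ρ (x - z) * |q z|) ^ 2 := by ring
    _ ≤ (k * S ^ (k - 1)) ^ 2 * δ ^ 2 * ∫ z, ρ (x - z) * (q z) ^ 2 := by gcongr
    _ = _ := by rw [hδ2]

theorem L1_split {α : ℝ} {v q : ℝ → ℝ} (h : IsH1 v q)
    (hi : Integrable (fun x => wt α x * ((v x) ^ 2 + (q x) ^ 2))) :
    Integrable (fun x => wt α x * (v x) ^ 2) ∧ Integrable (fun x => wt α x * (q x) ^ 2) := by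
  have hm : AEStronglyMeasurable (wt α) volume := (D2_cont α).aestronglyMeasurable
  constructor
  · refine hi.mono' (hm.mul (h.1.1.pow 2)) (ae_of_all _ fun x => ?_)
    have := D2_pos α x
    rw [Real.norm_eq_abs, abs_of_nonneg (by positivity)]
    nlinarith [sq_nonneg (q x)]
  · refine hi.mono' (hm.mul (h.2.1.1.pow 2)) (ae_of_all _ fun x => ?_)
    have := D2_pos α x
    rw [Real.norm_eq_abs, abs_of_nonneg (by positivity)]
    nlinarith [sq_nonneg (v x)]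

theorem L1_e (k : ℕ) (hk : 1 ≤ k) {α M : ℝ} (hα : 1 ≤ α) (hM : 0 ≤ M) : ∃ C : ℝ, 0 ≤ C ∧
    ∀ (r : ℝ) (ρ v q : ℝ → ℝ), 0 < r → r ≤ 1 → Mol r ρ → IsH1 v q → nh v q ≤ M →
      Integrable (fun x => wt α x * ((v x) ^ 2 + (q x) ^ 2)) →
      nw α (fun x => mol ρ (fun z => fl k (v z)) x - fl k (mol ρ v x)) ≤
        C * r * ∫ x, wt α x * ((v x) ^ 2 + (q x) ^ 2) := by
  set c1 : ℝ := 4 * ((1 + M) ^ (k - 1)) ^ 2 with hc1
  set c2 : ℝ := (k * (1 + M) ^ (k - 1)) ^ 2 with hc2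
  have hc10 : 0 ≤ c1 := by positivity
  have hc20 : 0 ≤ c2 := by positivity
  refine ⟨(c1 + c2) * (2 * M) * Real.exp α, by positivity, ?_⟩
  intro r ρ v q hr hr1 hρ h hM1 hi
  obtain ⟨hiv, hiq⟩ := L1_split h hi
  have hκ : ∀ x z, |x - z| ≤ r → wt α x ≤ Real.exp α * wt α z :=
    fun x z hxz => D2_slow hα x z (hxz.trans hr1)
  have hW0 : ∀ x, 0 ≤ wt α x := fun x => (D2_pos α x).le
  have tv := B2_tonelli hρ (D2_cont α) hW0 hκ h.1 hiv
  have tq := B2_tonelli hρ (D2_cont α) hW0 hκ h.2.1 hiq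
  set m : ℝ := 2 * r * M with hm
  have hm0 : 0 ≤ m := by positivity
  have step : nw α (fun x => mol ρ (fun z => fl k (v z)) x - fl k (mol ρ v x)) ≤
      ∫ x, (c1 * m * (wt α x * ∫ z, ρ (x - z) * (v z) ^ 2) +
        c2 * m * (wt α x * ∫ z, ρ (x - z) * (q z) ^ 2)) := by
    unfold nw
    apply integral_mono_of_nonneg
      (ae_of_all _ fun x => mul_nonneg (hW0 x) (add_nonneg (sq_nonneg _) (sq_nonneg _)))
      ((tv.1.const_mul _).add (tq.1.const_mul _))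
    refine ae_of_all _ fun x => ?_
    have a1 := L1_e0 k hk hM hr hρ h hM1 x
    have a2 := L1_e1 k hM hr hρ h hM1 x
    have a3 := mul_le_mul_of_nonneg_left (add_le_add a1 a2) (hW0 x)
    refine a3.trans (le_of_eq ?_)
    show _ = c1 * m * (wt α x * ∫ z, ρ (x - z) * (v z) ^ 2) +
        c2 * m * (wt α x * ∫ z, ρ (x - z) * (q z) ^ 2)
    simp only [hc1, hc2, hm]
    ring
  have iv0 : 0 ≤ ∫ x, wt α x * (v x) ^ 2 := integral_nonneg fun x => mul_nonneg (hW0 x) (sq_nonneg _)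
  have iq0 : 0 ≤ ∫ x, wt α x * (q x) ^ 2 := integral_nonneg fun x => mul_nonneg (hW0 x) (sq_nonneg _)
  have hsum : ∫ x, wt α x * ((v x) ^ 2 + (q x) ^ 2) =
      (∫ x, wt α x * (v x) ^ 2) + ∫ x, wt α x * (q x) ^ 2 := by
    rw [← integral_add hiv hiq]
    congr 1; ext x; ring
  rw [integral_add (tv.1.const_mul _) (tq.1.const_mul _), integral_const_mul,
    integral_const_mul] at step
  refine step.trans ?_
  rw [hsum]
  have b1 := mul_le_mul_of_nonneg_left tv.2 (mul_nonneg hc10 hm0)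
  have b2 := mul_le_mul_of_nonneg_left tq.2 (mul_nonneg hc20 hm0)
  have he : 0 < Real.exp α := Real.exp_pos α
  set X : ℝ := ∫ x, wt α x * (v x) ^ 2
  set Y : ℝ := ∫ x, wt α x * (q x) ^ 2
  have b3 : 0 ≤ c2 * m * (Real.exp α * X) := by positivity
  have b4 : 0 ≤ c1 * m * (Real.exp α * Y) := by positivity
  calc _ ≤ c1 * m * (Real.exp α * X) + c2 * m * (Real.exp α * Y) := add_le_add b1 b2
    _ ≤ c1 * m * (Real.exp α * X) + c2 * m * (Real.exp α * Y) +
        (c2 * m * (Real.exp α * X) + c1 * m * (Real.exp α * Y)) := by linarith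
    _ = _ := by simp only [hm]; ring

theorem L1_U {α r : ℝ} {ρ v q : ℝ → ℝ} (hα : 1 ≤ α) (hr : r ≤ 1) (hρ : Mol r ρ) (h : IsH1 v q)
    (hi : Integrable (fun x => wt α x * ((v x) ^ 2 + (q x) ^ 2))) :
    nw α (mol ρ v) ≤ Real.exp α * ∫ x, wt α x * ((v x) ^ 2 + (q x) ^ 2) := by
  obtain ⟨hiv, hiq⟩ := L1_split h hi
  have hκ : ∀ x z, |x - z| ≤ r → wt α x ≤ Real.exp α * wt α z :=
    fun x z hxz => D2_slow hα x z (hxz.trans hr)
  have hW0 : ∀ x, 0 ≤ wt α x := fun x => (D2_pos α x).le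
  have tv := B2_W hρ (D2_cont α) hW0 hκ h.1 hiv
  have tq := B2_W hρ (D2_cont α) hW0 hκ h.2.1 hiq
  have hsum : ∫ x, wt α x * ((v x) ^ 2 + (q x) ^ 2) =
      (∫ x, wt α x * (v x) ^ 2) + ∫ x, wt α x * (q x) ^ 2 := by
    rw [← integral_add hiv hiq]
    congr 1; ext x; ring
  have e : nw α (mol ρ v) = (∫ x, wt α x * (mol ρ v x) ^ 2) + ∫ x, wt α x * (mol ρ q x) ^ 2 := by
    rw [← integral_add tv.1 tq.1]
    unfold nw
    congr 1; ext x
    rw [L1_dm hρ h x]; ring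
  rw [e, hsum, mul_add]
  exact add_le_add tv.2 tq.2

end H37KB
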