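import Pool.Agent.H37.KB.B2
import Pool.Agent.H37.KB.I1
import Pool.Agent.H37.KB.C2

/-!
# Row L2 of MP_95be7d_PDE (110 lines)

Mollification of the data.  For smooth `φ` with `|φ^(j)(x)| ≤ C e^{-4α|x|}` (`j ≤ 2`) and `Mol r ρ`, `r ≤ 1`:
`mol ρ φ x - φ x = ∫ ρ(x-z) (φ z - φ x) dz`, `|φ z - φ x| ≤ r sup_{|y-x| ≤ r} |φ'| ≤ r C e^{4α} e^{-4α|x|}`; `(mol ρ φ)' = mol (deriv ρ) φ = mol ρ φ'` (`B1_deriv`, `C2_mol` with
`IsH1 φ φ'`), so the same bound for the derivative with `φ''`.  Hence with `wt α x ≤ 2 e^{α|x|}`: `nw α (mol ρ φ - φ) ≤ C' r² ∫ e^{α|x| - 8α|x|} ≤ C'' r²`.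
-/

open MeasureTheory Filter Topology Set
open scoped ContDiff

namespace H37KB

open H98KB

theorem L2_bd (p x : ℝ) : bd p p x = Real.exp (-(p * |x|)) := by
  unfold bd
  congr 1
  rcases le_total 0 x with h | h
  · rw [max_eq_left h, max_eq_right (by linarith), abs_of_nonneg h]; ring
  · rw [max_eq_right h, max_eq_left (by linarith), abs_of_nonpos h]; ring

theorem L2_w {α : ℝ} (hα : 1 ≤ α) (x : ℝ) :
    wt α x * (Real.exp (-(4 * α * |x|))) ^ 2 ≤ 2 * (1 + x ^ 2)⁻¹ := by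
  have h1 : wt α x ≤ 2 * Real.exp (α * |x|) := by
    unfold wt
    have e1 : Real.exp (α * x) ≤ Real.exp (α * |x|) :=
      Real.exp_le_exp.2 (mul_le_mul_of_nonneg_left (le_abs_self x) (by linarith))
    have e2 : Real.exp (-x / 8) ≤ Real.exp (α * |x|) := by
      apply Real.exp_le_exp.2
      have h := neg_abs_le x
      have h' := abs_nonneg x
      nlinarith
    linarith
  have h2 : (0 : ℝ) ≤ (Real.exp (-(4 * α * |x|))) ^ 2 := sq_nonneg _
  have h3 : 2 * Real.exp (α * |x|) * (Real.exp (-(4 * α * |x|))) ^ 2 =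
      2 * (Real.exp (7 * α * |x|))⁻¹ := by
    rw [← Real.exp_nat_mul, mul_assoc, ← Real.exp_add, ← Real.exp_neg]
    congr 2
    push_cast
    ring
  have h4 : 1 + x ^ 2 ≤ Real.exp (7 * α * |x|) := by
    have h' := abs_nonneg x
    have h5 := Real.quadratic_le_exp_of_nonneg (x := 7 * |x|) (by positivity)
    have h6 : Real.exp (7 * |x|) ≤ Real.exp (7 * α * |x|) := by
      apply Real.exp_le_exp.2
      nlinarith
    have h7 : |x| ^ 2 = x ^ 2 := sq_abs x
    nlinarith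
  calc wt α x * (Real.exp (-(4 * α * |x|))) ^ 2
      ≤ 2 * Real.exp (α * |x|) * (Real.exp (-(4 * α * |x|))) ^ 2 :=
        mul_le_mul_of_nonneg_right h1 h2
    _ = 2 * (Real.exp (7 * α * |x|))⁻¹ := h3
    _ ≤ 2 * (1 + x ^ 2)⁻¹ := by
        apply mul_le_mul_of_nonneg_left _ (by norm_num)
        exact inv_anti₀ (by positivity) h4

theorem L2_cont (α : ℝ) : Continuous (fun x : ℝ => (Real.exp (-(4 * α * |x|))) ^ 2) := by
  fun_prop

theorem L2_int {α : ℝ} (hα : 1 ≤ α) :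
    Integrable (fun x => wt α x * (Real.exp (-(4 * α * |x|))) ^ 2) := by
  refine (integrable_inv_one_add_sq.const_mul 2).mono'
    ((D2_cont α).mul (L2_cont α)).aestronglyMeasurable (ae_of_all _ fun x => ?_)
  rw [Real.norm_of_nonneg (mul_nonneg (D2_pos α x).le (sq_nonneg _))]
  exact L2_w hα x

/-- pointwise bound for the mollification error -/
theorem L2_pt {r C α : ℝ} {ρ φ : ℝ → ℝ} (hr : 0 < r) (hr1 : r ≤ 1) (hα : 1 ≤ α) (hρ : Mol r ρ)
    (hφ : Differentiable ℝ φ) (hC : ∀ y, |deriv φ y| ≤ C * Real.exp (-(4 * α * |y|))) (x : ℝ) :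
    |mol ρ φ x - φ x| ≤ r * (C * Real.exp (4 * α)) * Real.exp (-(4 * α * |x|)) := by
  have hC0 : 0 ≤ C := by
    have := (abs_nonneg _).trans (hC 0)
    simpa using this
  have hcs := B2_cm hρ.smooth.continuous (B2_cpt hρ) x
  set B : ℝ := r * (C * Real.exp (4 * α)) * Real.exp (-(4 * α * |x|)) with hB
  have hB0 : 0 ≤ B := by rw [hB]; positivity
  have hd : ∀ z, |x - z| ≤ r → |φ z - φ x| ≤ B := by
    intro z hz
    have hconv : Convex ℝ (Icc (x - r) (x + r)) := convex_Icc _ _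
    have hb : ∀ y ∈ Icc (x - r) (x + r), ‖deriv φ y‖ ≤ C * Real.exp (4 * α) *
        Real.exp (-(4 * α * |x|)) := by
      intro y hy
      rw [Real.norm_eq_abs]
      refine (hC y).trans ?_
      rw [mul_assoc C, ← Real.exp_add]
      apply mul_le_mul_of_nonneg_left _ hC0
      apply Real.exp_le_exp.2
      have h1 : |x| ≤ |y| + 1 := by
        have h2 : |x - y| ≤ r := by
          rw [abs_le]; exact ⟨by linarith [hy.2], by linarith [hy.1]⟩
        have h3 : |x| ≤ |x - y| + |y| := by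
          have := abs_add_le (x - y) y
          simpa using this
        linarith
      nlinarith
    have hx : x ∈ Icc (x - r) (x + r) := ⟨by linarith, by linarith⟩
    have hz' : z ∈ Icc (x - r) (x + r) := by
      rw [abs_le] at hz
      exact ⟨by linarith [hz.2], by linarith [hz.1]⟩
    have h := hconv.norm_image_sub_le_of_norm_deriv_le (fun y _ => hφ y) hb hx hz'
    rw [Real.norm_eq_abs, Real.norm_eq_abs] at h
    refine h.trans ?_
    rw [abs_sub_comm] at hz
    calc C * Real.exp (4 * α) * Real.exp (-(4 * α * |x|)) * |z - x|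
        ≤ C * Real.exp (4 * α) * Real.exp (-(4 * α * |x|)) * r :=
          mul_le_mul_of_nonneg_left hz (by positivity)
      _ = B := by rw [hB]; ring
  have i1 : Integrable (fun z => ρ (x - z) * φ z) :=
    (hcs.1.mul hφ.continuous).integrable_of_hasCompactSupport hcs.2.mul_right
  have i0 : Integrable (fun z => ρ (x - z)) := hcs.1.integrable_of_hasCompactSupport hcs.2
  have e0 : ∫ z, ρ (x - z) = 1 := by
    rw [← hρ.int]
    exact integral_sub_left_eq_self ρ volume x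
  have e1 : mol ρ φ x - φ x = ∫ z, ρ (x - z) * (φ z - φ x) := by
    have : (fun z => ρ (x - z) * (φ z - φ x)) =
        fun z => ρ (x - z) * φ z - ρ (x - z) * φ x := by
      funext z; ring
    rw [this, integral_sub i1 (i0.mul_const _), integral_mul_const, e0, one_mul]
    rfl
  rw [e1]
  have h := norm_integral_le_of_norm_le (f := fun z => ρ (x - z) * (φ z - φ x))
    (i0.mul_const B) (ae_of_all _ fun z => by
      rw [Real.norm_eq_abs, abs_mul, abs_of_nonneg (hρ.nonneg _)]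
      by_cases hz : |x - z| ≤ r
      · exact mul_le_mul_of_nonneg_left (hd z hz) (hρ.nonneg _)
      · rw [hρ.supp _ (not_le.mp hz).le, zero_mul, zero_mul])
  rw [integral_mul_const, e0, one_mul] at h
  exact h

theorem L2 {k : ℕ} {l₀ α a₁ : ℝ} (hl : 0 < l₀) (hα : 1 ≤ α) (hαl : 8 * α * l₀ ≤ 1)
    (ha1 : a₁ ≤ 1) (hQ : Cl (1 / 2) (1 / 2) (Qf k)) (hn : Cl (1 / 2) (1 / 2) (nf k)) :
    ∃ C : ℝ, 0 ≤ C ∧ ∀ (r : ℝ) (ρ : ℝ → ℝ), 0 < r → r ≤ 1 → Mol r ρ →
      ∀ a ∈ Icc (-a₁) a₁, nw α (fun x => mol ρ (dat k l₀ a) x - dat k l₀ a x) ≤ C * r ^ 2 := by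
  obtain ⟨C1, hC1, h1⟩ := I1_bd hl hα hαl hQ hn 1
  obtain ⟨C2, hC2, h2⟩ := I1_bd hl hα hαl hQ hn 2
  obtain ⟨C3, hC3, h3⟩ := I1_int hl hα hαl hQ hn
  set I : ℝ := ∫ x, wt α x * (Real.exp (-(4 * α * |x|))) ^ 2 with hI
  have hI0 : 0 ≤ I := integral_nonneg fun x => mul_nonneg (D2_pos α x).le (sq_nonneg _)
  refine ⟨((C1 * Real.exp (4 * α)) ^ 2 + (C2 * Real.exp (4 * α)) ^ 2) * I, by positivity, ?_⟩
  intro r ρ hr hr1 hρ a ha
  have ha' : a ∈ Icc (-1 : ℝ) 1 := ⟨by linarith [ha.1], by linarith [ha.2]⟩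
  set φ : ℝ → ℝ := dat k l₀ a with hφdef
  have hs : ContDiff ℝ ∞ φ := I1_smooth hQ hn a
  have hs' : ContDiff ℝ ∞ (deriv φ) := (contDiff_infty_iff_deriv.1 hs).2
  have hd : Differentiable ℝ φ := (contDiff_infty_iff_deriv.1 hs).1
  have hd' : Differentiable ℝ (deriv φ) := (contDiff_infty_iff_deriv.1 hs').1
  have b1 : ∀ y, |deriv φ y| ≤ C1 * Real.exp (-(4 * α * |y|)) := by
    intro y
    have := (h1 a ha' a ha' y).1
    rw [iteratedDeriv_one, L2_bd] at this
    exact this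
  have b2 : ∀ y, |deriv (deriv φ) y| ≤ C2 * Real.exp (-(4 * α * |y|)) := by
    intro y
    have := (h2 a ha' a ha' y).1
    rw [iteratedDeriv_succ, iteratedDeriv_one, L2_bd] at this
    exact this
  have hint : Integrable (fun x => (φ x) ^ 2 + (deriv φ x) ^ 2) := by
    have := (h3 (fun _ => 1) continuous_const (fun _ => zero_le_one) (D2_one hα) a ha' a ha').1
    simpa using this
  have m1 : MemLp φ 2 volume := by
    rw [memLp_two_iff_integrable_sq hs.continuous.aestronglyMeasurable]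
    refine hint.mono' (hs.continuous.pow 2).aestronglyMeasurable (ae_of_all _ fun x => ?_)
    rw [Real.norm_of_nonneg (sq_nonneg _)]
    linarith [sq_nonneg (deriv φ x)]
  have m2 : MemLp (deriv φ) 2 volume := by
    rw [memLp_two_iff_integrable_sq hs'.continuous.aestronglyMeasurable]
    refine hint.mono' (hs'.continuous.pow 2).aestronglyMeasurable (ae_of_all _ fun x => ?_)
    rw [Real.norm_of_nonneg (sq_nonneg _)]
    linarith [sq_nonneg (φ x)]
  have hH : IsH1 φ (deriv φ) := by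
    refine ⟨m1, m2, fun x y => ?_⟩
    exact (intervalIntegral.integral_deriv_eq_sub (fun z _ => hd z)
      (hs'.continuous.intervalIntegrable _ _)).symm
  have hmd : deriv (mol ρ φ) = mol ρ (deriv φ) := by
    rw [B1_deriv hρ.smooth (B2_cpt hρ) m1]
    funext x
    exact C2_mol hH hρ.smooth (B2_cpt hρ) x
  have hmdiff : Differentiable ℝ (mol ρ φ) :=
    (contDiff_infty_iff_deriv.1 (B1_smooth hρ.smooth (B2_cpt hρ) m1)).1
  have hder : ∀ x, deriv (fun x => mol ρ φ x - φ x) x = mol ρ (deriv φ) x - deriv φ x := by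
    intro x
    rw [deriv_fun_sub (hmdiff x) (hd x), hmd]
  have hpt : ∀ x, wt α x * ((mol ρ φ x - φ x) ^ 2 + (deriv (fun x => mol ρ φ x - φ x) x) ^ 2) ≤
      (((C1 * Real.exp (4 * α)) ^ 2 + (C2 * Real.exp (4 * α)) ^ 2) * r ^ 2) *
        (wt α x * (Real.exp (-(4 * α * |x|))) ^ 2) := by
    intro x
    rw [hder x]
    have p1 := L2_pt hr hr1 hα hρ hd b1 x
    have p2 := L2_pt hr hr1 hα hρ hd' b2 x
    have q1 : (mol ρ φ x - φ x) ^ 2 ≤
        (r * (C1 * Real.exp (4 * α)) * Real.exp (-(4 * α * |x|))) ^ 2 := by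
      rw [← sq_abs]
      exact pow_le_pow_left₀ (abs_nonneg _) p1 2
    have q2 : (mol ρ (deriv φ) x - deriv φ x) ^ 2 ≤
        (r * (C2 * Real.exp (4 * α)) * Real.exp (-(4 * α * |x|))) ^ 2 := by
      rw [← sq_abs]
      exact pow_le_pow_left₀ (abs_nonneg _) p2 2
    calc wt α x * ((mol ρ φ x - φ x) ^ 2 + (mol ρ (deriv φ) x - deriv φ x) ^ 2)
        ≤ wt α x * ((r * (C1 * Real.exp (4 * α)) * Real.exp (-(4 * α * |x|))) ^ 2 +
          (r * (C2 * Real.exp (4 * α)) * Real.exp (-(4 * α * |x|))) ^ 2) :=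
          mul_le_mul_of_nonneg_left (add_le_add q1 q2) (D2_pos α x).le
      _ = _ := by ring
  unfold nw
  have hmono := integral_mono_of_nonneg (μ := (volume : Measure ℝ))
    (ae_of_all _ fun x => mul_nonneg (D2_pos α x).le
      (add_nonneg (sq_nonneg (mol ρ φ x - φ x)) (sq_nonneg (deriv (fun x => mol ρ φ x - φ x) x))))
    ((L2_int hα).const_mul (((C1 * Real.exp (4 * α)) ^ 2 + (C2 * Real.exp (4 * α)) ^ 2) * r ^ 2))
    (ae_of_all _ hpt)
  refine hmono.trans (le_of_eq ?_)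
  rw [integral_const_mul, ← hI]
  ring

end H37KB
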