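import Pool.Agent.H37.KB.L1

/-!
# Weighted integrability of the mollified solution and of the commutator error
-/

open MeasureTheory Filter Topology Set
open scoped ContDiff

namespace H37KB

open H98KB

theorem M0_split {α : ℝ} {f g : ℝ → ℝ} (hf : AEStronglyMeasurable f volume)
    (hg : AEStronglyMeasurable g volume)
    (hi : Integrable (fun x => wt α x * ((f x) ^ 2 + (g x) ^ 2))) :
    Integrable (fun x => wt α x * (f x) ^ 2) ∧ Integrable (fun x => wt α x * (g x) ^ 2) := by
  have mw : AEStronglyMeasurable (wt α) volume := (D2_cont α).aestronglyMeasurable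
  constructor
  · refine hi.mono' (mw.mul (hf.pow 2)) (Eventually.of_forall fun x => ?_)
    have := D2_pos α x
    rw [Real.norm_of_nonneg (by positivity)]
    have h2 : 0 ≤ wt α x * (g x) ^ 2 := by positivity
    nlinarith
  · refine hi.mono' (mw.mul (hg.pow 2)) (Eventually.of_forall fun x => ?_)
    have := D2_pos α x
    rw [Real.norm_of_nonneg (by positivity)]
    have h2 : 0 ≤ wt α x * (f x) ^ 2 := by positivity
    nlinarith

theorem M0_mol {α r : ℝ} {ρ v : ℝ → ℝ} (hα : 1 ≤ α) (hr : r ≤ 1) (hρ : Mol r ρ)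
    (hv : MemLp v 2 volume) (hi : Integrable (fun x => wt α x * (v x) ^ 2)) :
    Integrable (fun x => wt α x * (mol ρ v x) ^ 2) :=
  (B2_W hρ (D2_cont α) (fun x => (D2_pos α x).le)
    (fun x z h => D2_slow hα x z (h.trans hr)) hv hi).1

theorem int_U {α r : ℝ} {ρ v q : ℝ → ℝ} (hα : 1 ≤ α) (hr : r ≤ 1) (hρ : Mol r ρ) (h : IsH1 v q)
    (hi : Integrable (fun x => wt α x * ((v x) ^ 2 + (q x) ^ 2))) :
    Integrable (fun x => wt α x * ((mol ρ v x) ^ 2 + (deriv (mol ρ v) x) ^ 2)) := by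
  obtain ⟨i1, i2⟩ := M0_split h.1.1 h.2.1.1 hi
  have hc := B2_cpt hρ
  have e : deriv (mol ρ v) = mol ρ q := by
    rw [B1_deriv hρ.smooth hc h.1]
    funext x
    exact C2_mol h hρ.smooth hc x
  rw [e]
  have := (M0_mol hα hr hρ h.1 i1).add (M0_mol hα hr hρ h.2.1 i2)
  refine this.congr (Eventually.of_forall fun x => ?_)
  simp only [Pi.add_apply]
  ring

theorem M0_dom {α C : ℝ} {f g : ℝ → ℝ} (hg : AEStronglyMeasurable g volume)
    (hi : Integrable (fun x => wt α x * (f x) ^ 2)) (h : ∀ x, |g x| ≤ C * |f x|) :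
    Integrable (fun x => wt α x * (g x) ^ 2) := by
  have mw : AEStronglyMeasurable (wt α) volume := (D2_cont α).aestronglyMeasurable
  refine (hi.const_mul (C ^ 2)).mono' (mw.mul (hg.pow 2)) (Eventually.of_forall fun x => ?_)
  have hp := D2_pos α x
  rw [Real.norm_of_nonneg (by positivity)]
  have h1 : (g x) ^ 2 ≤ C ^ 2 * (f x) ^ 2 := by
    rw [← sq_abs (g x), ← sq_abs (f x), ← mul_pow]
    exact pow_le_pow_left₀ (abs_nonneg _) (h x) 2
  calc wt α x * (g x) ^ 2 ≤ wt α x * (C ^ 2 * (f x) ^ 2) := by gcongr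
    _ = _ := by ring

theorem int_e (k : ℕ) {α r : ℝ} {ρ v q : ℝ → ℝ} (hα : 1 ≤ α) (hr : r ≤ 1) (hρ : Mol r ρ)
    (h : IsH1 v q) (hi : Integrable (fun x => wt α x * ((v x) ^ 2 + (q x) ^ 2))) :
    Integrable (fun x => wt α x * ((mol ρ (fun z => fl k (v z)) x - fl k (mol ρ v x)) ^ 2
      + (deriv (fun y => mol ρ (fun z => fl k (v z)) y - fl k (mol ρ v y)) x) ^ 2)) := by
  obtain ⟨i1, i2⟩ := M0_split h.1.1 h.2.1.1 hi
  have hc := B2_cpt hρ
  set S : ℝ := √(nh v q) with hS
  have bv : ∀ x, |v x| ≤ S := fun x => by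
    rw [hS, ← Real.sqrt_sq_eq_abs]
    exact Real.sqrt_le_sqrt (C1_sup h x)
  have hS0 : 0 ≤ S := Real.sqrt_nonneg _
  have hp := C1_pow h k
  have j1 : Integrable (fun x => wt α x * (fl k (v x)) ^ 2) :=
    M0_dom (C := S ^ k) hp.1.1 i1 fun x => G0_fl1 k (bv x)
  have j2 : Integrable (fun x => wt α x * ((v x) ^ k * q x) ^ 2) := by
    refine M0_dom (C := S ^ k) hp.2.1.1 i2 fun x => ?_
    rw [abs_mul, abs_pow]
    gcongr
    exact bv x
  have s1 : ContDiff ℝ ∞ (mol ρ v) := B1_smooth hρ.smooth hc h.1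
  have s2 : ContDiff ℝ ∞ (mol ρ (fun z => fl k (v z))) := B1_smooth hρ.smooth hc hp.1
  have s3 : ContDiff ℝ ∞ (fun x => fl k (mol ρ v x)) := by
    unfold fl
    exact (s1.pow _).div_const _
  have bU : ∀ x, |mol ρ v x| ≤ S := by
    intro x
    have hcs := B2_avg hρ h.1 x
    have h1 : ∫ z, ρ (x - z) * (v z) ^ 2 ≤ ∫ z, ρ (x - z) * S ^ 2 := by
      obtain ⟨c1, c2, _⟩ := B1_shift hρ.smooth hc x
      refine integral_mono hcs.1 ((c1.continuous.integrable_of_hasCompactSupport c2).mul_const _)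
        fun z => ?_
      simp only
      have := hρ.nonneg (x - z)
      have h3 : (v z) ^ 2 ≤ S ^ 2 := by
        rw [← sq_abs]
        exact pow_le_pow_left₀ (abs_nonneg _) (bv z) 2
      gcongr
    have h2 : ∫ z, ρ (x - z) * S ^ 2 = S ^ 2 := by
      rw [integral_mul_const, integral_sub_left_eq_self ρ volume x, hρ.int, one_mul]
    have h3 : (mol ρ v x) ^ 2 ≤ S ^ 2 := by linarith [hcs.2]
    exact abs_le_of_sq_le_sq h3 hS0
  have k1 := M0_mol hα hr hρ h.1 i1
  have k2 := M0_mol hα hr hρ h.2.1 i2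
  have k3 := M0_mol hα hr hρ hp.1 j1
  have k4 := M0_mol hα hr hρ hp.2.1 j2
  have k5 : Integrable (fun x => wt α x * (fl k (mol ρ v x)) ^ 2) :=
    M0_dom (C := S ^ k) s3.continuous.aestronglyMeasurable k1 fun x => G0_fl1 k (bU x)
  have mq : Continuous (mol ρ q) := (B1_smooth hρ.smooth hc h.2.1).continuous
  have k6 : Integrable (fun x => wt α x * ((mol ρ v x) ^ k * mol ρ q x) ^ 2) := by
    refine M0_dom (C := S ^ k) ((s1.continuous.pow k).mul mq).aestronglyMeasurable k2 fun x => ?_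
    rw [abs_mul, abs_pow]
    gcongr
    exact bU x
  have hd : ∀ x, deriv (fun y => mol ρ (fun z => fl k (v z)) y - fl k (mol ρ v y)) x =
      mol ρ (fun z => (v z) ^ k * q z) x - (mol ρ v x) ^ k * mol ρ q x := by
    intro x
    have d2 : DifferentiableAt ℝ (mol ρ (fun z => fl k (v z))) x :=
      s2.differentiable (by simp) x
    have d3 : DifferentiableAt ℝ (fun z => fl k (mol ρ v z)) x :=
      s3.differentiable (by simp) x
    have d1 : HasDerivAt (mol ρ v) (mol ρ q x) x := by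
      have := (s1.differentiable (by simp) x).hasDerivAt
      rwa [B1_deriv hρ.smooth hc h.1, C2_mol h hρ.smooth hc x] at this
    have d4 : HasDerivAt (fun z => fl k (mol ρ v z)) ((mol ρ v x) ^ k * mol ρ q x) x := by
      unfold fl
      have h5 := (d1.pow (k + 1)).div_const ((k:ℝ) + 1)
      refine h5.congr_deriv ?_
      have : (k:ℝ) + 1 ≠ 0 := by positivity
      rw [Nat.add_sub_cancel]
      push_cast
      field_simp
    rw [deriv_fun_sub d2 d3, d4.deriv, B1_deriv hρ.smooth hc hp.1, C2_mol hp hρ.smooth hc x]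
  simp only [hd]
  have mw : Continuous (wt α) := D2_cont α
  have m4 : Continuous (mol ρ (fun z => (v z) ^ k * q z)) :=
    (B1_smooth hρ.smooth hc hp.2.1).continuous
  have tot := (((k3.add k5).add (k4.add k6)).const_mul 2)
  refine tot.mono' ?_ (Eventually.of_forall fun x => ?_)
  · exact (mw.mul (((s2.continuous.sub s3.continuous).pow 2).add
      ((m4.sub ((s1.continuous.pow k).mul mq)).pow 2))).aestronglyMeasurable
  · have hp := D2_pos α x
    simp only [Pi.add_apply]
    rw [Real.norm_of_nonneg (by positivity)]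
    nlinarith [mul_nonneg hp.le (sq_nonneg (mol ρ (fun z => fl k (v z)) x + fl k (mol ρ v x))),
      mul_nonneg hp.le (sq_nonneg (mol ρ (fun z => (v z) ^ k * q z) x
        + (mol ρ v x) ^ k * mol ρ q x))]

end H37KB
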