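import Pool.Agent.H37.KB.J1
import Pool.Agent.H37.KB.K1
import Pool.Agent.H37.KB.K2
import Pool.Agent.H37.KB.L1
import Pool.Agent.H37.KB.L2
import Pool.Agent.H37.KB.M0

/-!
# Row M1 of MP_95be7d_PDE (150 lines)

`ThmA`.  `hQ`, `hn` are hypotheses here.

`M, K` from `J1_main`, `K'` from `J1_WB`, `C₁` from `L1_e`, `C₂` from `L2`.  Bound `K_final = e^α K + 1`.  Given `ν > 0` choose `r ∈ (0,1]` with `C₁ r K ≤ ν`, `C₂ r² ≤ ν`,
`ρ` with `Mol r ρ` (`B3_exists`), `U a t = mol ρ (u a t)`, `e a t x = mol ρ (fl k ∘ u a t) x - fl k (mol ρ (u a t) x)`.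
* `Fam U` (`K2`, `G1_u`), `Fam (mol ρ (fl k ∘ u))` (`K2`, `G1_fl`), `Fam (fl k ∘ U)` (`K1_fl`), `Fam e` (`K1_sub`): give all fields of `App` except `evol`, and the Lipschitz
  bounds.
* `evol`: `fl k (U) + e = mol ρ (fl k ∘ u)`, so `-(fl k ∘ U)' - e' = -(mol ρ (fl k ∘ u))' = -mol ρ' (fl k ∘ u)` and the `j`-th derivative of the right side is
  `rhs (iteratedDeriv j ρ) (u a t) (fl k ∘ u a t) x` (`B1_iter`; derivatives of `iteratedDeriv j ρ` are `iteratedDeriv (j+i) ρ`); `E2_deriv` for `iteratedDeriv j ρ` with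
  `G2_single`.
* `nw` bounds: `L1_U`, `L1_e`, `L2` (`u a 0 = dat a` by `init`, funext).
-/

open MeasureTheory Filter Topology Set
open scoped ContDiff

namespace H37KB

open H98KB

theorem itit (i j : ℕ) (f : ℝ → ℝ) :
    iteratedDeriv j (iteratedDeriv i f) = iteratedDeriv (j + i) f := by
  rw [iteratedDeriv_eq_iterate, iteratedDeriv_eq_iterate, iteratedDeriv_eq_iterate,
    Function.iterate_add_apply]

theorem ititc (i j : ℕ) (f : ℝ → ℝ) :
    iteratedDeriv j (iteratedDeriv i f) = iteratedDeriv i (iteratedDeriv j f) := by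
  rw [itit, itit, add_comm]

theorem flsmooth (k : ℕ) {f : ℝ → ℝ} (hf : ContDiff ℝ ∞ f) :
    ContDiff ℝ ∞ (fun x => fl k (f x)) := by
  unfold fl
  exact (hf.pow _).div_const _

theorem evolM {T : ℝ} {k : ℕ} {φ : ℝ → ℝ} {u p : ℝ → ℝ → ℝ} {ρ : ℝ → ℝ}
    (hs : IsGlobalSol k φ u p) (h : ContDiff ℝ ∞ ρ) (hc : HasCompactSupport ρ) (j : ℕ)
    (t : ℝ) (ht : t ∈ Ioo 0 T) (x : ℝ) :
    HasDerivAt (fun τ => iteratedDeriv j (mol ρ (u τ)) x)
      (iteratedDeriv j (fun z => -iteratedDeriv 3 (mol ρ (u t)) z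
        + iteratedDeriv 2 (mol ρ (u t)) z - deriv (fun z' => fl k (mol ρ (u t) z')) z
        - deriv (fun y => mol ρ (fun z => fl k (u t z)) y - fl k (mol ρ (u t) y)) z) x) t := by
  have cu : CL2 T u := G1_u hs T
  have cf : CL2 T (fun t x => fl k (u t x)) := G1_fl hs T
  have hl := G2_single hs T
  have htI : t ∈ Icc 0 T := Ioo_subset_Icc_self ht
  have mu : MemLp (u t) 2 volume := cu.mem t htI
  have mf : MemLp (fun z => fl k (u t z)) 2 volume := cf.mem t htI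
  obtain ⟨hj1, hj2, hj3⟩ := B1_test h hc j
  have key := E2_deriv cu cf hl hj1 hj2 x t ht
  have e1 : (fun z => -iteratedDeriv 3 (mol ρ (u t)) z
        + iteratedDeriv 2 (mol ρ (u t)) z - deriv (fun z' => fl k (mol ρ (u t) z')) z
        - deriv (fun y => mol ρ (fun z => fl k (u t z)) y - fl k (mol ρ (u t) y)) z)
      = fun z => mol (iteratedDeriv 2 ρ) (u t) z - mol (iteratedDeriv 3 ρ) (u t) z
        - mol (iteratedDeriv 1 ρ) (fun z => fl k (u t z)) z := by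
    funext z
    have s1 : ContDiff ℝ ∞ (mol ρ (u t)) := B1_smooth h hc mu
    have s2 : ContDiff ℝ ∞ (mol ρ (fun z => fl k (u t z))) := B1_smooth h hc mf
    have s3 : ContDiff ℝ ∞ (fun z => fl k (mol ρ (u t) z)) := flsmooth k s1
    have d2 : DifferentiableAt ℝ (mol ρ (fun z => fl k (u t z))) z :=
      s2.differentiable (by simp) z
    have d3 : DifferentiableAt ℝ (fun z => fl k (mol ρ (u t) z)) z :=
      s3.differentiable (by simp) z
    rw [deriv_fun_sub d2 d3, B1_iter h hc mu, B1_iter h hc mu, B1_deriv h hc mf,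
      iteratedDeriv_one]
    ring
  rw [e1]
  have t1 := B1_test h hc 1
  have t2 := B1_test h hc 2
  have t3 := B1_test h hc 3
  have e2 : iteratedDeriv j (fun z => mol (iteratedDeriv 2 ρ) (u t) z
      - mol (iteratedDeriv 3 ρ) (u t) z
        - mol (iteratedDeriv 1 ρ) (fun z => fl k (u t z)) z) x
      = rhs (iteratedDeriv j ρ) (u t) (fun x => fl k (u t x)) x := by
    have c1 : ContDiff ℝ ∞ (mol (iteratedDeriv 1 ρ) (fun z => fl k (u t z))) :=
      B1_smooth t1.1 t1.2.1 mf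
    have c2 : ContDiff ℝ ∞ (mol (iteratedDeriv 2 ρ) (u t)) := B1_smooth t2.1 t2.2.1 mu
    have c3 : ContDiff ℝ ∞ (mol (iteratedDeriv 3 ρ) (u t)) := B1_smooth t3.1 t3.2.1 mu
    have le : ((j : ℕ∞) : WithTop ℕ∞) ≤ ∞ := by exact_mod_cast le_top
    have c1' : ContDiffAt ℝ j (mol (iteratedDeriv 1 ρ) (fun z => fl k (u t z))) x :=
      (c1.of_le le).contDiffAt
    have c2' : ContDiffAt ℝ j (mol (iteratedDeriv 2 ρ) (u t)) x := (c2.of_le le).contDiffAt
    have c3' : ContDiffAt ℝ j (mol (iteratedDeriv 3 ρ) (u t)) x := (c3.of_le le).contDiffAt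
    have c23 : ContDiffAt ℝ j (fun z => mol (iteratedDeriv 2 ρ) (u t) z
        - mol (iteratedDeriv 3 ρ) (u t) z) x := c2'.sub c3'
    rw [iteratedDeriv_fun_sub c23 c1', iteratedDeriv_fun_sub c2' c3',
      B1_iter t1.1 t1.2.1 mf, B1_iter t2.1 t2.2.1 mu, B1_iter t3.1 t3.2.1 mu]
    unfold rhs
    rw [ititc 1 j, ititc 2 j, ititc 3 j, iteratedDeriv_one]
  rw [e2]
  refine key.congr_of_eventuallyEq ?_
  filter_upwards [Ioo_mem_nhds ht.1 ht.2] with τ hτ
  rw [B1_iter h hc (cu.mem τ (Ioo_subset_Icc_self hτ))]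

theorem thmA_of (hQ : ∀ k : ℕ, 5 ≤ k → Cl (1 / 2) (1 / 2) (Qf k))
    (hn : ∀ k : ℕ, 5 ≤ k → Cl (1 / 2) (1 / 2) (nf k)) : ThmA := by
  intro k hk l₀ T α a₁ hl hl1 hT hα hαl ha ha1 u p h
  have hQ' := hQ k hk
  have hn' := hn k hk
  obtain ⟨M, K, hM, hK, hb, hw, hd⟩ := J1_main hl hT hα hαl ha1 hQ' hn' h
  obtain ⟨K', hK', w1, w2⟩ := J1_WB hl hT hα hαl ha1 hQ' hn' h
  obtain ⟨C1, hC1, h1⟩ := L1_e k (by omega) hα hM
  obtain ⟨C2, hC2, h2⟩ := L2 (a₁ := a₁) hl hα hαl ha1 hQ' hn'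
  refine ⟨Real.exp α * K + 1, by positivity, ?_⟩
  intro ν hν
  -- choice of the scale
  obtain ⟨r, hr, hr1, hr2, hr3⟩ : ∃ r : ℝ, 0 < r ∧ r ≤ 1 ∧ C1 * r * K ≤ ν ∧ C2 * r ^ 2 ≤ ν := by
    refine ⟨min 1 (ν / (C1 * K + C2 + 1)), by positivity, min_le_left _ _, ?_, ?_⟩
    · have hp : 0 < C1 * K + C2 + 1 := by positivity
      have hle : min 1 (ν / (C1 * K + C2 + 1)) ≤ ν / (C1 * K + C2 + 1) := min_le_right _ _
      have h3 : min 1 (ν / (C1 * K + C2 + 1)) * (C1 * K + C2 + 1) ≤ ν := by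
        rwa [le_div_iff₀ hp] at hle
      have h0 : 0 ≤ min 1 (ν / (C1 * K + C2 + 1)) := by positivity
      nlinarith
    · have hp : 0 < C1 * K + C2 + 1 := by positivity
      have hle : min 1 (ν / (C1 * K + C2 + 1)) ≤ ν / (C1 * K + C2 + 1) := min_le_right _ _
      have hle1 : min 1 (ν / (C1 * K + C2 + 1)) ≤ 1 := min_le_left _ _
      have h3 : min 1 (ν / (C1 * K + C2 + 1)) * (C1 * K + C2 + 1) ≤ ν := by
        rwa [le_div_iff₀ hp] at hle
      have h0 : 0 ≤ min 1 (ν / (C1 * K + C2 + 1)) := by positivity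
      have h4 : min 1 (ν / (C1 * K + C2 + 1)) ^ 2 ≤ min 1 (ν / (C1 * K + C2 + 1)) := by
        nlinarith
      have h5 : 0 ≤ C1 * K := by positivity
      have h6 : C2 * min 1 (ν / (C1 * K + C2 + 1)) ^ 2 ≤ C2 * min 1 (ν / (C1 * K + C2 + 1)) :=
        mul_le_mul_of_nonneg_left h4 hC2
      nlinarith
  obtain ⟨ρ, hρ⟩ := B3_exists r hr
  have hc : HasCompactSupport ρ := B2_cpt hρ
  have hs : ∀ x, 1 ≤ |x| → ρ x = 0 := fun x hx => hρ.supp x (hr1.trans hx)
  have hT0 : (0:ℝ) ∈ Icc 0 T := ⟨le_rfl, hT.le⟩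
  -- families
  have fU : Fam a₁ T α (fun a t => mol ρ (u a t)) :=
    K2 hα hK' (fun a ha => G1_u (h a ha) T) w1 hρ.smooth hs
  have fF : Fam a₁ T α (fun a t => mol ρ (fun z => fl k (u a t z))) :=
    K2 (g := fun a t z => fl k (u a t z)) hα hK' (fun a ha => G1_fl (h a ha) T) w2 hρ.smooth hs
  have fE := K1_sub hα fF (K1_fl hα fU k)
  refine ⟨fun a t => mol ρ (u a t),
    fun a t x => mol ρ (fun z => fl k (u a t z)) x - fl k (mol ρ (u a t) x), ?_, ?_⟩
  · intro a ha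
    refine ⟨⟨fU.smooth a ha, fE.smooth a ha, ?_, ?_, fun j x => fU.cont j a ha x,
      fun j x => fE.cont j a ha x,
      fun t ht => int_U hα hr1 hρ ((h a ha).h1 t ht.1) (hw a ha t ht).1,
      fun t ht => int_e k hα hr1 hρ ((h a ha).h1 t ht.1) (hw a ha t ht).1, ?_⟩, ?_, ?_⟩
    · intro j
      obtain ⟨C, hC⟩ := fU.bound j
      exact ⟨C, hC a ha⟩
    · intro j
      obtain ⟨C, hC⟩ := fE.bound j
      exact ⟨C, hC a ha⟩
    · intro j t ht x
      exact evolM (h a ha) hρ.smooth hc j t ht x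
    · intro t ht
      have hh := (h a ha).h1 t ht.1
      obtain ⟨i1, i2⟩ := hw a ha t ht
      constructor
      · have := L1_U hα hr1 hρ hh i1
        have h3 : Real.exp α * ∫ x, wt α x * ((u a t x) ^ 2 + (p a t x) ^ 2) ≤
            Real.exp α * K := mul_le_mul_of_nonneg_left i2 (Real.exp_pos _).le
        linarith
      · have h3 := h1 r ρ (u a t) (p a t) hr hr1 hρ hh (hb a ha t ht) i1
        have h4 : C1 * r * ∫ x, wt α x * ((u a t x) ^ 2 + (p a t x) ^ 2) ≤ C1 * r * K :=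
          mul_le_mul_of_nonneg_left i2 (by positivity)
        exact (h3.trans h4).trans hr2
    · have h3 := h2 r ρ hr hr1 hρ a ha
      have e : u a 0 = dat k l₀ a := funext (h a ha).init
      simp only [e]
      exact h3.trans hr3
  · intro j
    obtain ⟨C, hC⟩ := fU.lip j
    obtain ⟨C', hC'⟩ := fE.lip j
    refine ⟨max C C', ?_⟩
    intro a ha a' ha' t ht x
    have hbd : 0 ≤ bd (α / 2) (1 / 16) x := (Real.exp_pos _).le
    constructor
    · refine (hC a ha a' ha' t ht x).trans ?_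
      gcongr
      exact le_max_left _ _
    · refine (hC' a ha a' ha' t ht x).trans ?_
      gcongr
      exact le_max_right _ _

end H37KB
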