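import Pool.Agent.H37.KB.M1
import Pool.Agent.H98.KB.Sol2

/-!
# Theorem A, unconditional
-/

namespace H37KB

open H98KB

theorem thmA : ThmA :=
  thmA_of
    (fun _ hk => Cl_mono (Cl_Qf (by omega)) (by norm_num) (by norm_num))
    (fun _ hk => Cl_nf (by omega) (by norm_num))

end H37KB
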