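import Pool.Agent.H37.KB.M1
import Pool.Agent.H98.KB.Clb

/-!
# Row N1 of MP_95be7d_PDE (110 lines)

TRANSLATES.  `IsGlobalSol` is translation invariant; the stability theorem `H1` applied to `u` and its translate gives a Lipschitz modulus of continuity in `x`.

* `N1_trans`: substitute `x ↦ x + h` everywhere: `IsH1 (f(·+h)) (p(·+h))` (`MemLp` of a translate: `MemLp.comp_measurePreserving` with
  `measurePreserving_add_right`; `∫_{x+h}^{y+h} p = ∫_x^y p(·+h)`: `intervalIntegral.integral_comp_add_right`), `integral_add_right_eq_self`, and for the weak form use the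
  test function `θ(· - h)` (`iteratedDeriv_comp_sub_const` or similar).
* `N1_dat`: for `φ ∈ Cl α 1`-type data (smooth, `|φ^(j)| ≤ C_j bd α 1`): `(φ(x+h) - φ(x))² ≤ h² ∫_0^1 φ'(x+sh)² ds`, so `∫ (φ(x+h)-φ(x))² ≤ h² ∫ φ'²`; the same for `φ'`.
* `N1_mod`: `M` bounds `nh` on `[0,T]` (`G1_bdd`; the translate has the same `nh`), `W = 1` (`D1_one`), `p 0 = φ'` a.e. (`C2_data`), `H1`.
-/

open MeasureTheory Filter Topology Set
open scoped ContDiff

namespace H37KB

open H98KB

theorem N1_mp (f : ℝ → ℝ) (hf : MemLp f 2 volume) (s : ℝ) :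
    MemLp (fun x => f (x + s)) 2 volume :=
  hf.comp_measurePreserving (measurePreserving_add_right volume s)

theorem N1_trans {k : ℕ} {φ : ℝ → ℝ} {u p : ℝ → ℝ → ℝ} (h : IsGlobalSol k φ u p) (s : ℝ) :
    IsGlobalSol k (fun x => φ (x + s)) (fun t x => u t (x + s)) (fun t x => p t (x + s)) := by
  refine ⟨fun t ht => ⟨N1_mp _ (h.h1 t ht).1 s, N1_mp _ (h.h1 t ht).2.1 s, fun x y => ?_⟩,
    fun x => h.init (x + s), fun t₀ ht₀ => ?_, fun θ hθ hc t ht => ?_⟩
  · have h1 := (h.h1 t ht).2.2 (x + s) (y + s)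
    rw [intervalIntegral.integral_comp_add_right (fun z => p t z) s]
    exact h1
  · have h1 := h.cont t₀ ht₀
    refine h1.congr fun t => ?_
    have e1 : ∫ x, (u t (x + s) - u t₀ (x + s)) ^ 2 = ∫ x, (u t x - u t₀ x) ^ 2 :=
      integral_add_right_eq_self (fun x => (u t x - u t₀ x) ^ 2) s
    have e2 : ∫ x, (p t (x + s) - p t₀ (x + s)) ^ 2 = ∫ x, (p t x - p t₀ x) ^ 2 :=
      integral_add_right_eq_self (fun x => (p t x - p t₀ x) ^ 2) s
    rw [e1, e2]
  · have hθ' : ContDiff ℝ ∞ (fun x => θ (x - s)) := hθ.comp (contDiff_id.sub contDiff_const)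
    have hc' : HasCompactSupport (fun x => θ (x - s)) :=
      hc.comp_homeomorph (Homeomorph.subRight s)
    have h1 := h.weak _ hθ' hc' t ht
    have e2 : ∀ x, iteratedDeriv 2 (fun x => θ (x - s)) x = iteratedDeriv 2 θ (x - s) :=
      fun x => congrFun (iteratedDeriv_comp_sub_const 2 θ s) x
    have e3 : ∀ x, iteratedDeriv 3 (fun x => θ (x - s)) x = iteratedDeriv 3 θ (x - s) :=
      fun x => congrFun (iteratedDeriv_comp_sub_const 3 θ s) x
    have e1 : ∀ x, deriv (fun x => θ (x - s)) x = deriv θ (x - s) :=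
      fun x => deriv_comp_sub_const θ s x
    simp only [e1, e2, e3] at h1
    have a1 := integral_add_right_eq_self (μ := volume) (fun x => u t x * θ (x - s)) s
    have a2 := integral_add_right_eq_self (μ := volume) (fun x => φ x * θ (x - s)) s
    have a3 : ∀ τ, ∫ x, (u τ (x + s) * (iteratedDeriv 2 θ x + iteratedDeriv 3 θ x)
        + (u τ (x + s)) ^ (k + 1) / (k + 1) * deriv θ x) =
        ∫ x, (u τ x * (iteratedDeriv 2 θ (x - s) + iteratedDeriv 3 θ (x - s))
        + (u τ x) ^ (k + 1) / (k + 1) * deriv θ (x - s)) := by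
      intro τ
      have := integral_add_right_eq_self (μ := volume) (fun x => u τ x * (iteratedDeriv 2 θ (x - s) +
        iteratedDeriv 3 θ (x - s)) + (u τ x) ^ (k + 1) / (k + 1) * deriv θ (x - s)) s
      simpa only [add_sub_cancel_right] using this
    simp only [add_sub_cancel_right] at a1 a2
    simp only [a3]
    rw [a1, a2]
    exact h1

theorem N1_one {f : ℝ → ℝ} (hf : Cl 1 1 f) : MemLp f 2 volume ∧ ∃ C : ℝ, 0 ≤ C ∧
    ∀ s : ℝ, ∫ x, (f (x + s) - f x) ^ 2 ≤ C * s ^ 2 := by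
  have hm : MemLp f 2 volume := by
    refine (memLp_two_iff_integrable_sq (Cl_cont hf).aestronglyMeasurable).2 ?_
    have h := Cl_int (Cl_mul hf hf) (by norm_num) (by norm_num)
    refine h.congr (Eventually.of_forall fun x => ?_)
    simp only
    ring
  refine ⟨hm, ?_⟩
  obtain ⟨D, hD0, hD⟩ := Cl_bnd (Cl_der hf)
  have hE : Integrable (fun x : ℝ => Real.exp (-(2 * |x|))) := by
    refine Clb_int_of_bd (p := 2) (q := 2) (by fun_prop) (by norm_num) (by norm_num)
      ⟨1, fun y => ?_⟩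
    rw [bd_abs, one_mul, abs_of_pos (Real.exp_pos _)]
  set E := ∫ x : ℝ, Real.exp (-(2 * |x|)) with hEd
  have hE0 : 0 ≤ E := integral_nonneg fun x => (Real.exp_pos _).le
  set F := ∫ x : ℝ, (f x) ^ 2 with hFd
  have hF0 : 0 ≤ F := integral_nonneg fun x => sq_nonneg _
  refine ⟨(D * Real.exp 1) ^ 2 * E + 4 * F, by positivity, fun s => ?_⟩
  have hs2 : 0 ≤ s ^ 2 := sq_nonneg s
  rcases le_or_gt |s| 1 with hs | hs
  · have hpt : ∀ x : ℝ, (f (x + s) - f x) ^ 2 ≤
        ((D * Real.exp 1) ^ 2 * s ^ 2) * Real.exp (-(2 * |x|)) := by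
      intro x
      have h1 : ‖f (x + s) - f x‖ ≤ D * (Real.exp 1 * Real.exp (-|x|)) * ‖x + s - x‖ := by
        refine Convex.norm_image_sub_le_of_norm_deriv_le (s := Metric.closedBall x |s|)
          (fun y _ => (Cl_hd hf y).differentiableAt) (fun y hy => ?_)
          (convex_closedBall x |s|) (Metric.mem_closedBall_self (abs_nonneg s)) ?_
        · rw [Real.norm_eq_abs]
          refine (hD y).trans (mul_le_mul_of_nonneg_left ?_ hD0)
          rw [bd_abs, ← Real.exp_add]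
          refine Real.exp_le_exp.2 ?_
          rw [Metric.mem_closedBall, Real.dist_eq] at hy
          have h2 : |x| - |y| ≤ |x - y| := abs_sub_abs_le_abs_sub x y
          rw [abs_sub_comm x y] at h2
          linarith
        · rw [Metric.mem_closedBall, Real.dist_eq, add_sub_cancel_left]
      rw [add_sub_cancel_left, Real.norm_eq_abs, Real.norm_eq_abs] at h1
      have h3 := pow_le_pow_left₀ (abs_nonneg _) h1 2
      rw [sq_abs] at h3
      refine h3.trans (le_of_eq ?_)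
      have h4 : Real.exp (-(2 * |x|)) = Real.exp (-|x|) ^ 2 := by
        rw [← Real.exp_nat_mul]
        congr 1
        push_cast
        ring
      rw [h4, mul_pow, sq_abs]
      ring
    have h5 := integral_mono_of_nonneg (Eventually.of_forall fun x => sq_nonneg (f (x + s) - f x))
      (hE.const_mul ((D * Real.exp 1) ^ 2 * s ^ 2)) (Eventually.of_forall hpt)
    rw [integral_const_mul] at h5
    refine h5.trans ?_
    have h6 : 0 ≤ 4 * F * s ^ 2 := by positivity
    linarith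
  · have i1 : Integrable (fun x => (f x) ^ 2) := hm.integrable_sq
    have i2 : Integrable (fun x => (f (x + s)) ^ 2) := (N1_mp f hm s).integrable_sq
    have hpt : ∀ x : ℝ, (f (x + s) - f x) ^ 2 ≤ 2 * (f (x + s)) ^ 2 + 2 * (f x) ^ 2 := by
      intro x
      nlinarith [sq_nonneg (f (x + s) + f x)]
    have h5 := integral_mono_of_nonneg (Eventually.of_forall fun x => sq_nonneg (f (x + s) - f x))
      ((i2.const_mul 2).add (i1.const_mul 2)) (Eventually.of_forall hpt)
    have e := integral_add (i2.const_mul 2) (i1.const_mul 2)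
    rw [integral_const_mul, integral_const_mul,
      integral_add_right_eq_self (fun x => (f x) ^ 2) s] at e
    have h6 : (1 : ℝ) ≤ s ^ 2 := by
      rw [← sq_abs]
      nlinarith
    have h7 : F * 1 ≤ F * s ^ 2 := mul_le_mul_of_nonneg_left h6 hF0
    have h8 : 0 ≤ (D * Real.exp 1) ^ 2 * E * s ^ 2 := by positivity
    have h9 := h5.trans (le_of_eq e)
    refine h9.trans ?_
    linarith

theorem N1_dat {α : ℝ} (hα : 1 ≤ α) {φ : ℝ → ℝ} (hφ : Cl α 1 φ) : ∃ C : ℝ, 0 ≤ C ∧ ∀ s : ℝ,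
    ∫ x, ((φ (x + s) - φ x) ^ 2 + (deriv φ (x + s) - deriv φ x) ^ 2) ≤ C * s ^ 2 := by
  have h1 : Cl 1 1 φ := Cl_mono hφ hα le_rfl
  obtain ⟨m1, C1, hC1, k1⟩ := N1_one h1
  obtain ⟨m2, C2, hC2, k2⟩ := N1_one (Cl_der h1)
  refine ⟨C1 + C2, add_nonneg hC1 hC2, fun s => ?_⟩
  have i1 : Integrable (fun x => (φ (x + s) - φ x) ^ 2) := ((N1_mp φ m1 s).sub m1).integrable_sq
  have i2 : Integrable (fun x => (deriv φ (x + s) - deriv φ x) ^ 2) :=
    ((N1_mp (deriv φ) m2 s).sub m2).integrable_sq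
  rw [integral_add i1 i2]
  have := k1 s
  have := k2 s
  linarith

theorem N1_mod {k : ℕ} {α T : ℝ} (hT : 0 < T) (hα : 1 ≤ α) {φ : ℝ → ℝ} (hφ : Cl α 1 φ)
    {u p : ℝ → ℝ → ℝ} (h : IsGlobalSol k φ u p) : ∃ C : ℝ, 0 ≤ C ∧ ∀ t ∈ Icc 0 T, ∀ s : ℝ,
    n2 (fun x => p t (x + s) - p t x) ≤ C * s ^ 2 := by
  obtain ⟨M, hM0, hM⟩ := G1_bdd h T
  obtain ⟨C, hC0, hC⟩ := H1 k (c := 0) le_rfl hM0
  obtain ⟨D, hD0, hD⟩ := N1_dat hα hφ
  refine ⟨Real.exp (C * T) * D, by positivity, fun t ht s => ?_⟩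
  have ht' := N1_trans h s
  have hM' : ∀ t ∈ Icc 0 T, nh (fun x => u t (x + s)) (fun x => p t (x + s)) ≤ M := by
    intro t ht
    have h1 := hM t ht
    unfold nh n2 at h1 ⊢
    rw [integral_add_right_eq_self (fun x => (u t x) ^ 2) s,
      integral_add_right_eq_self (fun x => (p t x) ^ 2) s]
    exact h1
  have key := hC (fun _ => 1) (D1_one le_rfl) _ _ _ _ _ _ ht' h T hT.le hM' hM t ht
  simp only [one_mul] at key
  have hp0 : ∀ᵐ x : ℝ, p 0 x = deriv φ x := by
    have hu0 : u 0 = φ := funext h.init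
    have h1 := h.h1 0 le_rfl
    rw [hu0] at h1
    exact C2_data h1 hφ.1
  have hp0' : ∀ᵐ x : ℝ, p 0 (x + s) = deriv φ (x + s) :=
    (measurePreserving_add_right volume s).quasiMeasurePreserving.ae hp0
  have e0 : ∫ x, ((u 0 (x + s) - u 0 x) ^ 2 + (p 0 (x + s) - p 0 x) ^ 2) =
      ∫ x, ((φ (x + s) - φ x) ^ 2 + (deriv φ (x + s) - deriv φ x) ^ 2) := by
    refine integral_congr_ae ?_
    filter_upwards [hp0, hp0'] with x h1 h2
    rw [h1, h2, h.init, h.init]
  rw [e0] at key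
  have hmu := (h.h1 t ht.1).1
  have hmp := (h.h1 t ht.1).2.1
  have i1 : Integrable (fun x => (u t (x + s) - u t x) ^ 2) :=
    ((N1_mp (u t) hmu s).sub hmu).integrable_sq
  have i2 : Integrable (fun x => (p t (x + s) - p t x) ^ 2) :=
    ((N1_mp (p t) hmp s).sub hmp).integrable_sq
  rw [integral_add i1 i2] at key
  have hn1 : 0 ≤ ∫ x, (u t (x + s) - u t x) ^ 2 := integral_nonneg fun x => sq_nonneg _
  have hd := mul_le_mul_of_nonneg_left (hD s) (Real.exp_pos (C * T)).le
  unfold n2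
  calc ∫ x, (p t (x + s) - p t x) ^ 2 ≤ Real.exp (C * T) * (D * s ^ 2) := by linarith
    _ = Real.exp (C * T) * D * s ^ 2 := by ring

end H37KB
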