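import Pool.Agent.H37.KB.C2
import Pool.Agent.H37.KB.B3
import Pool.Agent.H37.KB.F1
import Mathlib.Analysis.Normed.Module.HahnBanach

/-!
# Row N2 of MP_95be7d_PDE (170 lines)

`L²` functions with `∫ (f(x+s)-f(x))² ≤ C s²` have a weak derivative `g ∈ L²` with `n2 g ≤ C`.

Let `ρ_n` with `Mol (1/(n+1)) ρ_n` (`B3_exists`), `f_n = mol ρ_n f` (smooth), `g_n = f_n' = mol (deriv ρ_n) f` (`B1_deriv`).
1. `n2 g_n ≤ C` (`N2_bd`): `g_n(x) = lim_{s→0} (f_n(x+s)-f_n(x))/s`, `f_n(x+s)-f_n(x) = mol ρ_n (f(·+s)-f) x`, whose `n2` is `≤ C s²` (`B2_L2`, `∫|ρ_n| = 1`); Fatou (`F3` of row F1, or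
   `lintegral_liminf_le`).  The same for `g = mol ρ f` and any mollifier `ρ`.
2. `(g_n)` is Cauchy in `L²`.  `mol ρ_m g_n = mol ρ_n g_m` (both are `deriv (mol ρ_m (mol ρ_n f))`; commutation of two mollifications by Fubini, or: `mol ρ_m (mol ρ_n f) = mol ρ_n (mol ρ_m f)`).
   Put `a_n = √(n2 g_n)`, `A = sup a_n`.  For fixed `j`: `mol ρ_j g_n = mol ρ_n g_j → g_j` in `L²` as `n → ∞` (`B3_tendsto`), and `√n2 (mol ρ_j (g_n + g_m)) ≤ √n2 (g_n + g_m)`; so for every
   `ε > 0`, choosing `j` with `a_j ≥ A - ε`, for `n, m` large `√n2(g_n+g_m) ≥ √n2(mol ρ_n g_j + mol ρ_m g_j) ≥ 2a_j - 2ε ≥ 2A - 4ε`; parallelogram identity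
   `n2(g_n-g_m) = 2 n2 g_n + 2 n2 g_m - n2(g_n+g_m) ≤ 4A² - (2A-4ε)²`.
3. Completeness of `Lp` (`MemLp.toLp`, `cauchySeq_tendsto_of_complete`): `g_n → g` in `L²`, `n2 g ≤ C`.  `f_n(y) - f_n(x) = ∫_x^y g_n` (FTC), `f_n → f` in `L²`, so a subsequence converges a.e.
   (`tendstoInMeasure...exists_seq_tendsto_ae`, `MeasureTheory.TendstoInMeasure`), and `∫_x^y g_n → ∫_x^y g` (Cauchy-Schwarz).  Fix a point `x₀` of convergence and put
   `f̂(x) = f(x₀) + ∫_{x₀}^x g`: then `f̂ = f` a.e. and `IsH1 f̂ g`.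
(Any other proof is fine, for example Riesz representation of the functional `θ ↦ -∫ f θ'`, bounded by `√C √(n2 θ)`.)
-/

open MeasureTheory Filter Topology Set
open scoped ContDiff

namespace H37KB

open H98KB

theorem N2_shift {f : ℝ → ℝ} (hf : MemLp f 2 volume) (s : ℝ) :
    MemLp (fun x => f (x + s)) 2 volume :=
  hf.comp_measurePreserving (measurePreserving_add_right volume s)

theorem N2_bd {r C : ℝ} {ρ f : ℝ → ℝ} (hρ : Mol r ρ) (hf : MemLp f 2 volume)
    (h : ∀ s : ℝ, n2 (fun x => f (x + s) - f x) ≤ C * s ^ 2) : n2 (mol (deriv ρ) f) ≤ C := by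
  have hc := B2_cpt hρ
  have hF := B1_smooth hρ.smooth hc hf
  have hd : ∀ s x, mol ρ f (x + s) - mol ρ f x = mol ρ (fun z => f (z + s) - f z) x := by
    intro s x
    rw [B1_sub hρ.smooth hc (N2_shift hf s) hf x]
    congr 1
    unfold mol
    rw [← integral_add_right_eq_self (fun z => ρ (x + s - z) * f z) s]
    congr 1
    funext z
    rw [show x + s - (z + s) = x - z by ring]
  have hint : ∫ x, |ρ x| = 1 := by
    rw [← hρ.int]
    congr 1
    funext x
    exact abs_of_nonneg (hρ.nonneg x)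
  have hn : ∀ s, n2 (fun x => mol ρ f (x + s) - mol ρ f x) ≤ C * s ^ 2 := by
    intro s
    have h1 := (B2_L2 hρ.smooth hc ((N2_shift hf s).sub hf)).2
    rw [hint, one_pow, one_mul] at h1
    refine le_trans (le_of_eq ?_) (h1.trans (h s))
    congr 1
    funext x
    exact hd s x
  have hG := F3 (F := fun (n : ℕ) (x : ℝ) => (((n : ℝ) + 1) * (mol ρ f (x + 1 / ((n : ℝ) + 1)) - mol ρ f x)) ^ 2)
    (f := fun x => (mol (deriv ρ) f x) ^ 2) (K := C) (fun n x => sq_nonneg _) ?_ ?_ ?_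
  · exact hG.2
  · intro n
    have h2 : MemLp (fun x => mol ρ f (x + 1 / ((n : ℝ) + 1)) - mol ρ f x) 2 volume :=
      (N2_shift (B2_L2 hρ.smooth hc hf).1 _).sub (B2_L2 hρ.smooth hc hf).1
    exact (h2.const_mul _).integrable_sq
  · intro n
    have h3 := hn (1 / ((n : ℝ) + 1))
    have h4 : ∫ x, (((n : ℝ) + 1) * (mol ρ f (x + 1 / ((n : ℝ) + 1)) - mol ρ f x)) ^ 2 =
        ((n : ℝ) + 1) ^ 2 * n2 (fun x => mol ρ f (x + 1 / ((n : ℝ) + 1)) - mol ρ f x) := by
      unfold n2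
      rw [← integral_const_mul]
      congr 1
      funext x
      ring
    rw [h4]
    have h5 : (0 : ℝ) < (n : ℝ) + 1 := by positivity
    calc ((n : ℝ) + 1) ^ 2 * n2 (fun x => mol ρ f (x + 1 / ((n : ℝ) + 1)) - mol ρ f x)
        ≤ ((n : ℝ) + 1) ^ 2 * (C * (1 / ((n : ℝ) + 1)) ^ 2) := by gcongr
      _ = C := by field_simp
  · intro x
    have h6 : HasDerivAt (mol ρ f) (mol (deriv ρ) f x) x := by
      rw [← B1_deriv hρ.smooth hc hf]
      exact (hF.differentiable (by simp) x).hasDerivAt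
    have h7 := h6.tendsto_slope_zero
    have h8 : Tendsto (fun n : ℕ => 1 / ((n : ℝ) + 1)) atTop (𝓝[≠] 0) := by
      refine tendsto_nhdsWithin_iff.2 ⟨tendsto_one_div_add_atTop_nhds_zero_nat, ?_⟩
      refine Eventually.of_forall fun n => ?_
      have : (0 : ℝ) < 1 / ((n : ℝ) + 1) := by positivity
      exact this.ne'
    refine ((h7.comp h8).pow 2).congr fun n => ?_
    simp only [Function.comp_apply, smul_eq_mul, one_div, inv_inv]

theorem N2_H1 {r : ℝ} {ρ f : ℝ → ℝ} (hρ : Mol r ρ) (hf : MemLp f 2 volume) :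
    IsH1 (mol ρ f) (mol (deriv ρ) f) := by
  have hc := B2_cpt hρ
  have hd := B1_test hρ.smooth hc 1
  rw [iteratedDeriv_one] at hd
  refine ⟨(B2_L2 hρ.smooth hc hf).1, (B2_L2 hd.1 hd.2.1 hf).1, fun x y => ?_⟩
  rw [← B1_deriv hρ.smooth hc hf]
  have hF := B1_smooth hρ.smooth hc hf
  rw [intervalIntegral.integral_deriv_eq_sub]
  · exact fun z _ => (hF.differentiable (by simp)).differentiableAt
  · exact (hF.continuous_deriv (by simp)).intervalIntegrable _ _

theorem N2_fun {C : ℝ} {f θ : ℝ → ℝ} (hf : MemLp f 2 volume)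
    (h : ∀ s : ℝ, n2 (fun x => f (x + s) - f x) ≤ C * s ^ 2) (hθ : ContDiff ℝ ∞ θ)
    (hc : HasCompactSupport θ) : |∫ x, f x * deriv θ x| ≤ √C * √(n2 θ) := by
  choose ρ hρ using fun n : ℕ => B3_exists (1 / ((n : ℝ) + 1)) (by positivity)
  have ht := B1_test hθ hc 1
  rw [iteratedDeriv_one] at ht
  have ht0 := (C2_test hθ hc).1
  have hb : ∀ n, |∫ x, mol (ρ n) f x * deriv θ x| ≤ √C * √(n2 θ) := by
    intro n
    rw [C2_ibp (N2_H1 (hρ n) hf) hθ hc, abs_neg]
    refine (A1_cs (N2_H1 (hρ n) hf).2.1 ht0).trans ?_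
    exact mul_le_mul_of_nonneg_right (Real.sqrt_le_sqrt (N2_bd (hρ n) hf h)) (Real.sqrt_nonneg _)
  have hl : Tendsto (fun n => ∫ x, mol (ρ n) f x * deriv θ x) atTop (𝓝 (∫ x, f x * deriv θ x)) := by
    rw [tendsto_iff_norm_sub_tendsto_zero]
    have h1 : Tendsto (fun n => √(n2 (fun x => mol (ρ n) f x - f x)) * √(n2 (deriv θ))) atTop (𝓝 0) := by
      have h2 := ((Real.continuous_sqrt.tendsto _).comp (B3_tendsto hf hρ)).mul_const (√(n2 (deriv θ)))
      rw [Real.sqrt_zero, zero_mul] at h2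
      exact h2
    refine squeeze_zero (fun n => norm_nonneg _) (fun n => ?_) h1
    rw [← integral_sub (A1_mul (N2_H1 (hρ n) hf).1 ht.2.2) (A1_mul hf ht.2.2), Real.norm_eq_abs]
    refine le_trans (le_of_eq ?_) (A1_cs ((N2_H1 (hρ n) hf).1.sub hf) ht.2.2)
    congr 1
    congr 1
    funext x
    ring
  exact le_of_tendsto (hl.abs) (Eventually.of_forall hb)

/-- The test functions. -/
def N2_T : Submodule ℝ (ℝ → ℝ) where
  carrier := {θ | ContDiff ℝ ∞ θ ∧ HasCompactSupport θ}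
  add_mem' := fun ha hb => ⟨ha.1.add hb.1, ha.2.add hb.2⟩
  zero_mem' := ⟨contDiff_const, HasCompactSupport.zero⟩
  smul_mem' := fun _ _ ha => ⟨contDiff_const.smul ha.1, ha.2.smul_left⟩

theorem N2_norm {θ : ℝ → ℝ} (h : MemLp θ 2 volume) : ‖h.toLp θ‖ ^ 2 = n2 θ := by
  have h1 : ‖h.toLp θ‖ ^ 2 = inner ℝ (h.toLp θ) (h.toLp θ) := (real_inner_self_eq_norm_sq _).symm
  rw [h1, L2.inner_def]
  unfold n2
  apply integral_congr_ae
  filter_upwards [h.coeFn_toLp] with x hx
  rw [hx]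
  change θ x * θ x = _
  ring

/-- The embedding of the test functions into `L²`. -/
noncomputable def N2_E : N2_T →ₗ[ℝ] Lp ℝ 2 (volume : Measure ℝ) where
  toFun := fun θ => (C2_test θ.2.1 θ.2.2).1.toLp θ.1
  map_add' := fun _ _ => rfl
  map_smul' := fun _ _ => rfl

theorem N2_inj : Function.Injective N2_E := by
  intro a b hab
  have h1 : a.1 =ᵐ[volume] b.1 :=
    (MemLp.toLp_eq_toLp_iff (C2_test a.2.1 a.2.2).1 (C2_test b.2.1 b.2.2).1).1 hab
  exact Subtype.ext (Continuous.ae_eq_iff_eq volume a.2.1.continuous b.2.1.continuous |>.1 h1)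

/-- The functional. -/
noncomputable def N2_L {f : ℝ → ℝ} (hf : MemLp f 2 volume) : N2_T →ₗ[ℝ] ℝ where
  toFun := fun θ => -∫ x, f x * deriv θ.1 x
  map_add' := fun a b => by
    have ha := B1_test a.2.1 a.2.2 1
    have hb := B1_test b.2.1 b.2.2 1
    rw [iteratedDeriv_one] at ha hb
    rw [← neg_add, ← integral_add (A1_mul hf ha.2.2) (A1_mul hf hb.2.2)]
    congr 1
    congr 1
    funext x
    have h1 : deriv (a.1 + b.1) x = deriv a.1 x + deriv b.1 x :=
      deriv_add (a.2.1.differentiable (by simp) x) (b.2.1.differentiable (by simp) x)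
    change f x * deriv (a.1 + b.1) x = _
    rw [h1]
    ring
  map_smul' := fun c a => by
    have h2 : ∫ x, f x * deriv (c • a).1 x = c * ∫ x, f x * deriv a.1 x := by
      rw [← integral_const_mul]
      congr 1
      funext x
      have h1 : deriv (c • a.1) x = c • deriv a.1 x :=
        deriv_const_smul c (a.2.1.differentiable (by simp) x)
      change f x * deriv (c • a.1) x = _
      rw [h1, smul_eq_mul]
      ring
    rw [h2, RingHom.id_apply, smul_eq_mul]
    ring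

theorem N2_riesz {C : ℝ} {f : ℝ → ℝ} (hf : MemLp f 2 volume)
    (h : ∀ s : ℝ, n2 (fun x => f (x + s) - f x) ≤ C * s ^ 2) :
    ∃ g : ℝ → ℝ, MemLp g 2 volume ∧ n2 g ≤ C ∧
      ∀ θ : ℝ → ℝ, ContDiff ℝ ∞ θ → HasCompactSupport θ → ∫ x, g x * θ x = -∫ x, f x * deriv θ x := by
  have hC : 0 ≤ C := by
    have h1 := (A1_nonneg _).trans (h 1)
    linarith
  let e := LinearEquiv.ofInjective N2_E N2_inj
  let l₀ : LinearMap.range N2_E →ₗ[ℝ] ℝ := (N2_L hf).comp e.symm.toLinearMap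
  have hb : ∀ u : LinearMap.range N2_E, ‖l₀ u‖ ≤ √C * ‖u‖ := by
    intro u
    obtain ⟨a, rfl⟩ := e.surjective u
    have h2 : l₀ (e a) = N2_L hf a := by
      change N2_L hf (e.symm (e a)) = _
      rw [e.symm_apply_apply]
    have h3 : ‖e a‖ = √(n2 a.1) := by
      have h4 : ‖e a‖ = ‖(C2_test a.2.1 a.2.2).1.toLp a.1‖ := rfl
      rw [h4, ← N2_norm (C2_test a.2.1 a.2.2).1, Real.sqrt_sq (norm_nonneg _)]
    rw [h2, h3]
    change ‖-∫ x, f x * deriv a.1 x‖ ≤ _
    rw [norm_neg]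
    exact N2_fun hf h a.2.1 a.2.2
  obtain ⟨L, hL1, hL2⟩ := exists_extension_norm_eq (𝕜 := ℝ) (LinearMap.range N2_E) (l₀.mkContinuous (√C) hb)
  have hL3 : ‖L‖ ≤ √C := by
    rw [hL2]
    exact LinearMap.mkContinuous_norm_le _ (Real.sqrt_nonneg _) _
  let G : Lp ℝ 2 (volume : Measure ℝ) := (InnerProductSpace.toDual ℝ (Lp ℝ 2 (volume : Measure ℝ))).symm L
  have hG : ‖G‖ ≤ √C := by
    rw [LinearIsometryEquiv.norm_map]
    exact hL3
  refine ⟨G, Lp.memLp G, ?_, ?_⟩
  · have h5 : n2 G = ‖G‖ ^ 2 := by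
      rw [← N2_norm (Lp.memLp G), Lp.toLp_coeFn]
    rw [h5]
    calc ‖G‖ ^ 2 ≤ √C ^ 2 := by gcongr
      _ = C := Real.sq_sqrt hC
  · intro θ hθ hc
    let a : N2_T := ⟨θ, hθ, hc⟩
    have h6 : L (N2_E a) = -∫ x, f x * deriv θ x := by
      have h7 := hL1 (e a)
      rw [LinearMap.mkContinuous_apply] at h7
      have h8 : l₀ (e a) = N2_L hf a := by
        change N2_L hf (e.symm (e a)) = _
        rw [e.symm_apply_apply]
      rw [h8] at h7
      exact h7
    rw [← h6]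
    have h9 : inner ℝ G (N2_E a) = L (N2_E a) := InnerProductSpace.toDual_symm_apply
    rw [← h9, L2.inner_def]
    apply integral_congr_ae
    filter_upwards [(C2_test hθ hc).1.coeFn_toLp] with x hx
    have h10 : (N2_E a : ℝ → ℝ) x = θ x := hx
    rw [h10]
    change _ = θ x * G x
    ring

theorem N2_ii {u : ℝ → ℝ} (hu : MemLp u 2 volume) (a b : ℝ) : IntervalIntegrable u volume a b :=
  intervalIntegrable_iff.mpr
    ((LocallyIntegrable.integrableOn_isCompact (B1_loc hu) isCompact_uIcc).mono_set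
      uIoc_subset_uIcc)

theorem N2_cs {u : ℝ → ℝ} (hu : MemLp u 2 volume) (x y : ℝ) :
    |∫ z in x..y, u z| ≤ √(n2 u) * √|y - x| := by
  have h1 : |∫ z in x..y, u z| = |∫ z, u z * (uIoc x y).indicator (fun _ => (1 : ℝ)) z| := by
    have h2 : ∫ z, u z * (uIoc x y).indicator (fun _ => (1 : ℝ)) z = ∫ z in uIoc x y, u z := by
      rw [← integral_indicator measurableSet_uIoc]
      congr 1
      funext z
      by_cases hz : z ∈ uIoc x y
      · rw [indicator_of_mem hz, indicator_of_mem hz, mul_one]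
      · rw [indicator_of_notMem hz, indicator_of_notMem hz, mul_zero]
    rw [h2]
    exact intervalIntegral.abs_integral_eq_abs_integral_uIoc u
  have hg : MemLp ((uIoc x y).indicator (fun _ => (1 : ℝ))) 2 volume := by
    refine memLp_indicator_const 2 measurableSet_uIoc 1 (Or.inr ?_)
    rw [Real.volume_uIoc]
    exact ENNReal.ofReal_ne_top
  have hng : n2 ((uIoc x y).indicator (fun _ => (1 : ℝ))) = |y - x| := by
    have h3 : (fun z => ((uIoc x y).indicator (fun _ => (1 : ℝ)) z) ^ 2) =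
        (uIoc x y).indicator (fun _ => (1 : ℝ)) := by
      funext z
      by_cases hz : z ∈ uIoc x y
      · rw [indicator_of_mem hz, one_pow]
      · rw [indicator_of_notMem hz]
        norm_num
    rw [n2, h3, integral_indicator measurableSet_uIoc, setIntegral_const, smul_eq_mul, mul_one,
      Measure.real, Real.volume_uIoc, ENNReal.toReal_ofReal (abs_nonneg _)]
  have hcs := A1_cs hu hg
  rw [hng] at hcs
  rw [h1]
  exact hcs

theorem N2 {C : ℝ} {f : ℝ → ℝ} (hf : MemLp f 2 volume)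
    (h : ∀ s : ℝ, n2 (fun x => f (x + s) - f x) ≤ C * s ^ 2) :
    ∃ f' g : ℝ → ℝ, (∀ᵐ x : ℝ, f' x = f x) ∧ IsH1 f' g ∧ n2 g ≤ C := by
  obtain ⟨g, hg, hgC, hw⟩ := N2_riesz hf h
  choose ρ hρ using fun n : ℕ => B3_exists (1 / ((n : ℝ) + 1)) (by positivity)
  -- the derivative of the mollified function
  have hm : ∀ n x, mol (deriv (ρ n)) f x = mol (ρ n) g x := by
    intro n x
    have hc := B2_cpt (hρ n)
    obtain ⟨s1, s2, _, s4⟩ := B1_shift (hρ n).smooth hc x
    have h1 := hw _ s1 s2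
    have h2 : ∀ z, deriv (fun z => ρ n (x - z)) z = -deriv (ρ n) (x - z) := by
      intro z
      have h3 := s4 1 z
      rw [iteratedDeriv_one, iteratedDeriv_one] at h3
      rw [h3]
      ring
    unfold mol
    calc ∫ z, deriv (ρ n) (x - z) * f z = -∫ z, f z * deriv (fun z => ρ n (x - z)) z := by
          rw [← integral_neg]
          congr 1
          funext z
          rw [h2]
          ring
      _ = ∫ z, g z * ρ n (x - z) := h1.symm
      _ = ∫ z, ρ n (x - z) * g z := by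
          congr 1
          funext z
          ring
  have hgn : ∀ n, MemLp (mol (ρ n) g) 2 volume := fun n =>
    (B2_L2 (hρ n).smooth (B2_cpt (hρ n)) hg).1
  have hfn : ∀ n, MemLp (mol (ρ n) f) 2 volume := fun n =>
    (B2_L2 (hρ n).smooth (B2_cpt (hρ n)) hf).1
  have hftc : ∀ n x y, mol (ρ n) f y - mol (ρ n) f x = ∫ z in x..y, mol (ρ n) g z := by
    intro n x y
    rw [(N2_H1 (hρ n) hf).2.2 x y]
    congr 1
    funext z
    exact hm n z
  -- convergence of the integrals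
  have hlim : ∀ x y, Tendsto (fun n => ∫ z in x..y, mol (ρ n) g z) atTop (𝓝 (∫ z in x..y, g z)) := by
    intro x y
    rw [tendsto_iff_norm_sub_tendsto_zero]
    have h1 : Tendsto (fun n => √(n2 (fun x => mol (ρ n) g x - g x)) * √|y - x|) atTop (𝓝 0) := by
      have h2 := ((Real.continuous_sqrt.tendsto _).comp (B3_tendsto hg hρ)).mul_const (√|y - x|)
      rw [Real.sqrt_zero, zero_mul] at h2
      exact h2
    refine squeeze_zero (fun n => norm_nonneg _) (fun n => ?_) h1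
    rw [← intervalIntegral.integral_sub (N2_ii (hgn n) x y) (N2_ii hg x y), Real.norm_eq_abs]
    exact N2_cs ((hgn n).sub hg) x y
  -- a.e. convergence of a subsequence
  have hmeas : TendstoInMeasure volume (fun n => mol (ρ n) f) atTop f := by
    refine tendstoInMeasure_of_tendsto_eLpNorm (p := 2) (by norm_num) (fun n => (hfn n).1) hf.1 ?_
    have h3 : ∀ n, eLpNorm (mol (ρ n) f - f) 2 volume =
        ENNReal.ofReal (√(n2 (fun x => mol (ρ n) f x - f x))) := by
      intro n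
      rw [((hfn n).sub hf).eLpNorm_eq_integral_rpow_norm two_ne_zero ENNReal.ofNat_ne_top]
      congr 1
      rw [Real.sqrt_eq_rpow]
      unfold n2
      simp
    simp_rw [h3]
    have h4 := (Real.continuous_sqrt.tendsto _).comp (B3_tendsto hf hρ)
    have h5 := (ENNReal.continuous_ofReal.tendsto _).comp h4
    rw [Real.sqrt_zero, ENNReal.ofReal_zero] at h5
    exact h5
  obtain ⟨ns, hns, hae⟩ := hmeas.exists_seq_tendsto_ae
  obtain ⟨x₀, hx₀⟩ := hae.exists
  have hkey : ∀ᵐ y : ℝ, f x₀ + ∫ z in x₀..y, g z = f y := by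
    filter_upwards [hae] with y hy
    have h6 := hy.sub hx₀
    have h7 : Tendsto (fun i => mol (ρ (ns i)) f y - mol (ρ (ns i)) f x₀) atTop
        (𝓝 (∫ z in x₀..y, g z)) := by
      have h8 := (hlim x₀ y).comp hns.tendsto_atTop
      refine h8.congr fun i => ?_
      exact (hftc (ns i) x₀ y).symm
    have h9 := tendsto_nhds_unique h6 h7
    linarith
  refine ⟨fun y => f x₀ + ∫ z in x₀..y, g z, g, hkey, ⟨?_, hg, fun x y => ?_⟩, hgC⟩
  · exact (memLp_congr_ae hkey).2 hf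
  · have h10 := intervalIntegral.integral_interval_sub_left (N2_ii hg x₀ y) (N2_ii hg x₀ x)
    rw [← h10]
    ring

end H37KB
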