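import Pool.Agent.H37.KB.N1
import Pool.Agent.H37.KB.N2

/-!
# Row N3 of MP_95be7d_PDE (70 lines)

Second derivatives of the solution: for each `t ∈ [0,T]` apply `N2` to `f = p t` (`N1_mod`): `p' t = p t` a.e., `IsH1 (p' t) (g t)`, `n2 (g t) ≤ K`.
`IsH1 (u t) (p' t)`: `MemLp.ae_eq`, and `∫_x^y p' = ∫_x^y p` (`intervalIntegral.integral_congr_ae`).  `nh` is the same for `p'`.
For `t ∉ [0,T]` put anything (use `Classical.choice` with `if`, or `choose`).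
-/

open MeasureTheory Filter Topology Set
open scoped ContDiff

namespace H37KB

open H98KB

theorem N3 {k : ℕ} {α T : ℝ} (hT : 0 < T) (hα : 1 ≤ α) {φ : ℝ → ℝ} (hφ : Cl α 1 φ)
    {u p : ℝ → ℝ → ℝ} (h : IsGlobalSol k φ u p) : ∃ K : ℝ, 0 ≤ K ∧ ∃ p' g : ℝ → ℝ → ℝ,
    ∀ t ∈ Icc 0 T, (∀ᵐ x : ℝ, p' t x = p t x) ∧ IsH1 (u t) (p' t) ∧ IsH1 (p' t) (g t) ∧
      nh (u t) (p' t) ≤ K ∧ n2 (g t) ≤ K := by
  obtain ⟨C, hC, hmod⟩ := N1_mod hT hα hφ h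
  obtain ⟨M, hM, hbd⟩ := G1_bdd h T
  have key : ∀ t ∈ Icc 0 T, ∃ f' g : ℝ → ℝ, (∀ᵐ x : ℝ, f' x = p t x) ∧ IsH1 f' g ∧ n2 g ≤ C :=
    fun t ht => N2 (h.h1 t ht.1).2.1 (hmod t ht)
  choose! p' g h1 h2 h3 using key
  refine ⟨C + M, by linarith, p', g, fun t ht => ⟨h1 t ht, ?_, h2 t ht, ?_, ?_⟩⟩
  · obtain ⟨a1, a2, a3⟩ := h.h1 t ht.1
    refine ⟨a1, (h2 t ht).1, fun x y => ?_⟩
    rw [a3 x y]
    exact (intervalIntegral.integral_congr_ae ((h1 t ht).mono fun z hz _ => hz)).symm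
  · have e : n2 (p' t) = n2 (p t) := by
      unfold n2
      exact integral_congr_ae ((h1 t ht).mono fun z hz => by simp only [hz])
    have h5 := hbd t ht
    unfold nh at h5 ⊢
    rw [e]
    linarith
  · have := h3 t ht
    linarith

end H37KB
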