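import Pool.Agent.H37.KB.C2
import Pool.Agent.H37.KB.G0

/-!
# Row N4 of MP_95be7d_PDE (150 lines)

The commutator error is small in `H²` (unweighted).  `IsH1 v q`, `IsH1 q g`, `nh v q ≤ M`, `n2 g ≤ M`, `S = 1 + M`: `|v| ≤ S`, `|q| ≤ 2S` (`C1_sup`), `U = mol ρ v`, `U' = mol ρ q`, `U'' = mol ρ g`,
`Mol r ρ`, `0 < r ≤ 1`, `k ≥ 1`.  Hoelder: `|v z - v z'|² ≤ M |z-z'|`, `|q z - q z'|² ≤ M |z-z'|` (`C1_hold`), so for `|x-z| ≤ r`:
`|v z - U x| ≤ √(2rM)`, `|q z - U' x| ≤ √(2rM)`.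
`e = mol ρ (fl k ∘ v) - fl k ∘ U`, `e' = mol ρ (v^k q) - U^k U'`, `e'' = mol ρ (k v^(k-1) q² + v^k g) - k U^(k-1) U'² - U^k U''`
(`C2_mol` for `IsH1 (v^k q) (k v^(k-1) q² + v^k g)`, which follows from `C1_pow`-type product rule: `C1_mul`-style absolute continuity of products).
Then `|e''(x)| ≤ ∫ ρ(x-z) { |k v^(k-1) q² - k U(x)^(k-1) U'(x)²| + |v^k - U(x)^k| |g z| } dz ≤ C √r ∫ ρ(x-z)(|q z| + |U' x| + |g z|) dz`
(the first bracket is `≤ C (|v-U| |q| + |q-U'| (|q|+|U'|))` with `|q|, |U'| ≤ 2S`, keep one factor `|q|` or `|U'|`; the term with `g` uses `∫ρ(x-z) U(x)^k g z dz = U^k U''` exactly).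
Square, integrate (`B2_avg`, Tonelli `B2_tonelli` with `W = 1`, `κ = 1`, or `B2_L2`): `n2 e'' ≤ C r (n2 q + n2 g) ≤ C' r`.  `e` and `e'` are easier, the same way: `n2 e ≤ C r n2 v`, `n2 e' ≤ C r n2 q`.
-/

open MeasureTheory Filter Topology Set
open scoped ContDiff

namespace H37KB

open H98KB

theorem N4_prod {v q g : ℝ → ℝ} (h : IsH1 v q) (h' : IsH1 q g) (k : ℕ) (hk : 1 ≤ k) :
    IsH1 (fun x => (v x) ^ k * q x)
      (fun x => k * (v x) ^ (k - 1) * (q x) ^ 2 + (v x) ^ k * g x) := by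
  obtain ⟨m, rfl⟩ : ∃ m, k = m + 1 := ⟨k - 1, by omega⟩
  rw [Nat.add_sub_cancel]
  have hm : (0 : ℝ) < (m : ℝ) + 1 := by positivity
  have hb : ∀ x, |v x| ≤ √(n2 v + n2 q) := fun x => Real.abs_le_sqrt (C1_sup h x)
  have hb' : ∀ x, |q x| ≤ √(n2 q + n2 g) := fun x => Real.abs_le_sqrt (C1_sup h' x)
  refine ⟨(C1_pow h (m + 1)).2.1, ?_, fun x y => ?_⟩
  · have m1 : MemLp (fun x => ((m + 1 : ℕ) : ℝ) * (v x) ^ m * (q x) ^ 2) 2 volume := by
      refine h.2.1.of_le_mul (c := ((m : ℝ) + 1) * √(n2 v + n2 q) ^ m * √(n2 q + n2 g)) ?_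
        (Filter.Eventually.of_forall fun x => ?_)
      · exact ((continuous_const.mul ((C1_cont h).pow m)).mul
          ((C1_cont h').pow 2)).aestronglyMeasurable
      · have h1 : |v x| ^ m ≤ √(n2 v + n2 q) ^ m := pow_le_pow_left₀ (abs_nonneg _) (hb x) m
        have h2 := hb' x
        rw [norm_mul, norm_mul, norm_pow, norm_pow, Real.norm_eq_abs, Real.norm_eq_abs,
          Real.norm_eq_abs, pow_two]
        push_cast
        rw [abs_of_pos hm]
        calc ((m : ℝ) + 1) * |v x| ^ m * (|q x| * |q x|)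
            = (((m : ℝ) + 1) * |v x| ^ m * |q x|) * |q x| := by ring
          _ ≤ (((m : ℝ) + 1) * √(n2 v + n2 q) ^ m * √(n2 q + n2 g)) * |q x| := by gcongr
    have m2 : MemLp (fun x => (v x) ^ (m + 1) * g x) 2 volume := by
      refine h'.2.1.of_le_mul (c := √(n2 v + n2 q) ^ (m + 1)) ?_
        (Filter.Eventually.of_forall fun x => ?_)
      · exact ((C1_cont h).pow (m + 1)).aestronglyMeasurable.mul h'.2.1.1
      · rw [norm_mul, norm_pow, Real.norm_eq_abs]
        have := hb x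
        gcongr
    exact m1.add m2
  · have h1 := C1_mul (C1_pow h m) h' x y
    have h2 : ((m : ℝ) + 1) * (fl m (v y) * q y - fl m (v x) * q x) =
        ∫ z in x..y, (((m + 1 : ℕ) : ℝ) * (v z) ^ m * (q z) ^ 2 + (v z) ^ (m + 1) * g z) := by
      rw [h1, ← intervalIntegral.integral_const_mul]
      refine intervalIntegral.integral_congr fun z _ => ?_
      simp only [fl]
      push_cast
      field_simp
    rw [← h2]
    simp only [fl]
    field_simp

theorem n4_rho {r : ℝ} {ρ : ℝ → ℝ} (hρ : Mol r ρ) (x : ℝ) :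
    Integrable (fun z => ρ (x - z)) ∧ ∫ z, ρ (x - z) = 1 := by
  have hi : Integrable ρ := hρ.smooth.continuous.integrable_of_hasCompactSupport (B2_cpt hρ)
  refine ⟨hi.comp_sub_left x, ?_⟩
  rw [integral_sub_left_eq_self (fun z => ρ z) volume x]
  exact hρ.int

theorem n4_mi {r : ℝ} {ρ f : ℝ → ℝ} (hρ : Mol r ρ) (hf : MemLp f 2 volume) (x : ℝ) :
    Integrable (fun z => ρ (x - z) * f z) :=
  A1_mul (B1_shift hρ.smooth (B2_cpt hρ) x).2.2.1 hf

/-- comparison of `∫ ρ(x-z) F z dz` with an average -/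
theorem n4_cmp {r κ : ℝ} {ρ F A : ℝ → ℝ} {x : ℝ} (hρ : Mol r ρ) (hA : MemLp A 2 volume)
    (hF : ∀ z, |x - z| ≤ r → |F z| ≤ κ * A z) :
    |∫ z, ρ (x - z) * F z| ≤ κ * mol ρ A x := by
  unfold mol
  rw [← integral_const_mul]
  refine abs_integral_le_integral_abs.trans ?_
  refine integral_mono_of_nonneg (Eventually.of_forall fun z => abs_nonneg _)
    ((n4_mi hρ hA x).const_mul κ) (Eventually.of_forall fun z => ?_)
  change |ρ (x - z) * F z| ≤ κ * (ρ (x - z) * A z)
  rw [abs_mul, abs_of_nonneg (hρ.nonneg _)]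
  rcases lt_or_ge |x - z| r with hz | hz
  · calc ρ (x - z) * |F z| ≤ ρ (x - z) * (κ * A z) :=
        mul_le_mul_of_nonneg_left (hF z hz.le) (hρ.nonneg _)
      _ = κ * (ρ (x - z) * A z) := by ring
  · rw [hρ.supp _ hz]
    simp

theorem n4_const {r κ c : ℝ} {ρ F : ℝ → ℝ} {x : ℝ} (hρ : Mol r ρ)
    (hF : ∀ z, |x - z| ≤ r → |F z| ≤ c) : |∫ z, ρ (x - z) * F z| ≤ c := by
  have h1 : ∫ z, ρ (x - z) * c = c := by
    rw [integral_mul_const, (n4_rho hρ x).2, one_mul]
  rw [← h1]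
  refine abs_integral_le_integral_abs.trans ?_
  refine integral_mono_of_nonneg (Eventually.of_forall fun z => abs_nonneg _)
    ((n4_rho hρ x).1.mul_const c) (Eventually.of_forall fun z => ?_)
  change |ρ (x - z) * F z| ≤ ρ (x - z) * c
  rw [abs_mul, abs_of_nonneg (hρ.nonneg _)]
  rcases lt_or_ge |x - z| r with hz | hz
  · exact mul_le_mul_of_nonneg_left (hF z hz.le) (hρ.nonneg _)
  · rw [hρ.supp _ hz]
    simp

theorem n4_near {r M : ℝ} {ρ v q : ℝ → ℝ} (hρ : Mol r ρ) (h : IsH1 v q) (hq : n2 q ≤ M)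
    (hr : 0 < r) {x z : ℝ} (hz : |x - z| ≤ r) : |v z - mol ρ v x| ≤ √(2 * r * M) := by
  have e : v z - mol ρ v x = ∫ y, ρ (x - y) * (v z - v y) := by
    have h1 : (fun y => ρ (x - y) * (v z - v y)) =
        fun y => ρ (x - y) * v z - ρ (x - y) * v y := by
      funext y
      ring
    rw [h1, integral_sub ((n4_rho hρ x).1.mul_const _) (n4_mi hρ h.1 x), integral_mul_const,
      (n4_rho hρ x).2, one_mul]
    rfl
  rw [e]
  refine n4_const (κ := 0) hρ fun y hy => Real.abs_le_sqrt ?_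
  have h1 := C1_hold h z y
  have h2 : |z - y| ≤ 2 * r := by
    have : z - y = (x - y) - (x - z) := by ring
    rw [this]
    exact (abs_sub _ _).trans (by linarith)
  calc (v z - v y) ^ 2 ≤ n2 q * |z - y| := h1
    _ ≤ M * (2 * r) := mul_le_mul hq h2 (abs_nonneg _) ((A1_nonneg q).trans hq)
    _ = 2 * r * M := by ring

theorem n4_n2 {r κ : ℝ} {ρ A D : ℝ → ℝ} (hρ : Mol r ρ) (hA : MemLp A 2 volume)
    (hD : ∀ x, |D x| ≤ κ * mol ρ A x) : n2 D ≤ κ ^ 2 * n2 A := by
  have h1 := B2_L2 hρ.smooth (B2_cpt hρ) hA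
  have e : ∫ x, |ρ x| = 1 := by
    rw [← hρ.int]
    refine integral_congr_ae (Eventually.of_forall fun x => ?_)
    exact abs_of_nonneg (hρ.nonneg x)
  rw [e, one_pow, one_mul] at h1
  have h2 : n2 D ≤ ∫ x, κ ^ 2 * (mol ρ A x) ^ 2 := by
    unfold n2
    refine integral_mono_of_nonneg (Eventually.of_forall fun x => sq_nonneg _)
      ((A1_sq h1.1).const_mul _) (Eventually.of_forall fun x => ?_)
    have := pow_le_pow_left₀ (abs_nonneg _) (hD x) 2
    rw [sq_abs, mul_pow] at this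
    exact this
  refine h2.trans ?_
  rw [integral_const_mul]
  exact mul_le_mul_of_nonneg_left h1.2 (sq_nonneg _)

theorem n4_abs {f : ℝ → ℝ} (hf : MemLp f 2 volume) :
    MemLp (fun x => |f x|) 2 volume ∧ n2 (fun x => |f x|) = n2 f := by
  refine ⟨hf.norm, ?_⟩
  unfold n2
  simp only [sq_abs]

theorem n4_molabs {r : ℝ} {ρ f : ℝ → ℝ} (hρ : Mol r ρ) (hf : MemLp f 2 volume) (x : ℝ) :
    |mol ρ f x| ≤ mol ρ (fun z => |f z|) x := by
  have := n4_cmp (κ := 1) (x := x) hρ (n4_abs hf).1 (F := f) fun z _ => by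
    rw [one_mul]
  rw [one_mul] at this
  exact this

/-- the pointwise bound of the second bracket -/
theorem n4_alg (m : ℕ) {S δ a b p s : ℝ} (hS : 0 ≤ S) (ha : |a| ≤ S) (hb : |b| ≤ S)
    (hs : |s| ≤ S) (h1 : |a - b| ≤ δ) (h2 : |p - s| ≤ δ) :
    |a ^ m * p ^ 2 - b ^ m * s ^ 2| ≤ (S ^ m + m * S ^ (m - 1) * S) * δ * (|p| + |s|) := by
  have hδ : 0 ≤ δ := (abs_nonneg _).trans h1
  have h3 := G0_mul m (p := p ^ 2) (q := s ^ 2) ha hb
  have h4 : |p ^ 2 - s ^ 2| ≤ δ * (|p| + |s|) := by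
    have e : p ^ 2 - s ^ 2 = (p - s) * (p + s) := by ring
    rw [e, abs_mul]
    exact mul_le_mul h2 (abs_add_le _ _) (abs_nonneg _) hδ
  have h5 : |a - b| * |s ^ 2| ≤ S * δ * (|p| + |s|) := by
    rw [abs_pow, pow_two]
    calc |a - b| * (|s| * |s|) ≤ δ * (S * |s|) := by gcongr
      _ = S * δ * |s| := by ring
      _ ≤ S * δ * (|p| + |s|) := by
        refine mul_le_mul_of_nonneg_left ?_ (by positivity)
        linarith [abs_nonneg p]
  have h6 : S ^ m * |p ^ 2 - s ^ 2| ≤ S ^ m * (δ * (|p| + |s|)) :=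
    mul_le_mul_of_nonneg_left h4 (by positivity)
  have h7 : m * S ^ (m - 1) * (|a - b| * |s ^ 2|) ≤ m * S ^ (m - 1) * (S * δ * (|p| + |s|)) :=
    mul_le_mul_of_nonneg_left h5 (by positivity)
  calc |a ^ m * p ^ 2 - b ^ m * s ^ 2|
      ≤ S ^ m * (δ * (|p| + |s|)) + m * S ^ (m - 1) * (S * δ * (|p| + |s|)) :=
        h3.trans (add_le_add h6 h7)
    _ = (S ^ m + m * S ^ (m - 1) * S) * δ * (|p| + |s|) := by ring

theorem n4_derivs (k : ℕ) (hk : 1 ≤ k) {r : ℝ} {ρ v q g : ℝ → ℝ} (hρ : Mol r ρ)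
    (h : IsH1 v q) (h' : IsH1 q g) :
    (deriv (mol ρ v) = mol ρ q ∧ deriv (mol ρ q) = mol ρ g) ∧
    deriv (fun x => mol ρ (fun z => fl k (v z)) x - fl k (mol ρ v x)) =
      (fun x => mol ρ (fun z => (v z) ^ k * q z) x - (mol ρ v x) ^ k * mol ρ q x) ∧
    deriv (fun x => mol ρ (fun z => (v z) ^ k * q z) x - (mol ρ v x) ^ k * mol ρ q x) =
      (fun x => mol ρ (fun z => k * (v z) ^ (k - 1) * (q z) ^ 2 + (v z) ^ k * g z) x -
        (k * (mol ρ v x) ^ (k - 1) * (mol ρ q x) ^ 2 + (mol ρ v x) ^ k * mol ρ g x)) := by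
  have hc := B2_cpt hρ
  have hd : ∀ {f p : ℝ → ℝ}, IsH1 f p → ∀ x, HasDerivAt (mol ρ f) (mol ρ p x) x := by
    intro f p hf x
    have h1 := B1_smooth hρ.smooth hc hf.1
    have h2 : deriv (mol ρ f) x = mol ρ p x := by
      rw [B1_deriv hρ.smooth hc hf.1, C2_mol hf hρ.smooth hc x]
    rw [← h2]
    exact ((h1.differentiable (by simp)) x).hasDerivAt
  refine ⟨⟨funext fun x => (hd h x).deriv, funext fun x => (hd h' x).deriv⟩, ?_, ?_⟩
  · funext x
    have h1 := hd (C1_pow h k) x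
    have h2 : HasDerivAt (fun x => fl k (mol ρ v x)) ((mol ρ v x) ^ k * mol ρ q x) x := by
      have h3 := ((hd h x).pow (k + 1)).div_const ((k : ℝ) + 1)
      have hk' : ((k : ℝ) + 1) ≠ 0 := by positivity
      refine h3.congr_deriv ?_
      push_cast
      field_simp
    exact (h1.sub h2).deriv
  · funext x
    have h1 := hd (N4_prod h h' k hk) x
    have h2 : HasDerivAt (fun x => (mol ρ v x) ^ k * mol ρ q x)
        (k * (mol ρ v x) ^ (k - 1) * (mol ρ q x) ^ 2 + (mol ρ v x) ^ k * mol ρ g x) x := by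
      refine (((hd h x).pow k).mul (hd h' x)).congr_deriv ?_
      simp only [Pi.pow_apply]
      ring
    exact (h1.sub h2).deriv

theorem N4 (k : ℕ) (hk : 1 ≤ k) {M : ℝ} (hM : 0 ≤ M) : ∃ C : ℝ, 0 ≤ C ∧
    ∀ (r : ℝ) (ρ v q g : ℝ → ℝ), 0 < r → r ≤ 1 → Mol r ρ → IsH1 v q → IsH1 q g → nh v q ≤ M →
      n2 g ≤ M →
      (∀ j ≤ 2, n2 (iteratedDeriv j (fun x => mol ρ (fun z => fl k (v z)) x - fl k (mol ρ v x))) ≤
        C * r) ∧
      (∀ j ≤ 2, n2 (iteratedDeriv j (mol ρ v)) ≤ M) := by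
  set S : ℝ := 1 + M with hS
  have hS0 : 0 ≤ S := by linarith
  set C0 : ℝ := 2 * S ^ (k - 1) with hC0
  set C1 : ℝ := k * S ^ (k - 1) with hC1
  set C2 : ℝ := 2 * (k * (S ^ (k - 1) + (k - 1 : ℕ) * S ^ (k - 1 - 1) * S)) with hC2
  have hC0' : 0 ≤ C0 := by positivity
  have hC1' : 0 ≤ C1 := by positivity
  have hC2' : 0 ≤ C2 := by positivity
  refine ⟨(C0 + C1 + C2) ^ 2 * (2 * M) * (4 * M), by positivity, ?_⟩
  intro r ρ v q g hr hr1 hρ h h' hn hg
  have hv2 : n2 v ≤ M := by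
    have := A1_nonneg q
    unfold nh at hn
    linarith
  have hq2 : n2 q ≤ M := by
    have := A1_nonneg v
    unfold nh at hn
    linarith
  have hvS : ∀ x, |v x| ≤ S := fun x => by
    refine abs_le_of_sq_le_sq ?_ hS0
    have := C1_sup h x
    unfold nh at hn
    nlinarith
  have hqS : ∀ x, |q x| ≤ S := fun x => by
    refine abs_le_of_sq_le_sq ?_ hS0
    have := C1_sup h' x
    nlinarith
  have hUS : ∀ x, |mol ρ v x| ≤ S := fun x => n4_const (κ := 0) hρ fun z _ => hvS z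
  have hU'S : ∀ x, |mol ρ q x| ≤ S := fun x => n4_const (κ := 0) hρ fun z _ => hqS z
  set δ : ℝ := √(2 * r * M) with hδ
  have hδ0 : 0 ≤ δ := Real.sqrt_nonneg _
  have hδ2 : δ ^ 2 = 2 * r * M := Real.sq_sqrt (by positivity)
  obtain ⟨⟨d1, d2⟩, d3, d4⟩ := n4_derivs k hk hρ h h'
  have fin : ∀ (κ : ℝ) (A D : ℝ → ℝ), 0 ≤ κ → κ ≤ C0 + C1 + C2 → MemLp A 2 volume →
      n2 A ≤ 4 * M → (∀ x, |D x| ≤ κ * δ * mol ρ A x) →
      n2 D ≤ (C0 + C1 + C2) ^ 2 * (2 * M) * (4 * M) * r := by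
    intro κ A D hκ hκ' hA hA2 hD
    have h1 := n4_n2 hρ hA hD
    refine h1.trans ?_
    rw [mul_pow, hδ2]
    have h2 : κ ^ 2 ≤ (C0 + C1 + C2) ^ 2 := pow_le_pow_left₀ hκ hκ' 2
    calc κ ^ 2 * (2 * r * M) * n2 A ≤ (C0 + C1 + C2) ^ 2 * (2 * r * M) * (4 * M) := by
          have := A1_nonneg A
          gcongr
      _ = (C0 + C1 + C2) ^ 2 * (2 * M) * (4 * M) * r := by ring
  -- splitting off the constant part
  have split : ∀ (F : ℝ → ℝ) (c x : ℝ) (A : ℝ → ℝ), MemLp F 2 volume → MemLp A 2 volume →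
      mol ρ F x - c * mol ρ A x = ∫ z, ρ (x - z) * (F z - c * A z) := by
    intro F c x A hF hA
    have e : (fun z => ρ (x - z) * (F z - c * A z)) =
        fun z => ρ (x - z) * F z - c * (ρ (x - z) * A z) := by
      funext z
      ring
    rw [e, integral_sub (n4_mi hρ hF x) ((n4_mi hρ hA x).const_mul c), integral_const_mul]
    rfl
  have splitc : ∀ (F : ℝ → ℝ) (c x : ℝ), MemLp F 2 volume →
      mol ρ F x - c = ∫ z, ρ (x - z) * (F z - c) := by
    intro F c x hF
    have e : (fun z => ρ (x - z) * (F z - c)) =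
        fun z => ρ (x - z) * F z - ρ (x - z) * c := by
      funext z
      ring
    rw [e, integral_sub (n4_mi hρ hF x) ((n4_rho hρ x).1.mul_const c), integral_mul_const,
      (n4_rho hρ x).2, one_mul]
    rfl
  have lin : ∀ (F : ℝ → ℝ) (c x : ℝ), MemLp F 2 volume →
      ∫ z, ρ (x - z) * (F z + c) = mol ρ F x + c := by
    intro F c x hF
    have e : (fun z => ρ (x - z) * (F z + c)) =
        fun z => ρ (x - z) * F z + ρ (x - z) * c := by
      funext z
      ring
    rw [e, integral_add (n4_mi hρ hF x) ((n4_rho hρ x).1.mul_const c), integral_mul_const,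
      (n4_rho hρ x).2, one_mul]
    rfl
  -- an average of `|f z| + |mol ρ f x|`
  have avg : ∀ (κ : ℝ) (f F : ℝ → ℝ) (x : ℝ), 0 ≤ κ → MemLp f 2 volume →
      (∀ z, |x - z| ≤ r → |F z| ≤ κ * (|f z| + |mol ρ f x|)) →
      |∫ z, ρ (x - z) * F z| ≤ 2 * κ * mol ρ (fun z => |f z|) x := by
    intro κ f F x hκ hf hF
    have hfa := (n4_abs hf).1
    have i1 : Integrable (fun z => ρ (x - z) * (|f z| + |mol ρ f x|)) := by
      have e : (fun z => ρ (x - z) * (|f z| + |mol ρ f x|)) =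
          fun z => ρ (x - z) * |f z| + ρ (x - z) * |mol ρ f x| := by
        funext z
        ring
      rw [e]
      exact (n4_mi hρ hfa x).add ((n4_rho hρ x).1.mul_const _)
    have h1 : |∫ z, ρ (x - z) * F z| ≤ ∫ z, κ * (ρ (x - z) * (|f z| + |mol ρ f x|)) := by
      refine abs_integral_le_integral_abs.trans ?_
      refine integral_mono_of_nonneg (Eventually.of_forall fun z => abs_nonneg _)
        (i1.const_mul κ) (Eventually.of_forall fun z => ?_)
      change |ρ (x - z) * F z| ≤ κ * (ρ (x - z) * (|f z| + |mol ρ f x|))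
      rw [abs_mul, abs_of_nonneg (hρ.nonneg _)]
      rcases lt_or_ge |x - z| r with hz | hz
      · calc ρ (x - z) * |F z| ≤ ρ (x - z) * (κ * (|f z| + |mol ρ f x|)) :=
            mul_le_mul_of_nonneg_left (hF z hz.le) (hρ.nonneg _)
          _ = κ * (ρ (x - z) * (|f z| + |mol ρ f x|)) := by ring
      · rw [hρ.supp _ hz]
        simp
    have h2 := n4_molabs hρ hf x
    rw [integral_const_mul, lin (fun z => |f z|) _ x hfa] at h1
    refine h1.trans ?_
    nlinarith [mul_le_mul_of_nonneg_left h2 hκ]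
  have hva := n4_abs h.1
  have hqa := n4_abs h.2.1
  have hga := n4_abs h'.2.1
  have hqg : MemLp (fun z => |q z| + |g z|) 2 volume := hqa.1.add hga.1
  have hqg2 : n2 (fun z => |q z| + |g z|) ≤ 4 * M := by
    have := A1_add hqa.1 hga.1
    rw [hqa.2, hga.2] at this
    linarith
  constructor
  · intro j hj
    have hcases : j = 0 ∨ j = 1 ∨ j = 2 := by omega
    rcases hcases with rfl | rfl | rfl
    · rw [iteratedDeriv_zero]
      refine fin C0 (fun z => |v z|) _ hC0' (by linarith) hva.1 (by rw [hva.2]; linarith)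
        fun x => ?_
      have hm := (C1_pow h k).1
      rw [splitc _ _ _ hm]
      have h1 := avg (S ^ (k - 1) * δ) v (fun z => fl k (v z) - fl k (mol ρ v x)) x
        (by positivity) h.1 (fun z hz => by
          have h2 := G0_fl2 k hk (hvS z) (hUS x)
          have h3 := n4_near hρ h hq2 hr hz
          calc |fl k (v z) - fl k (mol ρ v x)|
              ≤ S ^ (k - 1) * ((|v z| + |mol ρ v x|) * |v z - mol ρ v x|) := h2
            _ ≤ S ^ (k - 1) * ((|v z| + |mol ρ v x|) * δ) := by gcongr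
            _ = S ^ (k - 1) * δ * (|v z| + |mol ρ v x|) := by ring)
      refine h1.trans (le_of_eq ?_)
      rw [hC0]
      ring
    · rw [iteratedDeriv_one, d3]
      refine fin C1 (fun z => |q z|) _ hC1' (by linarith) hqa.1 (by rw [hqa.2]; linarith)
        fun x => ?_
      have hm := (C1_pow h k).2.1
      rw [split _ _ _ _ hm h.2.1]
      refine n4_cmp hρ hqa.1 fun z hz => ?_
      have h2 := G0_pow k (hvS z) (hUS x)
      have h3 := n4_near hρ h hq2 hr hz
      rw [← sub_mul, abs_mul]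
      refine mul_le_mul_of_nonneg_right (h2.trans ?_) (abs_nonneg _)
      exact mul_le_mul_of_nonneg_left h3 hC1'
    · rw [iteratedDeriv_succ, iteratedDeriv_one, d3, d4]
      refine fin (C1 + C2) (fun z => |q z| + |g z|) _ (by linarith) (by linarith) hqg hqg2
        fun x => ?_
      have hm1 : MemLp (fun z => k * (v z) ^ (k - 1) * (q z) ^ 2) 2 volume := by
        refine h.2.1.of_le_mul (c := k * S ^ (k - 1) * S) ?_
          (Filter.Eventually.of_forall fun z => ?_)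
        · exact ((continuous_const.mul ((C1_cont h).pow (k - 1))).mul
            ((C1_cont h').pow 2)).aestronglyMeasurable
        · have h1 : |v z| ^ (k - 1) ≤ S ^ (k - 1) := pow_le_pow_left₀ (abs_nonneg _) (hvS z) _
          have h2 := hqS z
          rw [norm_mul, norm_mul, norm_pow, norm_pow, Real.norm_eq_abs, Real.norm_eq_abs,
            Real.norm_eq_abs, pow_two, Nat.abs_cast]
          calc (k : ℝ) * |v z| ^ (k - 1) * (|q z| * |q z|)
              = ((k : ℝ) * |v z| ^ (k - 1) * |q z|) * |q z| := by ring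
            _ ≤ ((k : ℝ) * S ^ (k - 1) * S) * |q z| := by gcongr
      have hm2 : MemLp (fun z => (v z) ^ k * g z) 2 volume := by
        refine h'.2.1.of_le_mul (c := S ^ k) ?_ (Filter.Eventually.of_forall fun z => ?_)
        · exact ((C1_cont h).pow k).aestronglyMeasurable.mul h'.2.1.1
        · rw [norm_mul, norm_pow, Real.norm_eq_abs]
          have := hvS z
          gcongr
      have e1 : mol ρ (fun z => k * (v z) ^ (k - 1) * (q z) ^ 2 + (v z) ^ k * g z) x =
          mol ρ (fun z => k * (v z) ^ (k - 1) * (q z) ^ 2) x +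
            mol ρ (fun z => (v z) ^ k * g z) x := by
        unfold mol
        rw [← integral_add (n4_mi hρ hm1 x) (n4_mi hρ hm2 x)]
        refine integral_congr_ae (Eventually.of_forall fun z => ?_)
        change _ = _ + _
        ring
      have e2 : mol ρ (fun z => k * (v z) ^ (k - 1) * (q z) ^ 2 + (v z) ^ k * g z) x -
          (k * (mol ρ v x) ^ (k - 1) * (mol ρ q x) ^ 2 + (mol ρ v x) ^ k * mol ρ g x) =
          (∫ z, ρ (x - z) * (k * (v z) ^ (k - 1) * (q z) ^ 2 -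
            k * (mol ρ v x) ^ (k - 1) * (mol ρ q x) ^ 2)) +
          ∫ z, ρ (x - z) * ((v z) ^ k * g z - (mol ρ v x) ^ k * g z) := by
        rw [← splitc _ _ _ hm1, ← split _ _ _ _ hm2 h'.2.1, e1]
        ring
      rw [e2]
      refine (abs_add_le _ _).trans ?_
      have b1 := avg (k * ((S ^ (k - 1) + (k - 1 : ℕ) * S ^ (k - 1 - 1) * S) * δ)) q
        (fun z => k * (v z) ^ (k - 1) * (q z) ^ 2 -
            k * (mol ρ v x) ^ (k - 1) * (mol ρ q x) ^ 2) x (by positivity) h.2.1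
        (fun z hz => by
          have h1 := n4_alg (k - 1) hS0 (hvS z) (hUS x) (hU'S x)
            (n4_near hρ h hq2 hr hz) (n4_near hρ h' hg hr hz)
          have e3 : k * (v z) ^ (k - 1) * (q z) ^ 2 -
              k * (mol ρ v x) ^ (k - 1) * (mol ρ q x) ^ 2 =
              k * ((v z) ^ (k - 1) * (q z) ^ 2 - (mol ρ v x) ^ (k - 1) * (mol ρ q x) ^ 2) := by
            ring
          rw [e3, abs_mul, Nat.abs_cast]
          calc (k : ℝ) * |(v z) ^ (k - 1) * (q z) ^ 2 -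
                (mol ρ v x) ^ (k - 1) * (mol ρ q x) ^ 2|
              ≤ k * ((S ^ (k - 1) + (k - 1 : ℕ) * S ^ (k - 1 - 1) * S) * δ *
                (|q z| + |mol ρ q x|)) := mul_le_mul_of_nonneg_left h1 (by positivity)
            _ = _ := by ring)
      have b2 : |∫ z, ρ (x - z) * ((v z) ^ k * g z - (mol ρ v x) ^ k * g z)| ≤
          C1 * δ * mol ρ (fun z => |g z|) x := by
        refine n4_cmp hρ hga.1 fun z hz => ?_
        have h2 := G0_pow k (hvS z) (hUS x)
        have h3 := n4_near hρ h hq2 hr hz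
        rw [← sub_mul, abs_mul]
        refine mul_le_mul_of_nonneg_right (h2.trans ?_) (abs_nonneg _)
        exact mul_le_mul_of_nonneg_left h3 hC1'
      have e4 : mol ρ (fun z => |q z| + |g z|) x =
          mol ρ (fun z => |q z|) x + mol ρ (fun z => |g z|) x := by
        unfold mol
        rw [← integral_add (n4_mi hρ hqa.1 x) (n4_mi hρ hga.1 x)]
        refine integral_congr_ae (Eventually.of_forall fun z => ?_)
        change _ = _ + _
        ring
      have p1 : 0 ≤ mol ρ (fun z => |q z|) x := (abs_nonneg _).trans (n4_molabs hρ h.2.1 x)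
      have p2 : 0 ≤ mol ρ (fun z => |g z|) x := (abs_nonneg _).trans (n4_molabs hρ h'.2.1 x)
      rw [e4]
      have e5 : 2 * (k * ((S ^ (k - 1) + (k - 1 : ℕ) * S ^ (k - 1 - 1) * S) * δ)) = C2 * δ := by
        rw [hC2]
        ring
      rw [e5] at b1
      have p3 : 0 ≤ C1 * δ * mol ρ (fun z => |q z|) x := by positivity
      have p4 : 0 ≤ C2 * δ * mol ρ (fun z => |g z|) x := by positivity
      calc _ ≤ C2 * δ * mol ρ (fun z => |q z|) x + C1 * δ * mol ρ (fun z => |g z|) x :=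
            add_le_add b1 b2
        _ ≤ (C1 + C2) * δ * (mol ρ (fun z => |q z|) x + mol ρ (fun z => |g z|) x) := by
            nlinarith
  · have hm : ∀ f : ℝ → ℝ, MemLp f 2 volume → n2 (mol ρ f) ≤ n2 f := by
      intro f hf
      have h1 := n4_n2 (κ := 1) (D := mol ρ f) hρ (n4_abs hf).1 fun x => by
        rw [one_mul]
        exact n4_molabs hρ hf x
      rw [(n4_abs hf).2] at h1
      linarith
    intro j hj
    have hcases : j = 0 ∨ j = 1 ∨ j = 2 := by omega
    rcases hcases with rfl | rfl | rfl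
    · rw [iteratedDeriv_zero]
      exact (hm v h.1).trans hv2
    · rw [iteratedDeriv_one, d1]
      exact (hm q h.2.1).trans hq2
    · rw [iteratedDeriv_succ, iteratedDeriv_one, d1, d2]
      exact (hm g h'.2.1).trans hg

end H37KB
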