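import Pool.Agent.H37.KB.C2
import Pool.Agent.H37.KB.D2
import Pool.Agent.H98.KB.Clb

/-!
# Row N5 of MP_95be7d_PDE (80 lines)

Mollification of smooth decaying data in `H²`: `φ ∈ Cl α 1`: `iteratedDeriv j (mol ρ φ - φ) x = ∫ ρ(x-z) (φ^(j)(z) - φ^(j)(x)) dz` (`mol (iteratedDeriv j ρ) φ = mol ρ (φ^(j))` by `C2_mol` iterated or
`B1_iter` + integration by parts), `|φ^(j)(z) - φ^(j)(x)| ≤ r sup_{|y-x| ≤ 1} |φ^(j+1)| ≤ r C bd α 1 (x)` (`bd α 1 y ≤ e^{α+1} bd α 1 x` for `|x-y| ≤ 1`); square and integrate.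
`N5_w`: `wt α φ²` is integrable etc.: `wt α x * (bd α 1 x)² ≤ 2 e^{-|x|/2}`-like (`x ≥ 0`: `e^{αx - 2αx} + ..`; `x ≤ 0`: `e^{|x|/8 - 2|x|} + ..`).
-/

open MeasureTheory Filter Topology Set
open scoped ContDiff

namespace H37KB

open H98KB

theorem N5_iter {p q : ℝ} (j : ℕ) : ∀ {φ : ℝ → ℝ}, Cl p q φ → Cl p q (iteratedDeriv j φ) := by
  induction j with
  | zero => intro φ h; rwa [iteratedDeriv_zero]
  | succ j ih => intro φ h; rw [iteratedDeriv_succ']; exact ih (Cl_der h)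

theorem N5_bd2 {α : ℝ} (y : ℝ) : (bd α 1 y) ^ 2 = bd (α + α) (1 + 1) y := by
  rw [sq, bd_mul]

theorem N5_bd2i {α : ℝ} (hα : 1 ≤ α) : Integrable (fun y => (bd α 1 y) ^ 2) := by
  have : (fun y => (bd α 1 y) ^ 2) = bd (α + α) (1 + 1) := funext fun y => N5_bd2 y
  rw [this]
  exact bd_int (by linarith) (by norm_num)

theorem N5_mem {α : ℝ} (hα : 1 ≤ α) {φ : ℝ → ℝ} (hφ : Cl α 1 φ) : MemLp φ 2 volume := by
  rw [memLp_two_iff_integrable_sq (Cl_cont hφ).aestronglyMeasurable]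
  obtain ⟨C, hC0, hC⟩ := Cl_bnd hφ
  refine ((N5_bd2i hα).const_mul (C ^ 2)).mono' ((Cl_cont hφ).pow 2).aestronglyMeasurable ?_
  refine Eventually.of_forall fun y => ?_
  rw [Real.norm_eq_abs, abs_of_nonneg (sq_nonneg _), ← mul_pow, ← sq_abs]
  exact pow_le_pow_left₀ (abs_nonneg _) (hC y) 2

theorem N5_H1 {α : ℝ} (hα : 1 ≤ α) {φ : ℝ → ℝ} (hφ : Cl α 1 φ) : IsH1 φ (deriv φ) := by
  refine ⟨N5_mem hα hφ, N5_mem hα (Cl_der hφ), fun x y => ?_⟩
  rw [intervalIntegral.integral_deriv_eq_sub]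
  · exact fun z _ => (Cl_hd hφ z).differentiableAt
  · exact (Cl_cont (Cl_der hφ)).intervalIntegrable _ _

theorem N5_molj {α : ℝ} (hα : 1 ≤ α) (j : ℕ) : ∀ {φ : ℝ → ℝ} {ρ : ℝ → ℝ}, Cl α 1 φ →
    ContDiff ℝ ∞ ρ → HasCompactSupport ρ → ∀ x,
    mol (iteratedDeriv j ρ) φ x = mol ρ (iteratedDeriv j φ) x := by
  induction j with
  | zero => intro φ ρ _ _ _ x; rw [iteratedDeriv_zero, iteratedDeriv_zero]
  | succ j ih =>
    intro φ ρ h h1 h2 x
    rw [iteratedDeriv_succ, C2_mol (N5_H1 hα h) (B1_test h1 h2 j).1 (B1_test h1 h2 j).2.1,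
      ih (Cl_der h) h1 h2, iteratedDeriv_succ']

theorem N5_slow {α : ℝ} (hα : 1 ≤ α) {x y : ℝ} (h : |y - x| ≤ 1) :
    bd α 1 y ≤ Real.exp (α + 1) * bd α 1 x := by
  unfold bd
  rw [← Real.exp_add]
  refine Real.exp_le_exp.2 ?_
  obtain ⟨h1, h2⟩ := abs_le.1 h
  have e1 : max x 0 ≤ max y 0 + 1 := by
    refine max_le ?_ ?_
    · linarith [le_max_left y 0]
    · linarith [le_max_right y 0]
  have e2 : max (-x) 0 ≤ max (-y) 0 + 1 := by
    refine max_le ?_ ?_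
    · linarith [le_max_left (-y) 0]
    · linarith [le_max_right (-y) 0]
  have e3 : α * max x 0 ≤ α * (max y 0 + 1) := mul_le_mul_of_nonneg_left e1 (by linarith)
  linarith

theorem N5_pt {α : ℝ} (hα : 1 ≤ α) {ψ : ℝ → ℝ} (hψ : Cl α 1 ψ) : ∃ D : ℝ, 0 ≤ D ∧
    ∀ (r : ℝ) (ρ : ℝ → ℝ), 0 < r → r ≤ 1 → Mol r ρ → ∀ x,
      |mol ρ ψ x - ψ x| ≤ r * (D * bd α 1 x) := by
  obtain ⟨C, hC0, hC⟩ := Cl_bnd (Cl_der hψ)
  refine ⟨C * Real.exp (α + 1), by positivity, fun r ρ hr hr1 hρ x => ?_⟩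
  have hcs : HasCompactSupport ρ := B2_cpt hρ
  obtain ⟨s1, s2, s3, _⟩ := B1_shift hρ.smooth hcs x
  have hI : ∫ z, ρ (x - z) = 1 := by
    rw [integral_sub_left_eq_self (fun y => ρ y) volume x, hρ.int]
  have i0 : Integrable (fun z => ρ (x - z)) := s1.continuous.integrable_of_hasCompactSupport s2
  have i1 : Integrable (fun z => ρ (x - z) * ψ z) := A1_mul s3 (N5_mem hα hψ)
  have e : mol ρ ψ x - ψ x = ∫ z, ρ (x - z) * (ψ z - ψ x) := by
    have : ∫ z, ρ (x - z) * (ψ z - ψ x) = ∫ z, (ρ (x - z) * ψ z - ρ (x - z) * ψ x) :=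
      integral_congr_ae (Eventually.of_forall fun z => by simp only; ring)
    rw [this, integral_sub i1 (i0.mul_const _), integral_mul_const, hI, one_mul]
    rfl
  have hpt : ∀ z, |ρ (x - z) * (ψ z - ψ x)| ≤ ρ (x - z) * (r * (C * Real.exp (α + 1) * bd α 1 x)) := by
    intro z
    rw [abs_mul, abs_of_nonneg (hρ.nonneg _)]
    rcases le_or_gt r |x - z| with h | h
    · rw [hρ.supp _ h, zero_mul, zero_mul]
    · refine mul_le_mul_of_nonneg_left ?_ (hρ.nonneg _)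
      have hb : ∀ y ∈ uIcc x z, ‖deriv ψ y‖ ≤ C * Real.exp (α + 1) * bd α 1 x := by
        intro y hy
        rw [Real.norm_eq_abs]
        refine (hC y).trans ?_
        rw [mul_assoc]
        refine mul_le_mul_of_nonneg_left (N5_slow hα ?_) hC0
        have h3 : |y - x| ≤ |z - x| := abs_sub_left_of_mem_uIcc hy
        rw [abs_sub_comm z x] at h3
        linarith
      have hm := Convex.norm_image_sub_le_of_norm_deriv_le (f := ψ) (s := uIcc x z)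
        (fun y _ => (Cl_hd hψ y).differentiableAt) hb (convex_uIcc x z) left_mem_uIcc right_mem_uIcc
      rw [Real.norm_eq_abs, Real.norm_eq_abs] at hm
      refine hm.trans ?_
      rw [mul_comm r, abs_sub_comm z x]
      refine mul_le_mul_of_nonneg_left h.le ?_
      have := bd_pos α 1 x
      positivity
  rw [e]
  refine abs_integral_le_integral_abs.trans ?_
  have h4 : ∫ z, |ρ (x - z) * (ψ z - ψ x)| ≤
      ∫ z, ρ (x - z) * (r * (C * Real.exp (α + 1) * bd α 1 x)) := by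
    refine integral_mono_of_nonneg (Eventually.of_forall fun z => abs_nonneg _)
      (i0.mul_const _) (Eventually.of_forall hpt)
  refine h4.trans (le_of_eq ?_)
  rw [integral_mul_const, hI, one_mul]

theorem N5_der {α : ℝ} (hα : 1 ≤ α) {φ : ℝ → ℝ} (hφ : Cl α 1 φ) {r : ℝ} {ρ : ℝ → ℝ}
    (hρ : Mol r ρ) (j : ℕ) : iteratedDeriv j (fun x => mol ρ φ x - φ x) =
      fun x => mol ρ (iteratedDeriv j φ) x - iteratedDeriv j φ x := by
  have hcs : HasCompactSupport ρ := B2_cpt hρ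
  have hm := N5_mem hα hφ
  have c1 : ContDiff ℝ ∞ (mol ρ φ) := B1_smooth hρ.smooth hcs hm
  have c2 : ContDiff ℝ ∞ φ := hφ.1
  funext x
  have h := iteratedDeriv_fun_sub (n := j) (f := mol ρ φ) (g := φ) (x := x)
    ((c1.of_le (by exact_mod_cast le_top)).contDiffAt) ((c2.of_le (by exact_mod_cast le_top)).contDiffAt)
  rw [h, B1_iter hρ.smooth hcs hm, N5_molj hα j hφ hρ.smooth hcs]

theorem N5 {α : ℝ} (hα : 1 ≤ α) {φ : ℝ → ℝ} (hφ : Cl α 1 φ) : ∃ C : ℝ, 0 ≤ C ∧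
    ∀ (r : ℝ) (ρ : ℝ → ℝ), 0 < r → r ≤ 1 → Mol r ρ →
      ∀ j ≤ 2, n2 (iteratedDeriv j (fun x => mol ρ φ x - φ x)) ≤ C * r ^ 2 := by
  choose D hD0 hD using fun j : ℕ => N5_pt hα (N5_iter j hφ)
  set I : ℝ := ∫ y, (bd α 1 y) ^ 2 with hI
  have hI0 : 0 ≤ I := integral_nonneg fun y => sq_nonneg _
  refine ⟨(D 0 ^ 2 + D 1 ^ 2 + D 2 ^ 2) * I, by positivity, fun r ρ hr hr1 hρ j hj => ?_⟩
  rw [N5_der hα hφ hρ j]
  unfold n2
  have h1 : ∫ x, (mol ρ (iteratedDeriv j φ) x - iteratedDeriv j φ x) ^ 2 ≤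
      ∫ x, (r * D j) ^ 2 * (bd α 1 x) ^ 2 := by
    refine integral_mono_of_nonneg (Eventually.of_forall fun x => sq_nonneg _)
      ((N5_bd2i hα).const_mul _) (Eventually.of_forall fun x => ?_)
    simp only
    rw [← mul_pow, ← sq_abs]
    refine pow_le_pow_left₀ (abs_nonneg _) ((hD j r ρ hr hr1 hρ x).trans (le_of_eq ?_)) 2
    ring
  refine h1.trans ?_
  rw [integral_const_mul, ← hI]
  have h2 : D j ^ 2 ≤ D 0 ^ 2 + D 1 ^ 2 + D 2 ^ 2 := by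
    have a0 := sq_nonneg (D 0)
    have a1 := sq_nonneg (D 1)
    have a2 := sq_nonneg (D 2)
    interval_cases j <;> linarith
  have h3 : (r * D j) ^ 2 * I = D j ^ 2 * (I * r ^ 2) := by ring
  have h4 : (D 0 ^ 2 + D 1 ^ 2 + D 2 ^ 2) * I * r ^ 2 =
    (D 0 ^ 2 + D 1 ^ 2 + D 2 ^ 2) * (I * r ^ 2) := by ring
  rw [h3, h4]
  exact mul_le_mul_of_nonneg_right h2 (by positivity)

theorem N5_w {α : ℝ} (hα : 1 ≤ α) {φ : ℝ → ℝ} (hφ : Cl α 1 φ) :
    Integrable (fun x => wt α x * ((φ x) ^ 2 + (deriv φ x) ^ 2)) := by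
  obtain ⟨C, hC0, hC⟩ := Cl_bnd hφ
  obtain ⟨C', hC0', hC'⟩ := Cl_bnd (Cl_der hφ)
  have hcont : Continuous (fun x => wt α x * ((φ x) ^ 2 + (deriv φ x) ^ 2)) :=
    (D2_cont α).mul (((Cl_cont hφ).pow 2).add ((Cl_cont (Cl_der hφ)).pow 2))
  refine ((bd_int (p := α) (q := 1) (by linarith) one_pos).const_mul (2 * (C ^ 2 + C' ^ 2))).mono'
    hcont.aestronglyMeasurable (Eventually.of_forall fun x => ?_)
  have hw := D2_pos α x
  have hb := bd_pos α 1 x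
  rw [Real.norm_eq_abs, abs_of_nonneg (by positivity)]
  have h1 : (φ x) ^ 2 ≤ C ^ 2 * (bd α 1 x) ^ 2 := by
    rw [← mul_pow, ← sq_abs]
    exact pow_le_pow_left₀ (abs_nonneg _) (hC x) 2
  have h2 : (deriv φ x) ^ 2 ≤ C' ^ 2 * (bd α 1 x) ^ 2 := by
    rw [← mul_pow, ← sq_abs]
    exact pow_le_pow_left₀ (abs_nonneg _) (hC' x) 2
  have h3 : wt α x * (bd α 1 x) ^ 2 ≤ 2 * bd α 1 x := by
    have h4 : wt α x * bd α 1 x ≤ 2 := by
      unfold wt
      rcases le_total 0 x with h | h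
      · rw [bd_of_nonneg h, add_mul, ← Real.exp_add, ← Real.exp_add]
        have e1 : Real.exp (α * x + -(α * x)) ≤ 1 := Real.exp_le_one_iff.2 (by linarith)
        have e2 : Real.exp (-x / 8 + -(α * x)) ≤ 1 := Real.exp_le_one_iff.2 (by nlinarith)
        linarith
      · rw [bd_of_nonpos h, add_mul, ← Real.exp_add, ← Real.exp_add]
        have e1 : Real.exp (α * x + 1 * x) ≤ 1 := Real.exp_le_one_iff.2 (by nlinarith)
        have e2 : Real.exp (-x / 8 + 1 * x) ≤ 1 := Real.exp_le_one_iff.2 (by linarith)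
        linarith
    calc wt α x * (bd α 1 x) ^ 2 = wt α x * bd α 1 x * bd α 1 x := by ring
      _ ≤ 2 * bd α 1 x := mul_le_mul_of_nonneg_right h4 hb.le
  calc wt α x * ((φ x) ^ 2 + (deriv φ x) ^ 2)
      ≤ wt α x * (C ^ 2 * (bd α 1 x) ^ 2 + C' ^ 2 * (bd α 1 x) ^ 2) :=
        mul_le_mul_of_nonneg_left (add_le_add h1 h2) hw.le
    _ = (C ^ 2 + C' ^ 2) * (wt α x * (bd α 1 x) ^ 2) := by ring
    _ ≤ (C ^ 2 + C' ^ 2) * (2 * bd α 1 x) := mul_le_mul_of_nonneg_left h3 (by positivity)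
    _ = 2 * (C ^ 2 + C' ^ 2) * bd α 1 x := by ring

end H37KB
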