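import Pool.Agent.H37.KB.N5
import Pool.Agent.H37.KB.H1
import Pool.Agent.H37.KB.F1

/-!
# Row N6 of MP_95be7d_PDE (110 lines)

Weighted bounds for a single solution with data `φ ∈ Cl α 1` (as in J1, without the parameter `a`): `M` from `G1_bdd`; `W n` from `D2_approx`, `c = 13(α+1)³`; `H1` for the pair `u`, `0` (`G2_zero`):
`∫ W n (u² + p²)(t) ≤ e^{CT} ∫ W n (φ² + φ'²) ≤ e^{CT} ∫ wt (φ² + φ'²) =: K` (`init`, `C2_data`, `N5_w`, `W n ≤ wt`); `F3` as `n → ∞`.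
`N6_WB` puts it in the form used by `K2` with the constant family (`a₁ = 0`, `u a = u`): all differences are `0`; `|fl k u| ≤ (1+M)^k |u|`.
(Look at the proof of J1, file Pool/Agent/H37/KB/J1.lean.)
-/

open MeasureTheory Filter Topology Set
open scoped ContDiff

namespace H37KB

open H98KB

theorem N6_aux {c α K : ℝ} {W : ℕ → ℝ → ℝ} (hW : ∀ n, Wt c (W n))
    (hlim : ∀ x, Tendsto (fun n => W n x) atTop (𝓝 (wt α x))) {f g : ℝ → ℝ}
    (hf : MemLp f 2 volume) (hg : MemLp g 2 volume)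
    (hb : ∀ n, ∫ x, W n x * ((f x) ^ 2 + (g x) ^ 2) ≤ K) :
    Integrable (fun x => wt α x * ((f x) ^ 2 + (g x) ^ 2)) ∧
      ∫ x, wt α x * ((f x) ^ 2 + (g x) ^ 2) ≤ K := by
  refine F3 (F := fun n x => W n x * ((f x) ^ 2 + (g x) ^ 2)) ?_ ?_ hb ?_
  · intro n x
    exact mul_nonneg ((hW n).pos x).le (by positivity)
  · intro n
    obtain ⟨B, hB⟩ := (hW n).bdd
    have hB' : ∀ x, |W n x| ≤ B := fun x => by
      rw [abs_of_pos ((hW n).pos x)]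
      exact hB x
    have h1 := (A1_W (hW n).smooth.continuous hB' hf).1
    have h2 := (A1_W (hW n).smooth.continuous hB' hg).1
    refine (h1.add h2).congr (Eventually.of_forall fun x => ?_)
    simp only [Pi.add_apply]
    ring
  · intro x
    exact (hlim x).mul_const _

theorem N6_key {α : ℝ} {F G q : ℝ → ℝ} {c : ℝ} (hF : AEStronglyMeasurable F volume)
    (hG : Integrable (fun x => wt α x * ((G x) ^ 2 + (q x) ^ 2)))
    (hle : ∀ x, |F x| ≤ c * |G x|) :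
    Integrable (fun x => wt α x * (F x) ^ 2) ∧
      ∫ x, wt α x * (F x) ^ 2 ≤ c ^ 2 * ∫ x, wt α x * ((G x) ^ 2 + (q x) ^ 2) := by
  have hwp : ∀ x, 0 < wt α x := D2_pos α
  have h0 : ∀ x, 0 ≤ wt α x * (F x) ^ 2 := fun x => mul_nonneg (hwp x).le (sq_nonneg _)
  have h1 : ∀ x, wt α x * (F x) ^ 2 ≤ c ^ 2 * (wt α x * ((G x) ^ 2 + (q x) ^ 2)) := by
    intro x
    have h3 : (F x) ^ 2 ≤ c ^ 2 * (G x) ^ 2 := by
      rw [← sq_abs (F x), ← sq_abs (G x), ← mul_pow]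
      exact pow_le_pow_left₀ (abs_nonneg _) (hle x) 2
    have h4 : (F x) ^ 2 ≤ c ^ 2 * ((G x) ^ 2 + (q x) ^ 2) := by
      nlinarith [mul_nonneg (sq_nonneg c) (sq_nonneg (q x))]
    calc wt α x * (F x) ^ 2 ≤ wt α x * (c ^ 2 * ((G x) ^ 2 + (q x) ^ 2)) :=
          mul_le_mul_of_nonneg_left h4 (hwp x).le
      _ = c ^ 2 * (wt α x * ((G x) ^ 2 + (q x) ^ 2)) := by ring
  have hi : Integrable (fun x => wt α x * (F x) ^ 2) := by
    refine Integrable.mono' (hG.const_mul (c ^ 2))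
      ((D2_cont α).aestronglyMeasurable.mul (hF.pow 2)) (Eventually.of_forall fun x => ?_)
    rw [Real.norm_eq_abs, abs_of_nonneg (h0 x)]
    exact h1 x
  refine ⟨hi, ?_⟩
  rw [← integral_const_mul]
  exact integral_mono hi (hG.const_mul _) h1

theorem N6_full {k : ℕ} {α T : ℝ} (hT : 0 < T) (hα : 1 ≤ α) {φ : ℝ → ℝ} (hφ : Cl α 1 φ)
    {u p : ℝ → ℝ → ℝ} (h : IsGlobalSol k φ u p) : ∃ M K : ℝ, 0 ≤ M ∧ 0 ≤ K ∧
    (∀ t ∈ Icc 0 T, nh (u t) (p t) ≤ M) ∧ ∀ t ∈ Icc 0 T,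
    Integrable (fun x => wt α x * ((u t x) ^ 2 + (p t x) ^ 2)) ∧
      ∫ x, wt α x * ((u t x) ^ 2 + (p t x) ^ 2) ≤ K := by
  obtain ⟨M, hM, hMb⟩ := G1_bdd h T
  have hc : (0 : ℝ) ≤ 13 * (α + 1) ^ 3 := by
    have : 0 ≤ α + 1 := by linarith
    positivity
  obtain ⟨C, hC, hH⟩ := H1 k hc hM
  obtain ⟨W, hW, hWle, hWlim⟩ := D2_approx α hα
  have hE : 0 ≤ Real.exp (C * T) := (Real.exp_pos _).le
  have hK0 : 0 ≤ ∫ x, wt α x * ((φ x) ^ 2 + (deriv φ x) ^ 2) :=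
    integral_nonneg fun x => mul_nonneg (D2_pos α x).le (by positivity)
  refine ⟨M, Real.exp (C * T) * ∫ x, wt α x * ((φ x) ^ 2 + (deriv φ x) ^ 2), hM,
    mul_nonneg hE hK0, hMb, ?_⟩
  intro t ht
  refine N6_aux hW hWlim (h.h1 t ht.1).1 (h.h1 t ht.1).2.1 fun n => ?_
  have h0 : ∀ t ∈ Icc 0 T, nh ((fun _ _ => (0 : ℝ)) t) ((fun _ _ => (0 : ℝ)) t) ≤ M := by
    intro t _
    simpa [nh, n2] using hM
  have h1 := hH (W n) (hW n) _ _ u p (fun _ _ => 0) (fun _ _ => 0) h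
    (G2_zero k) T hT.le hMb h0 t ht
  simp only [sub_zero] at h1
  refine h1.trans (mul_le_mul_of_nonneg_left ?_ hE)
  have hu0 : u 0 = φ := funext h.init
  have hp0 : ∀ᵐ x : ℝ, p 0 x = deriv φ x := by
    have h2 := h.h1 0 le_rfl
    rw [hu0] at h2
    exact C2_data h2 hφ.1
  have h2 : ∫ x, W n x * ((u 0 x) ^ 2 + (p 0 x) ^ 2) =
      ∫ x, W n x * ((φ x) ^ 2 + (deriv φ x) ^ 2) := by
    refine integral_congr_ae ?_
    filter_upwards [hp0] with x hx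
    rw [hu0, hx]
  rw [h2]
  refine integral_mono_of_nonneg (Eventually.of_forall fun x => ?_) (N5_w hα hφ)
    (Eventually.of_forall fun x => ?_)
  · exact mul_nonneg ((hW n).pos x).le (by positivity)
  · exact mul_le_mul_of_nonneg_right (hWle n x) (by positivity)

theorem N6_main {k : ℕ} {α T : ℝ} (hT : 0 < T) (hα : 1 ≤ α) {φ : ℝ → ℝ} (hφ : Cl α 1 φ)
    {u p : ℝ → ℝ → ℝ} (h : IsGlobalSol k φ u p) : ∃ K : ℝ, 0 ≤ K ∧ ∀ t ∈ Icc 0 T,
    Integrable (fun x => wt α x * ((u t x) ^ 2 + (p t x) ^ 2)) ∧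
      ∫ x, wt α x * ((u t x) ^ 2 + (p t x) ^ 2) ≤ K := by
  obtain ⟨M, K, -, hK, -, h1⟩ := N6_full hT hα hφ h
  exact ⟨K, hK, h1⟩

theorem N6_WB {k : ℕ} {α T : ℝ} (hT : 0 < T) (hα : 1 ≤ α) {φ : ℝ → ℝ} (hφ : Cl α 1 φ)
    {u p : ℝ → ℝ → ℝ} (h : IsGlobalSol k φ u p) : ∃ K : ℝ, 0 ≤ K ∧
    WB 0 T α K (fun _ => u) ∧ WB 0 T α K (fun _ t x => fl k (u t x)) := by
  obtain ⟨M, K, hM, hK, hMb, h1⟩ := N6_full hT hα hφ h
  have hS : (0 : ℝ) ≤ ((1 + M) ^ k) ^ 2 := by positivity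
  have hKK : K ≤ (1 + ((1 + M) ^ k) ^ 2) * K := by nlinarith
  have hKK' : ((1 + M) ^ k) ^ 2 * K ≤ (1 + ((1 + M) ^ k) ^ 2) * K := by nlinarith
  have hK2 : 0 ≤ (1 + ((1 + M) ^ k) ^ 2) * K := by positivity
  have hm : ∀ t ∈ Icc 0 T, MemLp (u t) 2 volume := fun t ht => (h.h1 t ht.1).1
  have hmf : ∀ t ∈ Icc 0 T, MemLp (fun x => fl k (u t x)) 2 volume := fun t ht =>
    (G1_fl h T).mem t ht
  have hS1 : ∀ t ∈ Icc 0 T, ∀ x, |u t x| ≤ 1 + M := fun t ht x =>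
    G1_le h ht.1 hM (hMb t ht) x
  have hone : ∀ f : ℝ → ℝ, ∀ x, |f x| ≤ 1 * |f x| := fun f x => by rw [one_mul]
  have hz : ∀ f : ℝ → ℝ, (fun x => wt α x * (f x - f x) ^ 2) = fun _ => 0 := fun f => by
    funext x
    rw [sub_self]
    ring
  refine ⟨(1 + ((1 + M) ^ k) ^ 2) * K, hK2, ?_, ?_⟩
  · constructor
    · intro a _ t ht
      exact (N6_key (hm t ht).1 (h1 t ht).1 (hone _)).1
    · intro a _ t ht
      have h3 := (N6_key (hm t ht).1 (h1 t ht).1 (hone _)).2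
      rw [one_pow, one_mul] at h3
      exact h3.trans ((h1 t ht).2.trans hKK)
    · intro a _ a' _ t _
      rw [hz]
      exact integrable_zero _ _ _
    · intro a _ a' _ t _
      rw [hz, integral_zero]
      exact mul_nonneg hK2 (sq_nonneg _)
  · constructor
    · intro a _ t ht
      exact (N6_key (hmf t ht).1 (h1 t ht).1 (fun x => G0_fl1 k (hS1 t ht x))).1
    · intro a _ t ht
      have h3 := (N6_key (hmf t ht).1 (h1 t ht).1 (fun x => G0_fl1 k (hS1 t ht x))).2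
      exact h3.trans ((mul_le_mul_of_nonneg_left (h1 t ht).2 hS).trans hKK')
    · intro a _ a' _ t _
      rw [hz]
      exact integrable_zero _ _ _
    · intro a _ a' _ t _
      rw [hz, integral_zero]
      exact mul_nonneg hK2 (sq_nonneg _)

end H37KB
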