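import Pool.Agent.H37.KB.M1
import Pool.Agent.H37.KB.N3
import Pool.Agent.H37.KB.N4
import Pool.Agent.H37.KB.N6

/-!
# Row N7 of MP_95be7d_PDE (110 lines)

`ThmH`: smooth approximate solutions for a single solution, with `H²` smallness of the error.  Copy of the proof of `thmA_of` (M1) with `a₁ = 0` and the constant family.

`K` from `N3` (use `M := K` there: `nh (u t) (p' t) ≤ K`, `n2 (g t) ≤ K`), `K'` from `N6_WB`, `C₁` from `N4`, `C₂` from `N5`.  Choose `r` with `C₁ r ≤ ν`, `C₂ r² ≤ ν`, `ρ` with `Mol r ρ`,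
`U t = mol ρ (u t)`, `e t x = mol ρ (fl k ∘ u t) x - fl k (mol ρ (u t) x)`.  `App`: `Fam` from `K2`, `K1_fl`, `K1_sub` with `a₁ = 0`, evaluated at `a = 0`; `int`, `int'` from `int_U`, `int_e` (`N6_main`);
`evol` from `evolM`.
-/

open MeasureTheory Filter Topology Set
open scoped ContDiff

namespace H37KB

open H98KB

theorem thmH (k : ℕ) (hk : 1 ≤ k) {α T : ℝ} (hT : 0 < T) (hα : 1 ≤ α) {φ : ℝ → ℝ}
    (hφ : Cl α 1 φ) {u p : ℝ → ℝ → ℝ} (h : IsGlobalSol k φ u p) : ∃ K : ℝ, 0 < K ∧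
    ∀ ν : ℝ, 0 < ν → ∃ U e : ℝ → ℝ → ℝ, App k T α U e ∧
      (∀ t ∈ Icc 0 T, ∀ j ≤ 2, n2 (iteratedDeriv j (U t)) ≤ K ∧
        n2 (iteratedDeriv j (e t)) ≤ ν) ∧
      (∀ j ≤ 2, n2 (iteratedDeriv j (fun x => U 0 x - φ x)) ≤ ν) := by
  obtain ⟨M, hM, p', g, hpg⟩ := N3 hT hα hφ h
  obtain ⟨K', hK', w1, w2⟩ := N6_WB hT hα hφ h
  obtain ⟨K0, hK0, hw⟩ := N6_main hT hα hφ h
  obtain ⟨C1, hC1, h1⟩ := N4 k hk hM
  obtain ⟨C2, hC2, h2⟩ := N5 hα hφ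
  refine ⟨M + 1, by linarith, ?_⟩
  intro ν hν
  obtain ⟨r, hr, hr1, hr2, hr3⟩ : ∃ r : ℝ, 0 < r ∧ r ≤ 1 ∧ C1 * r ≤ ν ∧ C2 * r ^ 2 ≤ ν := by
    have hp : 0 < C1 + C2 + 1 := by positivity
    have hle : min 1 (ν / (C1 + C2 + 1)) ≤ ν / (C1 + C2 + 1) := min_le_right _ _
    have hle1 : min 1 (ν / (C1 + C2 + 1)) ≤ 1 := min_le_left _ _
    have h0 : 0 < min 1 (ν / (C1 + C2 + 1)) := lt_min one_pos (by positivity)
    have h3 : min 1 (ν / (C1 + C2 + 1)) * (C1 + C2 + 1) ≤ ν := by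
      rwa [le_div_iff₀ hp] at hle
    obtain ⟨s, hs⟩ : ∃ s, s = min 1 (ν / (C1 + C2 + 1)) := ⟨_, rfl⟩
    rw [← hs] at hle1 h0 h3
    refine ⟨s, h0, hle1, ?_, ?_⟩
    · nlinarith [mul_nonneg hC2 h0.le]
    · have h4 : s ^ 2 ≤ s := by nlinarith
      have h6 : C2 * s ^ 2 ≤ C2 * s := mul_le_mul_of_nonneg_left h4 hC2
      nlinarith [mul_nonneg hC1 h0.le]
  obtain ⟨ρ, hρ⟩ := B3_exists r hr
  have hc : HasCompactSupport ρ := B2_cpt hρ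
  have hs : ∀ x, 1 ≤ |x| → ρ x = 0 := fun x hx => hρ.supp x (hr1.trans hx)
  have h0 : (0 : ℝ) ∈ Icc (-(0 : ℝ)) 0 := ⟨by norm_num, le_rfl⟩
  have fU : Fam 0 T α (fun _ t => mol ρ (u t)) :=
    K2 (g := fun _ => u) hα hK' (fun _ _ => G1_u h T) w1 hρ.smooth hs
  have fF : Fam 0 T α (fun _ t => mol ρ (fun z => fl k (u t z))) :=
    K2 (g := fun _ t z => fl k (u t z)) hα hK' (fun _ _ => G1_fl h T) w2 hρ.smooth hs
  have fE := K1_sub hα fF (K1_fl hα fU k)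
  refine ⟨fun t => mol ρ (u t),
    fun t x => mol ρ (fun z => fl k (u t z)) x - fl k (mol ρ (u t) x), ?_, ?_, ?_⟩
  · refine ⟨fU.smooth 0 h0, fE.smooth 0 h0, ?_, ?_, fun j x => fU.cont j 0 h0 x,
      fun j x => fE.cont j 0 h0 x,
      fun t ht => int_U hα hr1 hρ (h.h1 t ht.1) (hw t ht).1,
      fun t ht => int_e k hα hr1 hρ (h.h1 t ht.1) (hw t ht).1, ?_⟩
    · intro j
      obtain ⟨C, hC⟩ := fU.bound j
      exact ⟨C, hC 0 h0⟩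
    · intro j
      obtain ⟨C, hC⟩ := fE.bound j
      exact ⟨C, hC 0 h0⟩
    · intro j t ht x
      exact evolM h hρ.smooth hc j t ht x
  · intro t ht j hj
    obtain ⟨-, q1, q2, q3, q4⟩ := hpg t ht
    obtain ⟨s1, s2⟩ := h1 r ρ (u t) (p' t) (g t) hr hr1 hρ q1 q2 q3 q4
    exact ⟨(s2 j hj).trans (by linarith), (s1 j hj).trans hr2⟩
  · intro j hj
    have h3 := h2 r ρ hr hr1 hρ j hj
    have e : u 0 = φ := funext h.init
    simp only [e]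
    exact h3.trans hr3

end H37KB
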