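import Pool.Agent.H37.KB.M1
import Pool.Agent.H37.KB.N6
import Pool.Agent.H98.KB.Cla

/-!
# Theorem A for a single solution (all `k ≥ 1`), `H¹` level
-/

open MeasureTheory Filter Topology Set
open scoped ContDiff

namespace H37KB

open H98KB

theorem N8_ini {α : ℝ} (hα : 1 ≤ α) {φ : ℝ → ℝ} (hφ : Cl (4 * α) (4 * α) φ) :
    ∃ C : ℝ, 0 ≤ C ∧ ∀ (r : ℝ) (ρ : ℝ → ℝ), 0 < r → r ≤ 1 → Mol r ρ →
      Integrable (fun x => wt α x * ((mol ρ φ x - φ x) ^ 2
        + (deriv (fun x => mol ρ φ x - φ x) x) ^ 2)) ∧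
      nw α (fun x => mol ρ φ x - φ x) ≤ C * r ^ 2 := by
  obtain ⟨C0, hC0, h0⟩ := Cl_bnd hφ
  obtain ⟨C1, hC1, h1⟩ := Cl_bnd (Cl_der hφ)
  obtain ⟨C2, hC2, h2⟩ := Cl_bnd (Cl_der (Cl_der hφ))
  set I : ℝ := ∫ x, wt α x * (Real.exp (-(4 * α * |x|))) ^ 2 with hI
  have hI0 : 0 ≤ I := integral_nonneg fun x => mul_nonneg (D2_pos α x).le (sq_nonneg _)
  refine ⟨((C1 * Real.exp (4 * α)) ^ 2 + (C2 * Real.exp (4 * α)) ^ 2) * I, by positivity, ?_⟩
  intro r ρ hr hr1 hρ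
  have hs : ContDiff ℝ ∞ φ := hφ.1
  have hs' : ContDiff ℝ ∞ (deriv φ) := (contDiff_infty_iff_deriv.1 hs).2
  have hd : Differentiable ℝ φ := (contDiff_infty_iff_deriv.1 hs).1
  have hd' : Differentiable ℝ (deriv φ) := (contDiff_infty_iff_deriv.1 hs').1
  have b0 : ∀ y, |φ y| ≤ C0 * Real.exp (-(4 * α * |y|)) := by
    intro y
    have := h0 y
    rwa [L2_bd] at this
  have b1 : ∀ y, |deriv φ y| ≤ C1 * Real.exp (-(4 * α * |y|)) := by
    intro y
    have := h1 y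
    rwa [L2_bd] at this
  have b2 : ∀ y, |deriv (deriv φ) y| ≤ C2 * Real.exp (-(4 * α * |y|)) := by
    intro y
    have := h2 y
    rwa [L2_bd] at this
  have mlp : ∀ {f : ℝ → ℝ} {C : ℝ}, Continuous f →
      (∀ y, |f y| ≤ C * Real.exp (-(4 * α * |y|))) → MemLp f 2 volume := by
    intro f C hf hb
    rw [memLp_two_iff_integrable_sq hf.aestronglyMeasurable]
    refine ((L2_int hα).const_mul (C ^ 2)).mono' (hf.pow 2).aestronglyMeasurable
      (ae_of_all _ fun x => ?_)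
    rw [Real.norm_of_nonneg (sq_nonneg _)]
    have q : (f x) ^ 2 ≤ (C * Real.exp (-(4 * α * |x|))) ^ 2 := by
      rw [← sq_abs]
      exact pow_le_pow_left₀ (abs_nonneg _) (hb x) 2
    have hw := D2_one hα x
    have h3 : 0 ≤ C ^ 2 * (Real.exp (-(4 * α * |x|))) ^ 2 := by positivity
    calc (f x) ^ 2 ≤ 1 * (C ^ 2 * (Real.exp (-(4 * α * |x|))) ^ 2) := by
          rw [one_mul]
          exact q.trans (le_of_eq (by ring))
      _ ≤ wt α x * (C ^ 2 * (Real.exp (-(4 * α * |x|))) ^ 2) :=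
          mul_le_mul_of_nonneg_right hw h3
      _ = _ := by ring
  have m1 : MemLp φ 2 volume := mlp hs.continuous b0
  have m2 : MemLp (deriv φ) 2 volume := mlp hs'.continuous b1
  have hH : IsH1 φ (deriv φ) := by
    refine ⟨m1, m2, fun x y => ?_⟩
    exact (intervalIntegral.integral_deriv_eq_sub (fun z _ => hd z)
      (hs'.continuous.intervalIntegrable _ _)).symm
  have hmd : deriv (mol ρ φ) = mol ρ (deriv φ) := by
    rw [B1_deriv hρ.smooth (B2_cpt hρ) m1]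
    funext x
    exact C2_mol hH hρ.smooth (B2_cpt hρ) x
  have hms := B1_smooth hρ.smooth (B2_cpt hρ) m1
  have hmdiff : Differentiable ℝ (mol ρ φ) := (contDiff_infty_iff_deriv.1 hms).1
  have hder : ∀ x, deriv (fun x => mol ρ φ x - φ x) x = mol ρ (deriv φ) x - deriv φ x := by
    intro x
    rw [deriv_fun_sub (hmdiff x) (hd x), hmd]
  have hpt : ∀ x, wt α x * ((mol ρ φ x - φ x) ^ 2 + (deriv (fun x => mol ρ φ x - φ x) x) ^ 2) ≤
      (((C1 * Real.exp (4 * α)) ^ 2 + (C2 * Real.exp (4 * α)) ^ 2) * r ^ 2) *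
        (wt α x * (Real.exp (-(4 * α * |x|))) ^ 2) := by
    intro x
    rw [hder x]
    have p1 := L2_pt hr hr1 hα hρ hd b1 x
    have p2 := L2_pt hr hr1 hα hρ hd' b2 x
    have q1 : (mol ρ φ x - φ x) ^ 2 ≤
        (r * (C1 * Real.exp (4 * α)) * Real.exp (-(4 * α * |x|))) ^ 2 := by
      rw [← sq_abs]
      exact pow_le_pow_left₀ (abs_nonneg _) p1 2
    have q2 : (mol ρ (deriv φ) x - deriv φ x) ^ 2 ≤
        (r * (C2 * Real.exp (4 * α)) * Real.exp (-(4 * α * |x|))) ^ 2 := by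
      rw [← sq_abs]
      exact pow_le_pow_left₀ (abs_nonneg _) p2 2
    calc wt α x * ((mol ρ φ x - φ x) ^ 2 + (mol ρ (deriv φ) x - deriv φ x) ^ 2)
        ≤ wt α x * ((r * (C1 * Real.exp (4 * α)) * Real.exp (-(4 * α * |x|))) ^ 2 +
          (r * (C2 * Real.exp (4 * α)) * Real.exp (-(4 * α * |x|))) ^ 2) :=
          mul_le_mul_of_nonneg_left (add_le_add q1 q2) (D2_pos α x).le
      _ = _ := by ring
  have hnn : ∀ x, 0 ≤ wt α x * ((mol ρ φ x - φ x) ^ 2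
      + (deriv (fun x => mol ρ φ x - φ x) x) ^ 2) := fun x =>
    mul_nonneg (D2_pos α x).le
      (add_nonneg (sq_nonneg (mol ρ φ x - φ x)) (sq_nonneg (deriv (fun x => mol ρ φ x - φ x) x)))
  have hdom := (L2_int hα).const_mul
    (((C1 * Real.exp (4 * α)) ^ 2 + (C2 * Real.exp (4 * α)) ^ 2) * r ^ 2)
  have hcd : Continuous (fun x => deriv (fun x => mol ρ φ x - φ x) x) := by
    have : (fun x => deriv (fun x => mol ρ φ x - φ x) x)
        = fun x => mol ρ (deriv φ) x - deriv φ x := funext hder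
    rw [this]
    exact ((B1_smooth hρ.smooth (B2_cpt hρ) m2).continuous).sub hs'.continuous
  have hint : Integrable (fun x => wt α x * ((mol ρ φ x - φ x) ^ 2
      + (deriv (fun x => mol ρ φ x - φ x) x) ^ 2)) := by
    refine hdom.mono' ?_ (ae_of_all _ fun x => ?_)
    · exact ((D2_cont α).mul (((hms.continuous.sub hs.continuous).pow 2).add
        (hcd.pow 2))).aestronglyMeasurable
    · rw [Real.norm_of_nonneg (hnn x)]
      exact hpt x
  refine ⟨hint, ?_⟩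
  unfold nw
  refine (integral_mono hint hdom hpt).trans (le_of_eq ?_)
  rw [integral_const_mul, ← hI]
  ring

/-- Theorem A for a single solution -/
theorem thm1 (k : ℕ) (hk : 1 ≤ k) {α T : ℝ} (hT : 0 < T) (hα : 1 ≤ α) {φ : ℝ → ℝ}
    (hφ : Cl (4 * α) (4 * α) φ) {u p : ℝ → ℝ → ℝ} (h : IsGlobalSol k φ u p) :
    ∃ K : ℝ, 0 < K ∧ ∀ ν : ℝ, 0 < ν → ∃ U e : ℝ → ℝ → ℝ, App k T α U e ∧
      (∀ t ∈ Icc 0 T, nw α (U t) ≤ K ∧ nw α (e t) ≤ ν) ∧
      Integrable (fun x => wt α x * ((U 0 x - φ x) ^ 2 + (deriv (fun x => U 0 x - φ x) x) ^ 2)) ∧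
      nw α (fun x => U 0 x - φ x) ≤ ν := by
  have hφ' : Cl α 1 φ := Cl_mono hφ (by linarith) (by linarith)
  obtain ⟨M, hM, hb⟩ := G1_bdd h T
  obtain ⟨K, hK, hw⟩ := N6_main hT hα hφ' h
  obtain ⟨K', hK', w1, w2⟩ := N6_WB hT hα hφ' h
  obtain ⟨C1, hC1, h1⟩ := L1_e k hk hα hM
  obtain ⟨C2, hC2, h2⟩ := N8_ini hα hφ
  refine ⟨Real.exp α * K + 1, by positivity, ?_⟩
  intro ν hν
  obtain ⟨r, hr, hr1, hr2, hr3⟩ : ∃ r : ℝ, 0 < r ∧ r ≤ 1 ∧ C1 * r * K ≤ ν ∧ C2 * r ^ 2 ≤ ν := by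
    refine ⟨min 1 (ν / (C1 * K + C2 + 1)), by positivity, min_le_left _ _, ?_, ?_⟩
    · have hp : 0 < C1 * K + C2 + 1 := by positivity
      have hle : min 1 (ν / (C1 * K + C2 + 1)) ≤ ν / (C1 * K + C2 + 1) := min_le_right _ _
      have h3 : min 1 (ν / (C1 * K + C2 + 1)) * (C1 * K + C2 + 1) ≤ ν := by
        rwa [le_div_iff₀ hp] at hle
      have h0 : 0 ≤ min 1 (ν / (C1 * K + C2 + 1)) := by positivity
      nlinarith
    · have hp : 0 < C1 * K + C2 + 1 := by positivity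
      have hle : min 1 (ν / (C1 * K + C2 + 1)) ≤ ν / (C1 * K + C2 + 1) := min_le_right _ _
      have hle1 : min 1 (ν / (C1 * K + C2 + 1)) ≤ 1 := min_le_left _ _
      have h3 : min 1 (ν / (C1 * K + C2 + 1)) * (C1 * K + C2 + 1) ≤ ν := by
        rwa [le_div_iff₀ hp] at hle
      have h0 : 0 ≤ min 1 (ν / (C1 * K + C2 + 1)) := by positivity
      have h4 : min 1 (ν / (C1 * K + C2 + 1)) ^ 2 ≤ min 1 (ν / (C1 * K + C2 + 1)) := by
        nlinarith
      have h5 : 0 ≤ C1 * K := by positivity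
      have h6 : C2 * min 1 (ν / (C1 * K + C2 + 1)) ^ 2 ≤ C2 * min 1 (ν / (C1 * K + C2 + 1)) :=
        mul_le_mul_of_nonneg_left h4 hC2
      nlinarith
  obtain ⟨ρ, hρ⟩ := B3_exists r hr
  have hc : HasCompactSupport ρ := B2_cpt hρ
  have hs : ∀ x, 1 ≤ |x| → ρ x = 0 := fun x hx => hρ.supp x (hr1.trans hx)
  have h00 : (0:ℝ) ∈ Icc (-0 : ℝ) 0 := by simp
  have fU : Fam 0 T α (fun _ t => mol ρ (u t)) :=
    K2 hα hK' (fun _ _ => G1_u h T) w1 hρ.smooth hs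
  have fF : Fam 0 T α (fun _ t => mol ρ (fun z => fl k (u t z))) :=
    K2 (g := fun _ t z => fl k (u t z)) hα hK' (fun _ _ => G1_fl h T) w2 hρ.smooth hs
  have fE := K1_sub hα fF (K1_fl hα fU k)
  refine ⟨fun t => mol ρ (u t),
    fun t x => mol ρ (fun z => fl k (u t z)) x - fl k (mol ρ (u t) x), ?_, ?_, ?_⟩
  · refine ⟨fU.smooth 0 h00, fE.smooth 0 h00, ?_, ?_, fun j x => fU.cont j 0 h00 x,
      fun j x => fE.cont j 0 h00 x,
      fun t ht => int_U hα hr1 hρ (h.h1 t ht.1) (hw t ht).1,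
      fun t ht => int_e k hα hr1 hρ (h.h1 t ht.1) (hw t ht).1, ?_⟩
    · intro j
      obtain ⟨C, hC⟩ := fU.bound j
      exact ⟨C, hC 0 h00⟩
    · intro j
      obtain ⟨C, hC⟩ := fE.bound j
      exact ⟨C, hC 0 h00⟩
    · intro j t ht x
      exact evolM h hρ.smooth hc j t ht x
  · intro t ht
    have hh := h.h1 t ht.1
    obtain ⟨i1, i2⟩ := hw t ht
    constructor
    · have := L1_U hα hr1 hρ hh i1
      have h3 : Real.exp α * ∫ x, wt α x * ((u t x) ^ 2 + (p t x) ^ 2) ≤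
          Real.exp α * K := mul_le_mul_of_nonneg_left i2 (Real.exp_pos _).le
      linarith
    · have h3 := h1 r ρ (u t) (p t) hr hr1 hρ hh (hb t ht) i1
      have h4 : C1 * r * ∫ x, wt α x * ((u t x) ^ 2 + (p t x) ^ 2) ≤ C1 * r * K :=
        mul_le_mul_of_nonneg_left i2 (by positivity)
      exact (h3.trans h4).trans hr2
  · have h3 := h2 r ρ hr hr1 hρ
    have e : u 0 = φ := funext h.init
    simp only [e]
    exact ⟨h3.1, h3.2.trans hr3⟩

end H37KB
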